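import Pool.Agent.Lib.MP_17a322_nt.EQ.P1

/-!
Vojta's conjecture and its case `D = 0`: heights as sums over places.
-/

set_option linter.unusedSectionVars false

universe u

namespace Pool.Agent.Lib.MP_17a322_nt.EQ

open MvPolynomial Height NumberField

section

variable {K : Type u} [Field K] [NumberField K]

private theorem P1b_fin {y : K} (hy : y ≠ 0) :
    {w : FinitePlace K | Real.log (w.val y) ≠ 0}.Finite := by
  refine (FinitePlace.hasFiniteMulSupport hy).subset fun w hw => ?_
  rw [Function.mem_mulSupport]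
  intro h1
  apply hw
  have h2 : w.val y = 1 := h1
  rw [h2, Real.log_one]

/-- Almost all local heights of a vector are zero. -/
theorem FS_log {ι : Type} [Finite ι] (x : ι → K) :
    FS fun v : Pl K => Real.log (⨆ i, av v (x i)) := by
  classical
  have := Fintype.ofFinite ι
  have hfin : (⋃ i ∈ (Finset.univ.filter fun i : ι => x i ≠ 0),
      {w : FinitePlace K | Real.log (w.val (x i)) ≠ 0}).Finite := by
    refine Set.Finite.biUnion (Finset.finite_toSet _) fun i hi => ?_
    rw [Finset.coe_filter, Set.mem_ofPred_eq] at hi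
    exact P1b_fin hi.2
  refine hfin.subset fun w hw => ?_
  by_contra hc
  simp only [Set.mem_iUnion, not_exists] at hc
  have h1 : ∀ i, x i ≠ 0 → w.val (x i) = 1 := by
    intro i hi
    have h2 := hc i (by simpa using hi)
    rw [Set.mem_ofPred_eq, not_not] at h2
    exact Real.eq_one_of_pos_of_log_eq_zero (w.val.pos hi) h2
  apply hw
  change Real.log (⨆ i, w.val (x i)) = 0
  rcases eq_or_ne x 0 with h0 | hx
  · have h3 : (⨆ i, w.val (x i)) = 0 := by
      rcases isEmpty_or_nonempty ι with he | he
      · exact Real.iSup_of_isEmpty _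
      · have h4 : (fun i => w.val (x i)) = fun _ => 0 := by
          funext i
          rw [h0, Pi.zero_apply, map_zero]
        rw [h4, ciSup_const]
    rw [h3, Real.log_zero]
  · obtain ⟨i, hi⟩ := Function.ne_iff.mp hx
    have hne : Nonempty ι := ⟨i⟩
    have h3 : ⨆ i, w.val (x i) = 1 := by
      apply le_antisymm
      · refine ciSup_le fun j => ?_
        rcases eq_or_ne (x j) 0 with h | h
        · rw [h, map_zero]
          exact zero_le_one
        · exact (h1 j h).le
      · calc (1 : ℝ) = w.val (x i) := (h1 i hi).symm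
          _ ≤ _ := Finite.le_ciSup_of_le i le_rfl
    rw [h3, Real.log_one]

private theorem P1b_log (f : AbsoluteValue K ℝ → ℝ) (hf : ∀ v, 0 < f v) :
    psum (fun v : Pl K => Real.log (f (av v))) =
      Real.log ((∏ v : InfinitePlace K, f v.val ^ v.mult) * ∏ᶠ v : FinitePlace K, f v.val) := by
  have h1 : ∏ v : InfinitePlace K, f v.val ^ v.mult ≠ 0 :=
    Finset.prod_ne_zero_iff.2 fun v _ => pow_ne_zero _ (hf _).ne'
  have h2 : ∏ᶠ v : FinitePlace K, f v.val ≠ 0 :=
    (finprod_induction (fun t : ℝ => 0 < t) one_pos (fun _ _ ha hb => mul_pos ha hb)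
      fun v => hf _).ne'
  rw [Real.log_mul h1 h2, Real.log_finprod fun v => hf _,
    Real.log_prod fun v _ => pow_ne_zero _ (hf _).ne']
  simp only [Real.log_pow]
  rfl

/-- The height is the sum of the logarithms of the local norms. -/
theorem psum_log {ι : Type} [Finite ι] {x : ι → K} (hx : x ≠ 0) :
    psum (fun v : Pl K => Real.log (⨆ i, av v (x i))) = logHeight x := by
  have hpos : ∀ v : AbsoluteValue K ℝ, 0 < ⨆ i, v (x i) := by
    intro v
    obtain ⟨i, hi⟩ := Function.ne_iff.mp hx
    exact (v.pos hi).trans_le (Finite.le_ciSup_of_le i le_rfl)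
  rw [P1b_log (fun v => ⨆ i, v (x i)) hpos, logHeight_eq_log_mulHeight, NumberField.mulHeight_eq hx]
  rfl

/-- The product formula. -/
theorem psum_log_abv {x : K} (hx : x ≠ 0) : psum (fun v : Pl K => Real.log (av v x)) = 0 := by
  rw [P1b_log (fun v => v x) (fun v => v.pos hx)]
  have h1 : (∏ v : InfinitePlace K, v.val x ^ v.mult) * ∏ᶠ v : FinitePlace K, v.val x = 1 :=
    NumberField.prod_abs_eq_one hx
  rw [h1, Real.log_one]

theorem av_iSup_pos {ι : Type} [Finite ι] {x : ι → K} (hx : x ≠ 0) (v : Pl K) :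
    0 < ⨆ i, av v (x i) := by
  obtain ⟨i, hi⟩ := Function.ne_iff.1 hx
  exact lt_of_lt_of_le ((av v).pos hi)
    (le_ciSup (f := fun i => av v (x i)) (Set.finite_range _).bddAbove i)

end

end Pool.Agent.Lib.MP_17a322_nt.EQ
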