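import Pool.Agent.Lib.MP_17a322_nt.EQ.Q5

/-!
Vojta's inequality in dimension `n + 1` implies the inequality with truncated counting functions in
dimension `n`.
-/

set_option autoImplicit false

universe u

namespace Pool.Agent.Lib.MP_17a322_nt.EQ

open MvPolynomial Height NumberField

variable {K : Type u} [Field K] [NumberField K]

/-- The places of the truncated counting function. -/
theorem ht_finite {ι κ β : Type} [Finite ι] [Finite κ] [Finite β] (S : Finset (FinitePlace K))
    (e : ℕ) (f : β → κ → MvPolynomial ι K) {q : ι → K} (hq : q ≠ 0)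
    (hoff : ∀ b, ∃ j, eval q (f b j) ≠ 0) :
    {v : FinitePlace K | v ∉ S ∧ ∃ b, 0 < lam v.val e (f b) q}.Finite := by
  refine (Set.finite_iUnion fun b => hl_fs_lam e (f b) hq (hoff b)).subset fun v hv => ?_
  obtain ⟨-, b, hb⟩ := hv
  exact Set.mem_iUnion.2 ⟨b, hb.ne'⟩

theorem ht_trunc {ι κ β : Type} [Finite ι] [Finite κ] [Finite β] (S : Finset (FinitePlace K))
    (e : ℕ) (f : β → κ → MvPolynomial ι K) {q : ι → K} (hq : q ≠ 0)
    (hoff : ∀ b, ∃ j, eval q (f b j) ≠ 0) :
    trunc S e f q = ∑ v ∈ (ht_finite S e f hq hoff).toFinset, Real.log (qv v) := by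
  unfold trunc
  exact finsum_mem_eq_finite_toFinset_sum _ (ht_finite S e f hq hoff)

/-- A sum over a finite set of finite places. -/
theorem ht_sum_le (T : Finset (FinitePlace K)) (F : Pl K → ℝ) (hF0 : ∀ v, 0 ≤ F v) (hF : FS F) :
    ∑ v ∈ T, F (Sum.inr v) ≤ psum F := by
  classical
  have h1 : psum (fun v => if inS T v then F v else 0) ≤ psum F := by
    refine hs_mono (hs_fs_ind T F) hF fun v => ?_
    split_ifs
    · exact le_refl _
    · exact hF0 v
  rw [hs_ind T F] at h1
  have h2 : 0 ≤ ∑ w : InfinitePlace K, (w.mult : ℝ) * F (Sum.inl w) :=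
    Finset.sum_nonneg fun w _ => mul_nonneg (Nat.cast_nonneg _) (hF0 _)
  linarith

theorem vojta_to_trunc {Q : ∀ ι : Type, Ideal (MvPolynomial ι K) → Prop} (hQ : Cls Q) (n : ℕ)
    (H : ∀ (ι β κ : Type) [Fintype ι] [Fintype β] [Fintype κ] (J : Ideal (MvPolynomial ι K))
      (e : ℕ) (f : β → κ → MvPolynomial ι K), Q ι J → Smooth J (n + 1) → Snc J e f →
      VojtaAt J e f)
    (ι β κ : Type) [Fintype ι] [Fintype β] [Fintype κ] (J : Ideal (MvPolynomial ι K)) (e : ℕ)
    (f : β → κ → MvPolynomial ι K) (hJQ : Q ι J) (hJ : Smooth J n) (hf : Snc J e f) :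
    TruncAt J e f := by
  classical
  intro S ε hε
  set q : ℝ := (Fintype.card β : ℝ) with hq
  have hq0 : 0 ≤ q := Nat.cast_nonneg _
  have he0 : (0 : ℝ) ≤ e := Nat.cast_nonneg _
  set ε1 : ℝ := ε / 2 / (1 + q * e) with hε1
  have hqe : 0 < 1 + q * e := by positivity
  have hε1p : 0 < ε1 := by positivity
  have hε1e : ε1 * (1 + q * e) = ε / 2 := by rw [hε1]; field_simp
  obtain ⟨m, hm⟩ := exists_nat_gt ((1 + ε1) * q * e / (ε / 2))
  have hm0 : (0 : ℝ) < m := lt_of_le_of_lt (by positivity) hm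
  have hm1 : (1 + ε1) * q * e / m ≤ ε / 2 := by
    rw [div_le_iff₀ hm0]
    rw [div_lt_iff₀ (by positivity)] at hm
    linarith
  obtain ⟨N, L, hL, hspec⟩ := hg_exists β m
  set g : Option β → β ⊕ Bool ⊕ Fin N := fun o => match o with
    | some b => Sum.inl b
    | none => Sum.inr (Sum.inl true) with hg
  have hginj : Function.Injective g := by
    rintro (_ | a) (_ | b) h
    · rfl
    · simp [hg] at h
    · simp [hg] at h
    · simpa [hg] using h
  set Fn : Pl K → (β ⊕ Bool ⊕ Fin N → ℝ) → ℝ :=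
    fun v x => if inS S v then ∑ o, x (g o) else 0 with hFn
  have hFn0 : ∀ v, Fn v 0 = 0 := fun v => by simp [hFn]
  obtain ⟨G, D, C, hG, hGh, hmain⟩ := prod_Phi (n := n) hQ (Fin N)
    (fun v x => Fn v (run L x) + gain L x)
    (fun v => by rw [hg_gain_zero, hg_run_zero, hFn0, add_zero])
    (fun ι κ _ _ J e f hJQ hJ hf => run_Phi hQ Fn hFn0
      (fun ι κ _ _ J e f hJQ hJ hf => hz_phi_vojta hJ.prime e f hf g
        (H ι (Option β) κ J e (fun o => f (g o)) hJQ hJ (hz_snc_comp hf g hginj)) S) L hL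
      ι κ J e f hJQ hJ hf) ι κ J e f hJQ hJ hf ε1 hε1p
  obtain ⟨c, hc0, hcfs, hclow⟩ := hb_lower e f hf.homog
  obtain ⟨C1, hC1⟩ := exists_t_integral K
  obtain ⟨C2, hC20, hC2⟩ := hh_nat K D
  have hcp : 0 ≤ psum c := hs_nonneg hc0
  set E : ℝ := (q + 1) * 2 ^ L.length with hE
  refine ⟨G, (1 + ε1) * (1 / m * (q * psum c) + C1 + C2) + ε1 * (q * psum c) + E * psum c + C,
    hG, hGh, fun p hp hGp => ?_⟩
  obtain ⟨hoff, ht⟩ := hmain p hp hGp
  refine ⟨hoff, ?_⟩
  have hp0 : p ≠ 0 := hp.1
  have hlow : ∀ b v, -c v ≤ prf e f p v b := fun b v => hclow p b hp0 (hoff b) v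
  set P : Pl K → ℝ := fun v => ∑ b, max (prf e f p v b) 0 with hP
  have hP0 : ∀ v, 0 ≤ P v := fun v => Finset.sum_nonneg fun b _ => le_max_right _ _
  have hPfs : FS P := hs_fs_sum _ _ fun b _ => hh_fs_plus e f hp0 hoff b
  have hPb : ∀ v b, max (prf e f p v b) 0 ≤ P v := fun v b =>
    Finset.single_le_sum (f := fun b => max (prf e f p v b) 0)
      (fun b _ => le_max_right _ _) (Finset.mem_univ b)
  have hlq : ∀ w : FinitePlace K, 0 < Real.log (qv w) := fun w => Real.log_pos (one_lt_qv w)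
  set T : Finset (FinitePlace K) := (ht_finite S e f hp0 hoff).toFinset with hT
  have hTr : trunc S e f p = ∑ w ∈ T, Real.log (qv w) := ht_trunc S e f hp0 hoff
  set k : FinitePlace K → ℕ := fun w => ⌈P (Sum.inr w) / (m * Real.log (qv w))⌉₊ with hk
  have hk1 : ∀ w, P (Sum.inr w) ≤ m * (k w * Real.log (qv w)) := by
    intro w
    have h1 := Nat.le_ceil (P (Sum.inr w) / (m * Real.log (qv w)))
    rw [div_le_iff₀ (mul_pos hm0 (hlq w))] at h1
    calc _ ≤ _ := h1
      _ = _ := by ring
  have hk2 : ∀ w, k w * Real.log (qv w) ≤ 1 / m * P (Sum.inr w) + Real.log (qv w) := by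
    intro w
    have h1 := (Nat.ceil_lt_add_one (div_nonneg (hP0 (Sum.inr w))
      (mul_pos hm0 (hlq w)).le)).le
    calc (k w : ℝ) * Real.log (qv w)
        ≤ (P (Sum.inr w) / (m * Real.log (qv w)) + 1) * Real.log (qv w) :=
          mul_le_mul_of_nonneg_right h1 (hlq w).le
      _ = _ := by
        have := (hlq w).ne'
        field_simp
  obtain ⟨t, ht0, htT, htint, hth⟩ := hC1 T k
  obtain ⟨j, hj1, hjD, hin⟩ := ht t ht0
  set t' : K := (j : K) * t with ht'
  have hj0 : (j : K) ≠ 0 := by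
    have : j ≠ 0 := by omega
    exact_mod_cast this
  have ht'0 : t' ≠ 0 := mul_ne_zero hj0 ht0
  -- the height of `t`
  have hPp : psum P ≤ q * (e * logHeight p + psum c) :=
    hh_plus e f hp0 hoff c hc0 hcfs hlow
  have hTP : ∀ T' : Finset (FinitePlace K), ∑ w ∈ T', P (Sum.inr w) ≤ psum P := fun T' =>
    ht_sum_le T' P hP0 hPfs
  have hh1 : logHeight₁ t' ≤ 1 / m * psum P + trunc S e f p + C1 + C2 := by
    have h1 := hC2 j hjD t
    have h2 := Finset.sum_le_sum fun w (_ : w ∈ T) => hk2 w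
    rw [Finset.sum_add_distrib, ← Finset.mul_sum, ← hTr] at h2
    have h3 := mul_le_mul_of_nonneg_left (hTP T) (show (0 : ℝ) ≤ 1 / m by positivity)
    linarith
  have hh2 : trunc S e f p ≤ psum P := by
    rw [hTr]
    refine (Finset.sum_le_sum fun w hw => ?_).trans (hTP T)
    rw [hT, Set.Finite.mem_toFinset] at hw
    obtain ⟨-, b, hb⟩ := hw
    exact ((hb_int e (f b) w hp0 (hoff b) hb).trans (le_max_left _ _)).trans
      (hPb (Sum.inr w) b)
  -- the lower bound
  have hfin : ∀ w : FinitePlace K, w.val t' ≤ 1 := fun w =>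
    (hh_fin_nat_le w j t).trans (htint w)
  have hl1 : ∀ w : FinitePlace K, l1 (Sum.inr w) t' = 0 := fun w => by
    have : max (av (Sum.inr w) t') 1 = 1 := max_eq_right (hfin w)
    rw [l1, this, Real.log_one]
  have hpt : ∀ v : Pl K, P v + (l1 v t' + (-E) * c v)
      ≤ Fn v (run L (xh (Fin N) e f p t' v)) + gain L (xh (Fin N) e f p t' v) := by
    intro v
    obtain ⟨h1, h2, h3⟩ := hspec (xh (Fin N) e f p t' v) (c v) (hc0 v) (fun b => hlow b v)
      (fun j => by
        cases j
        · have := hl_log_le_l1 v t'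
          simpa [xh] using this
        · simpa [xh] using hl_l1_nonneg v t')
      (fun i => rfl)
    have e1 : xh (Fin N) e f p t' v (Sum.inr (Sum.inl false))
        = l1 v t' - Real.log (av v t') := by simp [xh]
    have e2 : ∀ b, xh (Fin N) e f p t' v (Sum.inl b) = prf e f p v b := fun b => rfl
    have e3 : xh (Fin N) e f p t' v (Sum.inr (Sum.inl true)) = l1 v t' := by simp [xh]
    rw [e3] at h3
    simp only [e1, e2] at h1 h2
    by_cases hv : inS S v
    · have h4 : Fn v (run L (xh (Fin N) e f p t' v)) = l1 v t'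
          + ∑ b, run L (xh (Fin N) e f p t' v) (Sum.inl b) := by
        simp only [hFn, if_pos hv, Fintype.sum_option]
        rw [← h3]
      have h5 := Finset.sum_le_sum fun b (_ : b ∈ Finset.univ) => h2 b
      rw [Finset.sum_sub_distrib, Finset.sum_sub_distrib, Finset.sum_const, Finset.card_univ,
        nsmul_eq_mul, ← hq] at h5
      have h6 : E * c v = q * (2 ^ L.length * c v) + 2 ^ L.length * c v := by rw [hE]; ring
      rw [h4]
      have h7 : P v = ∑ b, max (prf e f p v b) 0 := rfl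
      linarith
    · have h4 : Fn v (run L (xh (Fin N) e f p t' v)) = 0 := by
        simp only [hFn, if_neg hv]
      rcases v with w | w
      · exact absurd trivial hv
      have h5 : P (Sum.inr w) ≤ ∑ b, min (max (prf e f p (Sum.inr w) b) 0)
          (m * (l1 (Sum.inr w) t' - Real.log (av (Sum.inr w) t'))) := by
        refine Finset.sum_le_sum fun b _ => le_min (le_refl _) ?_
        have hT0 : 0 ≤ l1 (Sum.inr w) t' - Real.log (av (Sum.inr w) t') := by
          linarith [hl_log_le_l1 (Sum.inr w) t']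
        by_cases hw : w ∈ T
        · refine (hPb (Sum.inr w) b).trans ((hk1 w).trans
            (mul_le_mul_of_nonneg_left ?_ hm0.le))
          have hq1 : 0 < qv w ^ k w := pow_pos (lt_trans one_pos (one_lt_qv w)) _
          have h6 : w.val t * qv w ^ k w ≤ 1 := htT w hw
          have h7 : Real.log (w.val t) + k w * Real.log (qv w) ≤ 0 := by
            rw [← Real.log_pow, ← Real.log_mul (w.val.pos ht0).ne' hq1.ne']
            exact Real.log_nonpos (mul_nonneg (w.val.nonneg _) hq1.le) h6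
          have h8 : Real.log (av (Sum.inr w) t') ≤ Real.log (w.val t) :=
            Real.log_le_log ((av (Sum.inr w)).pos ht'0) (hh_fin_nat_le w j t)
          have h9 := hl_l1_nonneg (Sum.inr w) t'
          linarith
        · have h6 : prf e f p (Sum.inr w) b ≤ 0 := by
            by_contra hc
            push Not at hc
            refine hw ?_
            rw [hT, Set.Finite.mem_toFinset]
            exact ⟨hv, b, hc⟩
          rw [max_eq_right h6]
          exact mul_nonneg hm0.le hT0
      have h6 : (0 : ℝ) ≤ q * (2 ^ L.length * c (Sum.inr w)) :=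
        mul_nonneg hq0 (mul_nonneg (by positivity) (hc0 _))
      have h7 : E * c (Sum.inr w) = q * (2 ^ L.length * c (Sum.inr w))
          + 2 ^ L.length * c (Sum.inr w) := by rw [hE]; ring
      rw [h4, hl1 w]
      linarith
  have hfs1 := hl_fs_l1 (K := K) t'
  have hfs2 : FS (fun v : Pl K => (-E) * c v) := hs_fs_mul _ hcfs
  have hfs4 : FS (fun v : Pl K => Fn v (run L (xh (Fin N) e f p t' v))
      + gain L (xh (Fin N) e f p t' v)) := by
    refine hs_fs_of (α := β ⊕ Bool ⊕ Fin N) (fun a v => xh (Fin N) e f p t' v a)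
      (fun a => hg_fs_xh (Fin N) e f hp0 hoff ht'0 a) _ fun w hw => ?_
    have : xh (Fin N) e f p t' (Sum.inr w) = 0 := funext hw
    rw [this, hg_gain_zero, hg_run_zero, hFn0, add_zero]
  have hps := hs_mono (hs_fs_add hPfs (hs_fs_add hfs1 hfs2)) hfs4 hpt
  rw [hs_add hPfs (hs_fs_add hfs1 hfs2), hs_add hfs1 hfs2, hs_mul, hl_psum_l1] at hps
  -- the height with respect to the divisors
  have hdiv : ∑ b, (e * logHeight p - logHeight fun j => eval p (f b j)) ≤ psum P := by
    rw [hP, hs_sum _ _ fun b _ => hh_fs_plus e f hp0 hoff b]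
    refine Finset.sum_le_sum fun b _ => ?_
    rw [← hl_psum_lam e (f b) hp0 (hoff b)]
    exact hs_mono (hl_fs_lam e (f b) hp0 (hoff b)) (hh_fs_plus e f hp0 hoff b)
      fun v => le_max_left _ _
  -- the conclusion
  have hh0 : 0 ≤ logHeight p := logHeight_nonneg _
  have a1 := mul_le_mul_of_nonneg_left hh1 (show (0 : ℝ) ≤ 1 + ε1 by positivity)
  have a2 := mul_le_mul_of_nonneg_left hPp (show (0 : ℝ) ≤ (1 + ε1) * (1 / m) by positivity)
  have a3 := mul_le_mul_of_nonneg_left (hh2.trans hPp) hε1p.le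
  have a4 : (1 + ε1) * q * e / m * logHeight p ≤ ε / 2 * logHeight p :=
    mul_le_mul_of_nonneg_right hm1 hh0
  have a5 : (1 + ε1) * (1 / m) * (q * (e * logHeight p + psum c))
      = (1 + ε1) * q * e / m * logHeight p + (1 + ε1) * (1 / m * (q * psum c)) := by
    field_simp
  have a6 : ε1 * (q * (e * logHeight p + psum c)) + ε1 * logHeight p
      = ε1 * (1 + q * e) * logHeight p + ε1 * (q * psum c) := by ring
  rw [hε1e] at a6
  have a7 : (1 + ε1) * (1 / m * psum P + trunc S e f p + C1 + C2)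
      = (1 + ε1) * (1 / m) * psum P + trunc S e f p + ε1 * trunc S e f p
        + (1 + ε1) * (C1 + C2) := by ring
  have a8 : ε * logHeight p = ε / 2 * logHeight p + ε / 2 * logHeight p := by ring
  rw [a8]
  rw [a7] at a1
  rw [a5] at a2
  linarith
end Pool.Agent.Lib.MP_17a322_nt.EQ
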