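import Pool.Agent.Lib.MP_17a322_nt.EQ.Int

/-!
Vojta's conjecture and its case `D = 0`: differentials and tangent spaces.
-/

set_option linter.unusedSectionVars false

universe u

namespace Pool.Agent.Lib.MP_17a322_nt.EQ

open MvPolynomial

section

variable {K : Type u} [Field K] {ι ι' : Type} [Fintype ι] [Fintype ι'] {L : Type u} [CommRing L]
  [Algebra K L]

theorem dif_apply (p : ι → L) (F : MvPolynomial ι K) (y : ι → L) :
    dif p F y = ∑ i, aeval p (pderiv i F) * y i := by
  simp [dif, LinearMap.sum_apply]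

theorem dif_add (p : ι → L) (F G : MvPolynomial ι K) (y : ι → L) :
    dif p (F + G) y = dif p F y + dif p G y := by
  simp only [dif_apply, map_add, add_mul, Finset.sum_add_distrib]

theorem dif_neg (p : ι → L) (F : MvPolynomial ι K) (y : ι → L) :
    dif p (-F) y = -dif p F y := by
  simp only [dif_apply, map_neg, neg_mul, Finset.sum_neg_distrib]

theorem dif_sub (p : ι → L) (F G : MvPolynomial ι K) (y : ι → L) :
    dif p (F - G) y = dif p F y - dif p G y := by
  rw [sub_eq_add_neg, dif_add, dif_neg, sub_eq_add_neg]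

theorem dif_zero (p : ι → L) (y : ι → L) : dif p (0 : MvPolynomial ι K) y = 0 := by
  simp only [dif_apply, map_zero, zero_mul, Finset.sum_const_zero]

theorem dif_C (p : ι → L) (c : K) (y : ι → L) : dif p (C c : MvPolynomial ι K) y = 0 := by
  simp only [dif_apply, pderiv_C, map_zero, zero_mul, Finset.sum_const_zero]

theorem dif_one (p : ι → L) (y : ι → L) : dif p (1 : MvPolynomial ι K) y = 0 := by
  rw [← C_1, dif_C]

theorem dif_X (p : ι → L) (i : ι) (y : ι → L) : dif p (X i : MvPolynomial ι K) y = y i := by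
  classical
  rw [dif_apply, Finset.sum_eq_single i]
  · rw [pderiv_X_self, map_one, one_mul]
  · intro j _ hj
    rw [pderiv_X_of_ne (Ne.symm hj), map_zero, zero_mul]
  · intro h
    exact absurd (Finset.mem_univ i) h

theorem dif_mul (p : ι → L) (F G : MvPolynomial ι K) (y : ι → L) :
    dif p (F * G) y = aeval p F * dif p G y + aeval p G * dif p F y := by
  simp only [dif_apply, Finset.mul_sum]
  rw [← Finset.sum_add_distrib]
  refine Finset.sum_congr rfl fun i _ => ?_
  rw [Derivation.leibniz, map_add, smul_eq_mul, smul_eq_mul, map_mul, map_mul]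
  ring

theorem dif_sum (p : ι → L) {σ : Type*} (s : Finset σ) (F : σ → MvPolynomial ι K) (y : ι → L) :
    dif p (∑ a ∈ s, F a) y = ∑ a ∈ s, dif p (F a) y := by
  classical
  induction s using Finset.induction_on with
  | empty => rw [Finset.sum_empty, Finset.sum_empty, dif_zero]
  | insert a s ha ih => rw [Finset.sum_insert ha, Finset.sum_insert ha, dif_add, ih]

theorem aeval_comp (p : ι → L) (φ : ι' → MvPolynomial ι K) (F : MvPolynomial ι' K) :
    aeval p (aeval φ F) = aeval (fun i => aeval p (φ i)) F := by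
  rw [MvPolynomial.comp_aeval_apply]

/-- The chain rule. -/
theorem dif_aeval (p : ι → L) (φ : ι' → MvPolynomial ι K) (F : MvPolynomial ι' K) (y : ι → L) :
    dif p (aeval φ F) y = dif (fun i => aeval p (φ i)) F fun i => dif p (φ i) y := by
  induction F using MvPolynomial.induction_on with
  | C a =>
    rw [aeval_C, MvPolynomial.algebraMap_eq, dif_C, dif_C]
  | add F G hF hG => rw [map_add, dif_add, dif_add, hF, hG]
  | mul_X F i hF =>
    rw [map_mul, dif_mul, dif_mul, hF, dif_X, aeval_X, aeval_X, aeval_comp]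

/-- The value of a form at a multiple of a vector. -/
theorem aeval_mul {F : MvPolynomial ι K} {d : ℕ} (hF : F.IsHomogeneous d) (c : L) (p : ι → L) :
    aeval (fun i => c * p i) F = c ^ d * aeval p F := by
  rw [aeval_def, aeval_def, eval₂_eq', eval₂_eq', Finset.mul_sum]
  refine Finset.sum_congr rfl fun m hm => ?_
  have h1 : ∑ i, m i = d := by
    have h2 := hF (mem_support_iff.mp hm)
    rwa [Finsupp.weight_apply, Finsupp.sum_fintype _ _ (fun i => by rw [zero_smul]),
      Finset.sum_congr rfl fun i _ => (by rw [Pi.one_apply, smul_eq_mul, mul_one])] at h2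
  rw [Finset.prod_congr rfl fun i _ => mul_pow c (p i) (m i), Finset.prod_mul_distrib,
    Finset.prod_pow_eq_pow_sum, h1]
  ring

/-- Euler's identity. -/
theorem dif_self {F : MvPolynomial ι K} {d : ℕ} (hF : F.IsHomogeneous d) (p : ι → L) :
    dif p F p = d * aeval p F := by
  have h := congrArg (aeval p) hF.sum_X_mul_pderiv
  rw [map_sum, nsmul_eq_mul, map_mul, map_natCast] at h
  rw [← h, dif_apply]
  refine Finset.sum_congr rfl fun i _ => ?_
  rw [map_mul, aeval_X, mul_comm]

/-- The differential of a form at a multiple of a vector. -/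
theorem dif_mul_left {F : MvPolynomial ι K} {d : ℕ} (hF : F.IsHomogeneous d) (c : L) (p y : ι → L) :
    c * dif (fun i => c * p i) F y = c ^ d * dif p F y := by
  rcases Nat.eq_zero_or_pos d with rfl | hd
  · have h1 : F = C (coeff 0 F) :=
      totalDegree_eq_zero_iff_eq_C.1 ((totalDegree_zero_iff_isHomogeneous _).2 hF)
    rw [h1, dif_C, dif_C, mul_zero, mul_zero]
  · rw [dif_apply, dif_apply, Finset.mul_sum, Finset.mul_sum]
    refine Finset.sum_congr rfl fun i _ => ?_
    rw [aeval_mul (hF.pderiv (i := i))]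
    obtain ⟨k, rfl⟩ : ∃ k, d = k + 1 := ⟨d - 1, by omega⟩
    rw [Nat.add_sub_cancel]
    ring

/-- The sum of the homogeneous components. -/
theorem dif_comp (p : ι → L) (F : MvPolynomial ι K) (y : ι → L)
    (h : ∀ k, dif p (homogeneousComponent k F) y = 0) : dif p F y = 0 := by
  rw [← sum_homogeneousComponent F, dif_sum]
  exact Finset.sum_eq_zero fun k _ => h k

/-- Base change. -/
theorem aeval_map {L' : Type u} [CommRing L'] [Algebra K L'] (σ : L →ₐ[K] L') (p : ι → L)
    (F : MvPolynomial ι K) : aeval (fun i => σ (p i)) F = σ (aeval p F) := by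
  rw [MvPolynomial.comp_aeval_apply]

theorem dif_map {L' : Type u} [CommRing L'] [Algebra K L'] (σ : L →ₐ[K] L') (p : ι → L)
    (F : MvPolynomial ι K) (y : ι → L) :
    dif (fun i => σ (p i)) F (fun i => σ (y i)) = σ (dif p F y) := by
  rw [dif_apply, dif_apply, map_sum]
  refine Finset.sum_congr rfl fun i _ => ?_
  rw [aeval_map, map_mul]

end

section

variable {K : Type u} [Field K] {ι ι' : Type} [Fintype ι] [Fintype ι'] {L : Type u} [Field L]
  [Algebra K L] {J : Ideal (MvPolynomial ι K)}

theorem mem_Tan {p y : ι → L} : y ∈ Tan J p ↔ ∀ F ∈ J, dif p F y = 0 := by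
  simp only [Tan, Submodule.mem_iInf, LinearMap.mem_ker]

theorem mem_Tan_of_hom (hJ : ∀ F ∈ J, ∀ i, homogeneousComponent i F ∈ J) {p y : ι → L}
    (h : ∀ F ∈ J, ∀ d, F.IsHomogeneous d → dif p F y = 0) : y ∈ Tan J p := by
  rw [mem_Tan]
  intro F hF
  exact dif_comp p F y fun k => h _ (hJ F hF k) k (homogeneousComponent_isHomogeneous k F)

theorem IsPt_of_hom (hJ : ∀ F ∈ J, ∀ i, homogeneousComponent i F ∈ J) {p : ι → L} (hp : p ≠ 0)
    (h : ∀ F ∈ J, ∀ d, F.IsHomogeneous d → aeval p F = 0) : IsPt J p := by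
  refine ⟨hp, fun F hF => ?_⟩
  rw [← sum_homogeneousComponent F, map_sum]
  exact Finset.sum_eq_zero fun k _ => h _ (hJ F hF k) k (homogeneousComponent_isHomogeneous k F)

theorem Tan_mul_le (hJ : ∀ F ∈ J, ∀ i, homogeneousComponent i F ∈ J) {c : L} (hc : c ≠ 0)
    (p : ι → L) : Tan J p ≤ Tan J fun i => c * p i := by
  intro y hy
  refine mem_Tan_of_hom hJ fun F hF d hd => ?_
  have h1 := dif_mul_left hd c p y
  rw [mem_Tan.1 hy F hF, mul_zero] at h1
  exact (mul_eq_zero.1 h1).resolve_left hc

theorem Tan_mul (hJ : ∀ F ∈ J, ∀ i, homogeneousComponent i F ∈ J) {c : L} (hc : c ≠ 0)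
    (p : ι → L) : Tan J (fun i => c * p i) = Tan J p := by
  refine le_antisymm ?_ (Tan_mul_le hJ hc p)
  have h1 := Tan_mul_le hJ (inv_ne_zero hc) (fun i => c * p i)
  have h2 : (fun i => c⁻¹ * (fun i => c * p i) i) = p := by
    funext i
    exact inv_mul_cancel_left₀ hc (p i)
  rwa [h2] at h1

theorem self_mem_Tan (hJ : ∀ F ∈ J, ∀ i, homogeneousComponent i F ∈ J) {p : ι → L}
    (hp : IsPt J p) : p ∈ Tan J p := by
  refine mem_Tan_of_hom hJ fun F hF d hd => ?_
  rw [dif_self hd, hp.2 F hF, mul_zero]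

theorem IsPt_mul (hJ : ∀ F ∈ J, ∀ i, homogeneousComponent i F ∈ J) {c : L} (hc : c ≠ 0)
    {p : ι → L} (hp : IsPt J p) : IsPt J fun i => c * p i := by
  refine IsPt_of_hom hJ ?_ fun F hF d hd => ?_
  · intro h
    refine hp.1 (funext fun i => ?_)
    exact (mul_eq_zero.1 (congrFun h i)).resolve_left hc
  · rw [aeval_mul hd, hp.2 F hF, mul_zero]

end

section

variable {K : Type u} [Field K] {ι Λ : Type} [Fintype ι] [Fintype Λ] {L : Type u} [CommRing L]
  [Algebra K L]

theorem aeval_sub' (p : ι × Λ → L) (g : MvPolynomial ι K) (l : Λ) :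
    aeval p (sub g l) = aeval (fun i => p (i, l)) g := by
  rw [sub, aeval_comp]
  simp only [aeval_X]

theorem dif_sub' (p y : ι × Λ → L) (g : MvPolynomial ι K) (l : Λ) :
    dif p (sub g l) y = dif (fun i => p (i, l)) g fun i => y (i, l) := by
  rw [sub, dif_aeval]
  simp only [aeval_X, dif_X]

theorem sub_hom {g : MvPolynomial ι K} {d : ℕ} (hg : g.IsHomogeneous d) (l : Λ) :
    (sub g l : MvPolynomial (ι × Λ) K).IsHomogeneous d := by
  have h1 := hg.aeval (fun i => (X (i, l) : MvPolynomial (ι × Λ) K)) (n := 1)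
    fun i => isHomogeneous_X _ _
  rwa [one_mul] at h1

end

end Pool.Agent.Lib.MP_17a322_nt.EQ
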