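import Pool.Agent.Lib.MP_17a322_nt.EQ.Defs

/-!
Vojta's conjecture and its case `D = 0`: internal definitions.
-/

universe u

namespace Pool.Agent.Lib.MP_17a322_nt.EQ

open MvPolynomial Height NumberField

section places

variable (K : Type u) [Field K] [NumberField K]

/-- The places of `K`. -/
abbrev Pl := InfinitePlace K ⊕ FinitePlace K

variable {K}

/-- The absolute value of a place. -/
def av (v : Pl K) : AbsoluteValue K ℝ :=
  match v with
  | Sum.inl w => w.val
  | Sum.inr w => w.val

/-- The sum over all places (the infinite ones with multiplicity). -/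
noncomputable def psum (F : Pl K → ℝ) : ℝ :=
  (∑ w : InfinitePlace K, (w.mult : ℝ) * F (Sum.inl w)) + ∑ᶠ w : FinitePlace K, F (Sum.inr w)

/-- `F` vanishes at almost all places. -/
def FS (F : Pl K → ℝ) : Prop := {w : FinitePlace K | F (Sum.inr w) ≠ 0}.Finite

/-- The vector of the local heights at `v` of `q` with respect to the divisors of a list. -/
noncomputable def prf {ι κ β : Type} (e : ℕ) (f : β → κ → MvPolynomial ι K) (q : ι → K) (v : Pl K) :
    β → ℝ :=
  fun b => lam (av v) e (f b) q

/-- The point `q` lies on none of the divisors of the list. -/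
def Off {ι κ β : Type} (f : β → κ → MvPolynomial ι K) (q : ι → K) : Prop :=
  ∀ b, ∃ j, eval q (f b j) ≠ 0

/-- The inequality for the variety `J`, the list of divisors `f` and the functional `F`. -/
def Phi {ι κ β : Type} [Fintype ι] (J : Ideal (MvPolynomial ι K)) (e : ℕ)
    (f : β → κ → MvPolynomial ι K) (F : Pl K → (β → ℝ) → ℝ) : Prop :=
  ∀ ε : ℝ, 0 < ε → ∃ (G : MvPolynomial ι K) (C : ℝ), G ∉ J ∧ (∃ d, G.IsHomogeneous d) ∧
    ∀ q : ι → K, IsPt J q → eval q G ≠ 0 → Off f q ∧
      hCan J q + psum (fun v => F v (prf e f q v)) ≤ ε * logHeight q + C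

end places

section steps

variable {β : Type} [DecidableEq β]

/-- One blow-up: `(a, b, c)` blows up the intersection of the divisors `a` and `b`; the exceptional
divisor gets the label `c`. This is the effect on the local heights. -/
noncomputable def stp (s : β × β × β) (x : β → ℝ) : β → ℝ := fun i =>
  if i = s.2.2 then min (x s.1) (x s.2.1)
  else if i = s.1 then x s.1 - min (x s.1) (x s.2.1)
  else if i = s.2.1 then x s.2.1 - min (x s.1) (x s.2.1)
  else x i

/-- The effect of a list of blow-ups. -/
noncomputable def run : List (β × β × β) → (β → ℝ) → β → ℝ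
  | [], x => x
  | s :: l, x => run l (stp s x)

/-- The gain of the canonical class in a list of blow-ups. -/
noncomputable def gain : List (β × β × β) → (β → ℝ) → ℝ
  | [], _ => 0
  | s :: l, x => min (x s.1) (x s.2.1) + gain l (stp s x)

end steps

section geometry

variable {K : Type u} [Field K] {ι κ β Λ : Type}

/-- The ideal of the closure of the image of `x ⊗ w` for `x ∈ R ^ ι` and `w ∈ R ^ Λ`. -/
noncomputable def gJ {R : Type u} [CommRing R] [Algebra K R] (x : ι → R) (w : Λ → R) :
    Ideal (MvPolynomial (ι × Λ) K) :=
  RingHom.ker (aeval (R := K) fun z : ι × Λ => x z.1 * w z.2)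

/-- The generic point of the cone over `J`. -/
noncomputable def gen (J : Ideal (MvPolynomial ι K)) (i : ι) : MvPolynomial ι K ⧸ J :=
  Ideal.Quotient.mk J (X i)

/-- The forms that define the centre of the blow-up. -/
def cen (g h : κ → MvPolynomial ι K) : κ ⊕ κ → MvPolynomial ι K := Sum.elim g h

/-- The ideal of the blow-up. -/
noncomputable def bJ (J : Ideal (MvPolynomial ι K)) (w : Λ → MvPolynomial ι K) :
    Ideal (MvPolynomial (ι × Λ) K) :=
  gJ (gen J) fun l => Ideal.Quotient.mk J (w l)

/-- The ideal of the product with the projective line. -/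
noncomputable def pJ (J : Ideal (MvPolynomial ι K)) : Ideal (MvPolynomial (ι × Bool) K) :=
  gJ (R := MvPolynomial Bool (MvPolynomial ι K ⧸ J)) (fun i => C (gen J i)) X

/-- The form `g` in the variables `Y (., l)`. -/
noncomputable def sub (g : MvPolynomial ι K) (l : Λ) : MvPolynomial (ι × Λ) K :=
  aeval (fun i => X (i, l)) g

/-- The index set of the equations of the divisors of `P ^ ι × P ^ Λ`. -/
abbrev Ix (ι κ Λ : Type) : Type := (κ × Λ) ⊕ (ι × Λ) × (ι × Λ)

/-- The equations `g k (Y (., l))`. -/
noncomputable def eqp (g : κ → MvPolynomial ι K) : Ix ι κ Λ → MvPolynomial (ι × Λ) K :=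
  Sum.elim (fun z => sub (g z.1) z.2) 0

/-- The equations `Y z * Y z' ^ (e - 1)`, `z = (i, l)` with `l ∈ s`. -/
noncomputable def eqs (e : ℕ) (s : Λ → Prop) [DecidablePred s] : Ix ι κ Λ → MvPolynomial (ι × Λ) K :=
  Sum.elim 0 fun z => if s z.1.2 then X z.1 * X z.2 ^ (e - 1) else 0

/-- The divisors on the blow-up of the intersection of the divisors `a` and `b`: the exceptional
divisor with the label `c`, the strict transforms of the divisors `a` and `b`, and the inverse images of
the other ones. -/
noncomputable def bf [DecidableEq β] (e : ℕ) (f : β → κ → MvPolynomial ι K) (s : β × β × β) :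
    β → Ix ι (κ ⊕ κ) (κ ⊕ κ) → MvPolynomial (ι × (κ ⊕ κ)) K := fun i =>
  if i = s.2.2 then eqp (cen (f s.1) (f s.2.1))
  else if i = s.1 then eqs e (fun l => l.isLeft = true)
  else if i = s.2.1 then eqs e (fun l => l.isRight = true)
  else eqp (cen (f i) (f i))

/-- The divisors on the product with the projective line: the inverse images of the given ones, the
fibres over `0` and `∞`, and empty divisors with labels in `γ`. -/
noncomputable def pf (e : ℕ) (f : β → κ → MvPolynomial ι K) (γ : Type) :
    β ⊕ Bool ⊕ γ → Ix ι κ Bool → MvPolynomial (ι × Bool) K :=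
  Sum.elim (fun b => eqp (f b))
    (Sum.elim (fun j => eqs e (fun l => l = j)) (fun _ => eqs e (fun _ => True)))

/-- The labels of the divisors through the point `p`. -/
noncomputable def thr [Fintype β] {L : Type u} [CommRing L] [Algebra K L]
    (f : β → κ → MvPolynomial ι K) (p : ι → L) : Finset β :=
  open Classical in Finset.univ.filter fun b => ∀ j, aeval p (f b j) = 0

/-- The equation `g s` generates locally at `p` the ideal of the closed subscheme with the equations
`g j`. -/
def LG {L : Type u} [CommRing L] [Algebra K L] (J : Ideal (MvPolynomial ι K))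
    (g : κ → MvPolynomial ι K) (p : ι → L) (s : κ) : Prop :=
  ∃ u : MvPolynomial ι K, aeval p u ≠ 0 ∧ ∀ j, u * g j ∈ J ⊔ Ideal.span {g s}

/-- The tangent vectors at `p` which are killed by the differentials of `g b`, `b ∈ B`. -/
noncomputable def Nsp [Fintype ι] {L : Type u} [Field L] [Algebra K L]
    (J : Ideal (MvPolynomial ι K)) (p : ι → L) (g : β → MvPolynomial ι K) (B : Finset β) :
    Submodule L (ι → L) :=
  Tan J p ⊓ ⨅ b ∈ B, LinearMap.ker (dif p (g b))

/-- The differential at `q` of the map `q ↦ q ⊗ w(q)`. -/
noncomputable def Ph [Fintype ι] {L : Type u} [CommRing L] [Algebra K L]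
    (w : Λ → MvPolynomial ι K) (q y : ι → L) : ι × Λ → L :=
  fun z => y z.1 * aeval q (w z.2) + q z.1 * dif q (w z.2) y

/-- The point of `P ^ ι × P ^ Λ` with the coordinates `q` and `t`. -/
def sg {L : Type u} [Mul L] (q : ι → L) (t : Λ → L) : ι × Λ → L := fun z => q z.1 * t z.2

/-- The coordinates of the point `t` of the projective line. -/
def tv {L : Type u} [One L] (t : L) : Bool → L := fun j => if j then 1 else t

/-- A class of projective varieties over `K` which contains with `X` also `X × P ^ 1` and the closure of
the graph of a rational map from `X` to a projective space given by forms of the same degree. -/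
structure Cls {K : Type u} [Field K] (Q : ∀ ι : Type, Ideal (MvPolynomial ι K) → Prop) : Prop where
  blow : ∀ (ι Λ : Type) (J : Ideal (MvPolynomial ι K)) (w : Λ → MvPolynomial ι K) (e : ℕ),
    (∀ l, (w l).IsHomogeneous e) → Q ι J → Q (ι × Λ) (bJ J w)
  prod : ∀ (ι : Type) (J : Ideal (MvPolynomial ι K)), Q ι J → Q (ι × Bool) (pJ J)

end geometry

section numbers

variable {K : Type u} [Field K] [NumberField K]

/-- The logarithm of the maximum of the absolute value of `t` and one. -/
noncomputable def l1 (v : Pl K) (t : K) : ℝ := Real.log (max (av v t) 1)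

/-- The vector of the local heights of the point `(q, t)` of `X × P ^ 1`. -/
noncomputable def xh {ι κ β : Type} (γ : Type) (e : ℕ) (f : β → κ → MvPolynomial ι K) (q : ι → K)
    (t : K) (v : Pl K) : β ⊕ Bool ⊕ γ → ℝ :=
  Sum.elim (prf e f q v)
    (Sum.elim (fun j => if j then l1 v t else l1 v t - Real.log (av v t)) fun _ => 0)

end numbers

end Pool.Agent.Lib.MP_17a322_nt.EQ
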