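import Pool.Agent.Lib.MP_17a322_nt.EQ.Int

/-!
The transfer lemma.
-/

universe u

namespace Pool.Agent.Lib.MP_17a322_nt.EQ

open MvPolynomial Height NumberField

theorem prod_pow_le_sup {σ : Type*} [Fintype σ] (w : σ → ℝ) (hw : ∀ j, 0 ≤ w j) (m : ℝ)
    (hm : ∀ j, w j ≤ m) (a : σ →₀ ℕ) : ∏ j, w j ^ a j ≤ m ^ a.degree := by
  rw [Finsupp.degree_eq_sum, ← Finset.prod_pow_eq_pow_sum]
  refine Finset.prod_le_prod (fun j _ => pow_nonneg (hw j) _) fun j _ => ?_
  exact pow_le_pow_left₀ (hw j) (hm j) _

/-- The archimedean bound. -/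
theorem transfer_arch {k : Type*} [Field k] {σ : Type*} [Fintype σ] [Nonempty σ]
    (v : AbsoluteValue k ℝ) {r : ℕ}
    (P : MvPolynomial σ k) (hP : ∀ a ∈ P.support, 1 ≤ a.degree ∧ a.degree ≤ r)
    (f : k) (g : σ → k)
    (h : f ^ r = ∑ a ∈ P.support, P.coeff a * (∏ j, g j ^ a j) * f ^ (r - a.degree)) :
    v f ≤ (1 + ∑ a ∈ P.support, v (P.coeff a)) * ⨆ j, v (g j) := by
  set m : ℝ := ⨆ j, v (g j) with hm
  set B : ℝ := ∑ a ∈ P.support, v (P.coeff a) with hB
  have hB0 : 0 ≤ B := Finset.sum_nonneg fun a _ => v.nonneg _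
  have hmj : ∀ j, v (g j) ≤ m := fun j =>
    le_ciSup (f := fun j => v (g j)) (Set.finite_range _).bddAbove j
  have hm0 : 0 ≤ m := (v.nonneg _).trans (hmj (Classical.arbitrary σ))
  by_contra hlt
  push Not at hlt
  have hf : 0 < v f := lt_of_le_of_lt (mul_nonneg (by linarith) hm0) hlt
  have h1 : v f ^ r ≤ ∑ a ∈ P.support, v (P.coeff a) * (m * v f ^ (r - 1)) := by
    calc v f ^ r = v (f ^ r) := (map_pow v f r).symm
      _ ≤ ∑ a ∈ P.support, v (P.coeff a * (∏ j, g j ^ a j) * f ^ (r - a.degree)) := by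
        rw [h]
        exact v.sum_le _ _
      _ ≤ _ := by
        refine Finset.sum_le_sum fun a ha => ?_
        obtain ⟨ha1, ha2⟩ := hP a ha
        rw [map_mul, map_mul, mul_assoc, map_pow, map_prod]
        refine mul_le_mul_of_nonneg_left ?_ (v.nonneg _)
        have h2 : ∏ j, v (g j ^ a j) ≤ m ^ a.degree := by
          simp only [map_pow]
          exact prod_pow_le_sup (fun j => v (g j)) (fun j => v.nonneg _) m hmj a
        have h3 : m ^ a.degree ≤ m * v f ^ (a.degree - 1) := by
          obtain ⟨d, hd⟩ : ∃ d, a.degree = d + 1 := ⟨a.degree - 1, by omega⟩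
          rw [hd, pow_succ', Nat.add_sub_cancel]
          refine mul_le_mul_of_nonneg_left (pow_le_pow_left₀ hm0 ?_ _) hm0
          nlinarith
        calc (∏ j, v (g j ^ a j)) * v f ^ (r - a.degree)
            ≤ (m * v f ^ (a.degree - 1)) * v f ^ (r - a.degree) :=
              mul_le_mul_of_nonneg_right (h2.trans h3) (pow_nonneg hf.le _)
          _ = m * v f ^ (r - 1) := by
              rw [mul_assoc, ← pow_add]
              congr 2
              omega
  rw [← Finset.sum_mul] at h1
  rcases Nat.eq_zero_or_pos r with hr | hr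
  · have hs : P.support = ∅ := by
      rw [Finset.eq_empty_iff_forall_notMem]
      intro a ha
      have := hP a ha
      omega
    rw [hs] at h1
    simp only [Finset.sum_empty, zero_mul] at h1
    have := pow_pos hf r
    linarith
  · obtain ⟨d, hd⟩ : ∃ d, r = d + 1 := ⟨r - 1, by omega⟩
    rw [hd, pow_succ', Nat.add_sub_cancel, ← mul_assoc] at h1
    have h4 : v f ≤ B * m := le_of_mul_le_mul_right h1 (pow_pos hf d)
    nlinarith

/-- The non-archimedean bound with trivial coefficients. -/
theorem transfer_nonarch {k : Type*} [Field k] {σ : Type*} [Fintype σ] [Nonempty σ]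
    (v : AbsoluteValue k ℝ) (hv : IsNonarchimedean v) {r : ℕ}
    (P : MvPolynomial σ k) (hP : ∀ a ∈ P.support, 1 ≤ a.degree ∧ a.degree ≤ r)
    (hc : ∀ a ∈ P.support, v (P.coeff a) ≤ 1)
    (f : k) (g : σ → k)
    (h : f ^ r = ∑ a ∈ P.support, P.coeff a * (∏ j, g j ^ a j) * f ^ (r - a.degree)) :
    v f ≤ ⨆ j, v (g j) := by
  set m : ℝ := ⨆ j, v (g j) with hm
  have hmj : ∀ j, v (g j) ≤ m := fun j =>
    le_ciSup (f := fun j => v (g j)) (Set.finite_range _).bddAbove j
  have hm0 : 0 ≤ m := (v.nonneg _).trans (hmj (Classical.arbitrary σ))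
  by_contra hlt
  push Not at hlt
  have hf : 0 < v f := lt_of_le_of_lt hm0 hlt
  have hlt' : ∀ a ∈ P.support, v (P.coeff a * (∏ j, g j ^ a j) * f ^ (r - a.degree)) < v f ^ r := by
    intro a ha
    obtain ⟨ha1, ha2⟩ := hP a ha
    rw [map_mul, map_mul, mul_assoc, map_pow, map_prod]
    have h2 : ∏ j, v (g j ^ a j) ≤ m ^ a.degree := by
      simp only [map_pow]
      exact prod_pow_le_sup (fun j => v (g j)) (fun j => v.nonneg _) m hmj a
    have h3 : m ^ a.degree < v f ^ a.degree := pow_lt_pow_left₀ hlt hm0 (by omega)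
    have h5 : (∏ j, v (g j ^ a j)) * v f ^ (r - a.degree) < v f ^ r := by
      calc (∏ j, v (g j ^ a j)) * v f ^ (r - a.degree)
          < v f ^ a.degree * v f ^ (r - a.degree) :=
            mul_lt_mul_of_pos_right (h2.trans_lt h3) (pow_pos hf _)
        _ = v f ^ r := by rw [← pow_add]; congr 1; omega
    have h6 : 0 ≤ (∏ j, v (g j ^ a j)) * v f ^ (r - a.degree) :=
      mul_nonneg (Finset.prod_nonneg fun j _ => v.nonneg _) (pow_nonneg hf.le _)
    calc _ ≤ 1 * ((∏ j, v (g j ^ a j)) * v f ^ (r - a.degree)) :=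
          mul_le_mul_of_nonneg_right (hc a ha) h6
      _ < _ := by rwa [one_mul]
  have hlt2 : ∀ s : Finset (σ →₀ ℕ), (∀ a ∈ s, a ∈ P.support) →
      v (∑ a ∈ s, P.coeff a * (∏ j, g j ^ a j) * f ^ (r - a.degree)) < v f ^ r := by
    classical
    intro s
    induction s using Finset.induction_on with
    | empty =>
      intro _
      simpa using pow_pos hf r
    | insert a s ha ih =>
      intro hs
      rw [Finset.sum_insert ha]
      refine (hv _ _).trans_lt (max_lt ?_ ?_)
      · exact hlt' a (hs a (Finset.mem_insert_self a s))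
      · exact ih fun b hb => hs b (Finset.mem_insert_of_mem hb)
  have h7 := hlt2 P.support fun a ha => ha
  rw [← h, map_pow] at h7
  exact lt_irrefl _ h7


theorem transfer_alg {k K : Type*} [Field k] [Field K] [Algebra k K] {σ : Type*} [Fintype σ]
    (F : K) (G : σ → K) 
    (h : ∀ A : ValuationSubring K, (∀ c : k, algebraMap k K c ∈ A) →
      ∃ j, A.valuation F ≤ A.valuation (G j)) :
    ∃ (r : ℕ) (P : MvPolynomial σ k), 0 < r ∧ (∀ a ∈ P.support, 1 ≤ a.degree ∧ a.degree ≤ r) ∧
      F ^ r = ∑ a ∈ P.support, algebraMap k K (P.coeff a) * (∏ j, G j ^ a j) *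
        F ^ (r - a.degree) := by
  classical
  by_cases hF : F = 0
  · refine ⟨1, 0, one_pos, by simp, by simp [hF]⟩
  let y : σ → K := fun j => G j / F
  let B : Subalgebra k K := Algebra.adjoin k (Set.range y)
  have hyB : ∀ j, y j ∈ B := fun j => Algebra.subset_adjoin ⟨j, rfl⟩
  let I : Ideal B.toSubring := Ideal.span (Set.range fun j => (⟨y j, hyB j⟩ : B.toSubring))
  have hI : I = ⊤ := by
    by_contra hne
    obtain ⟨A, hA1, hA2⟩ := Ideal.image_subset_nonunits_valuationSubring I hne
    obtain ⟨j, hj⟩ := h A fun c => hA1 (B.algebraMap_mem c)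
    have h1 : y j ∈ A.nonunits := hA2 ⟨⟨y j, hyB j⟩, Ideal.subset_span ⟨j, rfl⟩, rfl⟩
    have h2 : A.valuation (y j) < 1 := h1
    rw [show y j = G j / F from rfl, map_div₀] at h2
    have h3 : A.valuation F ≠ 0 := by simpa using hF
    have h4 : A.valuation (G j) < A.valuation F := by
      rwa [div_lt_one₀ (zero_lt_iff.mpr h3)] at h2
    exact absurd hj (not_le.mpr h4)
  have h1 : (1 : B.toSubring) ∈ I := hI ▸ Submodule.mem_top
  obtain ⟨b, hb⟩ := (Ideal.mem_span_range_iff_exists_fun).mp h1
  have hex : ∀ j, ∃ Q : MvPolynomial σ k, aeval y Q = ((b j : B.toSubring) : K) := by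
    intro j
    have hB : Algebra.adjoin k (Set.range y) = (aeval (R := k) y).range :=
      Algebra.adjoin_range_eq_range_aeval k y
    have h2 : ((b j : B.toSubring) : K) ∈ (aeval (R := k) y).range := by
      rw [← hB]
      exact (b j).2
    exact h2
  choose Q hQ using hex
  let P : MvPolynomial σ k := ∑ j, Q j * X j
  have hP1 : aeval y P = 1 := by
    have := congrArg (fun z : B.toSubring => (z : K)) hb
    simp only [AddSubmonoidClass.coe_finsetSum, Subring.coe_mul, Subring.coe_one] at this
    rw [← this]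
    simp only [P, map_sum, map_mul, aeval_X, hQ]
  have hP0 : constantCoeff P = 0 := by
    simp [P]
  have hdeg : ∀ a ∈ P.support, 1 ≤ a.degree := by
    intro a ha
    by_contra hlt
    have h0 : a.degree = 0 := by omega
    have h00 : a = 0 := (Finsupp.degree_eq_zero_iff a).mp h0
    rw [mem_support_iff, h00] at ha
    exact ha hP0
  refine ⟨P.totalDegree + 1, P, Nat.succ_pos _, fun a ha => ⟨hdeg a ha, ?_⟩, ?_⟩
  · have := le_totalDegree ha
    rw [Finsupp.degree]
    simp only [Finsupp.sum] at this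
    exact this.trans (Nat.le_succ _)
  · have key : ∀ a ∈ P.support, F ^ (P.totalDegree + 1) * (∏ j, y j ^ a j) =
        (∏ j, G j ^ a j) * F ^ (P.totalDegree + 1 - a.degree) := by
      intro a ha
      have hle : a.degree ≤ P.totalDegree + 1 := by
        have := le_totalDegree ha
        rw [Finsupp.degree]
        simp only [Finsupp.sum] at this
        exact this.trans (Nat.le_succ _)
      have hd : a.degree = ∑ j, a j := by
        rw [Finsupp.degree_eq_sum]
      have e1 : ∏ j, y j ^ a j = (∏ j, G j ^ a j) / F ^ a.degree := by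
        rw [hd, ← Finset.prod_pow_eq_pow_sum, ← Finset.prod_div_distrib]
        refine Finset.prod_congr rfl fun j _ => ?_
        rw [show y j = G j / F from rfl, div_pow]
      rw [e1]
      have : F ^ (P.totalDegree + 1) = F ^ (P.totalDegree + 1 - a.degree) * F ^ a.degree := by
        rw [← pow_add]; congr 1; omega
      rw [this]
      field_simp
    calc F ^ (P.totalDegree + 1) = F ^ (P.totalDegree + 1) * aeval y P := by rw [hP1, mul_one]
      _ = _ := by
        rw [aeval_def, eval₂_eq', Finset.mul_sum]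
        refine Finset.sum_congr rfl fun a ha => ?_
        rw [mul_left_comm, key a ha]
        ring


/-- The transfer lemma: an inequality at all valuation rings of the function field of the cone over `J`
which contain `K` holds up to constants at all places of `K` and all points. -/
theorem transfer {K : Type u} [Field K] [NumberField K] {ι σ : Type} [Fintype σ] [Nonempty σ]
    (J : Ideal (MvPolynomial ι K)) [J.IsPrime] (F : MvPolynomial ι K) (G : σ → MvPolynomial ι K)
    (h : ∀ A : ValuationSubring (FractionRing (MvPolynomial ι K ⧸ J)),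
      (∀ c : K, algebraMap K _ c ∈ A) →
      ∃ j, A.valuation (algebraMap (MvPolynomial ι K ⧸ J) _ (Ideal.Quotient.mk J F)) ≤
        A.valuation (algebraMap (MvPolynomial ι K ⧸ J) _ (Ideal.Quotient.mk J (G j)))) :
    ∃ C : Pl K → ℝ, (∀ v, 1 ≤ C v) ∧ {w : FinitePlace K | C (Sum.inr w) ≠ 1}.Finite ∧
      ∀ (v : Pl K) (p : ι → K), (∀ H ∈ J, eval p H = 0) →
        av v (eval p F) ≤ C v * ⨆ j, av v (eval p (G j)) := by
  classical
  obtain ⟨r, P, hr, hP, hrel⟩ := transfer_alg (k := K) _ _ h
  have hmem : F ^ r - ∑ a ∈ P.support, C (P.coeff a) * (∏ j, G j ^ a j) * F ^ (r - a.degree) ∈ J := by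
    rw [← Ideal.Quotient.eq_zero_iff_mem]
    apply IsFractionRing.injective (MvPolynomial ι K ⧸ J) (FractionRing (MvPolynomial ι K ⧸ J))
    rw [map_zero, map_sub, map_pow, map_sub, map_pow, hrel, map_sum, map_sum, sub_eq_zero]
    refine Finset.sum_congr rfl fun a _ => ?_
    simp only [map_mul, map_prod, map_pow]
    rfl
  have hpt : ∀ p : ι → K, (∀ H ∈ J, eval p H = 0) → (eval p F) ^ r =
      ∑ a ∈ P.support, P.coeff a * (∏ j, (eval p (G j)) ^ a j) * (eval p F) ^ (r - a.degree) := by
    intro p hp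
    have := hp _ hmem
    rw [map_sub, sub_eq_zero, map_pow, map_sum] at this
    rw [this]
    refine Finset.sum_congr rfl fun a _ => ?_
    rw [map_mul, map_mul, map_prod, map_pow, eval_C]
    simp only [map_pow]
  refine ⟨fun v => match v with
    | Sum.inl w => 1 + ∑ a ∈ P.support, w.val (P.coeff a)
    | Sum.inr w => if ∀ a ∈ P.support, w.val (P.coeff a) ≤ 1 then 1
        else 1 + ∑ a ∈ P.support, w.val (P.coeff a), ?_, ?_, ?_⟩
  · rintro (w | w)
    · have : 0 ≤ ∑ a ∈ P.support, w.val (P.coeff a) := Finset.sum_nonneg fun a _ => w.val.nonneg _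
      simp only
      linarith
    · have : 0 ≤ ∑ a ∈ P.support, w.val (P.coeff a) := Finset.sum_nonneg fun a _ => w.val.nonneg _
      simp only
      split_ifs
      · exact le_refl _
      · linarith
  · refine Set.Finite.subset (P.support.finite_toSet.biUnion (t := fun a =>
      Function.mulSupport fun w : FinitePlace K => w (P.coeff a)) fun a ha => ?_) ?_
    · exact FinitePlace.hasFiniteMulSupport (by simpa [mem_support_iff] using ha)
    · intro w hw
      simp only [Set.mem_ofPred_eq, ne_eq, ite_eq_left_iff, Classical.not_imp] at hw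
      obtain ⟨hw1, -⟩ := hw
      push Not at hw1
      obtain ⟨a, ha, hw2⟩ := hw1
      simp only [Set.mem_iUnion]
      exact ⟨a, ha, ne_of_gt hw2⟩
  · rintro (w | w) p hp
    · exact transfer_arch w.val P hP _ _ (hpt p hp)
    · simp only
      split_ifs with hc
      · rw [one_mul]
        exact transfer_nonarch w.val (fun x y => w.add_le x y) P hP hc _ _ (hpt p hp)
      · exact transfer_arch w.val P hP _ _ (hpt p hp)

end Pool.Agent.Lib.MP_17a322_nt.EQ
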