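import Pool.Agent.Lib.MP_17a322_nt.EQ.G0

/-!
Vojta's conjecture and its case `D = 0`: heights of subspaces.
-/

set_option linter.unusedSectionVars false

universe u

namespace Pool.Agent.Lib.MP_17a322_nt.EQ

open MvPolynomial Height NumberField

section

variable {K : Type u} [Field K] [NumberField K] {ι : Type} [Fintype ι]

/-- The height of a subspace can be computed with any basis. -/
theorem hPl_eq (V : Submodule K (ι → K)) {r : ℕ} (hr : Module.finrank K V = r)
    (y : Fin r → ι → K) (hy : ∀ k, y k ∈ V) (hi : LinearIndependent K y) :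
    hPl V = logHeight fun s : Fin r → ι => (Matrix.of fun a b => y a (s b)).det := by
  subst hr
  set B := Module.finBasis K V with hB
  set y' : Fin (Module.finrank K V) → V := fun k => ⟨y k, hy k⟩ with hy'
  have hi' : LinearIndependent K y' := by
    apply LinearIndependent.of_comp V.subtype
    exact hi
  set P : Matrix (Fin (Module.finrank K V)) (Fin (Module.finrank K V)) K :=
    Matrix.of fun a c => B.repr (y' a) c with hP
  have hy2 : ∀ a i, y a i = ∑ c, P a c * (B c : ι → K) i := by
    intro a i
    have h1 : (y' a : ι → K) = ((∑ c, B.repr (y' a) c • B c : V) : ι → K) := by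
      rw [B.sum_repr (y' a)]
    have h2 := congrFun h1 i
    simp only [hy', Submodule.coe_sum, Submodule.coe_smul, Finset.sum_apply, Pi.smul_apply, smul_eq_mul] at h2
    exact h2
  have hdet : P.det ≠ 0 := by
    have h1 : P = (B.toMatrix y').transpose := by
      ext a c
      simp [hP, Module.Basis.toMatrix_apply]
    rw [h1, Matrix.det_transpose]
    have h2 : IsUnit (B.toMatrix y').det := by
      have h3 : B.det y' = (B.toMatrix y').det := Module.Basis.det_apply B y'
      rw [← h3]
      exact (Module.Basis.is_basis_iff_det B).1 ⟨hi', by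
        apply hi'.span_eq_top_of_card_eq_finrank'
        simp⟩
    exact h2.ne_zero
  have hmat : (fun s : Fin (Module.finrank K V) → ι => (Matrix.of fun a b => y a (s b)).det) =
      P.det • fun s : Fin (Module.finrank K V) → ι => (Matrix.of fun a b => (B a : ι → K) (s b)).det := by
    funext s
    rw [Pi.smul_apply, smul_eq_mul, ← Matrix.det_mul]
    congr 1
    ext a b
    rw [Matrix.mul_apply, Matrix.of_apply, hy2]
    rfl
  rw [hmat, logHeight_smul_eq_logHeight _ hdet]
  rfl

/-- Linearly independent vectors have a nonzero minor. -/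
theorem H1_minor {F : Type*} [Field F] {ι : Type} [Fintype ι] {r : ℕ} {y : Fin r → ι → F}
    (hi : LinearIndependent F y) : ∃ s : Fin r → ι, (Matrix.of fun a b => y a (s b)).det ≠ 0 := by
  set M : Matrix (Fin r) ι F := Matrix.of y with hM
  have hrank : M.rank = r := by
    have h1 : LinearIndependent F M.row := hi
    rw [h1.rank_matrix, Fintype.card_fin]
  have hfin : Module.finrank F (Submodule.span F (Set.range M.col)) = r := by
    rw [← Matrix.rank_eq_finrank_span_cols, hrank]
  obtain ⟨f, hf1, hf2, hf3⟩ := Submodule.exists_fun_fin_finrank_span_eq F (Set.range M.col)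
  choose t ht using hf1
  refine ⟨fun b => t (Fin.cast hfin.symm b), ?_⟩
  have h2 : LinearIndependent F (fun b : Fin r => f (Fin.cast hfin.symm b)) :=
    hf3.comp _ (Fin.cast_injective _)
  have h3 : IsUnit (Matrix.of fun (a : Fin r) (b : Fin r) => y a (t (Fin.cast hfin.symm b))) := by
    rw [← Matrix.linearIndependent_cols_iff_isUnit]
    have h4 : (Matrix.of fun (a : Fin r) (b : Fin r) => y a (t (Fin.cast hfin.symm b))).col =
        fun b : Fin r => f (Fin.cast hfin.symm b) := by
      funext b a
      have := congrFun (ht (Fin.cast hfin.symm b)) a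
      exact this
    rw [h4]
    exact h2
  exact ((Matrix.isUnit_iff_isUnit_det _).1 h3).ne_zero

/-- The vector of minors of linearly independent vectors is not zero. -/
theorem minors_ne {F : Type*} [Field F] {r : ℕ} {y : Fin r → ι → F} (hi : LinearIndependent F y) :
    (fun s : Fin r → ι => (Matrix.of fun a b => y a (s b)).det) ≠ 0 := by
  obtain ⟨s, hs⟩ := H1_minor hi
  intro h
  exact hs (congrFun h s)

end

end Pool.Agent.Lib.MP_17a322_nt.EQ
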