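import Pool.Agent.Lib.MP_17a322_nt.EQ.G0

/-!
Vojta's conjecture and its case `D = 0`: semicontinuity of the dimension of the tangent space.
-/

universe u

namespace Pool.Agent.Lib.MP_17a322_nt.EQ

open MvPolynomial

/-- Linearly independent vectors have a nonzero minor. -/
theorem G1_minor {F : Type*} [Field F] {ι : Type} [Fintype ι] {r : ℕ} {y : Fin r → ι → F}
    (hi : LinearIndependent F y) : ∃ s : Fin r → ι, (Matrix.of fun a b => y a (s b)).det ≠ 0 := by
  set M : Matrix (Fin r) ι F := Matrix.of y with hM
  have hrank : M.rank = r := by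
    have h1 : LinearIndependent F M.row := hi
    rw [h1.rank_matrix, Fintype.card_fin]
  have hfin : Module.finrank F (Submodule.span F (Set.range M.col)) = r := by
    rw [← Matrix.rank_eq_finrank_span_cols, hrank]
  obtain ⟨f, hf1, hf2, hf3⟩ := Submodule.exists_fun_fin_finrank_span_eq F (Set.range M.col)
  choose t ht using hf1
  refine ⟨fun b => t (Fin.cast hfin.symm b), ?_⟩
  have h2 : LinearIndependent F (fun b : Fin r => f (Fin.cast hfin.symm b)) :=
    hf3.comp _ (Fin.cast_injective _)
  have h3 : IsUnit (Matrix.of fun (a : Fin r) (b : Fin r) => y a (t (Fin.cast hfin.symm b))) := by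
    rw [← Matrix.linearIndependent_cols_iff_isUnit]
    have h4 : (Matrix.of fun (a : Fin r) (b : Fin r) => y a (t (Fin.cast hfin.symm b))).col =
        fun b : Fin r => f (Fin.cast hfin.symm b) := by
      funext b a
      have := congrFun (ht (Fin.cast hfin.symm b)) a
      exact this
    rw [h4]
    exact h2
  exact ((Matrix.isUnit_iff_isUnit_det _).1 h3).ne_zero

/-- Vectors with a nonzero minor are linearly independent. -/
theorem G1_indep {F : Type*} [Field F] {ι : Type} {r : ℕ} {y : Fin r → ι → F} {s : Fin r → ι}
    (h : (Matrix.of fun a b => y a (s b)).det ≠ 0) : LinearIndependent F y := by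
  have h1 : IsUnit (Matrix.of fun (a : Fin r) (b : Fin r) => y a (s b)) :=
    (Matrix.isUnit_iff_isUnit_det _).2 h.isUnit
  rw [← Matrix.linearIndependent_rows_iff_isUnit] at h1
  apply LinearIndependent.of_comp (LinearMap.funLeft F F s)
  exact h1

/-- A vector as a linear form. -/
noncomputable def G1_form (L : Type u) [Field L] (ι : Type) [Fintype ι] :
    (ι → L) →ₗ[L] Module.Dual L (ι → L) :=
  ∑ i, LinearMap.toSpanSingleton L (Module.Dual L (ι → L)) (LinearMap.proj i) ∘ₗ LinearMap.proj i

theorem G1_form_apply {L : Type u} [Field L] {ι : Type} [Fintype ι] (v y : ι → L) :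
    G1_form L ι v y = ∑ i, v i * y i := by
  simp [G1_form, LinearMap.sum_apply]

theorem G1_form_inj {L : Type u} [Field L] {ι : Type} [Fintype ι] :
    Function.Injective (G1_form L ι) := by
  classical
  intro v w h
  funext i
  have h1 := LinearMap.congr_fun h (Pi.single i 1)
  rw [G1_form_apply, G1_form_apply] at h1
  simpa [Pi.single_apply] using h1

theorem G1_dif {K : Type u} [Field K] {ι : Type} [Fintype ι] {L : Type u} [Field L] [Algebra K L]
    (p : ι → L) (F : MvPolynomial ι K) :
    dif p F = G1_form L ι fun i => aeval p (pderiv i F) := by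
  apply LinearMap.ext; intro y
  rw [G1_form_apply, dif_apply]

/-- The rank of the differentials and the dimension of the tangent space. -/
theorem G1_finrank {K : Type u} [Field K] {ι : Type} [Fintype ι] (J : Ideal (MvPolynomial ι K))
    {L : Type u} [Field L] [Algebra K L] (p : ι → L) :
    Module.finrank L (Submodule.span L ((fun F => dif p F) '' (J : Set (MvPolynomial ι K)))) +
      Module.finrank L (Tan J p) = Fintype.card ι := by
  have h1 : Tan J p = (Submodule.span L ((fun F => dif p F) '' (J : Set (MvPolynomial ι K)))).dualCoannihilator := by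
    ext y
    rw [mem_Tan, Submodule.mem_dualCoannihilator]
    constructor
    · intro h φ hφ
      induction hφ using Submodule.span_induction with
      | mem x hx =>
        obtain ⟨F, hF, rfl⟩ := hx
        exact h F hF
      | zero => rfl
      | add x z _ _ h1 h2 => rw [LinearMap.add_apply, h1, h2, add_zero]
      | smul c x _ h1 => rw [LinearMap.smul_apply, h1, smul_zero]
    · intro h F hF
      exact h _ (Submodule.subset_span ⟨F, hF, rfl⟩)
  rw [h1, Subspace.finrank_add_finrank_dualCoannihilator_eq, Module.finrank_fintype_fun_eq_card]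

/-- The dimension of the tangent space is smallest at the generic point: `p₀` is generic for `J` if
every polynomial which vanishes at `p₀` is in `J`. -/
theorem tan_lower {K : Type u} [Field K] {ι : Type} [Fintype ι] {J : Ideal (MvPolynomial ι K)}
    {L₀ L : Type u} [Field L₀] [Algebra K L₀] [Field L] [Algebra K L] {p₀ : ι → L₀}
    (h₀ : ∀ F : MvPolynomial ι K, aeval p₀ F = 0 → F ∈ J) {p : ι → L}
    (hp : ∀ F ∈ J, aeval p F = 0) :
    Module.finrank L₀ (Tan J p₀) ≤ Module.finrank L (Tan J p) := by
  have e1 := G1_finrank J p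
  have e0 := G1_finrank J p₀
  obtain ⟨f, hf1, _, hf3⟩ := Submodule.exists_fun_fin_finrank_span_eq L
    ((fun F => dif p F) '' (J : Set (MvPolynomial ι K)))
  choose F hFJ hF using hf1
  have hi : LinearIndependent L fun a => fun i => aeval p (pderiv i (F a)) := by
    apply LinearIndependent.of_comp (G1_form L ι)
    have h1 : (G1_form L ι ∘ fun a => fun i => aeval p (pderiv i (F a))) = f := by
      funext a
      rw [Function.comp_apply, ← G1_dif, ← hF a]
    rw [h1]
    exact hf3
  obtain ⟨s, hs⟩ := G1_minor hi
  set M : MvPolynomial ι K := (Matrix.of fun a b => pderiv (s b) (F a)).det with hM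
  have hdet : ∀ (L' : Type u) [Field L'] [Algebra K L'] (q : ι → L'),
      aeval q M = (Matrix.of fun a b => aeval q (pderiv (s b) (F a))).det := by
    intro L' _ _ q
    rw [hM, AlgHom.map_det]
    rfl
  have hMJ : M ∉ J := by
    intro hMJ
    apply hs
    have h2 := hp M hMJ
    rw [hdet L p] at h2
    exact h2
  have hM0 : (Matrix.of fun a b => aeval p₀ (pderiv (s b) (F a))).det ≠ 0 := by
    intro h2
    apply hMJ
    apply h₀
    rw [hdet L₀ p₀]
    exact h2
  have hi0 : LinearIndependent L₀ fun a => fun i => aeval p₀ (pderiv i (F a)) := G1_indep hM0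
  have hi1 : LinearIndependent L₀ fun a => dif p₀ (F a) := by
    have h3 := hi0.map' (G1_form L₀ ι) (LinearMap.ker_eq_bot.2 G1_form_inj)
    have h4 : (G1_form L₀ ι ∘ fun a => fun i => aeval p₀ (pderiv i (F a))) = fun a => dif p₀ (F a) := by
      funext a
      rw [Function.comp_apply, ← G1_dif]
    rwa [h4] at h3
  have hle : Module.finrank L (Submodule.span L ((fun F => dif p F) '' (J : Set (MvPolynomial ι K)))) ≤
      Module.finrank L₀ (Submodule.span L₀ ((fun F => dif p₀ F) '' (J : Set (MvPolynomial ι K)))) := by
    have h5 := finrank_span_eq_card hi1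
    rw [Fintype.card_fin] at h5
    rw [← h5]
    apply Submodule.finrank_mono
    apply Submodule.span_mono
    rintro _ ⟨a, rfl⟩
    exact ⟨F a, hFJ a, rfl⟩
  omega

end Pool.Agent.Lib.MP_17a322_nt.EQ
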