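import Pool.Agent.Lib.MP_17a322_nt.EQ.Q2

/-!
The three inequalities for one variety, and the inequality `Phi` for lists of divisors.
-/

set_option autoImplicit false

universe u

namespace Pool.Agent.Lib.MP_17a322_nt.EQ

open MvPolynomial Height NumberField

section snc

variable {K : Type u} [Field K] {ι κ β β' : Type} [Fintype ι]

theorem hz_snc_comp {J : Ideal (MvPolynomial ι K)} {e : ℕ} {f : β' → κ → MvPolynomial ι K}
    (hf : Snc J e f) (g : β → β') (hg : Function.Injective g) : Snc J e (fun b => f (g b)) where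
  pos := hf.pos
  homog := fun b j => hf.homog (g b) j
  trans := fun L _ _ p hp => by
    obtain ⟨s, h1, h2⟩ := hf.trans L p hp
    refine ⟨fun b => s (g b), fun b hb => h1 (g b) hb, ?_⟩
    exact h2.comp (fun b : {b // ∀ j, aeval p (f (g b) j) = 0} => ⟨g b.1, b.2⟩)
      (fun a b h => Subtype.ext (hg (congrArg Subtype.val h)))

/-- At the generic point none of the divisors contains the point. -/
theorem hz_exists_notMem {J : Ideal (MvPolynomial ι K)} (hJ : J.IsPrime) {e : ℕ}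
    {f : β → κ → MvPolynomial ι K} (hf : Snc J e f) (i : ι) (hi : X i ∉ J) (b : β) :
    ∃ j, f b j ∉ J := by
  by_contra hc
  push Not at hc
  let L := FractionRing (MvPolynomial ι K ⧸ J)
  let p : ι → L := fun i => algebraMap (MvPolynomial ι K ⧸ J) L (Ideal.Quotient.mk J (X i))
  have hinj : Function.Injective (algebraMap (MvPolynomial ι K ⧸ J) L) :=
    IsFractionRing.injective _ _
  have hev : ∀ F : MvPolynomial ι K, aeval p F
      = algebraMap (MvPolynomial ι K ⧸ J) L (Ideal.Quotient.mk J F) := by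
    intro F
    have h1 : aeval p = (IsScalarTower.toAlgHom K (MvPolynomial ι K ⧸ J) L).comp
        (Ideal.Quotient.mkₐ K J) := by
      ext i
      simp [p]
    rw [h1]
    rfl
  have hp : IsPt J p := by
    refine ⟨fun h => hi ?_, fun F hF => ?_⟩
    · have h1 := congrFun h i
      have h2 : algebraMap (MvPolynomial ι K ⧸ J) L (Ideal.Quotient.mk J (X i)) = 0 := h1
      rw [map_eq_zero_iff _ hinj, Ideal.Quotient.eq_zero_iff_mem] at h2
      exact h2
    · rw [hev, Ideal.Quotient.eq_zero_iff_mem.2 hF, map_zero]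
  obtain ⟨s, -, h2⟩ := hf.trans L p hp
  have h3 := h2.ne_zero ⟨b, fun j => hp.2 _ (hc j)⟩
  apply h3
  ext ⟨x, hx⟩
  have h4 : x ∈ LinearMap.ker (dif p (f b (s b))) :=
    (Submodule.mem_iInf _).1 ((Submodule.mem_iInf _).1 hx (f b (s b))) (hc (s b))
  simpa using h4

theorem hz_exists_off [Fintype β] {J : Ideal (MvPolynomial ι K)} (hJ : J.IsPrime) {e : ℕ}
    {f : β → κ → MvPolynomial ι K} (hf : Snc J e f) :
    ∃ G : MvPolynomial ι K, G ∉ J ∧ (∃ d, G.IsHomogeneous d) ∧
      ∀ p : ι → K, IsPt J p → eval p G ≠ 0 → ∀ b, ∃ j, eval p (f b j) ≠ 0 := by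
  by_cases h : ∃ i, X i ∉ J
  · obtain ⟨i, hi⟩ := h
    choose j hj using hz_exists_notMem hJ hf i hi
    refine ⟨∏ b, f b (j b), ?_, ⟨_, IsHomogeneous.prod _ _ (fun _ => e)
      fun b _ => hf.homog b (j b)⟩, ?_⟩
    · intro hm
      obtain ⟨b, -, hb⟩ := (Ideal.IsPrime.prod_mem_iff (hp := hJ)).1 hm
      exact hj b hb
    · intro p _ hG b
      refine ⟨j b, fun h0 => hG ?_⟩
      rw [map_prod]
      exact Finset.prod_eq_zero (Finset.mem_univ b) h0
  · push Not at h
    refine ⟨1, fun h1 => hJ.ne_top ((Ideal.eq_top_iff_one J).2 h1),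
      ⟨0, isHomogeneous_one ι K⟩, fun p hp _ => ?_⟩
    exact absurd (funext fun i => by simpa using hp.2 _ (h i)) hp.1

end snc

section

variable {K : Type u} [Field K] [NumberField K] {ι κ β : Type} [Fintype ι]

/-- The inequality for `D = 0`. -/
def ZeroAt (J : Ideal (MvPolynomial ι K)) : Prop :=
  ∀ ε : ℝ, 0 < ε →
    ∃ (G : MvPolynomial ι K) (C : ℝ), G ∉ J ∧ (∃ d, G.IsHomogeneous d) ∧
      ∀ p : ι → K, IsPt J p → eval p G ≠ 0 → hCan J p ≤ ε * logHeight p + C

/-- Vojta's inequality. -/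
def VojtaAt [Fintype β] (J : Ideal (MvPolynomial ι K)) (e : ℕ) (f : β → κ → MvPolynomial ι K) :
    Prop :=
  ∀ (S : Finset (FinitePlace K)) (ε : ℝ), 0 < ε →
    ∃ (G : MvPolynomial ι K) (C : ℝ), G ∉ J ∧ (∃ d, G.IsHomogeneous d) ∧
      ∀ p : ι → K, IsPt J p → eval p G ≠ 0 → (∀ b, ∃ j, eval p (f b j) ≠ 0) ∧
        ∑ b, prox S e (f b) p + hCan J p ≤ ε * logHeight p + C

/-- Vojta's inequality with truncated counting functions. -/
def TruncAt [Fintype β] (J : Ideal (MvPolynomial ι K)) (e : ℕ) (f : β → κ → MvPolynomial ι K) :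
    Prop :=
  ∀ (S : Finset (FinitePlace K)) (ε : ℝ), 0 < ε →
    ∃ (G : MvPolynomial ι K) (C : ℝ), G ∉ J ∧ (∃ d, G.IsHomogeneous d) ∧
      ∀ p : ι → K, IsPt J p → eval p G ≠ 0 → (∀ b, ∃ j, eval p (f b j) ≠ 0) ∧
        ∑ b, (e * logHeight p - logHeight fun j => eval p (f b j)) + hCan J p ≤
          trunc S e f p + ε * logHeight p + C

omit [NumberField K] [Fintype ι] in
theorem hz_mul_notMem {J : Ideal (MvPolynomial ι K)} (hJ : J.IsPrime) {G G' : MvPolynomial ι K}
    (h : G ∉ J) (h' : G' ∉ J) : G * G' ∉ J := fun hm =>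
  (hJ.mem_or_mem hm).elim h h'

theorem hz_phi_zero [Fintype β] {J : Ideal (MvPolynomial ι K)} (hJ : J.IsPrime) (e : ℕ)
    (f : β → κ → MvPolynomial ι K) (hf : Snc J e f) (H : ZeroAt J) :
    Phi J e f (fun _ _ => 0) := by
  intro ε hε
  obtain ⟨G, C, h1, ⟨d, h2⟩, h3⟩ := H ε hε
  obtain ⟨G', h1', ⟨d', h2'⟩, h3'⟩ := hz_exists_off hJ hf
  refine ⟨G * G', C, hz_mul_notMem hJ h1 h1', ⟨_, h2.mul h2'⟩, fun q hq hG => ?_⟩
  rw [map_mul] at hG
  refine ⟨h3' q hq (right_ne_zero_of_mul hG), ?_⟩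
  rw [hs_zero, add_zero]
  exact h3 q hq (left_ne_zero_of_mul hG)

open Classical in
/-- The sum of the proximity functions. -/
theorem hz_prox [Fintype β] (S : Finset (FinitePlace K)) (e : ℕ) (f : β → κ → MvPolynomial ι K)
    (q : ι → K) :
    psum (fun v => if inS S v then ∑ b, prf e f q v b else 0) = ∑ b, prox S e (f b) q := by
  rw [hs_ind S fun v => ∑ b, prf e f q v b]
  symm
  unfold prox
  rw [Finset.sum_add_distrib, Finset.sum_comm, Finset.sum_comm (s := Finset.univ) (t := S)]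
  congr 1
  exact Finset.sum_congr rfl fun w _ => by rw [Finset.mul_sum]; rfl

open Classical in
theorem hz_phi_vojta [Fintype β] {α : Type} [Fintype α] {J : Ideal (MvPolynomial ι K)}
    (hJ : J.IsPrime) (e : ℕ) (f : β → κ → MvPolynomial ι K) (hf : Snc J e f) (g : α → β)
    (H : VojtaAt J e fun a => f (g a)) (S : Finset (FinitePlace K)) :
    Phi J e f (fun v x => if inS S v then ∑ a, x (g a) else 0) := by
  intro ε hε
  obtain ⟨G, C, h1, ⟨d, h2⟩, h3⟩ := H S ε hε
  obtain ⟨G', h1', ⟨d', h2'⟩, h3'⟩ := hz_exists_off hJ hf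
  refine ⟨G * G', C, hz_mul_notMem hJ h1 h1', ⟨_, h2.mul h2'⟩, fun q hq hG => ?_⟩
  rw [map_mul] at hG
  refine ⟨h3' q hq (right_ne_zero_of_mul hG), ?_⟩
  have h4 := (h3 q hq (left_ne_zero_of_mul hG)).2
  have h5 := hz_prox S e (fun a => f (g a)) q
  have h6 : (fun v : Pl K => if inS S v then ∑ a, prf e f q v (g a) else 0)
      = fun v : Pl K => if inS S v then ∑ a, prf e (fun a => f (g a)) q v a else 0 := rfl
  rw [h6, h5]
  linarith

end

end Pool.Agent.Lib.MP_17a322_nt.EQ
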