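import Pool.Agent.Lib.MP_17a322_nt.EQ.Q0

/-!
Heights as sums of local terms.
-/

set_option autoImplicit false

universe u

namespace Pool.Agent.Lib.MP_17a322_nt.EQ

open MvPolynomial Height NumberField

variable {K : Type u} [Field K]

theorem hl_pos {ι : Type*} [Finite ι] (v : AbsoluteValue K ℝ) {x : ι → K} (hx : x ≠ 0) :
    0 < ⨆ i, v (x i) := by
  obtain ⟨i, hi⟩ := Function.ne_iff.1 hx
  exact (v.pos hi).trans_le (Finite.le_ciSup (fun i => v (x i)) i)

/-- The supremum is attained. -/
theorem hl_attained {ι : Type*} [Finite ι] (v : AbsoluteValue K ℝ) {x : ι → K} (hx : x ≠ 0) :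
    ∃ i, x i ≠ 0 ∧ ⨆ i, v (x i) = v (x i) := by
  have hne : Nonempty ι := by
    obtain ⟨i, _⟩ := Function.ne_iff.1 hx
    exact ⟨i⟩
  obtain ⟨i, hi⟩ := exists_eq_ciSup_of_finite (f := fun i => v (x i))
  refine ⟨i, fun h => ?_, hi.symm⟩
  have := hl_pos v hx
  rw [← hi] at this
  simp [h] at this

variable [NumberField K]

theorem hl_fs_abs {t : K} (ht : t ≠ 0) : FS fun v : Pl K => Real.log (av v t) := by
  refine (FinitePlace.hasFiniteMulSupport ht).subset fun w hw h => hw ?_
  have h' : w.val t = 1 := h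
  simp [av, h']

theorem hl_fs_sup {ι : Type*} [Finite ι] {x : ι → K} (hx : x ≠ 0) :
    FS fun v : Pl K => Real.log (⨆ i, av v (x i)) := by
  refine (Set.finite_iUnion (f := fun i : {i // x i ≠ 0} =>
    Function.mulSupport fun w : FinitePlace K => w (x i.1))
    fun i => FinitePlace.hasFiniteMulSupport i.2).subset fun w hw => ?_
  by_contra hc
  simp only [Set.mem_iUnion, Function.mem_mulSupport, not_exists, not_not] at hc
  refine hw ?_
  obtain ⟨i, hi, h⟩ := hl_attained w.val hx
  have h' : w.val (x i) = 1 := hc ⟨i, hi⟩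
  simp only [av]
  rw [h, h', Real.log_one]

theorem hl_psum_sup {ι : Type*} [Finite ι] {x : ι → K} (hx : x ≠ 0) :
    psum (fun v => Real.log (⨆ i, av v (x i))) = logHeight x := by
  have hpos : ∀ v : AbsoluteValue K ℝ, 0 < ⨆ i, v (x i) := fun v => hl_pos v hx
  have hfs := hl_fs_sup (K := K) hx
  have hsub : Function.mulSupport (fun w : FinitePlace K => ⨆ i, w (x i)) ⊆ hfs.toFinset := by
    intro w hw
    rw [Set.Finite.coe_toFinset]
    intro h
    have h' : Real.log (⨆ i, w.val (x i)) = 0 := h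
    rcases Real.log_eq_zero.1 h' with h0 | h0 | h0
    · exact absurd h0 (hpos _).ne'
    · exact hw h0
    · have := hpos w.val
      rw [h0] at this
      linarith
  rw [logHeight_eq_log_mulHeight, NumberField.mulHeight_eq hx,
    finprod_eq_prod_of_mulSupport_subset _ hsub, Real.log_mul, Real.log_prod, Real.log_prod]
  · unfold psum
    congr 1
    · exact Finset.sum_congr rfl fun w _ => (Real.log_pow _ _).symm
    · refine finsum_eq_sum_of_support_subset _ fun w hw => ?_
      rw [Set.Finite.coe_toFinset]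
      exact hw
  · exact fun w _ => (hpos w.val).ne'
  · exact fun w _ => pow_ne_zero _ (hpos w.val).ne'
  · exact Finset.prod_ne_zero_iff.2 fun w _ => pow_ne_zero _ (hpos w.val).ne'
  · exact Finset.prod_ne_zero_iff.2 fun w _ => (hpos w.val).ne'

theorem hl_l1_nonneg (v : Pl K) (t : K) : 0 ≤ l1 v t :=
  Real.log_nonneg (le_max_right _ _)

theorem hl_log_le_l1 (v : Pl K) (t : K) : Real.log (av v t) ≤ l1 v t := by
  rcases eq_or_ne t 0 with rfl | ht
  · simpa using hl_l1_nonneg v (0 : K)
  · exact Real.log_le_log ((av v).pos ht) (le_max_left _ _)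

theorem hl_fs_l1 (t : K) : FS fun v : Pl K => l1 v t := by
  rcases eq_or_ne t 0 with rfl | ht
  · refine hs_fs_of1 hs_fs_zero _ fun w _ => ?_
    simp [l1]
  · refine (FinitePlace.hasFiniteMulSupport ht).subset fun w hw h => hw ?_
    have h' : w.val t = 1 := h
    simp [l1, av, h']

theorem hl_psum_l1 (t : K) : psum (fun v => l1 v t) = logHeight₁ t := by
  rw [NumberField.logHeight₁_eq]
  unfold psum
  congr 1
  · refine Finset.sum_congr rfl fun w _ => ?_
    rw [Real.posLog_eq_log_max_one (apply_nonneg _ _), max_comm]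
    rfl
  · refine finsum_congr fun w => ?_
    rw [Real.posLog_eq_log_max_one (apply_nonneg _ _), max_comm]
    rfl

/-- The sum of the local heights. -/
theorem hl_psum_lam {ι κ : Type} [Finite ι] [Finite κ] (e : ℕ) (g : κ → MvPolynomial ι K)
    {q : ι → K} (hq : q ≠ 0) (hg : ∃ j, eval q (g j) ≠ 0) :
    psum (fun v => lam (av v) e g q) = e * logHeight q - logHeight fun j => eval q (g j) := by
  have hg' : (fun j => eval q (g j)) ≠ 0 := by
    obtain ⟨j, hj⟩ := hg
    exact fun h => hj (congrFun h j)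
  rw [← hl_psum_sup hq, ← hl_psum_sup hg', ← hs_mul, sub_eq_add_neg, ← neg_one_mul (psum _),
    ← hs_mul, ← hs_add (hs_fs_mul _ (hl_fs_sup hq)) (hs_fs_mul _ (hl_fs_sup hg'))]
  unfold lam
  congr 1
  funext v
  ring

theorem hl_fs_lam {ι κ : Type} [Finite ι] [Finite κ] (e : ℕ) (g : κ → MvPolynomial ι K)
    {q : ι → K} (hq : q ≠ 0) (hg : ∃ j, eval q (g j) ≠ 0) :
    FS fun v : Pl K => lam (av v) e g q := by
  have hg' : (fun j => eval q (g j)) ≠ 0 := by
    obtain ⟨j, hj⟩ := hg
    exact fun h => hj (congrFun h j)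
  exact hs_fs_of2 (hl_fs_sup hq) (hl_fs_sup hg') _ fun w h1 h2 => by
    simp only [lam, h1, h2]
    simp

end Pool.Agent.Lib.MP_17a322_nt.EQ
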