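import Pool.Agent.Lib.MP_17a322_nt.EQ.D1a

/-!
Vojta's conjecture and its case `D = 0`: a frame of the tangent spaces.
-/

set_option linter.unusedSectionVars false

universe u

namespace Pool.Agent.Lib.MP_17a322_nt.EQ

open MvPolynomial Height NumberField

section

/-- Linearly independent rows have a nonzero maximal minor. -/
private theorem D1b_minor {L ι : Type*} [Field L] [Fintype ι] {m : ℕ} (A : Fin m → ι → L)
    (hA : LinearIndependent L A) : ∃ s : Fin m → ι, (Matrix.of fun k l => A k (s l)).det ≠ 0 := by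
  classical
  have h1 : (Matrix.of A).rank = m := by
    have h2 : LinearIndependent L (Matrix.of A).row := hA
    rw [h2.rank_matrix, Fintype.card_fin]
  obtain ⟨κ, a, ha, hspan, hli⟩ := exists_linearIndependent' L (Matrix.of A).col
  have : Finite κ := Finite.of_injective a ha
  have : Fintype κ := Fintype.ofFinite κ
  have h3 : Fintype.card κ = m := by
    rw [← h1, Matrix.rank_eq_finrank_span_cols, ← hspan, finrank_span_eq_card hli]
  let e : Fin m ≃ κ := (Fintype.equivFinOfCardEq h3).symm
  refine ⟨fun l => a (e l), ?_⟩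
  have h4 : LinearIndependent L (((Matrix.of A).col ∘ a) ∘ e) := hli.comp e e.injective
  have h5 : LinearIndependent L (Matrix.of fun k l => A k (a (e l))).col := h4
  rw [Matrix.linearIndependent_cols_iff_isUnit, Matrix.isUnit_iff_isUnit_det] at h5
  exact h5.ne_zero

/-- Rows with a nonzero maximal minor are linearly independent. -/
private theorem D1b_indep {L ι : Type*} [Field L] {m : ℕ} (A : Fin m → ι → L) (s : Fin m → ι)
    (h : (Matrix.of fun k l => A k (s l)).det ≠ 0) : LinearIndependent L A := by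
  classical
  have h1 : LinearIndependent L (Matrix.of fun k l => A k (s l)).row := by
    rw [Matrix.linearIndependent_rows_iff_isUnit, Matrix.isUnit_iff_isUnit_det]
    exact h.isUnit
  have h2 : LinearIndependent L (LinearMap.funLeft L L s ∘ A) := h1
  exact LinearIndependent.of_comp _ h2

/-- The dimension of the common kernel of linearly independent functionals. -/
private theorem D1b_ker {L ι : Type*} [Field L] [Fintype ι] {r : ℕ} (A : Fin r → ι → L)
    (hA : LinearIndependent L A) :
    r + Module.finrank L (LinearMap.ker (Matrix.of A).mulVecLin) = Fintype.card ι := by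
  classical
  have h1 : (Matrix.of A).rank = r := by
    have h2 : LinearIndependent L (Matrix.of A).row := hA
    rw [h2.rank_matrix, Fintype.card_fin]
  have h2 := (Matrix.of A).mulVecLin.finrank_range_add_finrank_ker
  rw [Module.finrank_fintype_fun_eq_card] at h2
  have h3 : Module.finrank L (LinearMap.range (Matrix.of A).mulVecLin) = r := h1
  rw [← h2, h3]

private theorem D1b_mem_ker {L ι : Type*} [Field L] [Fintype ι] {r : ℕ} (A : Fin r → ι → L)
    (y : ι → L) : y ∈ LinearMap.ker (Matrix.of A).mulVecLin ↔ ∀ s, ∑ i, A s i * y i = 0 := by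
  rw [LinearMap.mem_ker, Matrix.mulVecLin_apply, funext_iff]
  rfl

/-- The determinant of a matrix of forms. -/
private theorem D1b_det_hom {K ι : Type*} [CommRing K] {r : ℕ}
    (A : Matrix (Fin r) (Fin r) (MvPolynomial ι K)) (δ : Fin r → ℕ)
    (h : ∀ s t, (A s t).IsHomogeneous (δ s)) : A.det.IsHomogeneous (∑ s, δ s) := by
  classical
  rw [Matrix.det_apply]
  refine IsHomogeneous.sum _ _ _ fun σ _ => ?_
  have h1 : (∏ i, A (σ i) i).IsHomogeneous (∑ s, δ s) := by
    have h2 := IsHomogeneous.prod Finset.univ (fun i => A (σ i) i) (fun i => δ (σ i))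
      fun i _ => h (σ i) i
    rwa [Equiv.sum_comp σ δ] at h2
  rcases Int.units_eq_one_or (Equiv.Perm.sign σ) with h3 | h3
  · rw [h3, one_smul]
    exact h1
  · rw [h3, Units.neg_smul, one_smul]
    exact h1.neg

variable {K : Type u} [Field K] {ι : Type} [Fintype ι] {J : Ideal (MvPolynomial ι K)}

/-- A generic point. -/
private theorem D1b_gen (hJ : J.IsPrime) : ∃ (L₀ : Type u) (_ : Field L₀) (_ : Algebra K L₀)
    (ξ : ι → L₀), ∀ F : MvPolynomial ι K, aeval ξ F = 0 ↔ F ∈ J := by
  have := hJ
  refine ⟨FractionRing (MvPolynomial ι K ⧸ J), inferInstance, inferInstance,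
    fun i => algebraMap (MvPolynomial ι K ⧸ J) _ (Ideal.Quotient.mk J (X i)), fun F => ?_⟩
  have h1 : aeval (R := K) (fun i => algebraMap (MvPolynomial ι K ⧸ J)
      (FractionRing (MvPolynomial ι K ⧸ J)) (Ideal.Quotient.mk J (X i))) =
      (IsScalarTower.toAlgHom K (MvPolynomial ι K ⧸ J)
        (FractionRing (MvPolynomial ι K ⧸ J))).comp (Ideal.Quotient.mkₐ K J) := by
    refine MvPolynomial.algHom_ext fun i => ?_
    rw [aeval_X]
    rfl
  rw [h1, AlgHom.comp_apply, IsScalarTower.coe_toAlgHom', Ideal.Quotient.mkₐ_eq_mk,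
    FaithfulSMul.algebraMap_eq_zero_iff, Ideal.Quotient.eq_zero_iff_mem]

private theorem D1b_det {L : Type u} [Field L] [Algebra K L] (p : ι → L) {m : ℕ}
    (M : Fin m → Fin m → MvPolynomial ι K) :
    aeval p (Matrix.of M).det = (Matrix.of fun k l => aeval p (M k l)).det := by
  rw [AlgHom.map_det]
  rfl

/-- Finitely many forms in `J` whose gradients at `p` define the tangent space. -/
private theorem D1b_forms (hJ : ∀ F ∈ J, ∀ i, homogeneousComponent i F ∈ J) {L : Type u} [Field L]
    [Algebra K L] (p : ι → L) : ∃ (r : ℕ) (F : Fin r → MvPolynomial ι K),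
      (∀ s, F s ∈ J ∧ ∃ d, (F s).IsHomogeneous d) ∧
      LinearIndependent L (fun s i => aeval p (pderiv i (F s))) ∧
      ∀ y : ι → L, (∀ s, ∑ i, aeval p (pderiv i (F s)) * y i = 0) → y ∈ Tan J p := by
  classical
  let v : {F : MvPolynomial ι K // F ∈ J ∧ ∃ d, F.IsHomogeneous d} → ι → L :=
    fun F i => aeval p (pderiv i F.1)
  obtain ⟨κ, a, ha, hspan, hli⟩ := exists_linearIndependent' L v
  have : Finite κ := hli.finite
  have : Fintype κ := Fintype.ofFinite κ
  let e : Fin (Fintype.card κ) ≃ κ := (Fintype.equivFin κ).symm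
  refine ⟨Fintype.card κ, fun s => (a (e s)).1, fun s => (a (e s)).2,
    hli.comp e e.injective, fun y hy => ?_⟩
  refine mem_Tan_of_hom hJ fun F hF d hd => ?_
  let φ : (ι → L) →ₗ[L] L := ∑ i, y i • LinearMap.proj i
  have hφ : ∀ w, φ w = ∑ i, w i * y i := by
    intro w
    simp only [φ, LinearMap.sum_apply, LinearMap.smul_apply, LinearMap.proj_apply, smul_eq_mul]
    exact Finset.sum_congr rfl fun i _ => mul_comm _ _
  have h1 : v ⟨F, hF, d, hd⟩ ∈ Submodule.span L (Set.range (v ∘ a)) := by
    rw [hspan]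
    exact Submodule.subset_span ⟨_, rfl⟩
  have h2 : Submodule.span L (Set.range (v ∘ a)) ≤ LinearMap.ker φ := by
    rw [Submodule.span_le]
    rintro _ ⟨k, rfl⟩
    have h3 : ∑ i, aeval p (pderiv i (a (e (e.symm k))).1) * y i = 0 := hy (e.symm k)
    rw [Equiv.apply_symm_apply] at h3
    change φ _ = 0
    rw [hφ]
    exact h3
  have h3 : φ (v ⟨F, hF, d, hd⟩) = 0 := h2 h1
  rw [hφ] at h3
  rw [dif_apply]
  exact h3

/-- Polynomial frames of the tangent spaces at one point. -/
theorem frame_at {n : ℕ} (hJ : Smooth J n) {L : Type u} [Field L] [Algebra K L] {p : ι → L}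
    (hp : IsPt J p) : ∃ (d : ℕ) (y : Fin (n + 1) → ι → MvPolynomial ι K),
      (∀ k i, (y k i).IsHomogeneous d) ∧
      (∀ (L' : Type u) [Field L'] [Algebra K L'] (p' : ι → L'), IsPt J p' → ∀ k,
        (fun i => aeval p' (y k i)) ∈ Tan J p') ∧
      LinearIndependent L fun k i => aeval p (y k i) := by
  classical
  obtain ⟨r, F, hF, hli, htan⟩ := D1b_forms hJ.homog p
  have hT : Tan J p = LinearMap.ker (Matrix.of fun s i => aeval p (pderiv i (F s))).mulVecLin := by
    ext y
    constructor
    · intro hy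
      refine (D1b_mem_ker _ y).2 fun s => ?_
      rw [← dif_apply]
      exact mem_Tan.1 hy _ (hF s).1
    · intro hy
      exact htan y ((D1b_mem_ker _ y).1 hy)
  have hcard : r + (n + 1) = Fintype.card ι := by
    rw [← hJ.dim L p hp, hT]
    exact D1b_ker _ hli
  obtain ⟨c, hc⟩ := D1b_minor _ hli
  have hcinj : Function.Injective c := by
    intro t t' htt
    by_contra hne
    exact hc (Matrix.det_zero_of_column_eq hne fun s => by
      simp only [Matrix.of_apply, htt])
  have hcompl : Fintype.card {i // i ∉ Set.range c} = n + 1 := by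
    have h1 : Fintype.card {i // i ∈ Set.range c} = r := by
      rw [← Fintype.card_congr (Equiv.ofInjective c hcinj), Fintype.card_fin]
    have h2 := Fintype.card_subtype_compl (fun i => i ∈ Set.range c)
    rw [h1] at h2
    omega
  let eo : Fin (n + 1) ≃ {i // i ∉ Set.range c} := (Fintype.equivFinOfCardEq hcompl).symm
  let o : Fin (n + 1) → ι := fun k => (eo k).1
  have hco : Function.Bijective (Sum.elim c o) := by
    constructor
    · rintro (t | k) (t' | k') h
      · exact congrArg Sum.inl (hcinj h)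
      · exact absurd ⟨t, h⟩ (eo k').2
      · exact absurd ⟨t', h.symm⟩ (eo k).2
      · exact congrArg Sum.inr (eo.injective (Subtype.ext h))
    · intro i
      by_cases hi : i ∈ Set.range c
      · obtain ⟨t, ht⟩ := hi
        exact ⟨Sum.inl t, ht⟩
      · refine ⟨Sum.inr (eo.symm ⟨i, hi⟩), ?_⟩
        change (eo (eo.symm ⟨i, hi⟩)).1 = i
        rw [Equiv.apply_symm_apply]
  obtain ⟨y, hy1, hy2, hy3⟩ := cramer_ker (fun s i => pderiv i (F s)) c o hco
  have hdeg : ∀ s, ∃ d, (F s).IsHomogeneous d := fun s => (hF s).2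
  choose δ hδ using hdeg
  have hrow : ∀ s i, (pderiv i (F s)).IsHomogeneous (δ s - 1) := fun s i => (hδ s).pderiv
  have hM : (Matrix.of fun s t => pderiv (c t) (F s)).det.IsHomogeneous (∑ s, (δ s - 1)) :=
    D1b_det_hom _ _ fun s t => hrow s (c t)
  have hpM : aeval p (Matrix.of fun s t => pderiv (c t) (F s)).det ≠ 0 := by
    rw [D1b_det]
    exact hc
  refine ⟨∑ s, (δ s - 1), y, ?_, ?_, ?_⟩
  · intro k i
    obtain ⟨z, rfl⟩ := hco.2 i
    rcases z with t | k'
    · rw [Sum.elim_inl, hy3 k t, Matrix.cramer_apply]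
      refine (D1b_det_hom _ _ fun s t' => ?_).neg
      rw [Matrix.updateCol_apply]
      split_ifs
      · exact hrow s (o k)
      · exact hrow s (c t')
    · rw [Sum.elim_inr, hy2 k k']
      split_ifs
      · exact hM
      · exact isHomogeneous_zero _ _ _
  · intro L' _ _ p' hp' k
    obtain ⟨L₀, _, _, ξ, hξ⟩ := D1b_gen hJ.prime
    have hξp : IsPt J ξ := by
      refine ⟨fun h0 => hp.1 (funext fun i => ?_), fun G hG => (hξ G).2 hG⟩
      have h1 : (X i : MvPolynomial ι K) ∈ J := by
        rw [← hξ, aeval_X, h0]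
        rfl
      have h2 := hp.2 _ h1
      rwa [aeval_X] at h2
    have hMξ : aeval ξ (Matrix.of fun s t => pderiv (c t) (F s)).det ≠ 0 := by
      intro h1
      exact hpM (hp.2 _ ((hξ _).1 h1))
    rw [D1b_det] at hMξ
    have hliξ := D1b_indep (fun s i => aeval ξ (pderiv i (F s))) c hMξ
    have hle : Tan J ξ ≤
        LinearMap.ker (Matrix.of fun s i => aeval ξ (pderiv i (F s))).mulVecLin := by
      intro z hz
      refine (D1b_mem_ker _ z).2 fun s => ?_
      rw [← dif_apply]
      exact mem_Tan.1 hz _ (hF s).1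
    have heq := Submodule.eq_of_le_of_finrank_eq hle (by
      have h1 := D1b_ker _ hliξ
      rw [hJ.dim L₀ ξ hξp]
      omega)
    have hyξ : (fun i => aeval ξ (y k i)) ∈ Tan J ξ := by
      rw [heq]
      refine (D1b_mem_ker _ _).2 fun s => ?_
      have h1 := congrArg (aeval ξ) (hy1 s k)
      rw [map_sum, map_zero] at h1
      rw [← h1]
      exact Finset.sum_congr rfl fun i _ => (map_mul _ _ _).symm
    rw [mem_Tan]
    intro G hG
    have h1 := mem_Tan.1 hyξ G hG
    have h2 : ∀ (L'' : Type u) [Field L''] [Algebra K L''] (q : ι → L''),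
        dif q G (fun i => aeval q (y k i)) = aeval q (∑ i, pderiv i G * y k i) := by
      intro L'' _ _ q
      rw [dif_apply, map_sum]
      exact Finset.sum_congr rfl fun i _ => (map_mul _ _ _).symm
    rw [h2, hξ] at h1
    rw [h2]
    exact hp'.2 _ h1
  · refine D1b_indep _ o ?_
    have h1 : (Matrix.of fun k l => aeval p (y k (o l))) =
        Matrix.diagonal fun _ => aeval p (Matrix.of fun s t => pderiv (c t) (F s)).det := by
      ext k l
      rw [Matrix.of_apply, hy2 k l, Matrix.diagonal_apply]
      by_cases h : l = k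
      · rw [if_pos h, if_pos h.symm]
      · rw [if_neg h, if_neg (Ne.symm h), map_zero]
    rw [h1, Matrix.det_diagonal]
    exact Finset.prod_ne_zero_iff.2 fun _ _ => hpM

end

end Pool.Agent.Lib.MP_17a322_nt.EQ
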