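import Pool.Agent.Lib.MP_17a322_nt.EQ.G4

/-!
Vojta's conjecture and its case `D = 0`: the ideals of the blow-up and of the product with the line.
-/

set_option linter.unusedSectionVars false

universe u

namespace Pool.Agent.Lib.MP_17a322_nt.EQ

open MvPolynomial

section

variable {K : Type u} [Field K] {ι Λ : Type} [Fintype ι] [Fintype Λ] {J : Ideal (MvPolynomial ι K)}

theorem aeval_gen (F : MvPolynomial ι K) : aeval (gen J) F = Ideal.Quotient.mk J F := by
  have h1 : (aeval (gen J) : MvPolynomial ι K →ₐ[K] MvPolynomial ι K ⧸ J) =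
      Ideal.Quotient.mkₐ K J := by
    refine algHom_ext fun i => ?_
    rw [aeval_X]
    rfl
  rw [h1]
  rfl

theorem gen_zero : ∀ F ∈ J, aeval (gen J) F = 0 := by
  intro F hF
  rw [aeval_gen]
  exact Ideal.Quotient.eq_zero_iff_mem.2 hF

theorem mem_bJ {w : Λ → MvPolynomial ι K} {F : MvPolynomial (ι × Λ) K} :
    F ∈ bJ J w ↔ aeval (fun z : ι × Λ => X z.1 * w z.2) F ∈ J := by
  rw [bJ, mem_gJ, ← Ideal.Quotient.eq_zero_iff_mem, ← aeval_gen, aeval_comp]
  simp only [map_mul, aeval_X, aeval_gen]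

theorem bJ_prime (hJ : J.IsPrime) (w : Λ → MvPolynomial ι K) : (bJ J w).IsPrime := by
  have := Ideal.Quotient.isDomain J
  exact gJ_prime _ _

theorem pJ_prime (hJ : J.IsPrime) : (pJ J).IsPrime := by
  have := Ideal.Quotient.isDomain J
  exact gJ_prime _ _

end

end Pool.Agent.Lib.MP_17a322_nt.EQ
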