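import Pool.Agent.Lib.MP_17a322_nt.EQ.P1b
import Pool.Agent.Lib.MP_17a322_nt.EQ.G5
import Pool.Agent.Lib.MP_17a322_nt.EQ.TR

/-!
Vojta's conjecture and its case `D = 0`: the transfer lemma for heights.
-/

set_option linter.unusedSectionVars false

universe u

namespace Pool.Agent.Lib.MP_17a322_nt.EQ

open MvPolynomial Height NumberField

section

variable {K : Type u} [Field K] {ι : Type} [Fintype ι] {J : Ideal (MvPolynomial ι K)}

/-- The generic point of the cone over `J`, over the field of fractions. -/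
noncomputable def xi (J : Ideal (MvPolynomial ι K)) (i : ι) :
    FractionRing (MvPolynomial ι K ⧸ J) := algebraMap (MvPolynomial ι K ⧸ J) _ (gen J i)

/-- The value of a polynomial at the generic point. -/
theorem aeval_xi_eq (F : MvPolynomial ι K) :
    aeval (xi J) F = algebraMap (MvPolynomial ι K ⧸ J) _ (Ideal.Quotient.mk J F) := by
  rw [← aeval_gen, ← MvPolynomial.aeval_algebraMap_apply]
  rfl

/-- The polynomials that vanish at the generic point. -/
theorem aeval_xi [J.IsPrime] (F : MvPolynomial ι K) : aeval (xi J) F = 0 ↔ F ∈ J := by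
  rw [aeval_xi_eq, FaithfulSMul.algebraMap_eq_zero_iff, Ideal.Quotient.eq_zero_iff_mem]

/-- The transfer lemma for heights. -/
theorem transfer_ht [NumberField K] [J.IsPrime] {σ τ : Type} [Fintype σ] [Fintype τ]
    {P : σ → MvPolynomial ι K} {Q : τ → MvPolynomial ι K}
    (h : ∀ O : ValuationSubring (FractionRing (MvPolynomial ι K ⧸ J)),
      (∀ a : K, algebraMap K _ a ∈ O) →
        ∀ i, ∃ j, O.valuation (aeval (xi J) (P i)) ≤ O.valuation (aeval (xi J) (Q j))) :
    ∃ C : ℝ, ∀ q : ι → K, (∀ F ∈ J, eval q F = 0) → (∃ j, eval q (Q j) ≠ 0) →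
      logHeight (fun i => eval q (P i)) ≤ logHeight (fun j => eval q (Q j)) + C := by
  classical
  rcases isEmpty_or_nonempty τ with hτ | hτ
  · exact ⟨0, fun q _ hq => (IsEmpty.false hq.choose).elim⟩
  have h' : ∀ i, ∃ C : Pl K → ℝ, (∀ v, 1 ≤ C v) ∧
      {w : FinitePlace K | C (Sum.inr w) ≠ 1}.Finite ∧
      ∀ (v : Pl K) (p : ι → K), (∀ H ∈ J, eval p H = 0) →
        av v (eval p (P i)) ≤ C v * ⨆ j, av v (eval p (Q j)) := by
    intro i
    refine transfer J (P i) Q fun A hA => ?_
    obtain ⟨j, hj⟩ := h A hA i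
    refine ⟨j, ?_⟩
    rwa [aeval_xi_eq, aeval_xi_eq] at hj
  choose C hC1 hC2 hC3 using h'
  let D : Pl K → ℝ := fun v => ∑ i, Real.log (C i v)
  have hD0 : ∀ v, 0 ≤ D v := fun v => Finset.sum_nonneg fun i _ => Real.log_nonneg (hC1 i v)
  have hDF : FS D := by
    refine (Set.finite_iUnion fun i => hC2 i).subset ?_
    intro w hw
    by_contra hcon
    simp only [Set.mem_iUnion, Set.mem_ofPred_eq, not_exists, not_not] at hcon hw
    exact hw (Finset.sum_eq_zero fun i _ => by rw [hcon i, Real.log_one])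
  have h0F : FS (fun _ : Pl K => (0 : ℝ)) := by
    have : {w : FinitePlace K | (fun _ : Pl K => (0 : ℝ)) (Sum.inr w) ≠ 0} = ∅ := by
      ext w
      simp
    rw [FS, this]
    exact Set.finite_empty
  have hp0 : psum (fun _ : Pl K => (0 : ℝ)) = 0 := by
    have := psum_mul (K := K) 0 (fun _ => (0 : ℝ))
    simpa using this
  have hpD : 0 ≤ psum D := by
    rw [← hp0]
    exact psum_le h0F hDF hD0
  refine ⟨psum D, fun q hq hQ => ?_⟩
  have hy : (fun j => eval q (Q j)) ≠ 0 := by
    obtain ⟨j, hj⟩ := hQ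
    exact fun hh => hj (congrFun hh j)
  by_cases hx : (fun i => eval q (P i)) = 0
  · rw [hx]
    have h1 : logHeight (0 : σ → K) = 0 := by
      simp
    have h2 : 0 ≤ logHeight fun j => eval q (Q j) := logHeight_nonneg _
    rw [h1]
    linarith
  · rw [← psum_log hx, ← psum_log hy, add_comm, ← psum_add hDF (FS_log _)]
    refine psum_le (FS_log _) (hDF.add (FS_log _)) fun v => ?_
    have hxp := av_iSup_pos hx v
    have hyp := av_iSup_pos hy v
    have hle : (⨆ i, av v (eval q (P i))) ≤
        (∏ i, C i v) * ⨆ j, av v (eval q (Q j)) := by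
      have hne : Nonempty σ := by
        by_contra hσ
        rw [not_nonempty_iff] at hσ
        exact hx (funext fun i => (IsEmpty.false i).elim)
      refine ciSup_le fun i => (hC3 i v q hq).trans ?_
      refine mul_le_mul_of_nonneg_right ?_ hyp.le
      rw [← Finset.mul_prod_erase Finset.univ (fun i => C i v) (Finset.mem_univ i)]
      refine le_mul_of_one_le_right (zero_le_one.trans (hC1 i v)) ?_
      calc (1 : ℝ) = ∏ j ∈ Finset.univ.erase i, (1 : ℝ) := by rw [Finset.prod_const_one]
        _ ≤ ∏ j ∈ Finset.univ.erase i, C j v :=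
          Finset.prod_le_prod (fun _ _ => zero_le_one) fun j _ => hC1 j v
    have hpos : 0 < ∏ i, C i v := Finset.prod_pos fun i _ => lt_of_lt_of_le one_pos (hC1 i v)
    calc Real.log (⨆ i, av v (eval q (P i)))
        ≤ Real.log ((∏ i, C i v) * ⨆ j, av v (eval q (Q j))) := Real.log_le_log hxp hle
      _ = D v + Real.log (⨆ j, av v (eval q (Q j))) := by
          rw [Real.log_mul hpos.ne' hyp.ne', Real.log_prod]
          exact fun i _ => (lt_of_lt_of_le one_pos (hC1 i v)).ne'

end

end Pool.Agent.Lib.MP_17a322_nt.EQ
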