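import Pool.Agent.Lib.MP_17a322_nt.EQ.G4

/-!
Vojta's conjecture and its case `D = 0`: points of the closure of a graph.
-/

set_option linter.unusedSectionVars false

universe u

namespace Pool.Agent.Lib.MP_17a322_nt.EQ

open MvPolynomial

section

variable {K : Type u} [Field K] {ι Λ : Type} [Fintype ι] [Fintype Λ] {J : Ideal (MvPolynomial ι K)}
  {R : Type u} [CommRing R] [Algebra K R] {x : ι → R} {w : Λ → R}

/-- A point of the closure of the graph in the chart `l₁`. -/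
theorem gJ_pt (hJh : ∀ F ∈ J, ∀ i, homogeneousComponent i F ∈ J)
    (hx : ∀ F ∈ J, aeval x F = 0) {L : Type u} [Field L] [Algebra K L] {p : ι × Λ → L}
    (hp : IsPt (gJ (K := K) x w) p) {l₁ : Λ} (hl : ∃ i, p (i, l₁) ≠ 0) :
    IsPt J (fun i => p (i, l₁)) ∧
      ∃ W : Λ → L, W l₁ = 1 ∧ ∀ i l, p (i, l) = p (i, l₁) * W l := by
  refine ⟨⟨?_, fun F hF => ?_⟩, ?_⟩
  · obtain ⟨i, hi⟩ := hl
    intro h
    exact hi (congrFun h i)
  · have h1 := hp.2 _ (sub_mem_gJ (w := w) hJh hx hF l₁)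
    rwa [aeval_sub'] at h1
  · obtain ⟨i₁, hi₁⟩ := hl
    refine ⟨fun l => p (i₁, l) / p (i₁, l₁), div_self hi₁, fun i l => ?_⟩
    have h1 := hp.2 _ (segre_mem (x := x) (w := w) i₁ i l₁ l)
    rw [map_sub, map_mul, map_mul, aeval_X, aeval_X, aeval_X, aeval_X] at h1
    rw [mul_div_assoc', eq_div_iff hi₁]
    linear_combination h1

/-- A tangent vector of the closure of the graph in the chart `l₁`. -/
theorem gJ_tan (hJh : ∀ F ∈ J, ∀ i, homogeneousComponent i F ∈ J)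
    (hx : ∀ F ∈ J, aeval x F = 0) {L : Type u} [Field L] [Algebra K L] {p : ι × Λ → L} {l₁ : Λ}
    (hl : ∃ i, p (i, l₁) ≠ 0) {W : Λ → L} (hW : W l₁ = 1)
    (hpW : ∀ i l, p (i, l) = p (i, l₁) * W l) {y : ι × Λ → L} (hy : y ∈ Tan (gJ (K := K) x w) p) :
    (fun i => y (i, l₁)) ∈ Tan J (fun i => p (i, l₁)) ∧
      ∃ ω : Λ → L, ω l₁ = 0 ∧ ∀ i l, y (i, l) = y (i, l₁) * W l + p (i, l₁) * ω l := by
  refine ⟨?_, ?_⟩
  · rw [mem_Tan]
    intro F hF
    have h1 := mem_Tan.1 hy _ (sub_mem_gJ (w := w) hJh hx hF l₁)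
    rwa [dif_sub'] at h1
  · obtain ⟨i₁, hi₁⟩ := hl
    refine ⟨fun l => (y (i₁, l) - y (i₁, l₁) * W l) / p (i₁, l₁), ?_, fun i l => ?_⟩
    · simp only [hW, mul_one, sub_self, zero_div]
    · have h1 := mem_Tan.1 hy _ (segre_mem (x := x) (w := w) i₁ i l₁ l)
      rw [dif_sub, dif_mul, dif_mul, dif_X, dif_X, dif_X, dif_X, aeval_X, aeval_X, aeval_X,
        aeval_X, hpW i l, hpW i₁ l] at h1
      have h2 : p (i₁, l₁) * (y (i, l) - (y (i, l₁) * W l + p (i, l₁) *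
          ((y (i₁, l) - y (i₁, l₁) * W l) / p (i₁, l₁)))) = 0 := by
        have h3 : p (i₁, l₁) * ((y (i₁, l) - y (i₁, l₁) * W l) / p (i₁, l₁)) =
            y (i₁, l) - y (i₁, l₁) * W l := mul_div_cancel₀ _ hi₁
        linear_combination h1 - p (i, l₁) * h3
      have h4 := (mul_eq_zero.1 h2).resolve_left hi₁
      exact sub_eq_zero.1 h4

end

end Pool.Agent.Lib.MP_17a322_nt.EQ
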