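import Pool.Agent.Lib.MP_17a322_nt.EQ.D1b

/-!
Vojta's conjecture and its case `D = 0`: frames of the tangent spaces.
-/

set_option linter.unusedSectionVars false

universe u

namespace Pool.Agent.Lib.MP_17a322_nt.EQ

open MvPolynomial Height NumberField

section

/-- Linearly independent rows have a nonzero maximal minor. -/
private theorem D1c_minor {L ι : Type*} [Field L] [Fintype ι] {m : ℕ} (A : Fin m → ι → L)
    (hA : LinearIndependent L A) : ∃ s : Fin m → ι, (Matrix.of fun k l => A k (s l)).det ≠ 0 := by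
  classical
  have h1 : (Matrix.of A).rank = m := by
    have h2 : LinearIndependent L (Matrix.of A).row := hA
    rw [h2.rank_matrix, Fintype.card_fin]
  obtain ⟨κ, a, ha, hspan, hli⟩ := exists_linearIndependent' L (Matrix.of A).col
  have : Finite κ := Finite.of_injective a ha
  have : Fintype κ := Fintype.ofFinite κ
  have h3 : Fintype.card κ = m := by
    rw [← h1, Matrix.rank_eq_finrank_span_cols, ← hspan, finrank_span_eq_card hli]
  let e : Fin m ≃ κ := (Fintype.equivFinOfCardEq h3).symm
  refine ⟨fun l => a (e l), ?_⟩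
  have h4 : LinearIndependent L (((Matrix.of A).col ∘ a) ∘ e) := hli.comp e e.injective
  have h5 : LinearIndependent L (Matrix.of fun k l => A k (a (e l))).col := h4
  rw [Matrix.linearIndependent_cols_iff_isUnit, Matrix.isUnit_iff_isUnit_det] at h5
  exact h5.ne_zero

/-- Rows with a nonzero maximal minor are linearly independent. -/
private theorem D1c_indep {L ι : Type*} [Field L] {m : ℕ} (A : Fin m → ι → L) (s : Fin m → ι)
    (h : (Matrix.of fun k l => A k (s l)).det ≠ 0) : LinearIndependent L A := by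
  classical
  have h1 : LinearIndependent L (Matrix.of fun k l => A k (s l)).row := by
    rw [Matrix.linearIndependent_rows_iff_isUnit, Matrix.isUnit_iff_isUnit_det]
    exact h.isUnit
  have h2 : LinearIndependent L (LinearMap.funLeft L L s ∘ A) := h1
  exact LinearIndependent.of_comp _ h2

variable {K : Type u} [Field K] {ι : Type} [Fintype ι] {J : Ideal (MvPolynomial ι K)}

private theorem D1c_det {L : Type u} [Field L] [Algebra K L] (p : ι → L) {m : ℕ}
    (y : Fin m → ι → MvPolynomial ι K) (s : Fin m → ι) :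
    aeval p (Matrix.of fun k l => y k (s l)).det =
      (Matrix.of fun k l => aeval p (y k (s l))).det := by
  rw [AlgHom.map_det]
  rfl

/-- Finitely many polynomial frames of the tangent spaces suffice for all points. -/
theorem frames {n : ℕ} (hJ : Smooth J n) : ∃ (m : ℕ) (d : Fin m → ℕ)
    (y : Fin m → Fin (n + 1) → ι → MvPolynomial ι K),
      (∀ r k i, (y r k i).IsHomogeneous (d r)) ∧
      (∀ (L : Type u) [Field L] [Algebra K L] (p : ι → L), IsPt J p → ∀ r k,
        (fun i => aeval p (y r k i)) ∈ Tan J p) ∧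
      ∀ (L : Type u) [Field L] [Algebra K L] (p : ι → L), IsPt J p →
        ∃ r, LinearIndependent L fun k i => aeval p (y r k i) := by
  classical
  let Q : ℕ → (Fin (n + 1) → ι → MvPolynomial ι K) → Prop := fun d y =>
    (∀ k i, (y k i).IsHomogeneous d) ∧
      ∀ (L : Type u) [Field L] [Algebra K L] (p : ι → L), IsPt J p → ∀ k,
        (fun i => aeval p (y k i)) ∈ Tan J p
  let S : Set (MvPolynomial ι K) := {g | ∃ (d : ℕ) (y : Fin (n + 1) → ι → MvPolynomial ι K)
    (s : Fin (n + 1) → ι), Q d y ∧ g = (Matrix.of fun k l => y k (s l)).det}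
  have hfg : (Submodule.span (MvPolynomial ι K) S).FG := IsNoetherian.noetherian _
  obtain ⟨t, htS, ht⟩ := (Submodule.fg_span_iff_fg_span_finset_subset S).1 hfg
  have hc : ∀ g : t, ∃ (d : ℕ) (y : Fin (n + 1) → ι → MvPolynomial ι K)
      (s : Fin (n + 1) → ι), Q d y ∧ (g : MvPolynomial ι K) =
        (Matrix.of fun k l => y k (s l)).det := fun g => htS g.2
  choose d y s hQ hg using hc
  let e : Fin t.card ≃ t := t.equivFin.symm
  refine ⟨t.card, fun r => d (e r), fun r => y (e r), fun r => (hQ (e r)).1,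
    fun L _ _ p hp r => (hQ (e r)).2 L p hp, ?_⟩
  intro L _ _ p hp
  by_contra hno
  push Not at hno
  have h1 : ∀ g ∈ t, aeval p g = 0 := by
    intro g hgt
    have h2 := hno (e.symm ⟨g, hgt⟩)
    rw [Equiv.apply_symm_apply] at h2
    by_contra h3
    refine h2 (D1c_indep _ (s ⟨g, hgt⟩) ?_)
    rw [← D1c_det, ← hg ⟨g, hgt⟩]
    exact h3
  have h2 : ∀ g ∈ Submodule.span (MvPolynomial ι K) S, aeval p g = 0 := by
    intro g hgS
    rw [ht] at hgS
    have h3 : Submodule.span (MvPolynomial ι K) (t : Set (MvPolynomial ι K)) ≤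
        RingHom.ker (aeval (R := K) p) := Submodule.span_le.2 fun g hg => h1 g hg
    exact h3 hgS
  obtain ⟨d', y', hy1, hy2, hy3⟩ := frame_at hJ hp
  obtain ⟨s', hs'⟩ := D1c_minor _ hy3
  rw [← D1c_det] at hs'
  exact hs' (h2 _ (Submodule.subset_span ⟨d', y', s', ⟨hy1, hy2⟩, rfl⟩))

end

end Pool.Agent.Lib.MP_17a322_nt.EQ
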