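import Pool.Agent.Lib.MP_17a322_nt.EQ.G2a

/-!
Vojta's conjecture and its case `D = 0`: a criterion for smoothness and transversality.
-/

set_option linter.unusedSectionVars false

universe u

namespace Pool.Agent.Lib.MP_17a322_nt.EQ

open MvPolynomial

section

variable {K : Type u} [Field K] {ι κ β : Type} [Fintype ι]

/-- A criterion for smoothness and transversality. -/
theorem snc_of_bound [Fintype β] {J : Ideal (MvPolynomial ι K)} {n e : ℕ}
    {f : β → κ → MvPolynomial ι K} (hJ : J.IsPrime)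
    (hJh : ∀ F ∈ J, ∀ i, homogeneousComponent i F ∈ J) (he : 0 < e)
    (hfh : ∀ b j, (f b j).IsHomogeneous e)
    (hlow : ∀ (L : Type u) [Field L] [Algebra K L] (p : ι → L), IsPt J p →
      n + 1 ≤ Module.finrank L (Tan J p))
    (hup : ∀ (L : Type u) [Field L] [Algebra K L] (p : ι → L), IsPt J p → ∃ s : β → κ,
      (∀ b ∈ thr f p, LG J (f b) p (s b)) ∧
      Module.finrank L (Nsp J p (fun b => f b (s b)) (thr f p)) + (thr f p).card ≤ n + 1) :
    Smooth J n ∧ Snc J e f := by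
  classical
  have hdim : ∀ (L : Type u) [Field L] [Algebra K L] (p : ι → L), IsPt J p →
      Module.finrank L (Tan J p) = n + 1 := by
    intro L _ _ p hp
    obtain ⟨s, _, hs⟩ := hup L p hp
    have h1 := (lin_bound (Tan J p) (fun b => dif p (f b (s b))) (thr f p)).1
    have h2 : Module.finrank L ↥(Tan J p ⊓ ⨅ b ∈ thr f p, LinearMap.ker (dif p (f b (s b)))) +
        (thr f p).card ≤ n + 1 := hs
    have h3 := hlow L p hp
    omega
  refine ⟨⟨hJ, hJh, hdim⟩, ⟨he, hfh, ?_⟩⟩
  intro L _ _ p hp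
  obtain ⟨s, hs1, hs2⟩ := hup L p hp
  refine ⟨s, fun b hb => hs1 b (mem_thr.2 hb), ?_⟩
  have h2 : Module.finrank L ↥(Tan J p ⊓ ⨅ b ∈ thr f p, LinearMap.ker (dif p (f b (s b)))) +
      (thr f p).card ≤ n + 1 := hs2
  have h1 := (lin_bound (Tan J p) (fun b => dif p (f b (s b))) (thr f p)).2
    (h2.trans (hlow L p hp))
  exact h1.comp (fun b : {b // ∀ j, aeval p (f b j) = 0} =>
    (⟨b.1, mem_thr.2 b.2⟩ : {b // b ∈ thr f p}))
    (fun b c hbc => Subtype.ext (Subtype.mk.inj hbc))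

end

end Pool.Agent.Lib.MP_17a322_nt.EQ
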