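import Pool.Agent.Lib.MP_17a322_nt.EQ.G2a

/-!
Vojta's conjecture and its case `D = 0`: tangent vectors of the intersection of some divisors.
-/

set_option linter.unusedSectionVars false

universe u

namespace Pool.Agent.Lib.MP_17a322_nt.EQ

open MvPolynomial

section

variable {K : Type u} [Field K] {ι κ β : Type} [Fintype ι]

/-- The converse of the criterion for a part of the divisors. -/
theorem snc_bound {J : Ideal (MvPolynomial ι K)} {n : ℕ} (hJ : Smooth J n) {L : Type u} [Field L]
    [Algebra K L] {p : ι → L} (hp : IsPt J p) {g : β → MvPolynomial ι K} {B₀ : Finset β}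
    (hs : LinearIndependent L fun b : {b // b ∈ B₀} => (dif p (g b)).domRestrict (Tan J p))
    {B : Finset β} (hB : B ⊆ B₀) : Module.finrank L (Nsp J p g B) + B.card ≤ n + 1 := by
  classical
  let φ : {b // b ∈ B} → Module.Dual L (Tan J p) := fun b => (dif p (g b)).domRestrict (Tan J p)
  have h1 : LinearIndependent L φ :=
    hs.comp (fun b : {b // b ∈ B} => (⟨b.1, hB b.2⟩ : {b // b ∈ B₀}))
      fun a b hab => Subtype.ext (Subtype.mk.inj hab)
  have h2 : Module.finrank L (Submodule.span L (Set.range φ)) = B.card := by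
    rw [finrank_span_eq_card h1, Fintype.card_coe]
  have h3 := Subspace.finrank_add_finrank_dualCoannihilator_eq (Submodule.span L (Set.range φ))
  rw [h2, hJ.dim L p hp] at h3
  have h4 : Nsp J p g B ≤
      (Submodule.span L (Set.range φ)).dualCoannihilator.map (Tan J p).subtype := by
    intro y hy
    obtain ⟨hy1, hy2⟩ := mem_Nsp.1 hy
    refine ⟨⟨y, hy1⟩, ?_, rfl⟩
    rw [SetLike.mem_coe, Submodule.mem_dualCoannihilator]
    intro ψ hψ
    refine Submodule.span_induction (p := fun ψ _ => ψ ⟨y, hy1⟩ = 0) ?_ ?_ ?_ ?_ hψ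
    · rintro _ ⟨b, rfl⟩
      exact hy2 b.1 b.2
    · rfl
    · intro a b _ _ ha hb
      rw [LinearMap.add_apply, ha, hb, add_zero]
    · intro c a _ ha
      rw [LinearMap.smul_apply, ha, smul_zero]
  have h5 := Submodule.finrank_mono h4
  rw [Submodule.finrank_map_subtype_eq] at h5
  omega

end

end Pool.Agent.Lib.MP_17a322_nt.EQ
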