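import Pool.Agent.Lib.MP_17a322_nt.EQ.G2

/-!
Vojta's conjecture and its case `D = 0`: divisors through a point.
-/

set_option linter.unusedSectionVars false

universe u

namespace Pool.Agent.Lib.MP_17a322_nt.EQ

open MvPolynomial

section

variable {K : Type u} [Field K] {ι κ β : Type} [Fintype ι]

/-- `Snc` in terms of `thr` and `LG`. -/
theorem Snc.thr_LG [Fintype β] {J : Ideal (MvPolynomial ι K)} {e : ℕ}
    {f : β → κ → MvPolynomial ι K} (hf : Snc J e f) {L : Type u} [Field L] [Algebra K L]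
    {p : ι → L} (hp : IsPt J p) : ∃ s : β → κ, (∀ b ∈ thr f p, LG J (f b) p (s b)) ∧
      LinearIndependent L fun b : {b // b ∈ thr f p} =>
        (dif p (f b (s b))).domRestrict (Tan J p) := by
  obtain ⟨s, h1, h2⟩ := hf.trans L p hp
  refine ⟨s, fun b hb => h1 b (mem_thr.1 hb), ?_⟩
  exact h2.comp (fun b : {b // b ∈ thr f p} => ⟨b.1, mem_thr.1 b.2⟩)
    fun a b hab => Subtype.ext (Subtype.mk.inj hab)

end

end Pool.Agent.Lib.MP_17a322_nt.EQ
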