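import Pool.Agent.Lib.MP_17a322_nt.EQ.G4

/-!
Vojta's conjecture and its case `D = 0`: local equations of divisors on the closure of a graph.
-/

set_option linter.unusedSectionVars false

universe u

namespace Pool.Agent.Lib.MP_17a322_nt.EQ

open MvPolynomial

section

variable {K : Type u} [Field K] {ι Λ : Type} [Fintype ι] [Fintype Λ] {J : Ideal (MvPolynomial ι K)}
  {R : Type u} [CommRing R] [Algebra K R] {x : ι → R} {w : Λ → R}

private theorem G4c_mul (F G : MvPolynomial ι K) (l : Λ) : sub (F * G) l = sub F l * sub G l := by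
  rw [sub, sub, sub, map_mul]

private theorem G4c_add (F G : MvPolynomial ι K) (l : Λ) : sub (F + G) l = sub F l + sub G l := by
  rw [sub, sub, sub, map_add]

private theorem G4c_move {e : ℕ} {F : MvPolynomial ι K} (hF : F.IsHomogeneous e) (i₁ : ι) (l l₁ : Λ) :
    X (i₁, l₁) ^ e * sub F l - X (i₁, l) ^ e * sub F l₁ ∈ gJ (K := K) x w := by
  rw [mem_gJ, map_sub, map_mul, map_mul, map_pow, map_pow, aeval_X, aeval_X, aeval_sub_gen,
    aeval_sub_gen, aeval_mul hF, aeval_mul hF, mul_pow, mul_pow]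
  ring

/-- The inverse image of a divisor is locally generated by one equation. -/
theorem LG_eqp {κ : Type} (hJh : ∀ F ∈ J, ∀ i, homogeneousComponent i F ∈ J)
    (hx : ∀ F ∈ J, aeval x F = 0) {L : Type u} [Field L] [Algebra K L] {p : ι × Λ → L} {l₁ : Λ}
    (hl : ∃ i, p (i, l₁) ≠ 0) {e : ℕ} {g : κ → MvPolynomial ι K}
    (hgh : ∀ j, (g j).IsHomogeneous e) {s : κ} (hg : LG J g (fun i => p (i, l₁)) s) :
    LG (gJ (K := K) x w) (eqp g : Ix ι κ Λ → _) p (Sum.inl (s, l₁)) := by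
  obtain ⟨i₁, hi₁⟩ := hl
  obtain ⟨u, hu, hj⟩ := hg
  refine ⟨sub u l₁ * X (i₁, l₁) ^ e, ?_, ?_⟩
  · rw [map_mul, map_pow, aeval_X, aeval_sub']
    exact mul_ne_zero hu (pow_ne_zero e hi₁)
  · rintro (⟨j, l⟩ | z)
    · obtain ⟨m, hm, r, hr, h⟩ := Submodule.mem_sup.1 (hj j)
      obtain ⟨φ, hφ⟩ := Ideal.mem_span_singleton'.1 hr
      have h1 : sub u l₁ * sub (g j) l₁ = sub m l₁ + sub φ l₁ * sub (g s) l₁ := by
        rw [← G4c_mul, ← h, G4c_add, ← hφ, G4c_mul]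
      have h2 : sub u l₁ * X (i₁, l₁) ^ e * (eqp g : Ix ι κ Λ → _) (Sum.inl (j, l)) =
          sub u l₁ * (X (i₁, l₁) ^ e * sub (g j) l - X (i₁, l) ^ e * sub (g j) l₁) +
            X (i₁, l) ^ e * sub m l₁ + X (i₁, l) ^ e * sub φ l₁ * sub (g s) l₁ := by
        have h3 : (eqp g : Ix ι κ Λ → _) (Sum.inl (j, l)) = sub (g j) l := rfl
        rw [h3]
        linear_combination X (i₁, l) ^ e * h1
      rw [h2]
      refine Ideal.add_mem _ (Ideal.add_mem _ ?_ ?_) ?_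
      · exact Ideal.mem_sup_left (Ideal.mul_mem_left _ _ (G4c_move (hgh j) i₁ l l₁))
      · exact Ideal.mem_sup_left (Ideal.mul_mem_left _ _ (sub_mem_gJ hJh hx hm l₁))
      · exact Ideal.mem_sup_right (Ideal.mul_mem_left _ _ (Ideal.subset_span rfl))
    · have h3 : (eqp g : Ix ι κ Λ → _) (Sum.inr z) = 0 := rfl
      rw [h3, mul_zero]
      exact Ideal.zero_mem _

/-- The exceptional divisor is locally generated by one equation. -/
theorem LG_exc {L : Type u} [Field L] [Algebra K L] {p : ι × Λ → L} {l₁ : Λ}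
    (hl : ∃ i, p (i, l₁) ≠ 0) {e : ℕ} {c : Λ → MvPolynomial ι K}
    (hch : ∀ j, (c j).IsHomogeneous e) (hw : ∀ l, w l = aeval x (c l)) :
    LG (gJ (K := K) x w) (eqp c : Ix ι Λ Λ → _) p (Sum.inl (l₁, l₁)) := by
  obtain ⟨i₁, hi₁⟩ := hl
  refine ⟨X (i₁, l₁) ^ (e + 1), ?_, ?_⟩
  · rw [map_pow, aeval_X]
    exact pow_ne_zero _ hi₁
  · rintro (⟨j, l⟩ | z)
    · have h1 : X (i₁, l₁) * sub (c j) l₁ - X (i₁, j) * sub (c l₁) l₁ ∈ gJ (K := K) x w := by
        rw [mem_gJ, map_sub, map_mul, map_mul, aeval_X, aeval_X, aeval_sub_gen, aeval_sub_gen,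
          aeval_mul (hch j), aeval_mul (hch l₁), ← hw j, ← hw l₁]
        ring
      have h2 : X (i₁, l₁) ^ (e + 1) * (eqp c : Ix ι Λ Λ → MvPolynomial (ι × Λ) K) (Sum.inl (j, l)) =
          X (i₁, l₁) * (X (i₁, l₁) ^ e * sub (c j) l - X (i₁, l) ^ e * sub (c j) l₁) +
            X (i₁, l) ^ e * (X (i₁, l₁) * sub (c j) l₁ - X (i₁, j) * sub (c l₁) l₁) +
            X (i₁, l) ^ e * X (i₁, j) * sub (c l₁) l₁ := by
        have h3 : (eqp c : Ix ι Λ Λ → MvPolynomial (ι × Λ) K) (Sum.inl (j, l)) = sub (c j) l := rfl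
        rw [h3]
        ring
      rw [h2]
      refine Ideal.add_mem _ (Ideal.add_mem _ ?_ ?_) ?_
      · exact Ideal.mem_sup_left (Ideal.mul_mem_left _ _ (G4c_move (hch j) i₁ l l₁))
      · exact Ideal.mem_sup_left (Ideal.mul_mem_left _ _ h1)
      · exact Ideal.mem_sup_right (Ideal.mul_mem_left _ _ (Ideal.subset_span rfl))
    · have h3 : (eqp c : Ix ι Λ Λ → MvPolynomial (ι × Λ) K) (Sum.inr z) = 0 := rfl
      rw [h3, mul_zero]
      exact Ideal.zero_mem _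

end

end Pool.Agent.Lib.MP_17a322_nt.EQ
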