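import Pool.Agent.Lib.MP_17a322_nt.EQ.G4

/-!
Vojta's conjecture and its case `D = 0`: local equations of strict transforms.
-/

set_option linter.unusedSectionVars false

universe u

namespace Pool.Agent.Lib.MP_17a322_nt.EQ

open MvPolynomial

section

variable {K : Type u} [Field K] {ι Λ : Type} [Fintype ι] [Fintype Λ] {J : Ideal (MvPolynomial ι K)}
  {R : Type u} [CommRing R] [Algebra K R] {x : ι → R} {w : Λ → R}

/-- The divisor with the equations `Y z * Y z' ^ (e - 1)`, `z = (i, l)`, `l ∈ S`, is locally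
generated by one equation, if there are `r ∈ S`, a polynomial `u` that does not vanish at the point and
for every `l ∈ S` a polynomial `φ` such that `sub u l₁ * X (i, l) - sub φ l₁ * X (i, r)` is in the ideal
for all `i`. -/
theorem LG_eqs {κ : Type} {I : Ideal (MvPolynomial (ι × Λ) K)}
    (hI : ∀ (i i' : ι) (l l' : Λ), X (i, l) * X (i', l') - X (i, l') * X (i', l) ∈ I)
    {L : Type u} [Field L] [Algebra K L] {p : ι × Λ → L} {l₁ : Λ} {i₁ : ι}
    (hi : p (i₁, l₁) ≠ 0) {e : ℕ} (he : 0 < e) (S : Λ → Prop) [DecidablePred S] {r : Λ}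
    (hr : S r) (u : MvPolynomial ι K) (hu : aeval (fun i => p (i, l₁)) u ≠ 0)
    (h : ∀ l, S l → ∃ φ : MvPolynomial ι K, ∀ i, sub u l₁ * X (i, l) - sub φ l₁ * X (i, r) ∈ I) :
    LG I (eqs e S : Ix ι κ Λ → _) p (Sum.inr ((i₁, r), (i₁, l₁))) := by
  obtain ⟨e', rfl⟩ : ∃ e', e = e' + 1 := ⟨e - 1, by omega⟩
  have hs : (eqs (e' + 1) S : Ix ι κ Λ → MvPolynomial (ι × Λ) K) (Sum.inr ((i₁, r), (i₁, l₁))) =
      X (i₁, r) * X (i₁, l₁) ^ e' := by
    change (if S r then X (i₁, r) * X (i₁, l₁) ^ (e' + 1 - 1) else 0 : MvPolynomial (ι × Λ) K) = _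
    rw [if_pos hr, Nat.add_sub_cancel]
  refine ⟨sub u l₁ * X (i₁, l₁) ^ (e' + 1), ?_, ?_⟩
  · rw [map_mul, map_pow, aeval_X, aeval_sub']
    exact mul_ne_zero hu (pow_ne_zero _ hi)
  · intro j
    rw [hs]
    rcases j with j | ⟨⟨i, l⟩, z'⟩
    · have h1 : (eqs (e' + 1) S : Ix ι κ Λ → MvPolynomial (ι × Λ) K) (Sum.inl j) = 0 := rfl
      rw [h1, mul_zero]
      exact Ideal.zero_mem _
    · have h1 : (eqs (e' + 1) S : Ix ι κ Λ → MvPolynomial (ι × Λ) K) (Sum.inr ((i, l), z')) =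
          if S l then X (i, l) * X z' ^ e' else 0 := by
        change (if S l then X (i, l) * X z' ^ (e' + 1 - 1) else 0 : MvPolynomial (ι × Λ) K) = _
        rw [Nat.add_sub_cancel]
      rw [h1]
      split_ifs with hl
      · obtain ⟨φ, hφ⟩ := h l hl
        have h2 : sub u l₁ * X (i₁, l₁) ^ (e' + 1) * (X (i, l) * X z' ^ e') =
            ((X (i₁, l₁) ^ (e' + 1) * X z' ^ e') * (sub u l₁ * X (i, l) - sub φ l₁ * X (i, r)) +
              (sub φ l₁ * X (i₁, l₁) ^ e' * X z' ^ e') *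
                (X (i, r) * X (i₁, l₁) - X (i, l₁) * X (i₁, r))) +
            (sub φ l₁ * X z' ^ e' * X (i, l₁)) * (X (i₁, r) * X (i₁, l₁) ^ e') := by
          ring
        rw [h2]
        refine Submodule.add_mem_sup ?_ ?_
        · exact Ideal.add_mem _ (Ideal.mul_mem_left _ _ (hφ i)) (Ideal.mul_mem_left _ _ (hI i i₁ r l₁))
        · exact Ideal.mul_mem_left _ _ (Ideal.subset_span rfl)
      · rw [mul_zero]
        exact Ideal.zero_mem _

/-- The hypothesis of `LG_eqs` for the strict transform of a divisor with the equations `g j`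
which is locally generated by `g s`. Here `w (σ j) = aeval x (g j)` for a map `σ` of the index set
of the equations into `Λ`. -/
theorem strict_rel {κ : Type} [IsDomain R] (hJh : ∀ F ∈ J, ∀ i, homogeneousComponent i F ∈ J)
    (hx : ∀ F ∈ J, aeval x F = 0) {l₁ : Λ} (hw1 : w l₁ ≠ 0) {e : ℕ} {g : κ → MvPolynomial ι K}
    (hgh : ∀ j, (g j).IsHomogeneous e) (σ : κ → Λ) (hσ : ∀ j, w (σ j) = aeval x (g j)) {s : κ}
    {u : MvPolynomial ι K} (hu : ∀ j, u * g j ∈ J ⊔ Ideal.span {g s}) (j : κ) :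
    ∃ φ : MvPolynomial ι K, ∀ i,
      (sub u l₁ * X (i, σ j) - sub φ l₁ * X (i, σ s) : MvPolynomial (ι × Λ) K) ∈ gJ x w := by
  obtain ⟨m, hm, n, hn, hmn⟩ := Submodule.mem_sup.1 (hu j)
  obtain ⟨φ, hφ⟩ := Ideal.mem_span_singleton'.1 hn
  refine ⟨φ, fun i => ?_⟩
  have h0 : aeval (fun i => w l₁ * x i) m = 0 := by
    have h1 := sub_mem_gJ (w := w) hJh hx hm l₁
    rwa [mem_gJ, aeval_sub_gen] at h1
  have hj := aeval_mul (hgh j) (w l₁) x
  have hs := aeval_mul (hgh s) (w l₁) x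
  rw [mem_gJ, map_sub, map_mul, map_mul, aeval_sub_gen, aeval_sub_gen, aeval_X, aeval_X]
  change aeval (fun i => w l₁ * x i) u * (x i * w (σ j)) -
    aeval (fun i => w l₁ * x i) φ * (x i * w (σ s)) = 0
  rw [hσ j, hσ s]
  have h2 : aeval (fun i => w l₁ * x i) u * aeval (fun i => w l₁ * x i) (g j) =
      aeval (fun i => w l₁ * x i) φ * aeval (fun i => w l₁ * x i) (g s) := by
    have h3 := congrArg (aeval (fun i => w l₁ * x i)) hmn
    rw [map_add, h0, zero_add, ← hφ, map_mul, map_mul] at h3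
    exact h3.symm
  have h4 : (w l₁) ^ e * (aeval (fun i => w l₁ * x i) u * (x i * aeval x (g j)) -
      aeval (fun i => w l₁ * x i) φ * (x i * aeval x (g s))) = 0 := by
    have h5 : (w l₁) ^ e * (aeval (fun i => w l₁ * x i) u * (x i * aeval x (g j)) -
        aeval (fun i => w l₁ * x i) φ * (x i * aeval x (g s))) =
        x i * (aeval (fun i => w l₁ * x i) u * ((w l₁) ^ e * aeval x (g j)) -
          aeval (fun i => w l₁ * x i) φ * ((w l₁) ^ e * aeval x (g s))) := by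
      ring
    rw [h5, ← hj, ← hs, h2, sub_self, mul_zero]
  exact (mul_eq_zero.1 h4).resolve_left (pow_ne_zero _ hw1)

end

end Pool.Agent.Lib.MP_17a322_nt.EQ
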