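import Pool.Agent.Lib.MP_17a322_nt.EQ.G5d
import Pool.Agent.Lib.MP_17a322_nt.EQ.G2b
import Pool.Agent.Lib.MP_17a322_nt.EQ.G2c
import Pool.Agent.Lib.MP_17a322_nt.EQ.G2d
import Pool.Agent.Lib.MP_17a322_nt.EQ.G4a
import Pool.Agent.Lib.MP_17a322_nt.EQ.G4c
import Pool.Agent.Lib.MP_17a322_nt.EQ.G4d

/-!
Vojta's conjecture and its case `D = 0`: the divisors on the product with the line.
-/

set_option linter.unusedSectionVars false

universe u

namespace Pool.Agent.Lib.MP_17a322_nt.EQ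

open MvPolynomial

section

variable {K : Type u} [Field K] {ι κ β : Type} [Fintype ι] [Fintype β]

theorem eqp_hom {Λ : Type} [Fintype Λ] {e : ℕ} {g : κ → MvPolynomial ι K}
    (hg : ∀ j, (g j).IsHomogeneous e) (z : Ix ι κ Λ) : (eqp g z).IsHomogeneous e := by
  rcases z with z | z
  · exact sub_hom (hg _) _
  · exact isHomogeneous_zero _ _ _

theorem eqs_hom {Λ : Type} {e : ℕ} (he : 0 < e) (S : Λ → Prop) [DecidablePred S] (z : Ix ι κ Λ) :
    (eqs e S z : MvPolynomial (ι × Λ) K).IsHomogeneous e := by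
  rcases z with z | z
  · exact isHomogeneous_zero _ _ _
  · have h1 : (eqs e S (Sum.inr z : Ix ι κ Λ) : MvPolynomial (ι × Λ) K) =
        if S z.1.2 then X z.1 * X z.2 ^ (e - 1) else 0 := rfl
    rw [h1]
    split_ifs with h
    · have h2 := (isHomogeneous_X K z.1).mul ((isHomogeneous_X K z.2).pow (e - 1))
      rwa [one_mul, show 1 + (e - 1) = e by omega] at h2
    · exact isHomogeneous_zero _ _ _

section

variable {L : Type u} [Field L] [Algebra K L]

/-- The value of the equations of an inverse image. -/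
theorem G7_val {Λ : Type} [Fintype Λ] {e : ℕ} {g : κ → MvPolynomial ι K}
    (hg : ∀ j, (g j).IsHomogeneous e) {p : ι × Λ → L} {l₁ : Λ} {W : Λ → L}
    (hW : ∀ i l, p (i, l) = p (i, l₁) * W l) (k : κ) (l : Λ) :
    aeval p (eqp g (Sum.inl (k, l)) : MvPolynomial (ι × Λ) K) =
      W l ^ e * aeval (fun i => p (i, l₁)) (g k) := by
  have h1 : (eqp g (Sum.inl (k, l)) : MvPolynomial (ι × Λ) K) = sub (g k) l := rfl
  rw [h1, aeval_sub', ← aeval_mul (hg k)]
  congr 2
  funext i
  rw [hW i l, mul_comm]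

/-- The divisors through a point of the product: inverse images. -/
theorem G7_inl {e : ℕ} {f : β → κ → MvPolynomial ι K} (hf : ∀ b j, (f b j).IsHomogeneous e)
    (γ : Type) [Fintype γ] {p : ι × Bool → L} {l₁ : Bool} {W : Bool → L} (hW1 : W l₁ = 1)
    (hW : ∀ i l, p (i, l) = p (i, l₁) * W l) (b : β) :
    Sum.inl b ∈ thr (pf e f γ) p ↔ b ∈ thr f fun i => p (i, l₁) := by
  rw [mem_thr, mem_thr]
  constructor
  · intro h k
    have h1 := h (Sum.inl (k, l₁))
    have h2 : pf e f γ (Sum.inl b) (Sum.inl (k, l₁)) = eqp (f b) (Sum.inl (k, l₁)) := rfl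
    rw [h2, G7_val (hf b) hW, hW1, one_pow, one_mul] at h1
    exact h1
  · rintro h (⟨k, l⟩ | z)
    · have h2 : pf e f γ (Sum.inl b) (Sum.inl (k, l)) = eqp (f b) (Sum.inl (k, l)) := rfl
      rw [h2, G7_val (hf b) hW, h k, mul_zero]
    · have h2 : pf e f γ (Sum.inl b) (Sum.inr z) = 0 := rfl
      rw [h2, map_zero]

/-- The divisors through a point of the product: fibres. -/
theorem G7_inr {e : ℕ} (_he : 0 < e) {f : β → κ → MvPolynomial ι K}
    (γ : Type) [Fintype γ] {p : ι × Bool → L} {l₁ : Bool} {W : Bool → L} {i₁ : ι}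
    (hi : p (i₁, l₁) ≠ 0) (hW : ∀ i l, p (i, l) = p (i, l₁) * W l) (j : Bool) :
    Sum.inr (Sum.inl j) ∈ thr (pf e f γ) p ↔ W j = 0 := by
  rw [mem_thr]
  constructor
  · intro h
    have h1 := h (Sum.inr ((i₁, j), (i₁, l₁)))
    have h2 : pf e f γ (Sum.inr (Sum.inl j)) (Sum.inr ((i₁, j), (i₁, l₁))) =
        if j = j then X (i₁, j) * X (i₁, l₁) ^ (e - 1) else 0 := rfl
    rw [h2, if_pos rfl, map_mul, map_pow, aeval_X, aeval_X, hW i₁ j] at h1
    rcases mul_eq_zero.1 h1 with h3 | h3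
    · exact (mul_eq_zero.1 h3).resolve_left hi
    · exact absurd h3 (pow_ne_zero _ hi)
  · rintro h (z | ⟨⟨i, l⟩, z⟩)
    · have h2 : pf e f γ (Sum.inr (Sum.inl j)) (Sum.inl z) = 0 := rfl
      rw [h2, map_zero]
    · have h2 : pf e f γ (Sum.inr (Sum.inl j)) (Sum.inr ((i, l), z)) =
          if l = j then X (i, l) * X z ^ (e - 1) else 0 := rfl
      rw [h2]
      split_ifs with h3
      · rw [map_mul, aeval_X, hW i l, h3, h, mul_zero, zero_mul]
      · rw [map_zero]

/-- The empty divisors. -/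
theorem G7_emp {e : ℕ} {f : β → κ → MvPolynomial ι K} (γ : Type) [Fintype γ] {p : ι × Bool → L}
    {z : ι × Bool} (hz : p z ≠ 0) (c : γ) : Sum.inr (Sum.inr c) ∉ thr (pf e f γ) p := by
  rw [mem_thr]
  intro h
  have h1 := h (Sum.inr (z, z))
  have h2 : pf e f γ (Sum.inr (Sum.inr c)) (Sum.inr (z, z)) =
      if True then X z * X z ^ (e - 1) else 0 := rfl
  rw [h2, if_pos trivial, map_mul, map_pow, aeval_X] at h1
  exact mul_ne_zero hz (pow_ne_zero _ hz) h1

/-- The number of the divisors through a point of the product. -/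
theorem G7_card {e : ℕ} (he : 0 < e) {f : β → κ → MvPolynomial ι K}
    (hf : ∀ b j, (f b j).IsHomogeneous e) (γ : Type) [Fintype γ] {p : ι × Bool → L} {l₁ : Bool}
    {W : Bool → L} (hW1 : W l₁ = 1) {i₁ : ι} (hi : p (i₁, l₁) ≠ 0)
    (hW : ∀ i l, p (i, l) = p (i, l₁) * W l) :
    (thr (pf e f γ) p).card ≤ (thr f fun i => p (i, l₁)).card + 1 ∧
      (W (!l₁) ≠ 0 → (thr (pf e f γ) p).card ≤ (thr f fun i => p (i, l₁)).card) := by
  classical
  have key : ∀ b ∈ thr (pf e f γ) p, b ∈ insert (Sum.inr (Sum.inl (!l₁)) : β ⊕ Bool ⊕ γ)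
      ((thr f fun i => p (i, l₁)).map ⟨Sum.inl, Sum.inl_injective⟩) ∧ (W (!l₁) ≠ 0 →
        b ∈ (thr f fun i => p (i, l₁)).map (⟨Sum.inl, Sum.inl_injective⟩ : β ↪ β ⊕ Bool ⊕ γ)) := by
    rintro (b | j | c) hb
    · have h1 : Sum.inl b ∈ (thr f fun i => p (i, l₁)).map
          (⟨Sum.inl, Sum.inl_injective⟩ : β ↪ β ⊕ Bool ⊕ γ) :=
        Finset.mem_map.2 ⟨b, (G7_inl hf γ hW1 hW b).1 hb, rfl⟩
      exact ⟨Finset.mem_insert_of_mem h1, fun _ => h1⟩
    · have h1 := (G7_inr he γ hi hW j).1 hb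
      have h2 : j = !l₁ := by
        by_contra h
        have h3 : j = l₁ := by
          revert h
          cases j <;> cases l₁ <;> simp
        rw [h3, hW1] at h1
        exact one_ne_zero h1
      subst h2
      exact ⟨Finset.mem_insert_self _ _, fun h => absurd h1 h⟩
    · exact absurd hb (G7_emp γ hi c)
  constructor
  · have h1 := Finset.card_le_card (fun b hb => (key b hb).1 :
      thr (pf e f γ) p ⊆ insert (Sum.inr (Sum.inl (!l₁)) : β ⊕ Bool ⊕ γ)
        ((thr f fun i => p (i, l₁)).map ⟨Sum.inl, Sum.inl_injective⟩))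
    have h2 := Finset.card_insert_le (Sum.inr (Sum.inl (!l₁)) : β ⊕ Bool ⊕ γ)
      ((thr f fun i => p (i, l₁)).map ⟨Sum.inl, Sum.inl_injective⟩)
    rw [Finset.card_map] at h2
    exact h1.trans h2
  · intro h
    have h1 := Finset.card_le_card (fun b hb => (key b hb).2 h :
      thr (pf e f γ) p ⊆ (thr f fun i => p (i, l₁)).map
        (⟨Sum.inl, Sum.inl_injective⟩ : β ↪ β ⊕ Bool ⊕ γ))
    rwa [Finset.card_map] at h1

end

/-- The bound for `snc_of_bound` for the product: local equations of the divisors through a point, and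
the dimension of the space of the tangent vectors killed by their differentials. -/
theorem prod_bound {J : Ideal (MvPolynomial ι K)} {n e : ℕ} {f : β → κ → MvPolynomial ι K}
    (hJ : Smooth J n) (hf : Snc J e f) (γ : Type) [Fintype γ] (L : Type u) [Field L] [Algebra K L]
    (p : ι × Bool → L) (hp : IsPt (pJ J) p) :
    ∃ s : β ⊕ Bool ⊕ γ → Ix ι κ Bool,
      (∀ b ∈ thr (pf e f γ) p, LG (pJ J) (pf e f γ b) p (s b)) ∧
      Module.finrank L (Nsp (pJ J) p (fun b => pf e f γ b (s b)) (thr (pf e f γ) p)) +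
        (thr (pf e f γ) p).card ≤ (n + 1) + 1 := by
  classical
  obtain ⟨⟨i₁, l₁⟩, hi⟩ : ∃ z, p z ≠ 0 := by
    by_contra h
    push Not at h
    exact hp.1 (funext h)
  have hl : ∃ i, p (i, l₁) ≠ 0 := ⟨i₁, hi⟩
  obtain ⟨hxp, W, hW1, hW⟩ := gJ_pt hJ.homog pgen_zero hp hl
  obtain ⟨s₀, hs₀, hind⟩ := hf.thr_LG hxp
  let s : β ⊕ Bool ⊕ γ → Ix ι κ Bool := Sum.elim (fun b => Sum.inl (s₀ b, l₁))
    (Sum.elim (fun j => Sum.inr ((i₁, j), (i₁, l₁))) fun _ => Sum.inr ((i₁, l₁), (i₁, l₁)))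
  refine ⟨s, ?_, ?_⟩
  · rintro (b | j | c) hb
    · exact LG_eqp hJ.homog pgen_zero hl (hf.homog b) (hs₀ b ((G7_inl hf.homog γ hW1 hW b).1 hb))
    · refine LG_eqs (fun i i' l l' => segre_mem i i' l l') hi hf.pos (fun l => l = j) rfl 1
        (by rw [map_one]; exact one_ne_zero) ?_
      rintro l rfl
      refine ⟨1, fun i => ?_⟩
      rw [sub_self]
      exact Submodule.zero_mem _
    · exact absurd hb (G7_emp γ hi c)
  · have hb0 := snc_bound hJ hxp (g := fun b => f b (s₀ b)) hind (Finset.Subset.refl _)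
    obtain ⟨hc1, hc2⟩ := G7_card hf.pos hf.homog γ hW1 hi hW
    set N := Nsp (pJ J) p (fun b => pf e f γ b (s b)) (thr (pf e f γ) p) with hN
    set N₀ := Nsp J (fun i => p (i, l₁)) (fun b => f b (s₀ b)) (thr f fun i => p (i, l₁)) with hN₀
    let π : (ι × Bool → L) →ₗ[L] (ι → L) := LinearMap.funLeft L L fun i => (i, l₁)
    have hπ : ∀ y ∈ N, π y ∈ N₀ := by
      intro y hy
      rw [hN, mem_Nsp] at hy
      rw [hN₀, mem_Nsp]
      refine ⟨(gJ_tan hJ.homog pgen_zero hl hW1 hW hy.1).1, fun b hb => ?_⟩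
      have h1 := hy.2 (Sum.inl b) ((G7_inl hf.homog γ hW1 hW b).2 hb)
      have h2 : pf e f γ (Sum.inl b) (s (Sum.inl b)) = sub (f b (s₀ b)) l₁ := rfl
      rw [h2, dif_sub'] at h1
      exact h1
    have hinj : ∀ y ∈ N, π y = 0 → y (i₁, !l₁) = 0 → y = 0 := by
      intro y hy h0 h1
      rw [hN, mem_Nsp] at hy
      obtain ⟨_, ω, _, hω⟩ := gJ_tan hJ.homog pgen_zero hl hW1 hW hy.1
      have h2 : ∀ i, y (i, l₁) = 0 := fun i => congrFun h0 i
      have h3 : ω (!l₁) = 0 := by
        have h4 := hω i₁ (!l₁)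
        rw [h1, h2, zero_mul, zero_add] at h4
        exact (mul_eq_zero.1 h4.symm).resolve_left hi
      funext z
      obtain ⟨i, l⟩ := z
      have h5 : l = l₁ ∨ l = !l₁ := by
        cases l <;> cases l₁ <;> simp
      rcases h5 with rfl | rfl
      · exact h2 i
      · rw [hω i (!l₁), h2, h3, zero_mul, mul_zero, add_zero]
        rfl
    by_cases hW2 : W (!l₁) = 0
    · -- the point lies on the fibre
      have hz : ∀ y ∈ N, y (i₁, !l₁) = 0 := by
        intro y hy
        rw [hN, mem_Nsp] at hy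
        have h1 := hy.2 (Sum.inr (Sum.inl (!l₁))) ((G7_inr hf.pos γ hi hW (!l₁)).2 hW2)
        have h2 : pf e f γ (Sum.inr (Sum.inl (!l₁))) (s (Sum.inr (Sum.inl (!l₁)))) =
            if (!l₁) = !l₁ then X (i₁, !l₁) * X (i₁, l₁) ^ (e - 1) else 0 := rfl
        rw [h2, if_pos rfl, dif_mul, dif_X, map_pow, aeval_X, aeval_X, hW i₁ (!l₁), hW2, mul_zero,
          zero_mul, zero_add] at h1
        exact (mul_eq_zero.1 h1).resolve_left (pow_ne_zero _ hi)
      let T : N →ₗ[L] N₀ := (π.comp N.subtype).codRestrict N₀ fun y => hπ y.1 y.2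
      have hT : Function.Injective T := by
        rw [injective_iff_map_eq_zero]
        intro y hy
        have h1 : π y.1 = 0 := congrArg Subtype.val hy
        exact Subtype.ext (hinj y.1 y.2 h1 (hz y.1 y.2))
      have h1 := LinearMap.finrank_le_finrank_of_injective hT
      omega
    · let T : N →ₗ[L] N₀ × L := ((π.comp N.subtype).codRestrict N₀ fun y => hπ y.1 y.2).prod
        ((LinearMap.proj (i₁, !l₁)).comp N.subtype)
      have hT : Function.Injective T := by
        rw [injective_iff_map_eq_zero]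
        intro y hy
        have h1 : π y.1 = 0 := congrArg Subtype.val (congrArg Prod.fst hy)
        have h2 : y.1 (i₁, !l₁) = 0 := congrArg Prod.snd hy
        exact Subtype.ext (hinj y.1 y.2 h1 h2)
      have h1 := LinearMap.finrank_le_finrank_of_injective hT
      rw [Module.finrank_prod, Module.finrank_self] at h1
      have h2 := hc2 hW2
      omega

/-- The product with the projective line. -/
theorem prod_snc {J : Ideal (MvPolynomial ι K)} {n e : ℕ} {f : β → κ → MvPolynomial ι K}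
    (hJ : Smooth J n) (hf : Snc J e f) (γ : Type) [Fintype γ] :
    Smooth (pJ J) (n + 1) ∧ Snc (pJ J) e (pf e f γ) := by
  refine snc_of_bound (pJ_prime hJ.prime) pJ_homog hf.pos ?_ ?_ ?_
  · intro b z
    rcases b with b | b | b
    · exact eqp_hom (hf.homog b) z
    · exact eqs_hom hf.pos (fun l => l = b) z
    · exact eqs_hom hf.pos (fun _ => True) z
  · intro L _ _ p hp
    exact pJ_lower hJ hp
  · intro L _ _ p hp
    exact prod_bound hJ hf γ L p hp

end

end Pool.Agent.Lib.MP_17a322_nt.EQ
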