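import Pool.Agent.Lib.MP_17a322_nt.EQ.G8

/-!
Vojta's conjecture and its case `D = 0`: local heights on the blow-up.
-/

set_option linter.unusedSectionVars false

universe u

namespace Pool.Agent.Lib.MP_17a322_nt.EQ

open MvPolynomial Height NumberField

section

variable {K : Type u} [Field K]

theorem G8b_sup {α : Type} [Finite α] {f : α → ℝ} {c : ℝ} (h1 : ∀ i, f i ≤ c)
    (h2 : ∃ i, f i = c) : ⨆ i, f i = c := by
  obtain ⟨i, hi⟩ := h2
  have : Nonempty α := ⟨i⟩
  refine le_antisymm (ciSup_le h1) ?_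
  rw [← hi]
  exact le_ciSup (Set.finite_range f).bddAbove i

theorem G8b_att {α : Type} [Finite α] (V : AbsoluteValue K ℝ) {x : α → K} (hx : x ≠ 0) :
    ∃ i, V (x i) = ⨆ i, V (x i) := by
  obtain ⟨i, _⟩ := Function.ne_iff.1 hx
  have : Nonempty α := ⟨i⟩
  exact exists_eq_ciSup_of_finite

theorem G8b_le {α : Type} [Finite α] (V : AbsoluteValue K ℝ) (x : α → K) (i : α) :
    V (x i) ≤ ⨆ i, V (x i) :=
  le_ciSup (f := fun i => V (x i)) (Set.finite_range _).bddAbove i

theorem G8b_pos {α : Type} [Finite α] (V : AbsoluteValue K ℝ) {x : α → K} (hx : x ≠ 0) :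
    0 < ⨆ i, V (x i) := by
  obtain ⟨i, hi⟩ := Function.ne_iff.1 hx
  exact lt_of_lt_of_le (V.pos hi) (G8b_le V x i)

/-- The norm of a vector `x ⊗ w`. -/
theorem G8b_sg {α γ : Type} [Finite α] [Finite γ] (V : AbsoluteValue K ℝ) {x : α → K} {w : γ → K}
    (hx : x ≠ 0) (hw : w ≠ 0) :
    ⨆ z : α × γ, V (sg x w z) = (⨆ i, V (x i)) * ⨆ l, V (w l) := by
  obtain ⟨i, hi⟩ := G8b_att V hx
  obtain ⟨l, hl⟩ := G8b_att V hw
  refine G8b_sup (fun z => ?_) ⟨(i, l), ?_⟩
  · rw [sg, map_mul]
    exact mul_le_mul (G8b_le V x z.1) (G8b_le V w z.2) (V.nonneg _) (G8b_pos V hx).le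
  · rw [sg, map_mul, hi, hl]

variable {ι κ κ' Λ : Type} [Fintype ι] [Fintype κ] [Fintype κ'] [Fintype Λ]

/-- The value of `sub g l` at `x ⊗ w`. -/
theorem G8b_eval {e : ℕ} {g : MvPolynomial ι K} (hg : g.IsHomogeneous e) (q : ι → K) (w : Λ → K)
    (l : Λ) : eval (sg q w) (sub g l) = w l ^ e * eval q g := by
  have h1 : eval (sg q w) (sub g l) = aeval (sg q w) (sub g l) := rfl
  have h2 : (fun i => sg q w (i, l)) = fun i => w l * q i := by
    funext i
    rw [sg, mul_comm]
  rw [h1, aeval_sub', h2, aeval_mul hg]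
  rfl

/-- The norm of the value of the equations `eqp g`. -/
theorem G8b_eqp {e : ℕ} (V : AbsoluteValue K ℝ) {g : κ' → MvPolynomial ι K}
    (hg : ∀ k, (g k).IsHomogeneous e) {q : ι → K} {w : Λ → K}
    (hgq : (fun k => eval q (g k)) ≠ 0) (hw : w ≠ 0) :
    ⨆ j : Ix ι κ' Λ, V (eval (sg q w) (eqp g j)) =
      (⨆ l, V (w l)) ^ e * ⨆ k, V (eval q (g k)) := by
  obtain ⟨l, hl⟩ := G8b_att V hw
  obtain ⟨k, hk⟩ := G8b_att V hgq
  have h0 : 0 ≤ (⨆ l, V (w l)) ^ e * ⨆ k, V (eval q (g k)) :=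
    mul_nonneg (pow_nonneg (G8b_pos V hw).le e) (G8b_pos V hgq).le
  refine G8b_sup (fun j => ?_) ⟨Sum.inl (k, l), ?_⟩
  · rcases j with z | z
    · rw [eqp, Sum.elim_inl, G8b_eval (hg z.1), map_mul, map_pow]
      exact mul_le_mul (pow_le_pow_left₀ (V.nonneg _) (G8b_le V w z.2) e)
        (G8b_le V (fun k => eval q (g k)) z.1) (V.nonneg _) (pow_nonneg (G8b_pos V hw).le e)
    · rw [eqp, Sum.elim_inr, Pi.zero_apply, map_zero, map_zero]
      exact h0
  · rw [eqp, Sum.elim_inl, G8b_eval (hg k), map_mul, map_pow, hl, hk]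

/-- The norm of the value of the equations `eqs e s`. -/
theorem G8b_eqs {e : ℕ} (V : AbsoluteValue K ℝ) (s : Λ → Prop) [DecidablePred s]
    {q : ι → K} {w : Λ → K} (hq : q ≠ 0) (hw : w ≠ 0) {S : ℝ} (h1 : ∀ l, s l → V (w l) ≤ S)
    (h2 : ∃ l, s l ∧ V (w l) = S) :
    ⨆ j : Ix ι κ' Λ, V (eval (sg q w) (eqs e s j)) =
      ((⨆ i, V (q i)) * S) * ((⨆ i, V (q i)) * ⨆ l, V (w l)) ^ (e - 1) := by
  obtain ⟨i, hi⟩ := G8b_att V hq
  obtain ⟨l, hl⟩ := G8b_att V hw
  obtain ⟨l', hl', hS⟩ := h2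
  have hN := G8b_pos V hq
  have hW := G8b_pos V hw
  have hS0 : 0 ≤ S := by rw [← hS]; exact V.nonneg _
  refine G8b_sup (fun j => ?_) ⟨Sum.inr ((i, l'), (i, l)), ?_⟩
  · rcases j with z | z
    · rw [eqs, Sum.elim_inl, Pi.zero_apply, map_zero, map_zero]
      positivity
    · rw [eqs, Sum.elim_inr]
      by_cases hz : s z.1.2
      · rw [if_pos hz, map_mul, map_pow, eval_X, eval_X, map_mul, map_pow, sg, sg, map_mul, map_mul]
        refine mul_le_mul (mul_le_mul (G8b_le V q z.1.1) (h1 _ hz) (V.nonneg _) hN.le)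
          (pow_le_pow_left₀ (mul_nonneg (V.nonneg _) (V.nonneg _))
            (mul_le_mul (G8b_le V q z.2.1) (G8b_le V w z.2.2) (V.nonneg _) hN.le) _)
          (pow_nonneg (mul_nonneg (V.nonneg _) (V.nonneg _)) _) (mul_nonneg hN.le hS0)
      · rw [if_neg hz, map_zero, map_zero]
        positivity
  · rw [eqs, Sum.elim_inr, if_pos hl', map_mul, map_pow, eval_X, eval_X, map_mul, map_pow, sg, sg,
      map_mul, map_mul, hi, hS, hl]

/-- The norm of the value of the equations of the centre. -/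
theorem G8b_cen (V : AbsoluteValue K ℝ) {g h : κ → MvPolynomial ι K} {q : ι → K}
    (hg : (fun k => eval q (g k)) ≠ 0) (hh : (fun k => eval q (h k)) ≠ 0) :
    ⨆ l, V (eval q (cen g h l)) = max (⨆ k, V (eval q (g k))) (⨆ k, V (eval q (h k))) := by
  obtain ⟨i, hi⟩ := G8b_att V hg
  obtain ⟨j, hj⟩ := G8b_att V hh
  refine G8b_sup (fun l => ?_) ?_
  · rcases l with k | k
    · exact le_max_of_le_left (G8b_le V (fun k => eval q (g k)) k)
    · exact le_max_of_le_right (G8b_le V (fun k => eval q (h k)) k)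
  · rcases le_total (⨆ k, V (eval q (g k))) (⨆ k, V (eval q (h k))) with hle | hle
    · rw [max_eq_right hle]
      exact ⟨Sum.inr j, hj⟩
    · rw [max_eq_left hle]
      exact ⟨Sum.inl i, hi⟩

end

section

variable {K : Type u} [Field K] [NumberField K] {ι κ β : Type} [Fintype ι] [Fintype κ] [Fintype β]
  [DecidableEq β] {J : Ideal (MvPolynomial ι K)} {e : ℕ} {f : β → κ → MvPolynomial ι K} {a b c : β}

/-- The local heights of the image. -/
theorem bq_prf (he : 0 < e) (hfh : ∀ b j, (f b j).IsHomogeneous e) (hab : a ≠ b) (hac : a ≠ c)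
    (hbc : b ≠ c) {q : ι → K} (hq : q ≠ 0) (ho : Off f q) (v : Pl K) :
    prf e (bf e f (a, b, c)) (bq f a b q) v = stp (a, b, c) (prf e f q v) := by
  have hF : ∀ b, (fun k => eval q (f b k)) ≠ 0 := by
    intro b h
    obtain ⟨j, hj⟩ := ho b
    exact hj (congrFun h j)
  obtain ⟨w, hw⟩ : ∃ w : κ ⊕ κ → K, w = fun l => eval q (cen (f a) (f b) l) := ⟨_, rfl⟩
  have hbq : bq f a b q = sg q w := by rw [hw]; rfl
  have hw0 : w ≠ 0 := by
    intro h
    refine hF a (funext fun k => ?_)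
    have h1 := congrFun h (Sum.inl k)
    rw [hw] at h1
    exact h1
  have hcen : ∀ i i' : β, ∀ l, (cen (f i) (f i') l).IsHomogeneous e := by
    intro i i' l
    rcases l with k | k
    · exact hfh i k
    · exact hfh i' k
  have hcen0 : ∀ i i' : β, (fun l => eval q (cen (f i) (f i') l)) ≠ 0 := by
    intro i i' h
    exact hF i (funext fun k => congrFun h (Sum.inl k))
  obtain ⟨V, hV⟩ : ∃ V : AbsoluteValue K ℝ, V = av v := ⟨_, rfl⟩
  have hN := G8b_pos V hq
  have hW := G8b_pos V hw0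
  have hFa := G8b_pos V (hF a)
  have hFb := G8b_pos V (hF b)
  have hmax : ⨆ l, V (w l) = max (⨆ k, V (eval q (f a k))) (⨆ k, V (eval q (f b k))) := by
    rw [hw]
    exact G8b_cen V (hF a) (hF b)
  have hlogmax : Real.log (⨆ l, V (w l)) =
      max (Real.log (⨆ k, V (eval q (f a k)))) (Real.log (⨆ k, V (eval q (f b k)))) := by
    rw [hmax]
    rcases le_total (⨆ k, V (eval q (f a k))) (⨆ k, V (eval q (f b k))) with hle | hle
    · rw [max_eq_right hle, max_eq_right (Real.log_le_log hFa hle)]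
    · rw [max_eq_left hle, max_eq_left (Real.log_le_log hFb hle)]
  have hmin : min (prf e f q v a) (prf e f q v b) =
      e * Real.log (⨆ i, V (q i)) - Real.log (⨆ l, V (w l)) := by
    rw [hlogmax, prf, prf, lam, lam, ← hV]
    rcases le_total (Real.log (⨆ k, V (eval q (f a k)))) (Real.log (⨆ k, V (eval q (f b k))))
      with hle | hle
    · rw [max_eq_right hle, min_eq_right (by linarith)]
    · rw [max_eq_left hle, min_eq_left (by linarith)]
  have hnorm : ⨆ z, V (bq f a b q z) = (⨆ i, V (q i)) * ⨆ l, V (w l) := by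
    rw [hbq]
    exact G8b_sg V hq hw0
  have he1 : ((e - 1 : ℕ) : ℝ) = e - 1 := by
    rw [Nat.cast_sub (by omega), Nat.cast_one]
  have hlogn : Real.log ((⨆ i, V (q i)) * ⨆ l, V (w l)) =
      Real.log (⨆ i, V (q i)) + Real.log (⨆ l, V (w l)) := Real.log_mul hN.ne' hW.ne'
  -- the norm for `eqp`
  have hp : ∀ i i' : β, lam V e (eqp (Λ := κ ⊕ κ) (cen (f i) (f i'))) (bq f a b q) =
      e * Real.log (⨆ i, V (q i)) -
        Real.log (max (⨆ k, V (eval q (f i k))) (⨆ k, V (eval q (f i' k)))) := by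
    intro i i'
    rw [lam, hnorm, hbq, G8b_eqp V (hcen i i') (hcen0 i i') hw0, G8b_cen V (hF i) (hF i'),
      Real.log_mul (pow_pos hW e).ne' (lt_max_of_lt_left (G8b_pos V (hF i))).ne', Real.log_pow,
      hlogn]
    ring
  -- the norm for `eqs`
  have hs : ∀ (s : κ ⊕ κ → Prop) [DecidablePred s] (S : ℝ), 0 < S → (∀ l, s l → V (w l) ≤ S) →
      (∃ l, s l ∧ V (w l) = S) →
      lam V e (eqs (ι := ι) (κ := κ ⊕ κ) e s) (bq f a b q) =
        Real.log (⨆ l, V (w l)) - Real.log S := by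
    intro s _ S hS0 h1 h2
    rw [lam, hnorm, hbq, G8b_eqs V s hq hw0 h1 h2,
      Real.log_mul (mul_pos hN hS0).ne' (pow_pos (mul_pos hN hW) _).ne', Real.log_pow,
      Real.log_mul hN.ne' hS0.ne', he1, hlogn]
    ring
  funext i
  rw [prf, ← hV]
  by_cases hic : i = c
  · subst hic
    have e1 : bf e f (a, b, i) i = eqp (cen (f a) (f b)) := by
      rw [bf, if_pos rfl]
    have e2 : stp (a, b, i) (prf e f q v) i = min (prf e f q v a) (prf e f q v b) := by
      rw [stp, if_pos rfl]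
    rw [e1, e2, hp, hmin, hmax]
  · by_cases hia : i = a
    · subst hia
      have e1 : bf e f (i, b, c) i = eqs e (fun l => l.isLeft = true) := by
        rw [bf, if_neg hic, if_pos rfl]
      have e2 : stp (i, b, c) (prf e f q v) i =
          prf e f q v i - min (prf e f q v i) (prf e f q v b) := by
        rw [stp, if_neg hic, if_pos rfl]
      rw [e1, e2, hmin, hs (fun l => l.isLeft = true) (⨆ k, V (eval q (f i k))) hFa]
      · rw [prf, lam, ← hV]
        ring
      · intro l hl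
        rcases l with k | k
        · rw [hw]
          exact G8b_le V (fun k => eval q (f i k)) k
        · simp at hl
      · obtain ⟨k, hk⟩ := G8b_att V (hF i)
        refine ⟨Sum.inl k, rfl, ?_⟩
        rw [hw]
        exact hk
    · by_cases hib : i = b
      · subst hib
        have e1 : bf e f (a, i, c) i = eqs e (fun l => l.isRight = true) := by
          rw [bf, if_neg hic, if_neg hia, if_pos rfl]
        have e2 : stp (a, i, c) (prf e f q v) i =
            prf e f q v i - min (prf e f q v a) (prf e f q v i) := by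
          rw [stp, if_neg hic, if_neg hia, if_pos rfl]
        rw [e1, e2, hmin, hs (fun l => l.isRight = true) (⨆ k, V (eval q (f i k))) hFb]
        · rw [prf, lam, ← hV]
          ring
        · intro l hl
          rcases l with k | k
          · simp at hl
          · rw [hw]
            exact G8b_le V (fun k => eval q (f i k)) k
        · obtain ⟨k, hk⟩ := G8b_att V (hF i)
          refine ⟨Sum.inr k, rfl, ?_⟩
          rw [hw]
          exact hk
      · have e1 : bf e f (a, b, c) i = eqp (cen (f i) (f i)) := by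
          rw [bf, if_neg hic, if_neg hia, if_neg hib]
        have e2 : stp (a, b, c) (prf e f q v) i = prf e f q v i := by
          rw [stp, if_neg hic, if_neg hia, if_neg hib]
        rw [e1, e2, hp, max_self, prf, lam, ← hV]

end

end Pool.Agent.Lib.MP_17a322_nt.EQ
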