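import Pool.Agent.Lib.MP_17a322_nt.EQ.G4

/-!
Vojta's conjecture and its case `D = 0`: relations on the closure of a graph.
-/

set_option linter.unusedSectionVars false

universe u

namespace Pool.Agent.Lib.MP_17a322_nt.EQ

open MvPolynomial

section

variable {K : Type u} [Field K] {ι Λ : Type} [Fintype ι] [Fintype Λ] {J : Ideal (MvPolynomial ι K)}
  {R : Type u} [CommRing R] [Algebra K R] {x : ι → R} {w : Λ → R}

/-- A relation `A W_l = B W_l'` and its differential, in the chart `l₁` with `W l₁ = 1`. -/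
theorem rel_eval {L : Type u} [Field L] [Algebra K L] {I : Ideal (MvPolynomial (ι × Λ) K)}
    {p : ι × Λ → L} (hp : IsPt I p) {l₁ : Λ} {i₁ : ι} (hi : p (i₁, l₁) ≠ 0) {W : Λ → L}
    (hpW : ∀ i l, p (i, l) = p (i, l₁) * W l) {A B : MvPolynomial ι K} {l l' : Λ}
    (h : sub A l₁ * X (i₁, l) - sub B l₁ * X (i₁, l') ∈ I) :
    aeval (fun i => p (i, l₁)) A * W l = aeval (fun i => p (i, l₁)) B * W l' ∧
    ∀ (y : ι × Λ → L) (ω : Λ → L), y ∈ Tan I p →
      (∀ i l, y (i, l) = y (i, l₁) * W l + p (i, l₁) * ω l) →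
      dif (fun i => p (i, l₁)) A (fun i => y (i, l₁)) * W l + aeval (fun i => p (i, l₁)) A * ω l =
        dif (fun i => p (i, l₁)) B (fun i => y (i, l₁)) * W l' +
          aeval (fun i => p (i, l₁)) B * ω l' := by
  have h1 : aeval (fun i => p (i, l₁)) A * W l = aeval (fun i => p (i, l₁)) B * W l' := by
    have h2 := hp.2 _ h
    rw [map_sub, map_mul, map_mul, aeval_X, aeval_X, aeval_sub', aeval_sub', hpW i₁ l,
      hpW i₁ l'] at h2
    have h3 : p (i₁, l₁) * (aeval (fun i => p (i, l₁)) A * W l -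
        aeval (fun i => p (i, l₁)) B * W l') = 0 := by
      rw [← h2]
      ring
    exact sub_eq_zero.1 ((mul_eq_zero.1 h3).resolve_left hi)
  refine ⟨h1, fun y ω hy hyω => ?_⟩
  have h2 := mem_Tan.1 hy _ h
  rw [dif_sub, dif_mul, dif_mul, dif_X, dif_X, aeval_X, aeval_X, aeval_sub', aeval_sub', dif_sub',
    dif_sub', hpW i₁ l, hpW i₁ l', hyω i₁ l, hyω i₁ l'] at h2
  have h3 : p (i₁, l₁) * ((dif (fun i => p (i, l₁)) A (fun i => y (i, l₁)) * W l +
      aeval (fun i => p (i, l₁)) A * ω l) -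
        (dif (fun i => p (i, l₁)) B (fun i => y (i, l₁)) * W l' +
          aeval (fun i => p (i, l₁)) B * ω l')) = 0 := by
    linear_combination h2 - y (i₁, l₁) * h1
  exact sub_eq_zero.1 ((mul_eq_zero.1 h3).resolve_left hi)

/-- Relations between forms of the same degree. -/
theorem rel_mem {k : ℕ} {A B : MvPolynomial ι K} (hA : A.IsHomogeneous k) (hB : B.IsHomogeneous k)
    {l l' : Λ} (h : aeval x A * w l = aeval x B * w l') (l₁ : Λ) (i₁ : ι) :
    (sub A l₁ * X (i₁, l) - sub B l₁ * X (i₁, l') : MvPolynomial (ι × Λ) K) ∈ gJ x w := by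
  rw [mem_gJ, map_sub, map_mul, map_mul, aeval_X, aeval_X, aeval_sub_gen, aeval_sub_gen,
    aeval_mul hA, aeval_mul hB]
  linear_combination (w l₁ ^ k * x i₁) * h

end

end Pool.Agent.Lib.MP_17a322_nt.EQ
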