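import Pool.Agent.Lib.MP_17a322_nt.EQ.G5c

/-!
Vojta's conjecture and its case `D = 0`: the dimension of the product with the line.
-/

set_option linter.unusedSectionVars false

universe u

namespace Pool.Agent.Lib.MP_17a322_nt.EQ

open MvPolynomial

section

variable {K : Type u} [Field K] {ι : Type} [Fintype ι] {J : Ideal (MvPolynomial ι K)}
  {L : Type u} [Field L] [Algebra K L]

/-- The dimension of the tangent spaces of the product with the line is at least `n + 2`. -/
theorem pJ_lower {n : ℕ} (hJ : Smooth J n) {p : ι × Bool → L} (hp : IsPt (pJ J) p) :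
    n + 2 ≤ Module.finrank L (Tan (pJ J) p) := by
  have hprime := hJ.prime
  have hdom : IsDomain (MvPolynomial ι K ⧸ J) := Ideal.Quotient.isDomain J
  have hinj : Function.Injective (algebraMap (MvPolynomial Bool (MvPolynomial ι K ⧸ J))
      (FractionRing (MvPolynomial Bool (MvPolynomial ι K ⧸ J)))) :=
    IsFractionRing.injective (MvPolynomial Bool (MvPolynomial ι K ⧸ J)) (FractionRing (MvPolynomial Bool (MvPolynomial ι K ⧸ J)))
  set am := algebraMap (MvPolynomial Bool (MvPolynomial ι K ⧸ J))
      (FractionRing (MvPolynomial Bool (MvPolynomial ι K ⧸ J))) with ham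
  set q₀ : ι → FractionRing (MvPolynomial Bool (MvPolynomial ι K ⧸ J)) := fun i => am (C (gen J i)) with hq₀
  set t₀ : Bool → FractionRing (MvPolynomial Bool (MvPolynomial ι K ⧸ J)) := fun j => am (X j) with ht₀
  have hsg : sg q₀ t₀ = fun z : ι × Bool => am (C (gen J z.1) * X z.2) := by
    funext z
    rw [map_mul]
    rfl
  have h₀ : ∀ F : MvPolynomial (ι × Bool) K, aeval (sg q₀ t₀) F = 0 → F ∈ pJ J := by
    intro F hF
    rw [pJ, mem_gJ]
    have h1 := aeval_algebraMap_apply (FractionRing (MvPolynomial Bool (MvPolynomial ι K ⧸ J)))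
      (fun z : ι × Bool => (C (gen J z.1) * X z.2 : MvPolynomial Bool (MvPolynomial ι K ⧸ J))) F
    rw [hsg] at hF
    apply hinj
    rw [map_zero]
    exact h1.symm.trans hF
  have hq : ∀ F ∈ J, aeval q₀ F = 0 := by
    intro F hF
    have h1 := aeval_algebraMap_apply (FractionRing (MvPolynomial Bool (MvPolynomial ι K ⧸ J)))
      (fun i : ι => (C (gen J i) : MvPolynomial Bool (MvPolynomial ι K ⧸ J))) F
    rw [pgen_zero F hF, map_zero] at h1
    exact h1
  have hq0 : q₀ ≠ 0 := by
    intro h
    apply hp.1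
    funext z
    have h1 : (C (gen J z.1) : MvPolynomial Bool (MvPolynomial ι K ⧸ J)) = 0 := by
      apply hinj
      rw [map_zero]
      exact congrFun h z.1
    have h2 : (X z : MvPolynomial (ι × Bool) K) ∈ pJ J := by
      rw [pJ, mem_gJ, aeval_X, h1, zero_mul]
    have h3 := hp.2 _ h2
    rw [aeval_X] at h3
    exact h3
  have htan := hJ.dim _ q₀ ⟨hq0, hq⟩
  refine le_trans ?_ (tan_lower h₀ hp.2)
  let ψ : (ι → FractionRing (MvPolynomial Bool (MvPolynomial ι K ⧸ J))) ×
      FractionRing (MvPolynomial Bool (MvPolynomial ι K ⧸ J)) →ₗ[FractionRing (MvPolynomial Bool (MvPolynomial ι K ⧸ J))]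
      (ι × Bool → FractionRing (MvPolynomial Bool (MvPolynomial ι K ⧸ J))) :=
    { toFun := fun yc z => yc.1 z.1 * t₀ z.2 + q₀ z.1 * (if z.2 then 0 else yc.2)
      map_add' := by
        intro a b
        funext z
        rcases z with ⟨i, j⟩
        cases j <;> simp <;> ring
      map_smul' := by
        intro a b
        funext z
        rcases z with ⟨i, j⟩
        cases j <;> simp <;> ring }
  let φ : Tan J q₀ × FractionRing (MvPolynomial Bool (MvPolynomial ι K ⧸ J)) →ₗ[FractionRing (MvPolynomial Bool (MvPolynomial ι K ⧸ J))]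
      Tan (pJ J) (sg q₀ t₀) :=
    LinearMap.codRestrict (Tan (pJ J) (sg q₀ t₀)) (ψ.comp (LinearMap.prodMap (Tan J q₀).subtype LinearMap.id)) (by
      rintro ⟨y, c⟩
      exact pJ_tan hq y.2 t₀ (fun j => if j then 0 else c))
  have hφ : Function.Injective φ := by
    rw [injective_iff_map_eq_zero]
    rintro ⟨y, c⟩ h
    have h1 : ψ ((y : ι → FractionRing (MvPolynomial Bool (MvPolynomial ι K ⧸ J))), c) = 0 := congrArg Subtype.val h
    have ht : t₀ true ≠ 0 := by
      intro h2
      have h3 : (X true : MvPolynomial Bool (MvPolynomial ι K ⧸ J)) = 0 := by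
        apply hinj
        rw [map_zero]
        exact h2
      exact X_ne_zero true h3
    have hy : (y : ι → FractionRing (MvPolynomial Bool (MvPolynomial ι K ⧸ J))) = 0 := by
      funext i
      have h2 := congrFun h1 (i, true)
      have h3 : (y : ι → FractionRing (MvPolynomial Bool (MvPolynomial ι K ⧸ J))) i * t₀ true + q₀ i * 0 = 0 := h2
      rw [mul_zero, add_zero] at h3
      exact (mul_eq_zero.1 h3).resolve_right ht
    obtain ⟨i, hi⟩ : ∃ i, q₀ i ≠ 0 := by
      by_contra hcon
      push Not at hcon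
      exact hq0 (funext hcon)
    have hc : c = 0 := by
      have h2 := congrFun h1 (i, false)
      have h3 : (y : ι → FractionRing (MvPolynomial Bool (MvPolynomial ι K ⧸ J))) i * t₀ false + q₀ i * c = 0 := h2
      rw [hy, Pi.zero_apply, zero_mul, zero_add] at h3
      exact (mul_eq_zero.1 h3).resolve_left hi
    rw [hc, Prod.mk_eq_zero]
    exact ⟨Subtype.ext hy, rfl⟩
  have h2 := LinearMap.finrank_le_finrank_of_injective hφ
  rw [Module.finrank_prod, htan, Module.finrank_self] at h2
  exact h2

end

end Pool.Agent.Lib.MP_17a322_nt.EQ
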