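import Pool.Agent.Lib.MP_17a322_nt.EQ.G2

/-!
Vojta's conjecture and its case `D = 0`: kernel vectors.
-/

set_option linter.unusedSectionVars false

universe u

namespace Pool.Agent.Lib.MP_17a322_nt.EQ

open MvPolynomial Height NumberField

section

variable {K : Type u} [Field K] {ι : Type} [Fintype ι] {J : Ideal (MvPolynomial ι K)}

/-- Kernel vectors of a matrix by Cramer's rule. -/
theorem cramer_ker {R : Type*} [CommRing R] {r m : ℕ} (A : Fin r → ι → R) (c : Fin r → ι)
    (o : Fin m → ι) (hco : Function.Bijective (Sum.elim c o)) :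
    ∃ y : Fin m → ι → R, (∀ s k, ∑ i, A s i * y k i = 0) ∧
      (∀ k k', y k (o k') = if k' = k then (Matrix.of fun s t => A s (c t)).det else 0) ∧
      ∀ k t, y k (c t) =
        - (Matrix.cramer (Matrix.of fun s t => A s (c t)) fun s => A s (o k)) t := by
  classical
  let E : Fin r ⊕ Fin m ≃ ι := Equiv.ofBijective (Sum.elim c o) hco
  have hEc : ∀ t, E (Sum.inl t) = c t := fun _ => rfl
  have hEo : ∀ k, E (Sum.inr k) = o k := fun _ => rfl
  have hEc' : ∀ t, E.symm (c t) = Sum.inl t := fun t => by rw [← hEc, E.symm_apply_apply]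
  have hEo' : ∀ k, E.symm (o k) = Sum.inr k := fun k => by rw [← hEo, E.symm_apply_apply]
  set M : Matrix (Fin r) (Fin r) R := Matrix.of fun s t => A s (c t) with hM
  refine ⟨fun k i => Sum.elim (fun t => - (Matrix.cramer M fun s => A s (o k)) t)
    (fun k' => if k' = k then M.det else 0) (E.symm i), ?_, ?_, ?_⟩
  · intro s k
    rw [← E.sum_comp, Fintype.sum_sum_type]
    simp only [hEc, hEo, hEc', hEo', Sum.elim_inl, Sum.elim_inr]
    have h1 := congrFun (Matrix.mulVec_cramer M fun s => A s (o k)) s
    simp only [Matrix.mulVec, dotProduct, Pi.smul_apply, smul_eq_mul] at h1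
    have h2 : ∑ t, A s (c t) * - (Matrix.cramer M fun s => A s (o k)) t =
        - (M.det * A s (o k)) := by
      rw [← h1, ← Finset.sum_neg_distrib]
      refine Finset.sum_congr rfl fun t _ => ?_
      rw [mul_neg]
      rfl
    rw [h2]
    simp
    ring
  · intro k k'
    simp only [hEo', Sum.elim_inr]
  · intro k t
    simp only [hEc', Sum.elim_inl]

end

end Pool.Agent.Lib.MP_17a322_nt.EQ
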