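import Pool.Agent.Lib.MP_17a322_nt.EQ.Int

/-!
The valuation claim for the blow-up: linear algebra over a valuation ring, differentials.
-/

set_option linter.unusedSectionVars false

universe u

namespace Pool.Agent.Lib.MP_17a322_nt.EQ.VC

open MvPolynomial

/-- Independent vectors have a nonzero maximal minor. -/
theorem exists_minor_ne_zero {L ι : Type*} [Field L] [Finite ι] {n : ℕ} (y : Fin n → ι → L)
    (hy : LinearIndependent L y) :
    ∃ s : Fin n → ι, (Matrix.of fun k m => y k (s m)).det ≠ 0 := by
  classical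
  have := Fintype.ofFinite ι
  let M : Matrix (Fin n) ι L := Matrix.of y
  have hr : M.rank = n := by
    have h0 : LinearIndependent L M.row := hy
    simpa using LinearIndependent.rank_matrix h0
  obtain ⟨g, hg1, hg2, hg3⟩ := Submodule.exists_fun_fin_finrank_span_eq L (Set.range M.col)
  have hfr : Module.finrank L (Submodule.span L (Set.range M.col)) = n := by
    rw [← Matrix.rank_eq_finrank_span_cols]
    exact hr
  choose t ht using hg1
  refine ⟨fun m => t (Fin.cast hfr.symm m), ?_⟩
  have hli : LinearIndependent L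
      (Matrix.of fun k m => y k (t (Fin.cast hfr.symm m))).col := by
    have h1 : (Matrix.of fun k m => y k (t (Fin.cast hfr.symm m))).col =
        g ∘ (Fin.cast hfr.symm) := by
      funext m
      simp only [Function.comp]
      rw [← ht]
      rfl
    rw [h1]
    exact hg3.comp _ (Fin.cast_injective _)
  have h2 := (Matrix.linearIndependent_cols_iff_isUnit.mp hli)
  exact ((Matrix.isUnit_iff_isUnit_det _).mp h2).ne_zero

/-- A subspace of `L ^ ι` has a basis with entries in the valuation ring `A` which is the identity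
matrix on some coordinates. -/
theorem lattice_basis {L ι : Type*} [Field L] [Finite ι] (A : ValuationSubring L)
    (V : Submodule L (ι → L)) {n : ℕ} (hV : Module.finrank L V = n) :
    ∃ (y : Fin n → ι → A) (T : Fin n → ι), (∀ k, (fun i => ((y k i : A) : L)) ∈ V) ∧
      ∀ k m, y k (T m) = if k = m then 1 else 0 := by
  classical
  have := Fintype.ofFinite ι
  have hfin : Module.Finite L V := inferInstance
  let b0 := Module.finBasisOfFinrankEq L V hV
  let b : Fin n → ι → L := fun k => (b0 k : ι → L)
  have hb : LinearIndependent L b := b0.linearIndependent.map' V.subtype V.ker_subtype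
  let M : (Fin n → ι) → Matrix (Fin n) (Fin n) L := fun s => Matrix.of fun j m => b j (s m)
  obtain ⟨s0, hs0⟩ := exists_minor_ne_zero b hb
  obtain ⟨T, -, hT⟩ := Finset.exists_max_image (Finset.univ : Finset (Fin n → ι))
    (fun s => A.valuation (M s).det) ⟨s0, Finset.mem_univ _⟩
  have hT0 : (M T).det ≠ 0 := by
    intro h0
    have := hT s0 (Finset.mem_univ _)
    rw [h0, map_zero] at this
    exact hs0 ((map_eq_zero _).mp (le_zero_iff.mp this))
  let y : Fin n → ι → L := fun k i => ∑ j, ((M T)⁻¹) k j * b j i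
  have hyA : ∀ k i, y k i ∈ A := by
    intro k i
    have h1 : y k i = (M (Function.update T k i)).det / (M T).det := by
      have h2 : (M (Function.update T k i)).det = Matrix.cramer (M T) (fun j => b j i) k := by
        rw [Matrix.cramer_apply]
        congr 1
        ext j m
        by_cases hm : m = k
        · subst hm
          simp [M]
        · simp [M, hm]
      rw [h2, Matrix.cramer_eq_adjugate_mulVec, Matrix.mulVec, dotProduct, Finset.sum_div]
      refine Finset.sum_congr rfl fun j _ => ?_
      rw [Matrix.inv_def, Matrix.smul_apply, Ring.inverse_eq_inv', smul_eq_mul]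
      field_simp
    rw [← A.valuation_le_one_iff, h1, map_div₀]
    refine div_le_one_of_le₀ (hT _ (Finset.mem_univ _)) zero_le
  refine ⟨fun k i => ⟨y k i, hyA k i⟩, T, ?_, ?_⟩
  · intro k
    have : (fun i => y k i) = ∑ j, ((M T)⁻¹) k j • b j := by
      funext i
      simp [y]
    change (fun i => y k i) ∈ V
    rw [this]
    exact V.sum_mem fun j _ => V.smul_mem _ (b0 j).2
  · intro k m
    have h1 : y k (T m) = ((M T)⁻¹ * M T) k m := by
      rw [Matrix.mul_apply]
      rfl
    rw [Matrix.nonsing_inv_mul _ (isUnit_iff_ne_zero.mpr hT0), Matrix.one_apply] at h1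
    apply Subtype.ext
    change y k (T m) = _
    rw [h1]
    split_ifs <;> rfl

/-- The determinant of the product of an integral matrix with a matrix is at most the largest
minor. -/
theorem val_det_mul_le {L ι' : Type*} [Field L] [Fintype ι'] [Nonempty ι'] (A : ValuationSubring L) {n : ℕ}
    (Z : Fin n → ι' → L) (R : Fin n → ι' → L) (hR : ∀ m z, R m z ∈ A) :
    ∃ s : Fin n → ι', A.valuation (Matrix.of fun m k => ∑ z, R m z * Z k z).det ≤
      A.valuation (Matrix.of fun k m => Z k (s m)).det := by
  classical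
  have hexp : (Matrix.of fun m k => ∑ z, R m z * Z k z).det =
      ∑ s : Fin n → ι', (∏ m, R m (s m)) * (Matrix.of fun k m => Z k (s m)).det := by
    have h1 : (Matrix.of fun m k => ∑ z, R m z * Z k z).det =
        Matrix.detRowAlternating fun m => ∑ z, R m z • fun k => Z k z := by
      congr 1
      funext m k
      simp
    rw [h1]
    have h2 := (Matrix.detRowAlternating (n := Fin n) (R := L)).toMultilinearMap.map_sum
      (fun m z => R m z • fun k => Z k z)
    refine h2.trans (Finset.sum_congr rfl fun s _ => ?_)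
    have h3 := (Matrix.detRowAlternating (n := Fin n) (R := L)).toMultilinearMap.map_smul_univ
      (fun m => R m (s m)) (fun m => fun k => Z k (s m))
    refine h3.trans ?_
    rw [smul_eq_mul]
    congr 1
    rw [← Matrix.det_transpose]
    rfl
  obtain ⟨s, -, hs⟩ := Finset.exists_max_image (Finset.univ : Finset (Fin n → ι'))
    (fun s => A.valuation (Matrix.of fun k m => Z k (s m)).det) Finset.univ_nonempty
  refine ⟨s, ?_⟩
  rw [hexp]
  refine A.valuation.map_sum_le fun t _ => ?_
  rw [map_mul]
  refine (mul_le_of_le_one_left' ?_).trans (hs t (Finset.mem_univ _))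
  rw [A.valuation_le_one_iff]
  exact prod_mem fun m _ => hR m (t m)



section basic

variable {K : Type u} [Field K] {ι Λ : Type} [Fintype ι]

theorem dif_apply {L : Type u} [CommRing L] [Algebra K L] (p : ι → L) (F : MvPolynomial ι K)
    (y : ι → L) : dif p F y = ∑ i, aeval p (pderiv i F) * y i := by
  simp [dif]

theorem dif_add {L : Type u} [CommRing L] [Algebra K L] (p : ι → L) (F G : MvPolynomial ι K) :
    dif p (F + G) = dif p F + dif p G := by
  ext y
  simp [dif, Finset.sum_add_distrib, add_mul]

theorem dif_zero {L : Type u} [CommRing L] [Algebra K L] (p : ι → L) :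
    dif p (0 : MvPolynomial ι K) = 0 := by
  ext y
  simp [dif]

theorem dif_sum {L : Type u} [CommRing L] [Algebra K L] (p : ι → L) {τ : Type*} (s : Finset τ)
    (F : τ → MvPolynomial ι K) : dif p (∑ t ∈ s, F t) = ∑ t ∈ s, dif p (F t) := by
  classical
  induction s using Finset.induction_on with
  | empty => simp [dif_zero]
  | insert a s ha ih => rw [Finset.sum_insert ha, Finset.sum_insert ha, dif_add, ih]

theorem dif_mul {L : Type u} [CommRing L] [Algebra K L] (p : ι → L) (F G : MvPolynomial ι K)
    (y : ι → L) : dif p (F * G) y = aeval p F * dif p G y + aeval p G * dif p F y := by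
  simp only [dif_apply, Finset.mul_sum, ← Finset.sum_add_distrib]
  refine Finset.sum_congr rfl fun i _ => ?_
  rw [Derivation.leibniz, map_add, smul_eq_mul, smul_eq_mul, map_mul, map_mul]
  ring

/-- The identity of Euler. -/
theorem dif_self {L : Type u} [CommRing L] [Algebra K L] (p : ι → L) {F : MvPolynomial ι K} {d : ℕ}
    (hF : F.IsHomogeneous d) : dif p F p = d * aeval p F := by
  have h := congrArg (aeval p) hF.sum_X_mul_pderiv
  rw [map_sum] at h
  rw [dif_apply]
  simp only [map_mul, aeval_X, nsmul_eq_mul, map_natCast] at h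
  rw [← h]
  exact Finset.sum_congr rfl fun i _ => mul_comm _ _

theorem aeval_smul {L : Type u} [CommRing L] [Algebra K L] (c : L) (p : ι → L)
    {F : MvPolynomial ι K} {d : ℕ} (hF : F.IsHomogeneous d) :
    aeval (c • p) F = c ^ d * aeval p F := by
  rw [aeval_def, aeval_def, eval₂_eq', eval₂_eq', Finset.mul_sum]
  refine Finset.sum_congr rfl fun m hm => ?_
  have h1 : m.degree = d := by
    rw [← hF (mem_support_iff.mp hm), Finsupp.degree_eq_weight_one]
    rfl
  have h2 : ∏ i, (c • p) i ^ m i = c ^ d * ∏ i, p i ^ m i := by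
    simp only [Pi.smul_apply, smul_eq_mul, mul_pow]
    rw [Finset.prod_mul_distrib, Finset.prod_pow_eq_pow_sum, ← h1, Finsupp.degree_eq_sum]
  rw [h2]
  ring

theorem dif_smul {L : Type u} [CommRing L] [Algebra K L] (c : L) (p : ι → L)
    {F : MvPolynomial ι K} {d : ℕ} (hF : F.IsHomogeneous d) (y : ι → L) :
    c * dif (c • p) F y = c ^ d * dif p F y := by
  rw [dif_apply, dif_apply, Finset.mul_sum, Finset.mul_sum]
  refine Finset.sum_congr rfl fun i _ => ?_
  have h1 := hF.pderiv (i := i)
  rcases Nat.eq_zero_or_pos d with hd | hd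
  · subst hd
    have h2 : pderiv i F = 0 := by
      rw [(totalDegree_eq_zero_iff_eq_C (p := F)).mp (Nat.le_zero.mp hF.totalDegree_le)]
      exact pderiv_C
    simp [h2]
  · obtain ⟨k, rfl⟩ : ∃ k, d = k + 1 := ⟨d - 1, by omega⟩
    rw [Nat.add_sub_cancel] at h1
    rw [aeval_smul c p h1]
    ring

theorem mem_Tan {J : Ideal (MvPolynomial ι K)} {L : Type u} [Field L] [Algebra K L] {p y : ι → L} :
    y ∈ Tan J p ↔ ∀ F ∈ J, dif p F y = 0 := by
  simp [Tan, Submodule.mem_iInf]

omit [Fintype ι] in
theorem sum_hc (F : MvPolynomial ι K) :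
    ∑ i ∈ Finset.range (F.totalDegree + 1), homogeneousComponent i F = F :=
  sum_homogeneousComponent F

theorem isPt_smul {J : Ideal (MvPolynomial ι K)} (hJ : ∀ F ∈ J, ∀ i, homogeneousComponent i F ∈ J)
    {L : Type u} [Field L] [Algebra K L] {p : ι → L} (hp : IsPt J p) {c : L} (hc : c ≠ 0) :
    IsPt J (c • p) := by
  refine ⟨smul_ne_zero hc hp.1, fun F hF => ?_⟩
  rw [← sum_hc F, map_sum]
  refine Finset.sum_eq_zero fun i _ => ?_
  rw [aeval_smul c p (homogeneousComponent_isHomogeneous i F), hp.2 _ (hJ F hF i), mul_zero]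

theorem mem_Tan_smul {J : Ideal (MvPolynomial ι K)}
    (hJ : ∀ F ∈ J, ∀ i, homogeneousComponent i F ∈ J)
    {L : Type u} [Field L] [Algebra K L] {p y : ι → L} {c : L} (hc : c ≠ 0) (hy : y ∈ Tan J p) :
    y ∈ Tan J (c • p) := by
  rw [mem_Tan] at hy ⊢
  intro F hF
  have h : c * dif (c • p) F y = 0 := by
    rw [← sum_hc F, dif_sum, LinearMap.sum_apply, Finset.mul_sum]
    refine Finset.sum_eq_zero fun i _ => ?_
    rw [dif_smul c p (homogeneousComponent_isHomogeneous i F), hy _ (hJ F hF i), mul_zero]
  exact (mul_eq_zero.mp h).resolve_left hc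

theorem self_mem_Tan {J : Ideal (MvPolynomial ι K)}
    (hJ : ∀ F ∈ J, ∀ i, homogeneousComponent i F ∈ J)
    {L : Type u} [Field L] [Algebra K L] {p : ι → L} (hp : IsPt J p) : p ∈ Tan J p := by
  rw [mem_Tan]
  intro F hF
  rw [← sum_hc F, dif_sum, LinearMap.sum_apply]
  refine Finset.sum_eq_zero fun i _ => ?_
  rw [dif_self p (homogeneousComponent_isHomogeneous i F), hp.2 _ (hJ F hF i), mul_zero]

theorem Ph_smul {L : Type u} [CommRing L] [Algebra K L] (w : Λ → MvPolynomial ι K) {e : ℕ}
    (hw : ∀ l, (w l).IsHomogeneous e) (c : L) (p y : ι → L) :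
    Ph w (c • p) y = c ^ e • Ph w p y := by
  funext z
  have h1 := dif_smul c p (hw z.2) y
  have h2 := aeval_smul c p (hw z.2)
  simp only [Ph, Pi.smul_apply, smul_eq_mul]
  rw [h2]
  linear_combination (p z.1) * h1

theorem dif_map {R S : Type u} [CommRing R] [CommRing S] [Algebra K R] [Algebra K S] [Algebra R S]
    [IsScalarTower K R S] (p y : ι → R) (F : MvPolynomial ι K) :
    dif (fun i => algebraMap R S (p i)) F (fun i => algebraMap R S (y i)) =
      algebraMap R S (dif p F y) := by
  rw [dif_apply, dif_apply, map_sum]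
  refine Finset.sum_congr rfl fun i _ => ?_
  rw [map_mul]
  congr 1
  exact aeval_algebraMap_apply S p (pderiv i F)

theorem Ph_map {R S : Type u} [CommRing R] [CommRing S] [Algebra K R] [Algebra K S] [Algebra R S]
    [IsScalarTower K R S] (w : Λ → MvPolynomial ι K) (p y : ι → R) (z : ι × Λ) :
    Ph w (fun i => algebraMap R S (p i)) (fun i => algebraMap R S (y i)) z =
      algebraMap R S (Ph w p y z) := by
  have h : aeval (fun i => algebraMap R S (p i)) (w z.2) = algebraMap R S (aeval p (w z.2)) :=
    aeval_algebraMap_apply S p (w z.2)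
  simp only [Ph, map_add, map_mul]
  rw [h, dif_map]

omit [Fintype ι] in
/-- Vectors in triangular position are linearly independent. -/
theorem li_of_coords {F : Type*} [Field F] {n : ℕ} (z : Fin (n + 1) → ι → F) (i0 : ι)
    (T : Fin n → ι) (h0 : z 0 i0 = 1) (h1 : ∀ k, z (Fin.succ k) i0 = 0)
    (h2 : ∀ k m, z (Fin.succ k) (T m) = if k = m then 1 else 0) : LinearIndependent F z := by
  rw [Fintype.linearIndependent_iff]
  intro g hg
  have hg0 : g 0 = 0 := by
    have := congrFun hg i0
    simpa [Finset.sum_apply, Fin.sum_univ_succ, h0, h1] using this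
  intro i
  refine Fin.cases hg0 (fun m => ?_) i
  have := congrFun hg (T m)
  simpa [Finset.sum_apply, Fin.sum_univ_succ, hg0, h2] using this

end basic



/-- A determinant. -/
theorem det_upd {F : Type*} [CommRing F] {n : ℕ} (α : F) (j : Fin n) (ρ : Fin n → F) :
    (Matrix.of fun m k : Fin n => if m = j then ρ k else if m = k then α else 0).det =
      ρ j * α ^ (n - 1) := by
  classical
  have h1 : (Matrix.of fun m k : Fin n => if m = j then ρ k else if m = k then α else 0) =
      (Matrix.diagonal fun m => if m = j then 1 else α) * (1 : Matrix (Fin n) (Fin n) F).updateRow j ρ := by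
    ext m k
    rw [Matrix.diagonal_mul, Matrix.of_apply, Matrix.updateRow_apply, Matrix.one_apply]
    by_cases h : m = j <;> simp [h]
  rw [h1, Matrix.det_mul, Matrix.det_diagonal]
  have h2 : ((1 : Matrix (Fin n) (Fin n) F).updateRow j ρ).det = ρ j := by
    have h3 := Matrix.cramer_transpose_apply (1 : Matrix (Fin n) (Fin n) F) ρ j
    rw [Matrix.transpose_one, Matrix.cramer_one] at h3
    simpa using h3.symm
  rw [h2, Finset.prod_ite, Finset.prod_const_one, one_mul, Finset.prod_const, mul_comm]
  congr 2
  rw [Finset.filter_ne' , Finset.card_erase_of_mem (Finset.mem_univ j)]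
  simp

section core

variable {K : Type u} [Field K] {ι Λ : Type} [Fintype ι] [Fintype Λ] {L : Type u} [Field L]
  [Algebra K L]

/-- The computation at a point over the centre. -/
theorem core (A : ValuationSubring L) {n e : ℕ} (w : Λ → MvPolynomial ι K)
    (hw : ∀ l, (w l).IsHomogeneous e) (p : ι → L) (hp : ∀ i, p i ∈ A) (i0 : ι) (hi0 : p i0 = 1)
    (y : Fin n → ι → L) (T : Fin n → ι) (hy0 : ∀ k, y k i0 = 0)
    (hyT : ∀ k m, y k (T m) = if k = m then 1 else 0) (l0 l1 : Λ) (s : L) (hs : s ∈ A)
    (hs1 : aeval p (w l1) = s * aeval p (w l0)) (j : Fin n)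
    (hj : A.valuation (dif p (w l1) (y j) - s * dif p (w l0) (y j)) = 1)
    (he : A.valuation ((1 : L) + e) = 1) :
    ∃ s' : Fin (n + 1) → ι × Λ, A.valuation (aeval p (w l0)) ^ n ≤
      A.valuation (Matrix.of fun k m => Ph w p (Fin.cons (α := fun _ => ι → L) p y k) (s' m)).det := by
  classical
  have hne : Nonempty (ι × Λ) := ⟨(i0, l0)⟩
  set α : L := aeval p (w l0) with hα
  set Z : Fin (n + 1) → ι × Λ → L := fun k => Ph w p (Fin.cons (α := fun _ => ι → L) p y k) with hZ
  let dl : ι × Λ → ι × Λ → L := fun z0 z => if z = z0 then 1 else 0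
  let R : Fin (n + 1) → ι × Λ → L := Fin.cons (dl (i0, l0)) fun m z =>
    if m = j then dl (i0, l1) z - s * dl (i0, l0) z else dl (T m, l0) z - p (T m) * dl (i0, l0) z
  have hdl : ∀ z0 z, dl z0 z ∈ A := by
    intro z0 z
    simp only [dl]
    split_ifs
    · exact A.one_mem
    · exact A.zero_mem
  have hR : ∀ m z, R m z ∈ A := by
    intro m z
    refine Fin.cases ?_ (fun m => ?_) m
    · exact hdl _ _
    · simp only [R, Fin.cons_succ]
      split_ifs
      · exact sub_mem (hdl _ _) (mul_mem hs (hdl _ _))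
      · exact sub_mem (hdl _ _) (mul_mem (hp _) (hdl _ _))
  obtain ⟨s', hs'⟩ := val_det_mul_le A Z R hR
  refine ⟨s', le_trans (le_of_eq ?_) hs'⟩
  have hsum : ∀ z0 k, ∑ z, dl z0 z * Z k z = Z k z0 := by
    intro z0 k
    simp [dl]
  have hZ0 : ∀ i l, Z 0 (i, l) = (1 + e) * (p i * aeval p (w l)) := by
    intro i l
    simp only [hZ, Fin.cons_zero, Ph]
    rw [dif_self p (hw l)]
    ring
  have hZs : ∀ k i l, Z (Fin.succ k) (i, l) = y k i * aeval p (w l) + p i * dif p (w l) (y k) := by
    intro k i l
    simp only [hZ, Fin.cons_succ, Ph]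
  have hN0 : ∀ k, ∑ z, R 0 z * Z k z = Z k (i0, l0) := fun k => hsum _ _
  have hNj : ∀ k, ∑ z, R (Fin.succ j) z * Z k z = Z k (i0, l1) - s * Z k (i0, l0) := by
    intro k
    rw [← hsum (i0, l1) k, ← hsum (i0, l0) k, Finset.mul_sum, ← Finset.sum_sub_distrib]
    refine Finset.sum_congr rfl fun z _ => ?_
    simp only [R, Fin.cons_succ, if_true]
    ring
  have hNm : ∀ m k, m ≠ j → ∑ z, R (Fin.succ m) z * Z k z =
      Z k (T m, l0) - p (T m) * Z k (i0, l0) := by
    intro m k hm
    rw [← hsum (T m, l0) k, ← hsum (i0, l0) k, Finset.mul_sum, ← Finset.sum_sub_distrib]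
    refine Finset.sum_congr rfl fun z _ => ?_
    simp only [R, Fin.cons_succ, if_neg hm]
    ring
  have hc0 : ∀ m, ∑ z, R (Fin.succ m) z * Z 0 z = 0 := by
    intro m
    by_cases hm : m = j
    · subst hm
      rw [hNj, hZ0, hZ0, hs1, hi0]
      ring
    · rw [hNm m 0 hm, hZ0, hZ0, hi0]
      ring
  have hcs : ∀ m k, ∑ z, R (Fin.succ m) z * Z (Fin.succ k) z =
      if m = j then dif p (w l1) (y k) - s * dif p (w l0) (y k) else if m = k then α else 0 := by
    intro m k
    by_cases hm : m = j
    · subst hm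
      rw [if_pos rfl, hNj, hZs, hZs, hy0, hi0]
      ring
    · rw [if_neg hm, hNm m _ hm, hZs, hZs, hy0, hi0, hyT]
      by_cases hmk : m = k
      · rw [if_pos hmk, if_pos hmk.symm]
        ring
      · rw [if_neg hmk, if_neg (fun h => hmk h.symm)]
        ring
  have hdet : (Matrix.of fun m k => ∑ z, R m z * Z k z).det =
      (1 + e) * α * ((dif p (w l1) (y j) - s * dif p (w l0) (y j)) * α ^ (n - 1)) := by
    rw [Matrix.det_succ_column_zero, Fin.sum_univ_succ]
    have h0 : ∑ i : Fin n, (-1 : L) ^ ((Fin.succ i : Fin (n + 1)) : ℕ) *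
        (Matrix.of fun m k => ∑ z, R m z * Z k z) (Fin.succ i) 0 *
        ((Matrix.of fun m k => ∑ z, R m z * Z k z).submatrix (Fin.succ i).succAbove Fin.succ).det
          = 0 := by
      refine Finset.sum_eq_zero fun i _ => ?_
      rw [Matrix.of_apply, hc0, mul_zero, zero_mul]
    rw [h0, add_zero, Matrix.of_apply, hN0, hZ0, hi0]
    have h1 : ((Matrix.of fun m k => ∑ z, R m z * Z k z).submatrix (Fin.succAbove 0) Fin.succ) =
        Matrix.of fun m k : Fin n => if m = j then dif p (w l1) (y k) - s * dif p (w l0) (y k)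
          else if m = k then α else 0 := by
      ext m k
      simp only [Matrix.submatrix_apply, Fin.zero_succAbove, Matrix.of_apply]
      exact hcs m k
    rw [h1, det_upd α j fun k => dif p (w l1) (y k) - s * dif p (w l0) (y k), ← hα]
    simp
  rw [hdet, map_mul, map_mul, map_mul, hj, he, one_mul, one_mul, map_pow, ← pow_succ']
  congr 1
  have := j.2
  omega

end core

end Pool.Agent.Lib.MP_17a322_nt.EQ.VC
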