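import Pool.Agent.Lib.MP_17a322_nt.EQ.D3

/-!
Vojta's conjecture and its case `D = 0`: the differential of a blow-up over a valuation ring.
-/

set_option linter.unusedSectionVars false

universe u

namespace Pool.Agent.Lib.MP_17a322_nt.EQ.VC

open MvPolynomial

section

variable {K : Type u} [Field K] {ι : Type} [Fintype ι] {L : Type u} [Field L] [Algebra K L]

/-- A normalised basis of the tangent space at a point with integral coordinates. -/
theorem good_basis (A : ValuationSubring L) [Algebra K A] [IsScalarTower K A L]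
    {J : Ideal (MvPolynomial ι K)} {n : ℕ} (hJ : Smooth J n) (p : ι → A) (i0 : ι) (hi0 : p i0 = 1)
    (hp : IsPt J fun i => (algebraMap A L (p i))) :
    ∃ (y : Fin n → ι → A) (T : Fin n → ι), (∀ k, y k i0 = 0) ∧
      (∀ k m, y k (T m) = if k = m then 1 else 0) ∧
      (∀ k, (fun i => algebraMap A L (y k i)) ∈ Tan J fun i => (algebraMap A L (p i))) ∧
      (∀ y' ∈ Tan J fun i => (algebraMap A L (p i)), ∃ g : Fin (n + 1) → L,
        y' = ∑ k, g k • (Fin.cons (α := fun _ => ι → L) (fun i => algebraMap A L (p i))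
          (fun k i => algebraMap A L (y k i)) k : ι → L)) := by
  classical
  set pL : ι → L := fun i => algebraMap A L (p i) with hpL
  have hpi0 : pL i0 = 1 := by
    simp [hpL, hi0]
  set V : Submodule L (ι → L) := Tan J pL with hV
  have hfr : Module.finrank L V = n + 1 := hJ.dim L pL hp
  have hpV : pL ∈ V := self_mem_Tan hJ.homog hp
  let φ0 : V →ₗ[L] L := (LinearMap.proj i0).domRestrict V
  have hφ0 : LinearMap.range φ0 = ⊤ := by
    rw [LinearMap.range_eq_top]
    intro c
    refine ⟨c • ⟨pL, hpV⟩, ?_⟩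
    simp [φ0, hpi0]
  have hker : Module.finrank L (LinearMap.ker φ0) = n := by
    have h := LinearMap.finrank_range_add_finrank_ker φ0
    rw [hφ0, finrank_top, Module.finrank_self, hfr] at h
    omega
  let V0 : Submodule L (ι → L) := (LinearMap.ker φ0).map V.subtype
  have hV0 : Module.finrank L V0 = n := by
    rw [← hker]
    exact (LinearEquiv.finrank_eq
      (Submodule.equivMapOfInjective V.subtype V.injective_subtype (LinearMap.ker φ0))).symm
  have hV0m : ∀ z, z ∈ V0 ↔ z ∈ V ∧ z i0 = 0 := by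
    intro z
    constructor
    · rintro ⟨z', hz', rfl⟩
      exact ⟨z'.2, hz'⟩
    · rintro ⟨h1, h2⟩
      exact ⟨⟨z, h1⟩, h2, rfl⟩
  obtain ⟨y, T, hy1, hy2⟩ := lattice_basis A V0 hV0
  have hy1' : ∀ k, (fun i => algebraMap A L (y k i)) ∈ V0 := hy1
  have hyi0 : ∀ k, y k i0 = 0 := by
    intro k
    have := ((hV0m _).mp (hy1' k)).2
    exact (map_eq_zero_iff _ (FaithfulSMul.algebraMap_injective A L)).mp this
  refine ⟨y, T, hyi0, hy2, fun k => ((hV0m _).mp (hy1' k)).1, ?_⟩
  let Y : Fin (n + 1) → ι → L :=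
    Fin.cons (α := fun _ => ι → L) pL (fun k i => algebraMap A L (y k i))
  have hYV : ∀ k, Y k ∈ V := by
    intro k
    refine Fin.cases ?_ (fun k => ?_) k
    · exact hpV
    · exact ((hV0m _).mp (hy1' k)).1
  have hli : LinearIndependent L Y := by
    refine li_of_coords Y i0 T ?_ ?_ ?_
    · exact hpi0
    · intro k
      simp [Y, hyi0]
    · intro k m
      simp only [Y, Fin.cons_succ]
      rw [hy2]
      split_ifs <;> simp
  have hspan : Submodule.span L (Set.range Y) = V := by
    apply Submodule.eq_of_le_of_finrank_eq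
    · rw [Submodule.span_le]
      rintro _ ⟨k, rfl⟩
      exact hYV k
    · rw [finrank_span_eq_card hli, hfr, Fintype.card_fin]
  intro y' hy'
  rw [← hspan] at hy'
  obtain ⟨g, hg⟩ := (Submodule.mem_span_range_iff_exists_fun L).mp hy'
  exact ⟨g, hg.symm⟩

/-- The change of the basis in determinants. -/
theorem det_change {τ : Type*} {n : ℕ} (Z Z0 : Fin n → τ → L) (g : Fin n → Fin n → L)
    (h : ∀ k, Z k = ∑ m, g k m • Z0 m) (s : Fin n → τ) :
    (Matrix.of fun k m => Z k (s m)).det =
      (Matrix.of g).det * (Matrix.of fun k m => Z0 k (s m)).det := by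
  rw [← Matrix.det_mul]
  congr 1
  ext k m
  rw [Matrix.mul_apply, Matrix.of_apply, h k]
  simp [Finset.sum_apply]

/-- The map `Ph` is linear. -/
theorem Ph_sum {Λ : Type} (w : Λ → MvPolynomial ι K) (p : ι → L) {n : ℕ} (g : Fin n → L)
    (y : Fin n → ι → L) : Ph w p (∑ k, g k • y k) = ∑ k, g k • Ph w p (y k) := by
  funext z
  simp only [Ph, map_sum, map_smul, Finset.sum_apply, Pi.smul_apply, smul_eq_mul, Finset.sum_mul,
    Finset.mul_sum, ← Finset.sum_add_distrib]
  refine Finset.sum_congr rfl fun k _ => ?_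
  ring

end



section

variable {K : Type u} [Field K] {ι Λ : Type} [Fintype ι] {L : Type u} [Field L] [Algebra K L]

/-- The vector `z` over `R` as a vector over the algebra `S`. -/
def bc {R : Type u} (S : Type u) [CommRing R] [CommRing S] [Algebra R S] (z : ι → R) : ι → S :=
  fun i => algebraMap R S (z i)

omit [Fintype ι] in
theorem aeval_bc {R : Type u} (S : Type u) [CommRing R] [CommRing S] [Algebra R S] [Algebra K R]
    [Algebra K S] [IsScalarTower K R S] (z : ι → R) (F : MvPolynomial ι K) :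
    aeval (bc S z) F = algebraMap R S (aeval z F) :=
  aeval_algebraMap_apply S z F

theorem dif_bc {R : Type u} (S : Type u) [CommRing R] [CommRing S] [Algebra R S] [Algebra K R]
    [Algebra K S] [IsScalarTower K R S] (p y : ι → R) (F : MvPolynomial ι K) :
    dif (bc S p) F (bc S y) = algebraMap R S (dif p F y) :=
  dif_map p y F

theorem Ph_bc {R : Type u} (S : Type u) [CommRing R] [CommRing S] [Algebra R S] [Algebra K R]
    [Algebra K S] [IsScalarTower K R S] (w : Λ → MvPolynomial ι K) (p y : ι → R) (z : ι × Λ) :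
    Ph w (bc S p) (bc S y) z = algebraMap R S (Ph w p y z) :=
  Ph_map w p y z

/-- The residue field. -/
abbrev RF (A : ValuationSubring L) : Type u := IsLocalRing.ResidueField A

theorem inj_AL (A : ValuationSubring L) {x : A} (h : algebraMap A L x = 0) : x = 0 :=
  (map_eq_zero_iff _ (FaithfulSMul.algebraMap_injective A L)).mp h

omit [Fintype ι] in
/-- The reduction of a point. -/
theorem red_pt (A : ValuationSubring L) [Algebra K A] [IsScalarTower K A L]
    {J : Ideal (MvPolynomial ι K)} (p : ι → A) (i0 : ι) (hi0 : p i0 = 1)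
    (hp : IsPt J (bc L p)) : IsPt J (bc (RF A) p) := by
  refine ⟨fun h => ?_, fun F hF => ?_⟩
  · have := congrFun h i0
    simp [hi0, bc] at this
  · have h1 := hp.2 F hF
    rw [aeval_bc] at h1 ⊢
    rw [inj_AL A h1, map_zero]

theorem red_tan (A : ValuationSubring L) [Algebra K A] [IsScalarTower K A L]
    {J : Ideal (MvPolynomial ι K)} (p y : ι → A) (hy : bc L y ∈ Tan J (bc L p)) :
    bc (RF A) y ∈ Tan J (bc (RF A) p) := by
  rw [mem_Tan] at hy ⊢
  intro F hF
  have h1 := hy F hF
  rw [dif_bc] at h1 ⊢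
  rw [inj_AL A h1, map_zero]

theorem val_one_of_res (A : ValuationSubring L) (x : A) (hx : algebraMap A (RF A) x ≠ 0) :
    A.valuation (algebraMap A L x) = 1 := by
  have h1 : IsUnit x := (IsLocalRing.residue_ne_zero_iff_isUnit x).mp hx
  exact (A.valuation_eq_one_iff x).mp h1

theorem val_le_one' (A : ValuationSubring L) (x : A) : A.valuation (algebraMap A L x) ≤ 1 :=
  A.valuation_le_one x

/-- The reduced normalised basis is independent and spans the tangent space. -/
theorem red_span (A : ValuationSubring L) [Algebra K A] [IsScalarTower K A L]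
    {J : Ideal (MvPolynomial ι K)} {n : ℕ} (hJ : Smooth J n) (p : ι → A) (i0 : ι) (hi0 : p i0 = 1)
    (hp : IsPt J (bc L p)) (y : Fin n → ι → A) (T : Fin n → ι)
    (hy0 : ∀ k, y k i0 = 0) (hyT : ∀ k m, y k (T m) = if k = m then 1 else 0)
    (hy : ∀ k, bc L (y k) ∈ Tan J (bc L p)) :
    LinearIndependent (RF A)
      (fun k => bc (RF A) (Fin.cons (α := fun _ => ι → A) p y k : ι → A)) ∧
    ∀ z ∈ Tan J (bc (RF A) p), ∃ g : Fin (n + 1) → RF A,
      z = ∑ k, g k • bc (RF A) (Fin.cons (α := fun _ => ι → A) p y k : ι → A) := by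
  have hli : LinearIndependent (RF A)
      (fun k => bc (RF A) (Fin.cons (α := fun _ => ι → A) p y k : ι → A)) := by
    refine li_of_coords _ i0 T ?_ ?_ ?_
    · simp [bc, hi0]
    · intro k
      simp [bc, hy0]
    · intro k m
      simp only [bc, Fin.cons_succ, hyT]
      split_ifs <;> simp
  refine ⟨hli, fun z hz => ?_⟩
  have hp' := red_pt A p i0 hi0 hp
  have hspan : Submodule.span (RF A)
      (Set.range fun k => bc (RF A) (Fin.cons (α := fun _ => ι → A) p y k : ι → A)) =
        Tan J (bc (RF A) p) := by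
    apply Submodule.eq_of_le_of_finrank_eq
    · rw [Submodule.span_le]
      rintro _ ⟨k, rfl⟩
      refine Fin.cases ?_ (fun k => ?_) k
      · exact self_mem_Tan hJ.homog hp'
      · exact red_tan A p (y k) (hy k)
    · rw [finrank_span_eq_card hli, hJ.dim _ _ hp', Fintype.card_fin]
  rw [← hspan] at hz
  obtain ⟨g, hg⟩ := (Submodule.mem_span_range_iff_exists_fun (RF A)).mp hz
  exact ⟨g, hg.symm⟩

/-- The case in which the reduced point is not in the centre. -/
theorem case1 [CharZero K] [Fintype Λ] (A : ValuationSubring L) [Algebra K A] [IsScalarTower K A L]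
    {n e : ℕ} (w : Λ → MvPolynomial ι K) (hw : ∀ l, (w l).IsHomogeneous e)
    (p : ι → A) (i0 : ι) (hi0 : p i0 = 1) (y : Fin n → ι → A)
    (hli : LinearIndependent (RF A)
      (fun k => bc (RF A) (Fin.cons (α := fun _ => ι → A) p y k : ι → A)))
    (l1 : Λ) (hl1 : aeval (bc (RF A) p) (w l1) ≠ 0) :
    ∃ s' : Fin (n + 1) → ι × Λ, A.valuation (Matrix.of fun k m => Ph w (bc L p)
      (bc L (Fin.cons (α := fun _ => ι → A) p y k : ι → A)) (s' m)).det = 1 := by
  have hchar : CharZero (RF A) := charZero_of_injective_algebraMap (algebraMap K (RF A)).injective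
  have hinj : ∀ z, Ph w (bc (RF A) p) z = 0 → z = 0 := by
    intro z hz
    have h1 : ∀ i, z i = -(dif (bc (RF A) p) (w l1) z / aeval (bc (RF A) p) (w l1)) *
        bc (RF A) p i := by
      intro i
      have := congrFun hz (i, l1)
      simp only [Ph, Pi.zero_apply] at this
      field_simp
      linear_combination this
    obtain ⟨c, hc⟩ : ∃ c : RF A, z = c • bc (RF A) p := by
      refine ⟨-(dif (bc (RF A) p) (w l1) z / aeval (bc (RF A) p) (w l1)), ?_⟩
      funext i
      exact h1 i
    have h2 := congrFun hz (i0, l1)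
    simp only [Ph, Pi.zero_apply] at h2
    rw [hc, map_smul, dif_self _ (hw l1)] at h2
    have h3 : bc (RF A) p i0 = 1 := by simp [bc, hi0]
    simp only [Pi.smul_apply, smul_eq_mul, h3] at h2
    have h4 : c * (1 + e) * aeval (bc (RF A) p) (w l1) = 0 := by linear_combination h2
    have h5 : (1 + e : RF A) ≠ 0 := by
      have : ((1 + e : ℕ) : RF A) ≠ 0 := Nat.cast_ne_zero.mpr (by omega)
      simpa using this
    have h6 : c = 0 := by
      rcases mul_eq_zero.mp h4 with h | h
      · exact (mul_eq_zero.mp h).resolve_right h5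
      · exact absurd h hl1
    rw [hc, h6, zero_smul]
  have hli2 : LinearIndependent (RF A) (fun k => Ph w (bc (RF A) p)
      (bc (RF A) (Fin.cons (α := fun _ => ι → A) p y k : ι → A))) := by
    rw [Fintype.linearIndependent_iff] at hli ⊢
    intro g hg
    apply hli g
    apply hinj
    rw [Ph_sum]
    exact hg
  obtain ⟨s', hs'⟩ := exists_minor_ne_zero _ hli2
  refine ⟨s', ?_⟩
  set M : Matrix (Fin (n + 1)) (Fin (n + 1)) A := Matrix.of fun k m => Ph w p
    (Fin.cons (α := fun _ => ι → A) p y k : ι → A) (s' m) with hM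
  have e1 : (Matrix.of fun k m => Ph w (bc (RF A) p)
      (bc (RF A) (Fin.cons (α := fun _ => ι → A) p y k : ι → A)) (s' m)).det =
        algebraMap A (RF A) M.det := by
    rw [RingHom.map_det]
    congr 1
    ext k m
    exact Ph_bc (RF A) w p _ _
  have e2 : (Matrix.of fun k m => Ph w (bc L p)
      (bc L (Fin.cons (α := fun _ => ι → A) p y k : ι → A)) (s' m)).det =
        algebraMap A L M.det := by
    rw [RingHom.map_det]
    congr 1
    ext k m
    exact Ph_bc L w p _ _
  rw [e1] at hs'
  rw [e2]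
  exact val_one_of_res A _ hs'

/-- The case in which the reduced point is in the centre. -/
theorem case2 [CharZero K] [Fintype Λ] (A : ValuationSubring L) [Algebra K A] [IsScalarTower K A L]
    {J : Ideal (MvPolynomial ι K)} {n e : ℕ} (w : Λ → MvPolynomial ι K)
    (hw : ∀ l, (w l).IsHomogeneous e)
    (p : ι → A) (i0 : ι) (hi0 : p i0 = 1) (y : Fin n → ι → A) (T : Fin n → ι)
    (hy0 : ∀ k, y k i0 = 0) (hyT : ∀ k m, y k (T m) = if k = m then 1 else 0)
    (hsp : ∀ z ∈ Tan J (bc (RF A) p), ∃ g : Fin (n + 1) → RF A,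
      z = ∑ k, g k • bc (RF A) (Fin.cons (α := fun _ => ι → A) p y k : ι → A))
    (l0 l1 : Λ) (hl0 : aeval (bc (RF A) p) (w l0) = 0) (hl1 : aeval (bc (RF A) p) (w l1) = 0)
    (hind : ∀ c d : RF A, (∀ z ∈ Tan J (bc (RF A) p),
      c * dif (bc (RF A) p) (w l0) z + d * dif (bc (RF A) p) (w l1) z = 0) → c = 0 ∧ d = 0)
    (hle : A.valuation (aeval (bc L p) (w l1)) ≤ A.valuation (aeval (bc L p) (w l0))) :
    ∃ s' : Fin (n + 1) → ι × Λ, A.valuation (aeval (bc L p) (w l0)) ^ n ≤
      A.valuation (Matrix.of fun k m => Ph w (bc L p)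
        (bc L (Fin.cons (α := fun _ => ι → A) p y k : ι → A)) (s' m)).det := by
  obtain ⟨s, hs⟩ : ∃ s : A, aeval (bc L p) (w l1) = algebraMap A L s * aeval (bc L p) (w l0) := by
    by_cases h0 : aeval (bc L p) (w l0) = 0
    · refine ⟨0, ?_⟩
      rw [h0, map_zero] at hle
      rw [h0, mul_zero]
      exact (map_eq_zero _).mp (le_zero_iff.mp hle)
    · have h1 : aeval (bc L p) (w l1) / aeval (bc L p) (w l0) ∈ A := by
        rw [← A.valuation_le_one_iff, map_div₀]
        exact div_le_one_of_le₀ hle zero_le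
      refine ⟨⟨_, h1⟩, ?_⟩
      change _ = aeval (bc L p) (w l1) / aeval (bc L p) (w l0) * _
      field_simp
  obtain ⟨j, hj⟩ : ∃ j : Fin n, algebraMap A (RF A) (dif p (w l1) (y j) - s * dif p (w l0) (y j)) ≠ 0
      := by
    by_contra hcon
    push Not at hcon
    have h := hind (-(algebraMap A (RF A) s)) 1 ?_
    · exact one_ne_zero h.2
    · intro z hz
      obtain ⟨g, rfl⟩ := hsp z hz
      rw [map_sum, map_sum, Finset.mul_sum, Finset.mul_sum, ← Finset.sum_add_distrib]
      refine Finset.sum_eq_zero fun k _ => ?_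
      rw [map_smul, map_smul, smul_eq_mul, smul_eq_mul]
      refine Fin.cases ?_ (fun k => ?_) k
      · rw [Fin.cons_zero, dif_self _ (hw l0), dif_self _ (hw l1), hl0, hl1]
        ring
      · rw [Fin.cons_succ, dif_bc, dif_bc]
        have := hcon k
        rw [map_sub, map_mul] at this
        linear_combination (g (Fin.succ k)) * this
  have he : A.valuation ((1 : L) + e) = 1 := by
    have h1 : (1 : L) + e = algebraMap A L (algebraMap K A (1 + e)) := by
      rw [← IsScalarTower.algebraMap_apply K A L]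
      simp
    rw [h1]
    apply val_one_of_res
    rw [← IsScalarTower.algebraMap_apply K A (RF A)]
    refine (map_ne_zero _).mpr ?_
    have : ((1 + e : ℕ) : K) ≠ 0 := Nat.cast_ne_zero.mpr (by omega)
    simpa using this
  have hj' : A.valuation (dif (bc L p) (w l1) (bc L (y j)) -
      algebraMap A L s * dif (bc L p) (w l0) (bc L (y j))) = 1 := by
    rw [dif_bc, dif_bc, ← map_mul, ← map_sub]
    exact val_one_of_res A _ hj
  have hcore := core A w hw (bc L p) (fun i => (p i).2) i0 (by simp [bc, hi0])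
    (fun k => bc L (y k)) T (fun k => by simp [bc, hy0])
    (fun k m => by simp only [bc, hyT]; split_ifs <;> simp) l0 l1 (algebraMap A L s) s.2 hs j hj' he
  obtain ⟨s', hs'⟩ := hcore
  refine ⟨s', hs'.trans (le_of_eq ?_)⟩
  congr 3
  funext k m
  congr 1
  refine Fin.cases ?_ (fun k => ?_) k
  · rfl
  · rfl

end


section

variable {K : Type u} [Field K] {ι κ β : Type} [Fintype ι] [Fintype κ] {L : Type u} [Field L]
  [Algebra K L]

/-- The values of the equations of a divisor through the reduced point are multiples of the value of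
the local equation. -/
theorem val_le_gen (A : ValuationSubring L) [Algebra K A] [IsScalarTower K A L]
    {J : Ideal (MvPolynomial ι K)} (p : ι → A) (hp : IsPt J (bc L p)) (g : κ → MvPolynomial ι K)
    (s : κ) (u : MvPolynomial ι K) (hu : aeval (bc (RF A) p) u ≠ 0)
    (hug : ∀ j, u * g j ∈ J ⊔ Ideal.span {g s}) (j : κ) :
    A.valuation (aeval (bc L p) (g j)) ≤ A.valuation (aeval (bc L p) (g s)) := by
  obtain ⟨h, hh, r', hr', hsum⟩ := Submodule.mem_sup.mp (hug j)
  obtain ⟨r, rfl⟩ := Ideal.mem_span_singleton'.mp hr'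
  have h1 : aeval (bc L p) u * aeval (bc L p) (g j) =
      aeval (bc L p) r * aeval (bc L p) (g s) := by
    have := congrArg (aeval (bc L p)) hsum
    rw [map_add, map_mul, map_mul, hp.2 h hh, zero_add] at this
    exact this.symm
  have hu1 : A.valuation (aeval (bc L p) u) = 1 := by
    rw [aeval_bc] at hu ⊢
    exact val_one_of_res A _ hu
  have hr1 : A.valuation (aeval (bc L p) r) ≤ 1 := by
    rw [aeval_bc]
    exact val_le_one' A _
  calc A.valuation (aeval (bc L p) (g j))
      = A.valuation (aeval (bc L p) u * aeval (bc L p) (g j)) := by rw [map_mul, hu1, one_mul]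
    _ = A.valuation (aeval (bc L p) r) * A.valuation (aeval (bc L p) (g s)) := by
        rw [h1, map_mul]
    _ ≤ _ := mul_le_of_le_one_left' hr1

/-- The claim for a normalised point. -/
theorem val_blow1 [CharZero K] (A : ValuationSubring L) [Algebra K A] [IsScalarTower K A L]
    {J : Ideal (MvPolynomial ι K)} {n e : ℕ} {f : β → κ → MvPolynomial ι K} (hJ : Smooth J n)
    (hf : Snc J e f) {a b : β} (hab : a ≠ b) (p : ι → A) (i0 : ι) (hi0 : p i0 = 1)
    (hp : IsPt J (bc L p)) (y : Fin n → ι → A) (T : Fin n → ι) (hy0 : ∀ k, y k i0 = 0)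
    (hyT : ∀ k m, y k (T m) = if k = m then 1 else 0) (hy : ∀ k, bc L (y k) ∈ Tan J (bc L p)) :
    ∃ s' : Fin (n + 1) → ι × (κ ⊕ κ), ∀ l,
      A.valuation (aeval (bc L p) (cen (f a) (f b) l)) ^ n ≤
      A.valuation (Matrix.of fun k m => Ph (cen (f a) (f b)) (bc L p)
        (bc L (Fin.cons (α := fun _ => ι → A) p y k : ι → A)) (s' m)).det := by
  obtain ⟨hli, hsp⟩ := red_span A hJ p i0 hi0 hp y T hy0 hyT hy
  have hw : ∀ l, (cen (f a) (f b) l).IsHomogeneous e := by
    rintro (j | j)
    · exact hf.homog a j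
    · exact hf.homog b j
  by_cases h1 : ∃ l, aeval (bc (RF A) p) (cen (f a) (f b) l) ≠ 0
  · obtain ⟨l1, hl1⟩ := h1
    obtain ⟨s', hs'⟩ := case1 A _ hw p i0 hi0 y hli l1 hl1
    refine ⟨s', fun l => ?_⟩
    rw [hs', aeval_bc]
    exact pow_le_one' (val_le_one' A _) n
  · push Not at h1
    obtain ⟨s, hs1, hs2⟩ := hf.trans (RF A) (bc (RF A) p) (red_pt A p i0 hi0 hp)
    have ha : ∀ j, aeval (bc (RF A) p) (f a j) = 0 := fun j => h1 (Sum.inl j)
    have hb : ∀ j, aeval (bc (RF A) p) (f b j) = 0 := fun j => h1 (Sum.inr j)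
    obtain ⟨u, hu, hu'⟩ := hs1 a ha
    obtain ⟨u2, hu2, hu2'⟩ := hs1 b hb
    have hva := val_le_gen A p hp (f a) (s a) u hu hu'
    have hvb := val_le_gen A p hp (f b) (s b) u2 hu2 hu2'
    have hpair : LinearIndependent (RF A)
        ![(dif (bc (RF A) p) (f a (s a))).domRestrict (Tan J (bc (RF A) p)),
          (dif (bc (RF A) p) (f b (s b))).domRestrict (Tan J (bc (RF A) p))] := by
      let g : Fin 2 → {b // ∀ j, aeval (bc (RF A) p) (f b j) = 0} := ![⟨a, ha⟩, ⟨b, hb⟩]
      have hg : Function.Injective g := by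
        intro i j hij
        fin_cases i <;> fin_cases j
        · rfl
        · exact absurd (congrArg Subtype.val hij) hab
        · exact absurd (congrArg Subtype.val hij) hab.symm
        · rfl
      have h2 := hs2.comp g hg
      have h3 : ((fun b : {b // ∀ j, aeval (bc (RF A) p) (f b j) = 0} =>
          (dif (bc (RF A) p) (f b (s b))).domRestrict (Tan J (bc (RF A) p))) ∘ g) =
          ![(dif (bc (RF A) p) (f a (s a))).domRestrict (Tan J (bc (RF A) p)),
          (dif (bc (RF A) p) (f b (s b))).domRestrict (Tan J (bc (RF A) p))] := by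
        funext i
        fin_cases i <;> rfl
      rwa [h3] at h2
    rw [LinearIndependent.pair_iff] at hpair
    have hind : ∀ c d : RF A, (∀ z ∈ Tan J (bc (RF A) p),
        c * dif (bc (RF A) p) (f a (s a)) z + d * dif (bc (RF A) p) (f b (s b)) z = 0) →
          c = 0 ∧ d = 0 := by
      intro c d h
      apply hpair c d
      ext z
      exact h z z.2
    rcases le_total (A.valuation (aeval (bc L p) (f b (s b))))
      (A.valuation (aeval (bc L p) (f a (s a)))) with hle | hle
    · obtain ⟨s', hs'⟩ := case2 A (cen (f a) (f b)) hw p i0 hi0 y T hy0 hyT hsp (Sum.inl (s a))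
        (Sum.inr (s b)) (ha _) (hb _) hind hle
      refine ⟨s', fun l => le_trans (pow_le_pow_left' ?_ n) hs'⟩
      rcases l with j | j
      · exact hva j
      · exact (hvb j).trans hle
    · obtain ⟨s', hs'⟩ := case2 A (cen (f a) (f b)) hw p i0 hi0 y T hy0 hyT hsp (Sum.inr (s b))
        (Sum.inl (s a)) (hb _) (ha _) (fun c d h => (hind d c fun z hz => by
          rw [add_comm]; exact h z hz).symm) hle
      refine ⟨s', fun l => le_trans (pow_le_pow_left' ?_ n) hs'⟩
      rcases l with j | j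
      · exact (hva j).trans hle
      · exact hvb j

/-- The claim for any point and any tangent vectors. -/
theorem val_blow [CharZero K] (A : ValuationSubring L) (hA : ∀ c : K, algebraMap K L c ∈ A)
    {J : Ideal (MvPolynomial ι K)} {n e : ℕ} {f : β → κ → MvPolynomial ι K} (hJ : Smooth J n)
    (hf : Snc J e f) {a b : β} (hab : a ≠ b) {p : ι → L} (hp : IsPt J p)
    {Y : Fin (n + 1) → ι → L} (hY : ∀ k, Y k ∈ Tan J p) (s : Fin (n + 1) → ι) (l : κ ⊕ κ) (i : ι) :
    ∃ s' : Fin (n + 1) → ι × (κ ⊕ κ),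
      A.valuation ((Matrix.of fun k m => Y k (s m)).det * aeval p (cen (f a) (f b) l) ^ n *
        p i ^ e) ≤
      A.valuation (Matrix.of fun k m => Ph (cen (f a) (f b)) p (Y k) (s' m)).det := by
  classical
  let algKA : Algebra K A := ((algebraMap K L).codRestrict A hA).toAlgebra
  have : IsScalarTower K A L := IsScalarTower.of_algebraMap_eq fun _ => rfl
  obtain ⟨i0, hi0⟩ : ∃ i0, ∀ i, A.valuation (p i) ≤ A.valuation (p i0) := by
    have hne : Nonempty ι := by
      by_contra h
      rw [not_nonempty_iff] at h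
      exact hp.1 (funext fun i => (h.false i).elim)
    obtain ⟨i0, -, h⟩ := Finset.exists_max_image (Finset.univ : Finset ι)
      (fun i => A.valuation (p i)) Finset.univ_nonempty
    exact ⟨i0, fun i => h i (Finset.mem_univ i)⟩
  set c : L := p i0 with hc
  have hc0 : c ≠ 0 := by
    intro h0
    apply hp.1
    funext i
    have := hi0 i
    rw [h0, map_zero] at this
    exact (map_eq_zero _).mp (le_zero_iff.mp this)
  have hpA : ∀ i, c⁻¹ * p i ∈ A := by
    intro i
    rw [← A.valuation_le_one_iff, map_mul, map_inv₀]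
    have h1 : A.valuation c ≠ 0 := by simpa using hc0
    rw [inv_mul_le_one₀ (zero_lt_iff.mpr h1)]
    exact hi0 i
  let p1 : ι → A := fun i => ⟨c⁻¹ * p i, hpA i⟩
  have hp1 : bc L p1 = c⁻¹ • p := rfl
  have hp1' : p = c • bc L p1 := by
    rw [hp1, smul_smul, mul_inv_cancel₀ hc0, one_smul]
  have hPt : IsPt J (bc L p1) := by
    rw [hp1]
    exact isPt_smul hJ.homog hp (inv_ne_zero hc0)
  have hp1i0 : p1 i0 = 1 := by
    apply Subtype.ext
    change c⁻¹ * p i0 = 1
    exact inv_mul_cancel₀ hc0
  obtain ⟨y, T, hy0, hyT, hyt, hsp⟩ := good_basis A hJ p1 i0 hp1i0 hPt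
  obtain ⟨s', hs'⟩ := val_blow1 A hJ hf hab p1 i0 hp1i0 hPt y T hy0 hyT hyt
  have hw : ∀ l, (cen (f a) (f b) l).IsHomogeneous e := by
    rintro (j | j)
    · exact hf.homog a j
    · exact hf.homog b j
  let Y0 : Fin (n + 1) → ι → L := fun k => bc L (Fin.cons (α := fun _ => ι → A) p1 y k : ι → A)
  have hY' : ∀ k, ∃ g : Fin (n + 1) → L, Y k = ∑ m, g m • Y0 m := by
    intro k
    have h1 : Y k ∈ Tan J (bc L p1) := by
      rw [hp1]
      exact mem_Tan_smul hJ.homog (inv_ne_zero hc0) (hY k)
    obtain ⟨g, hg⟩ := hsp _ h1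
    refine ⟨g, hg.trans (Finset.sum_congr rfl fun m _ => ?_)⟩
    congr 1
    refine Fin.cases ?_ (fun m => ?_) m
    · rfl
    · rfl
  choose g hg using hY'
  refine ⟨s', ?_⟩
  have e1 : (Matrix.of fun k m => Y k (s m)).det =
      (Matrix.of g).det * (Matrix.of fun k m => Y0 k (s m)).det := det_change Y Y0 g hg s
  have e2 : (Matrix.of fun k m => Ph (cen (f a) (f b)) p (Y k) (s' m)).det =
      (c ^ e) ^ (n + 1) * ((Matrix.of g).det *
        (Matrix.of fun k m => Ph (cen (f a) (f b)) (bc L p1) (Y0 k) (s' m)).det) := by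
    rw [← det_change (fun k => Ph (cen (f a) (f b)) (bc L p1) (Y k))
      (fun k => Ph (cen (f a) (f b)) (bc L p1) (Y0 k)) g
      (fun k => by rw [hg k, Ph_sum]) s']
    have h3 := Matrix.det_smul (Matrix.of fun k m => Ph (cen (f a) (f b)) (bc L p1) (Y k) (s' m))
      (c ^ e)
    rw [Fintype.card_fin] at h3
    rw [← h3]
    congr 1
    ext k m
    have h4 := Ph_smul (cen (f a) (f b)) hw c (bc L p1) (Y k)
    rw [← hp1'] at h4
    rw [Matrix.of_apply, h4]
    rfl
  have e3 : aeval p (cen (f a) (f b) l) = c ^ e * aeval (bc L p1) (cen (f a) (f b) l) := by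
    conv_lhs => rw [hp1']
    exact aeval_smul c _ (hw l)
  have e4 : p i = c * bc L p1 i := by
    conv_lhs => rw [hp1']
    rfl
  rw [e1, e2, e3, e4]
  have h5 : A.valuation (Matrix.of fun k m => Y0 k (s m)).det ≤ 1 := by
    have h6 : (Matrix.of fun k m => Y0 k (s m)).det = algebraMap A L
        (Matrix.of fun k m => (Fin.cons (α := fun _ => ι → A) p1 y k : ι → A) (s m)).det := by
      rw [RingHom.map_det]
      rfl
    rw [h6]
    exact val_le_one' A _
  have h7 : A.valuation (bc L p1 i ^ e) ≤ 1 := by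
    rw [map_pow]
    exact pow_le_one' (val_le_one' A _) e
  have h8 := hs' l
  have h9 : (Matrix.of g).det * (Matrix.of fun k m => Y0 k (s m)).det *
      (c ^ e * aeval (bc L p1) (cen (f a) (f b) l)) ^ n * (c * bc L p1 i) ^ e =
      ((c ^ e) ^ (n + 1) * (Matrix.of g).det) *
        ((Matrix.of fun k m => Y0 k (s m)).det * (bc L p1 i ^ e)) *
          aeval (bc L p1) (cen (f a) (f b) l) ^ n := by
    rw [mul_pow, mul_pow]
    ring
  rw [h9, ← mul_assoc ((c ^ e) ^ (n + 1)) (Matrix.of g).det, map_mul A.valuation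
    ((c ^ e) ^ (n + 1) * (Matrix.of g).det * ((Matrix.of fun k m => Y0 k (s m)).det *
      (bc L p1 i ^ e))) (aeval (bc L p1) (cen (f a) (f b) l) ^ n),
    map_mul A.valuation ((c ^ e) ^ (n + 1) * (Matrix.of g).det)
      ((Matrix.of fun k m => Y0 k (s m)).det * (bc L p1 i ^ e)),
    map_mul A.valuation ((c ^ e) ^ (n + 1) * (Matrix.of g).det)
      (Matrix.of fun k m => Ph (cen (f a) (f b)) (bc L p1) (Y0 k) (s' m)).det]
  have h10 : A.valuation ((Matrix.of fun k m => Y0 k (s m)).det * (bc L p1 i ^ e)) ≤ 1 := by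
    rw [map_mul]
    exact mul_le_one' h5 h7
  calc A.valuation ((c ^ e) ^ (n + 1) * (Matrix.of g).det) *
        A.valuation ((Matrix.of fun k m => Y0 k (s m)).det * (bc L p1 i ^ e)) *
          A.valuation (aeval (bc L p1) (cen (f a) (f b) l) ^ n)
      ≤ A.valuation ((c ^ e) ^ (n + 1) * (Matrix.of g).det) * 1 *
          A.valuation (aeval (bc L p1) (cen (f a) (f b) l) ^ n) := by gcongr
    _ = A.valuation ((c ^ e) ^ (n + 1) * (Matrix.of g).det) *
          A.valuation (aeval (bc L p1) (cen (f a) (f b) l)) ^ n := by rw [mul_one, map_pow]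
    _ ≤ _ := by gcongr

end

end Pool.Agent.Lib.MP_17a322_nt.EQ.VC

namespace Pool.Agent.Lib.MP_17a322_nt.EQ

open MvPolynomial

section

variable {K : Type u} [Field K] {ι κ β : Type} [Fintype ι] [Fintype κ] [Fintype β]

/-- The bound for any point and any basis. -/
theorem val_claim [CharZero K] {F : Type u} [Field F] [Algebra K F] (O : ValuationSubring F)
    (hO : ∀ a : K, algebraMap K F a ∈ O) {J : Ideal (MvPolynomial ι K)} {n e : ℕ}
    {f : β → κ → MvPolynomial ι K} (hJ : Smooth J n) (hf : Snc J e f) {a b : β} (hab : a ≠ b)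
    {p : ι → F} (hp : IsPt J p) (_hw : ∃ l, aeval p (cen (f a) (f b) l) ≠ 0)
    {y : Fin (n + 1) → ι → F} (hy : ∀ k, y k ∈ Tan J p) (_hyi : LinearIndependent F y)
    (I : Fin (n + 1) → ι) (l : κ ⊕ κ) (i : ι) : ∃ I' : Fin (n + 1) → ι × (κ ⊕ κ),
      O.valuation ((Matrix.of fun r t => y r (I t)).det * aeval p (cen (f a) (f b) l) ^ n *
        p i ^ e) ≤
      O.valuation (Matrix.of fun r t => Ph (cen (f a) (f b)) p (y r) (I' t)).det :=
  VC.val_blow O hO hJ hf hab hp hy I l i

end

end Pool.Agent.Lib.MP_17a322_nt.EQ
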