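import Mathlib

/-!
Vojta's conjecture (Q1), its case `D = 0` and its form with truncated counting functions: definitions.

A projective variety over `K` is given by a homogeneous prime ideal `J` in the polynomial ring in the
homogeneous coordinates `X_i`, `i ∈ ι`; its points over an extension field `L` are the nonzero vectors
in `L ^ ι` on which `J` vanishes.

Normalisation: all heights and local heights are the usual ones for the product formula without the
factor `1 / [K : ℚ]`, so every term of the inequalities is `[K : ℚ]` times the one of the problem
file. `logHeight` is the logarithmic height of Mathlib for the number field `K` (this normalisation).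

Ample divisors: it suffices to state the inequalities with the height `h` of the given projective
embedding in place of `h_A`, because for ample `A` and the hyperplane class `H` both
`h_A ≥ c h_H - O(1)` and `h_H ≥ c h_A - O(1)` hold with some `c > 0`, and `ε` is arbitrary.
-/

universe u

namespace Pool.Agent.Lib.MP_17a322_nt.EQ

open MvPolynomial Height NumberField

section

variable {K : Type u} [Field K] {ι κ β : Type} [Fintype ι]

/-- The vector `p` over the extension field `L` of `K` gives a point over `L` of the projective variety
with the homogeneous ideal `J`. -/
def IsPt (J : Ideal (MvPolynomial ι K)) {L : Type u} [Field L] [Algebra K L] (p : ι → L) : Prop :=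
  p ≠ 0 ∧ ∀ F ∈ J, aeval p F = 0

/-- The differential of the polynomial `F` at `p`. -/
noncomputable def dif {L : Type u} [CommRing L] [Algebra K L] (p : ι → L) (F : MvPolynomial ι K) :
    (ι → L) →ₗ[L] L :=
  ∑ i, aeval p (pderiv i F) • LinearMap.proj i

/-- The tangent space at `p` of the affine cone over the projective variety with the ideal `J`. -/
noncomputable def Tan (J : Ideal (MvPolynomial ι K)) {L : Type u} [Field L] [Algebra K L]
    (p : ι → L) : Submodule L (ι → L) :=
  ⨅ F ∈ J, LinearMap.ker (dif p F)

/-- `J` is the ideal of a smooth irreducible projective variety of dimension `n` over `K`: it is a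
homogeneous prime ideal and the tangent space of the cone has dimension `n + 1` at all points over all
extension fields of `K` (the Jacobian criterion). The irrelevant ideal, which gives the empty variety,
satisfies this too; this is harmless. -/
structure Smooth (J : Ideal (MvPolynomial ι K)) (n : ℕ) : Prop where
  prime : J.IsPrime
  homog : ∀ F ∈ J, ∀ i, homogeneousComponent i F ∈ J
  dim : ∀ (L : Type u) [Field L] [Algebra K L] (p : ι → L), IsPt J p →
    Module.finrank L (Tan J p) = n + 1

/-- The closed subschemes `D_b` of the smooth variety with the ideal `J` with the equations `f b j = 0`
(forms of degree `e > 0`) are smooth effective divisors which meet transversally: at every point `p`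
over an extension field the ideal of every `D_b` through `p` is locally generated by one of its
equations `f b (s b)` (`u` is a polynomial which does not vanish at `p`), and the differentials at `p`
of these equations are linearly independent on the tangent space.

So `D = ∑ D_b` is a normal crossing divisor in the sense of the problem file, and every such divisor
`D` arises in this way: its irreducible components are smooth (the local condition there is one on the
local rings of `X`), take them as the `D_b`, and take for `e` any large enough number, such that the
ideal of every component is generated by forms of degree `e` up to saturation. -/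
structure Snc (J : Ideal (MvPolynomial ι K)) (e : ℕ) (f : β → κ → MvPolynomial ι K) : Prop where
  pos : 0 < e
  homog : ∀ b j, (f b j).IsHomogeneous e
  trans : ∀ (L : Type u) [Field L] [Algebra K L] (p : ι → L), IsPt J p → ∃ s : β → κ,
    (∀ b, (∀ j, aeval p (f b j) = 0) → ∃ u : MvPolynomial ι K, aeval p u ≠ 0 ∧
      ∀ j, u * f b j ∈ J ⊔ Ideal.span {f b (s b)}) ∧
    LinearIndependent L fun b : {b // ∀ j, aeval p (f b j) = 0} =>
      (dif p (f b (s b))).domRestrict (Tan J p)

/-- The local height at `v` of the point `p` with respect to the closed subscheme with the equations
`g j = 0`, which are forms of degree `e`: minus the logarithm of the maximum of the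
`|g j (p)|_v / |p|_v ^ e`. For an effective divisor this is a Weil function of the divisor. -/
noncomputable def lam (v : AbsoluteValue K ℝ) (e : ℕ) (g : κ → MvPolynomial ι K) (p : ι → K) : ℝ :=
  e * Real.log (⨆ i, v (p i)) - Real.log (⨆ j, v (eval p (g j)))

end

section

variable {K : Type u} [Field K] [NumberField K] {ι κ β : Type} [Fintype ι]

/-- The height of a subspace of `K ^ ι`: the height of the vector of its Pluecker coordinates. -/
noncomputable def hPl (V : Submodule K (ι → K)) : ℝ :=
  logHeight fun s : Fin (Module.finrank K V) → ι =>
    (Matrix.of fun a b => (Module.finBasis K V a : ι → K) (s b)).det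

/-- The height with respect to the canonical class of the point `p` of the smooth projective variety
with the ideal `J` of dimension `n`: the height of the tangent space of the cone minus its dimension
`n + 1` times the height of the point. This is `h_{K_X}` up to `O(1)`, because the determinant of the
bundle of these tangent spaces is the tensor product of `O(- n - 1)` and the dual of the canonical
bundle, so that the Gauss map pulls the Pluecker class back to `K_X + (n + 1) H`. -/
noncomputable def hCan (J : Ideal (MvPolynomial ι K)) (p : ι → K) : ℝ :=
  hPl (Tan J p) - Module.finrank K (Tan J p) * logHeight p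

/-- The proximity function `m_{S,D}` of the point `p` with respect to the closed subscheme `D` with the
equations `g j = 0` (forms of degree `e`), for the set of places which consists of all infinite places
and the finite places in `S`. -/
noncomputable def prox (S : Finset (FinitePlace K)) (e : ℕ) (g : κ → MvPolynomial ι K) (p : ι → K) :
    ℝ :=
  (∑ v : InfinitePlace K, v.mult * lam v.val e g p) + ∑ v ∈ S, lam v.val e g p

/-- The truncated counting function `N^(1)_S` of the point `p` with respect to the union `D` of the
closed subschemes with the equations `f b j = 0` (forms of degree `e`): the sum of `log q_v` over the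
finite places `v` not in `S` at which `p` meets `D`, every place once, however many of the `D_b` the
point meets there and with whatever multiplicity; `q_v` is the number of elements of the residue
field. -/
noncomputable def trunc (S : Finset (FinitePlace K)) (e : ℕ) (f : β → κ → MvPolynomial ι K)
    (p : ι → K) : ℝ :=
  ∑ᶠ v ∈ {v : FinitePlace K | v ∉ S ∧ ∃ b, 0 < lam v.val e (f b) p},
    Real.log (Ideal.absNorm v.maximalIdeal.asIdeal)

end

/-- Q1 with `D = 0` for smooth projective varieties `X` of dimension `n` over `K`: for every `ε > 0`
there is a proper closed subset `G = 0` of `X` outside which `h_{K_X} ≤ ε h + O(1)` holds for all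
points of `X` over `K`. -/
def VojtaZero (K : Type u) [Field K] [NumberField K] (n : ℕ) : Prop :=
  ∀ (ι : Type) [Fintype ι] (J : Ideal (MvPolynomial ι K)), Smooth J n → ∀ ε : ℝ, 0 < ε →
    ∃ (G : MvPolynomial ι K) (C : ℝ), G ∉ J ∧ (∃ d, G.IsHomogeneous d) ∧
      ∀ p : ι → K, IsPt J p → eval p G ≠ 0 → hCan J p ≤ ε * logHeight p + C

/-- Q1 for the number field `K` and all smooth projective varieties `X` of dimension `n` over `K`: for
all smooth divisors `D_b` which meet transversally, `D = ∑ D_b`, every finite set `S` of finite places
(together with all infinite places) and every `ε > 0` there is a proper closed subset `G = 0` of `X`,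
which contains all points of `D` over `K`, outside which `m_{S,D} + h_{K_X} ≤ ε h + O(1)` holds for all
points of `X` over `K`.

To add places to `S` only makes the inequality stronger, as local heights of effective divisors are
bounded below, so sets `S` without infinite places are covered. A point of `D` has an infinite local
height, so the closed subset `Z` of the problem file contains it too. Q1 of the problem file says:
`Vojta K n` for all number fields `K` and all `n`. -/
def Vojta (K : Type u) [Field K] [NumberField K] (n : ℕ) : Prop :=
  ∀ (ι β κ : Type) [Fintype ι] [Fintype β] [Fintype κ] (J : Ideal (MvPolynomial ι K)) (e : ℕ)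
    (f : β → κ → MvPolynomial ι K), Smooth J n → Snc J e f →
    ∀ (S : Finset (FinitePlace K)) (ε : ℝ), 0 < ε →
    ∃ (G : MvPolynomial ι K) (C : ℝ), G ∉ J ∧ (∃ d, G.IsHomogeneous d) ∧
      ∀ p : ι → K, IsPt J p → eval p G ≠ 0 → (∀ b, ∃ j, eval p (f b j) ≠ 0) ∧
        ∑ b, prox S e (f b) p + hCan J p ≤ ε * logHeight p + C

/-- Vojta's conjecture for rational points with truncated counting functions (Vojta's more general abc
conjecture of 1998 for rational points), for smooth projective varieties `X` of dimension `n` over `K`
and divisors `D` as before: `h_D + h_{K_X} ≤ N^(1)_S(D) + ε h + O(1)` outside a proper closed subset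
`G = 0` of `X`, for all points of `X` over `K`. The height with respect to `D_b` of the point `p` is
`e` times the height of `p` minus the height of the vector `(f b j (p))_j`, which is the sum of all
local heights `lam`. For `X = ℙ¹` and `D = 0 + 1 + ∞` this is the abc conjecture over `K`. -/
def VojtaTrunc (K : Type u) [Field K] [NumberField K] (n : ℕ) : Prop :=
  ∀ (ι β κ : Type) [Fintype ι] [Fintype β] [Fintype κ] (J : Ideal (MvPolynomial ι K)) (e : ℕ)
    (f : β → κ → MvPolynomial ι K), Smooth J n → Snc J e f →
    ∀ (S : Finset (FinitePlace K)) (ε : ℝ), 0 < ε →
    ∃ (G : MvPolynomial ι K) (C : ℝ), G ∉ J ∧ (∃ d, G.IsHomogeneous d) ∧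
      ∀ p : ι → K, IsPt J p → eval p G ≠ 0 → (∀ b, ∃ j, eval p (f b j) ≠ 0) ∧
        ∑ b, (e * logHeight p - logHeight fun j => eval p (f b j)) + hCan J p ≤
          trunc S e f p + ε * logHeight p + C

end Pool.Agent.Lib.MP_17a322_nt.EQ
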