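import Pool.Agent.Lib.MP_17a322_nt.EQ.H3a
import Pool.Agent.Lib.MP_17a322_nt.EQ.D1c

/-!
Vojta's conjecture and its case `D = 0`: the canonical height on the blow-up.
-/

set_option linter.unusedSectionVars false

universe u

namespace Pool.Agent.Lib.MP_17a322_nt.EQ

open MvPolynomial Height NumberField

section

variable {K : Type u} [Field K] [NumberField K] {ι κ β : Type} [Fintype ι] [Fintype κ] [Fintype β]
  [DecidableEq β]

/-- The canonical height on the blow-up. -/
theorem hCan_blow {J : Ideal (MvPolynomial ι K)} {n e : ℕ} {f : β → κ → MvPolynomial ι K}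
    (hJ : Smooth J n) (hf : Snc J e f) {a b : β} (hab : a ≠ b)
    (hJ' : Smooth (bJ J (cen (f a) (f b))) n) :
    ∃ C : ℝ, ∀ q : ι → K, IsPt J q → Off f q →
      hCan J q + (e * logHeight q - logHeight fun l => eval q (cen (f a) (f b) l)) ≤
        hCan (bJ J (cen (f a) (f b))) (bq f a b q) + C := by
  classical
  obtain ⟨m, d, y, hyh, hyt, hyi⟩ := frames hJ
  have hfr := fun r => frame_height hJ hf hab (hyh r) (fun L _ _ p hp k => hyt L p hp r k)
  choose C hC using hfr
  refine ⟨∑ r, |C r|, fun q hq ho => ?_⟩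
  have hae : ∀ F : MvPolynomial ι K, aeval q F = eval q F := fun F => by
    rw [← MvPolynomial.coe_aeval_eq_eval]; rfl
  obtain ⟨r, hr⟩ := hyi K q hq
  have hr' : LinearIndependent K (fun k i => eval q (y r k i)) := by
    have h := hr
    simp only [hae] at h
    exact h
  have hCr := hC r q hq ho hr'
  have hCle : C r ≤ ∑ r, |C r| :=
    (le_abs_self _).trans (Finset.single_le_sum (f := fun r => |C r|) (fun _ _ => abs_nonneg _)
      (Finset.mem_univ r))
  obtain ⟨jj, hjj⟩ := ho a
  have hw : ∃ l, aeval q (cen (f a) (f b) l) ≠ 0 := ⟨Sum.inl jj, by rw [hae]; exact hjj⟩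
  have hwh : ∀ l, (cen (f a) (f b) l).IsHomogeneous e := by
    rintro (l | l)
    · exact hf.homog a l
    · exact hf.homog b l
  have hsg : (sg q fun l => aeval q (cen (f a) (f b) l)) = bq f a b q := by
    unfold bq
    simp only [hae]
  have hpt : IsPt (bJ J (cen (f a) (f b))) (bq f a b q) := bq_IsPt hq ho
  have hd1 : Module.finrank K (Tan J q) = n + 1 := hJ.dim K q hq
  have hd2 : Module.finrank K (Tan (bJ J (cen (f a) (f b))) (bq f a b q)) = n + 1 :=
    hJ'.dim K _ hpt
  have hm1 : ∀ k, (fun i => eval q (y r k i)) ∈ Tan J q := by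
    intro k
    have h := hyt K q hq r k
    simp only [hae] at h
    exact h
  have h1 := hPl_eq (Tan J q) hd1 (fun k i => eval q (y r k i)) hm1 hr'
  have hm2 : ∀ k, Ph (cen (f a) (f b)) q (fun i => eval q (y r k i)) ∈
      Tan (bJ J (cen (f a) (f b))) (bq f a b q) := by
    intro k
    have h := Ph_mem (w := cen (f a) (f b)) (hm1 k)
    rw [hsg] at h
    exact h
  have hi2 : LinearIndependent K fun k => Ph (cen (f a) (f b)) q (fun i => eval q (y r k i)) := by
    have hker : LinearMap.ker (PhL (cen (f a) (f b)) q) = ⊥ := by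
      rw [LinearMap.ker_eq_bot']
      intro z hz
      exact Ph_inj hwh hq.1 hw hz
    exact hr'.map' (PhL (cen (f a) (f b)) q) hker
  have h2 := hPl_eq (Tan (bJ J (cen (f a) (f b))) (bq f a b q)) hd2 _ hm2 hi2
  have h3 := bq_height_eq (f := f) (a := a) (b := b) hq.1 ho
  have hA : hCan J q = (logHeight fun s : Fin (n + 1) → ι =>
      (Matrix.of fun a b => eval q (y r a (s b))).det) - (n + 1) * logHeight q := by
    unfold hCan
    rw [h1, hd1]
    push_cast
    rfl
  have hB : hCan (bJ J (cen (f a) (f b))) (bq f a b q) =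
      (logHeight fun s : Fin (n + 1) → ι × (κ ⊕ κ) => (Matrix.of fun r' t =>
        Ph (cen (f a) (f b)) q (fun i => eval q (y r r' i)) (s t)).det) -
        (n + 1) * (logHeight q + logHeight fun l => eval q (cen (f a) (f b) l)) := by
    unfold hCan
    rw [h2, hd2, h3]
    push_cast
    rfl
  rw [hA, hB]
  linarith [hCr, hCle]

end

end Pool.Agent.Lib.MP_17a322_nt.EQ
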