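import Pool.Agent.Lib.MP_17a322_nt.EQ.P1b

/-!
Vojta's conjecture and its case `D = 0`: sums of local heights.
-/

set_option linter.unusedSectionVars false

universe u

namespace Pool.Agent.Lib.MP_17a322_nt.EQ

open MvPolynomial Height NumberField

section

variable {K : Type u} [Field K] [NumberField K] {ι κ β : Type} [Fintype ι] [Fintype κ] [Fintype β]

/-- Almost all local heights vanish. -/
theorem FS_prf (e : ℕ) (f : β → κ → MvPolynomial ι K) (q : ι → K) (b : β) :
    FS fun v => prf e f q v b := by
  have h1 : FS fun v : Pl K => (e : ℝ) * Real.log (⨆ i, av v (q i)) :=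
    (FS_log q).mul_left fun _ => (e : ℝ)
  have h2 : FS fun v : Pl K => (-1 : ℝ) * Real.log (⨆ j, av v (eval q (f b j))) :=
    (FS_log fun j => eval q (f b j)).mul_left fun _ => (-1 : ℝ)
  have h3 := h1.add h2
  refine h3.subset ?_
  intro w hw
  simp only [Set.mem_ofPred_eq, prf, lam] at hw ⊢
  intro h
  exact hw (by linarith only [h])

/-- If all coordinates of `x v` vanish at almost all places then so does `F v (x v)`. -/
theorem FS_comp {F : Pl K → (β → ℝ) → ℝ} (hF : ∀ v, F v 0 = 0) {x : Pl K → β → ℝ}
    (hx : ∀ b, FS fun v => x v b) : FS fun v => F v (x v) := by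
  have h1 : (⋃ b, {w : FinitePlace K | x (Sum.inr w) b ≠ 0}).Finite :=
    Set.finite_iUnion fun b => hx b
  refine h1.subset ?_
  intro w hw
  simp only [Set.mem_ofPred_eq, Set.mem_iUnion] at hw ⊢
  by_contra hcon
  push Not at hcon
  apply hw
  have h2 : x (Sum.inr w) = 0 := funext hcon
  rw [h2, hF]

/-- The sum of the local heights with respect to a closed subscheme. -/
theorem psum_lam {e : ℕ} {g : κ → MvPolynomial ι K} {q : ι → K} (hq : q ≠ 0)
    (hg : ∃ j, eval q (g j) ≠ 0) :
    psum (fun v => lam (av v) e g q) = e * logHeight q - logHeight fun j => eval q (g j) := by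
  have hg0 : (fun j => eval q (g j)) ≠ 0 := by
    obtain ⟨j, hj⟩ := hg
    exact fun h => hj (congrFun h j)
  have h1 : FS fun v : Pl K => (e : ℝ) * Real.log (⨆ i, av v (q i)) :=
    (FS_log q).mul_left fun _ => (e : ℝ)
  have h2 : FS fun v : Pl K => (-1 : ℝ) * Real.log (⨆ j, av v (eval q (g j))) :=
    (FS_log fun j => eval q (g j)).mul_left fun _ => (-1 : ℝ)
  have h3 : (fun v : Pl K => lam (av v) e g q) = fun v : Pl K =>
      (e : ℝ) * Real.log (⨆ i, av v (q i)) + (-1 : ℝ) * Real.log (⨆ j, av v (eval q (g j))) := by
    funext v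
    rw [lam]
    ring
  rw [h3, psum_add h1 h2, psum_mul, psum_mul, psum_log hq, psum_log hg0]
  ring

/-- The coordinates of `xh` vanish at almost all places. -/
theorem FS_xh (γ : Type) (e : ℕ) (f : β → κ → MvPolynomial ι K) (q : ι → K) {t : K} (ht : t ≠ 0)
    (i : β ⊕ Bool ⊕ γ) : FS fun v => xh γ e f q t v i := by
  have hl1 : FS fun v : Pl K => l1 v t := by
    refine (FS_log (K := K) (fun j : Bool => if j then t else 1)).subset ?_
    intro w hw
    simp only [Set.mem_ofPred_eq, l1] at hw ⊢
    intro h
    apply hw
    rw [← h]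
    congr 1
    have hb : BddAbove (Set.range fun i : Bool => (av (Sum.inr w)) (if i = true then t else 1)) :=
      (Set.finite_range _).bddAbove
    apply le_antisymm
    · apply max_le
      · exact le_ciSup_of_le hb true (by simp)
      · exact le_ciSup_of_le hb false (by simp)
    · apply ciSup_le
      intro b
      cases b <;> simp
  have hl2 : FS fun v : Pl K => (-1 : ℝ) * Real.log (av v t) := by
    refine (FS_log (K := K) (fun _ : Unit => t)).subset ?_
    intro w hw
    simp only [Set.mem_ofPred_eq] at hw ⊢
    intro h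
    apply hw
    rw [ciSup_unique] at h
    rw [h, mul_zero]
  rcases i with b | j | c
  · exact FS_prf e f q b
  · cases j
    · refine (hl1.add hl2).subset ?_
      intro w hw
      simp only [Set.mem_ofPred_eq, xh, Sum.elim_inr, Sum.elim_inl] at hw ⊢
      intro h
      apply hw
      simp only [Bool.false_eq_true, if_false]
      linarith only [h]
    · refine hl1.subset ?_
      intro w hw
      simpa [xh] using hw
  · refine (Set.finite_empty).subset ?_
    intro w hw
    simp [xh] at hw

end

end Pool.Agent.Lib.MP_17a322_nt.EQ
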