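import Pool.Agent.Lib.MP_17a322_nt.EQ.Int

/-!
Vojta's conjecture and its case `D = 0`: lists of blow-ups.
-/

universe u

namespace Pool.Agent.Lib.MP_17a322_nt.EQ

section

variable {β : Type} [DecidableEq β]

theorem stp_zero (s : β × β × β) : stp s (0 : β → ℝ) = 0 := by
  funext i
  simp only [stp, Pi.zero_apply, min_self, sub_zero]
  split_ifs <;> rfl

theorem run_zero (l : List (β × β × β)) : run l (0 : β → ℝ) = 0 := by
  induction l with
  | nil => rfl
  | cons s l ih => rw [run, stp_zero, ih]

theorem gain_zero (l : List (β × β × β)) : gain l (0 : β → ℝ) = 0 := by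
  induction l with
  | nil => rfl
  | cons s l ih => rw [gain, stp_zero, ih, Pi.zero_apply, Pi.zero_apply, min_self, add_zero]

end

end Pool.Agent.Lib.MP_17a322_nt.EQ
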