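import Pool.Agent.Lib.MP_17a322_nt.EQ.G8b
import Pool.Agent.Lib.MP_17a322_nt.EQ.S0
import Pool.Agent.Lib.MP_17a322_nt.EQ.P2
import Pool.Agent.Lib.MP_17a322_nt.EQ.H3b

/-!
Vojta's conjecture and its case `D = 0`: the inequality for the blow-up.
-/

set_option linter.unusedSectionVars false

universe u

namespace Pool.Agent.Lib.MP_17a322_nt.EQ

open MvPolynomial Height NumberField

section

variable {K : Type u} [Field K] [NumberField K] {ι κ β : Type} [Fintype ι] [Fintype κ] [Fintype β]
  [DecidableEq β]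

private theorem E1_iSup_sum [Nonempty κ] (g h : κ → ℝ) :
    (⨆ l : κ ⊕ κ, Sum.elim g h l) = max (⨆ j, g j) (⨆ j, h j) := by
  have hg : BddAbove (Set.range g) := (Set.finite_range g).bddAbove
  have hh : BddAbove (Set.range h) := (Set.finite_range h).bddAbove
  have hs : BddAbove (Set.range (Sum.elim g h)) := (Set.finite_range _).bddAbove
  apply le_antisymm
  · refine ciSup_le fun l => ?_
    rcases l with j | j
    · exact le_trans (le_ciSup hg j) (le_max_left _ _)
    · exact le_trans (le_ciSup hh j) (le_max_right _ _)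
  · refine max_le (ciSup_le fun j => ?_) (ciSup_le fun j => ?_)
    · exact le_ciSup hs (Sum.inl j)
    · exact le_ciSup hs (Sum.inr j)

private theorem E1_min {e : ℕ} {f : β → κ → MvPolynomial ι K} {a b : β} {q : ι → K}
    (ho : Off f q) (v : Pl K) :
    min (prf e f q v a) (prf e f q v b) = lam (av v) e (cen (f a) (f b)) q := by
  obtain ⟨ja, hja⟩ := ho a
  obtain ⟨jb, hjb⟩ := ho b
  have : Nonempty κ := ⟨ja⟩
  have ha : 0 < ⨆ j, av v (eval q (f a j)) :=
    av_iSup_pos (x := fun j => eval q (f a j)) (Function.ne_iff.2 ⟨ja, hja⟩) v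
  have hb : 0 < ⨆ j, av v (eval q (f b j)) :=
    av_iSup_pos (x := fun j => eval q (f b j)) (Function.ne_iff.2 ⟨jb, hjb⟩) v
  have hw : (⨆ l, av v (eval q (cen (f a) (f b) l))) =
      max (⨆ j, av v (eval q (f a j))) (⨆ j, av v (eval q (f b j))) := by
    rw [← E1_iSup_sum]
    congr 1
    funext l
    rcases l with j | j <;> rfl
  have hlog : Real.log (max (⨆ j, av v (eval q (f a j))) (⨆ j, av v (eval q (f b j)))) =
      max (Real.log (⨆ j, av v (eval q (f a j)))) (Real.log (⨆ j, av v (eval q (f b j)))) := by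
    rcases le_total (⨆ j, av v (eval q (f a j))) (⨆ j, av v (eval q (f b j))) with h | h
    · rw [max_eq_right h, max_eq_right (Real.log_le_log ha h)]
    · rw [max_eq_left h, max_eq_left (Real.log_le_log hb h)]
  unfold prf lam
  rw [hw, hlog]
  rcases le_total (Real.log (⨆ j, av v (eval q (f a j))))
    (Real.log (⨆ j, av v (eval q (f b j)))) with h | h
  · rw [max_eq_right h, min_eq_right (by linarith)]
  · rw [max_eq_left h, min_eq_left (by linarith)]

/-- The inequality for the blow-up implies the one for the variety. -/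
theorem blow_Phi {F : Pl K → (β → ℝ) → ℝ} (hF : ∀ v, F v 0 = 0) {J : Ideal (MvPolynomial ι K)}
    {n e : ℕ} {f : β → κ → MvPolynomial ι K} (hJ : Smooth J n) (hf : Snc J e f) {a b c : β}
    (hab : a ≠ b) (hac : a ≠ c) (hbc : b ≠ c)
    (H : Phi (bJ J (cen (f a) (f b))) e (bf e f (a, b, c)) F) :
    Phi J e f fun v x => F v (stp (a, b, c) x) + min (x a) (x b) := by
  intro ε hε
  have hJ' := (blow_snc hJ hf hab hac hbc).1
  obtain ⟨C₁, hC₁⟩ := bq_height (a := a) (b := b) hf.homog
  obtain ⟨C₂, hC₂⟩ := hCan_blow hJ hf hab hJ'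
  have he1 : (0 : ℝ) < (e : ℝ) + 1 := by positivity
  obtain ⟨G', C', hG', ⟨d, hd⟩, hin⟩ := H (ε / (e + 1)) (div_pos hε he1)
  have hprime := hJ.prime
  by_cases hex : ∃ p : ι → K, IsPt J p
  swap
  · refine ⟨1, 0, ?_, ⟨0, isHomogeneous_one _ _⟩, fun q hq => absurd ⟨q, hq⟩ hex⟩
    exact fun h => hprime.ne_top ((Ideal.eq_top_iff_one J).2 h)
  obtain ⟨p, hp⟩ := hex
  choose js hjs using fun i => hf.exists_notMem hp i
  refine ⟨aeval (fun z : ι × (κ ⊕ κ) => X z.1 * cen (f a) (f b) z.2) G' * ∏ i, f i (js i),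
    C' + C₂ + ε / (e + 1) * C₁, ?_, ?_, ?_⟩
  · intro h
    rcases hprime.mem_or_mem h with h | h
    · exact hG' (mem_bJ.2 h)
    · obtain ⟨i, _, hi⟩ := (Ideal.IsPrime.prod_mem_iff (hp := hprime)).1 h
      exact hjs i hi
  · have h1 : (aeval (fun z : ι × (κ ⊕ κ) => (X z.1 : MvPolynomial ι K) *
        cen (f a) (f b) z.2) G').IsHomogeneous ((1 + e) * d) :=
      hd.aeval _ fun z => (isHomogeneous_X _ _).mul (cen_hom (hf.homog a) (hf.homog b) z.2)
    have h2 : (∏ i, f i (js i)).IsHomogeneous (∑ _i : β, e) :=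
      IsHomogeneous.prod Finset.univ (fun i => f i (js i)) (fun _ => e)
        fun i _ => hf.homog i (js i)
    exact ⟨_, h1.mul h2⟩
  · intro q hq hG
    rw [map_mul, map_prod] at hG
    have hG1 := left_ne_zero_of_mul hG
    have hG2 := right_ne_zero_of_mul hG
    have ho : Off f q := fun i =>
      ⟨js i, fun h => hG2 (Finset.prod_eq_zero (Finset.mem_univ i) h)⟩
    refine ⟨ho, ?_⟩
    have hq' := bq_IsPt (a := a) (b := b) hq ho
    have hev : eval (bq f a b q) G' ≠ 0 := by
      have h1 : eval q (aeval (fun z : ι × (κ ⊕ κ) => (X z.1 : MvPolynomial ι K) *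
          cen (f a) (f b) z.2) G') = eval (bq f a b q) G' := by
        have h2 := aeval_comp (K := K) (L := K) q (fun z : ι × (κ ⊕ κ) =>
          (X z.1 : MvPolynomial ι K) * cen (f a) (f b) z.2) G'
        have h3 : (fun z : ι × (κ ⊕ κ) => aeval q ((X z.1 : MvPolynomial ι K) *
            cen (f a) (f b) z.2)) = bq f a b q := by
          funext z
          rw [map_mul, aeval_X]
          rfl
        rw [h3] at h2
        exact h2
      rw [← h1]
      exact hG1
    obtain ⟨_, hineq⟩ := hin (bq f a b q) hq' hev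
    have hprf : (fun v => F v (prf e (bf e f (a, b, c)) (bq f a b q) v)) =
        fun v => F v (stp (a, b, c) (prf e f q v)) := by
      funext v
      rw [bq_prf hf.pos hf.homog hab hac hbc hq.1 ho v]
    rw [hprf] at hineq
    have hFS1 : FS fun v => F v (stp (a, b, c) (prf e f q v)) :=
      FS_comp (F := fun v x => F v (stp (a, b, c) x)) (fun v => by rw [stp_zero, hF])
        (fun i => FS_prf e f q i)
    have hFS2 : FS fun v => min (prf e f q v a) (prf e f q v b) :=
      FS_comp (F := fun _ x => min (x a) (x b)) (fun v => min_self _) (fun i => FS_prf e f q i)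
    have hmin : psum (fun v => min (prf e f q v a) (prf e f q v b)) =
        e * logHeight q - logHeight fun j => eval q (cen (f a) (f b) j) := by
      rw [← psum_lam hq.1]
      · congr 1
        funext v
        exact E1_min ho v
      · obtain ⟨j, hj⟩ := ho a
        exact ⟨Sum.inl j, hj⟩
    rw [psum_add hFS1 hFS2, hmin]
    have h3 := hC₂ q hq ho
    have h4 := hC₁ q hq.1 ho
    have h5 : ε / (e + 1) * logHeight (bq f a b q) ≤
        ε / (e + 1) * ((e + 1) * logHeight q + C₁) :=
      mul_le_mul_of_nonneg_left h4 (div_pos hε he1).le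
    have h6 : ε / (e + 1) * ((e + 1) * logHeight q + C₁) =
        ε * logHeight q + ε / (e + 1) * C₁ := by
      field_simp
    rw [h6] at h5
    linarith

end

end Pool.Agent.Lib.MP_17a322_nt.EQ
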