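import Pool.Agent.Lib.MP_17a322_nt.EQ.G2

/-!
Vojta's conjecture and its case `D = 0`: a divisor does not contain the variety.
-/

set_option linter.unusedSectionVars false

universe u

namespace Pool.Agent.Lib.MP_17a322_nt.EQ

open MvPolynomial

section

variable {K : Type u} [Field K] {ι κ β : Type} [Fintype ι]

/-- A divisor of the list does not contain the variety. -/
theorem Snc.exists_notMem {J : Ideal (MvPolynomial ι K)} {e : ℕ} {f : β → κ → MvPolynomial ι K}
    (hf : Snc J e f) {L : Type u} [Field L] [Algebra K L] {p : ι → L} (hp : IsPt J p) (b : β) :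
    ∃ j, f b j ∉ J := by
  by_contra hcon
  have h0 : ∀ j, f b j ∈ J := fun j => by
    by_contra h
    exact hcon ⟨j, h⟩
  obtain ⟨s, _, h2⟩ := hf.trans L p hp
  refine h2.ne_zero ⟨b, fun j => hp.2 _ (h0 j)⟩ ?_
  refine LinearMap.ext fun y => ?_
  exact mem_Tan.1 y.2 _ (h0 (s b))

end

end Pool.Agent.Lib.MP_17a322_nt.EQ
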