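import Pool.Agent.Lib.MP_17a322_nt.EQ.G7
import Pool.Agent.Lib.MP_17a322_nt.EQ.P2

/-!
Vojta's conjecture and its case `D = 0`: local heights on the product with the line.
-/

set_option linter.unusedSectionVars false

universe u

namespace Pool.Agent.Lib.MP_17a322_nt.EQ

open MvPolynomial Height NumberField

section

variable {K : Type u} [Field K] [NumberField K] {ι κ β : Type} [Fintype ι] [Fintype κ] [Fintype β]
  {J : Ideal (MvPolynomial ι K)} {e : ℕ} {f : β → κ → MvPolynomial ι K}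

private theorem G9_sup {α : Type*} [Finite α] {g : α → ℝ} {c : ℝ} (a : α) (h : g a = c)
    (hle : ∀ a, g a ≤ c) : ⨆ a, g a = c := by
  have : Nonempty α := ⟨a⟩
  exact le_antisymm (ciSup_le hle) (h ▸ le_ciSup (Set.finite_range g).bddAbove a)

private theorem G9_tv {t : K} (ht : t ≠ 0) (j : Bool) : tv t j ≠ 0 := by
  cases j
  · exact ht
  · exact one_ne_zero

private theorem G9_sub (q : ι → K) (t : Bool → K) {g : MvPolynomial ι K} {e : ℕ}
    (hg : g.IsHomogeneous e) (l : Bool) :
    eval (sg q t) (sub g l) = t l ^ e * eval q g := by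
  have h1 := aeval_sub' (sg q t) g l
  rw [aeval_eq_eval] at h1
  rw [h1]
  have h2 : (fun i => sg q t (i, l)) = fun i => t l * q i := by
    funext i
    exact mul_comm _ _
  rw [h2, aeval_mul hg, aeval_eq_eval]

/-- The point `(q, t)` is a point of the product. -/
theorem pq_IsPt {q : ι → K} (hq : IsPt J q) (t : K) : IsPt (pJ J) (sg q (tv t)) := by
  refine ⟨?_, pJ_sg hq.2 (tv t)⟩
  obtain ⟨i, hi⟩ := Function.ne_iff.1 hq.1
  refine Function.ne_iff.2 ⟨(i, true), ?_⟩
  exact mul_ne_zero hi one_ne_zero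

/-- The point lies on none of the divisors. -/
theorem pq_off (γ : Type) (he : 0 < e) (hfh : ∀ b j, (f b j).IsHomogeneous e) {q : ι → K}
    (hq : q ≠ 0) (ho : Off f q) {t : K} (ht : t ≠ 0) : Off (pf e f γ) (sg q (tv t)) := by
  obtain ⟨i, hi⟩ := Function.ne_iff.1 hq
  have hi' : q i ≠ 0 := hi
  have hz : ∀ l, sg q (tv t) (i, l) ≠ 0 := fun l => mul_ne_zero hi' (G9_tv ht l)
  rintro (b | j | c)
  · obtain ⟨k, hk⟩ := ho b
    refine ⟨Sum.inl (k, true), ?_⟩
    have h1 : pf e f γ (Sum.inl b) (Sum.inl (k, true)) = sub (f b k) true := rfl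
    rw [h1, G9_sub q (tv t) (hfh b k)]
    exact mul_ne_zero (pow_ne_zero _ (G9_tv ht true)) hk
  · refine ⟨Sum.inr ((i, j), (i, j)), ?_⟩
    have h1 : pf e f γ (Sum.inr (Sum.inl j)) (Sum.inr ((i, j), (i, j))) =
        if j = j then X (i, j) * X (i, j) ^ (e - 1) else 0 := rfl
    rw [h1, if_pos rfl, map_mul, map_pow, eval_X]
    exact mul_ne_zero (hz j) (pow_ne_zero _ (hz j))
  · refine ⟨Sum.inr ((i, true), (i, true)), ?_⟩
    have h1 : pf e f γ (Sum.inr (Sum.inr c)) (Sum.inr ((i, true), (i, true))) =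
        if True then X (i, true) * X (i, true) ^ (e - 1) else 0 := rfl
    rw [h1, if_pos trivial, map_mul, map_pow, eval_X]
    exact mul_ne_zero (hz true) (pow_ne_zero _ (hz true))

/-- The local heights of the point `(q, t)` of the product. -/
theorem pq_prf (γ : Type) (he : 0 < e) (hfh : ∀ b j, (f b j).IsHomogeneous e) {q : ι → K}
    (hq : q ≠ 0) (ho : Off f q) {t : K} (ht : t ≠ 0) (v : Pl K) :
    prf e (pf e f γ) (sg q (tv t)) v = xh γ e f q t v := by
  obtain ⟨i', hi'⟩ := Function.ne_iff.1 hq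
  have : Nonempty ι := ⟨i'⟩
  obtain ⟨i₀, hi₀⟩ := Finite.exists_max fun i => av v (q i)
  obtain ⟨l₀, hl₀⟩ := Finite.exists_max fun l => av v (tv t l)
  have hN0 : 0 < av v (q i₀) := lt_of_lt_of_le ((av v).pos hi') (hi₀ i')
  have hM0 : 0 < av v (tv t l₀) := (av v).pos (G9_tv ht l₀)
  have hM1 : max (av v t) 1 = av v (tv t l₀) := by
    have h1 := hl₀ true
    have h2 := hl₀ false
    have h3 : tv t true = 1 := rfl
    have h4 : tv t false = t := rfl
    rw [h3, map_one] at h1
    rw [h4] at h2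
    refine le_antisymm (max_le h2 h1) ?_
    cases l₀
    · exact le_max_left _ _
    · rw [h3, map_one]
      exact le_max_right _ _
  have hq1 : ∀ z, av v (sg q (tv t) z) ≤ av v (q i₀) * av v (tv t l₀) := by
    intro z
    rw [sg, map_mul]
    exact mul_le_mul (hi₀ z.1) (hl₀ z.2) ((av v).nonneg _) hN0.le
  have hq2 : ∀ i l, av v (sg q (tv t) (i, l)) = av v (q i) * av v (tv t l) := fun i l => by
    rw [sg, map_mul]
  have hS : ⨆ z, av v (sg q (tv t) z) = av v (q i₀) * av v (tv t l₀) :=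
    G9_sup (i₀, l₀) (hq2 i₀ l₀) hq1
  have hNM : 0 < av v (q i₀) * av v (tv t l₀) := mul_pos hN0 hM0
  have hQ : ⨆ i, av v (q i) = av v (q i₀) := G9_sup i₀ rfl hi₀
  have he1 : ((e - 1 : ℕ) : ℝ) = e - 1 := by
    rw [Nat.cast_sub he, Nat.cast_one]
  funext b
  have hlhs : prf e (pf e f γ) (sg q (tv t)) v b =
      e * Real.log (⨆ z, av v (sg q (tv t) z)) -
        Real.log (⨆ z, av v (eval (sg q (tv t)) (pf e f γ b z))) := rfl
  rw [hlhs, hS]
  rcases b with b | j | c
  · obtain ⟨k₁, hk₁⟩ := ho b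
    have : Nonempty κ := ⟨k₁⟩
    obtain ⟨k₀, hk₀⟩ := Finite.exists_max fun k => av v (eval q (f b k))
    have hF0 : 0 < av v (eval q (f b k₀)) := lt_of_lt_of_le ((av v).pos hk₁) (hk₀ k₁)
    have hF : ⨆ k, av v (eval q (f b k)) = av v (eval q (f b k₀)) := G9_sup k₀ rfl hk₀
    have hE : ⨆ z, av v (eval (sg q (tv t)) (pf e f γ (Sum.inl b) z)) =
        av v (tv t l₀) ^ e * av v (eval q (f b k₀)) := by
      refine G9_sup (Sum.inl (k₀, l₀)) ?_ ?_
      · have h1 : pf e f γ (Sum.inl b) (Sum.inl (k₀, l₀)) = sub (f b k₀) l₀ := rfl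
        rw [h1, G9_sub q (tv t) (hfh b k₀), map_mul, map_pow]
      · rintro (⟨k, l⟩ | z)
        · have h1 : pf e f γ (Sum.inl b) (Sum.inl (k, l)) = sub (f b k) l := rfl
          rw [h1, G9_sub q (tv t) (hfh b k), map_mul, map_pow]
          exact mul_le_mul (pow_le_pow_left₀ ((av v).nonneg _) (hl₀ l) e) (hk₀ k)
            ((av v).nonneg _) (pow_nonneg hM0.le e)
        · have h1 : pf e f γ (Sum.inl b) (Sum.inr z) = 0 := rfl
          rw [h1, map_zero, map_zero]
          exact mul_nonneg (pow_nonneg hM0.le e) hF0.le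
    have hr : xh γ e f q t v (Sum.inl b) = e * Real.log (⨆ i, av v (q i)) -
        Real.log (⨆ k, av v (eval q (f b k))) := rfl
    rw [hE, hr, hQ, hF, Real.log_mul hN0.ne' hM0.ne', Real.log_mul (pow_pos hM0 e).ne' hF0.ne',
      Real.log_pow]
    ring
  · have hT0 : 0 < av v (tv t j) := (av v).pos (G9_tv ht j)
    have hE : ⨆ z, av v (eval (sg q (tv t)) (pf e f γ (Sum.inr (Sum.inl j)) z)) =
        av v (q i₀) * av v (tv t j) * (av v (q i₀) * av v (tv t l₀)) ^ (e - 1) := by
      refine G9_sup (Sum.inr ((i₀, j), (i₀, l₀))) ?_ ?_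
      · have h1 : pf e f γ (Sum.inr (Sum.inl j)) (Sum.inr ((i₀, j), (i₀, l₀))) =
            if j = j then X (i₀, j) * X (i₀, l₀) ^ (e - 1) else 0 := rfl
        rw [h1, if_pos rfl, map_mul, map_pow, eval_X, eval_X, map_mul, map_pow, hq2, hq2]
      · rintro (z | ⟨⟨i, l⟩, z⟩)
        · have h1 : pf e f γ (Sum.inr (Sum.inl j)) (Sum.inl z) = 0 := rfl
          rw [h1, map_zero, map_zero]
          exact mul_nonneg (mul_nonneg hN0.le hT0.le) (pow_nonneg hNM.le _)
        · have h1 : pf e f γ (Sum.inr (Sum.inl j)) (Sum.inr ((i, l), z)) =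
              if l = j then X (i, l) * X z ^ (e - 1) else 0 := rfl
          rw [h1]
          split_ifs with h2
          · rw [map_mul, map_pow, eval_X, eval_X, map_mul, map_pow, hq2, h2]
            exact mul_le_mul (mul_le_mul_of_nonneg_right (hi₀ i) hT0.le)
              (pow_le_pow_left₀ ((av v).nonneg _) (hq1 z) _) (pow_nonneg ((av v).nonneg _) _)
              (mul_nonneg hN0.le hT0.le)
          · rw [map_zero, map_zero]
            exact mul_nonneg (mul_nonneg hN0.le hT0.le) (pow_nonneg hNM.le _)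
    have hr : xh γ e f q t v (Sum.inr (Sum.inl j)) =
        if j then l1 v t else l1 v t - Real.log (av v t) := rfl
    have hl : Real.log (av v (tv t l₀)) = l1 v t := by
      rw [l1, hM1]
    rw [hE, hr, Real.log_mul (mul_pos hN0 hT0).ne' (pow_pos hNM _).ne', Real.log_pow, he1,
      Real.log_mul hN0.ne' hM0.ne', Real.log_mul hN0.ne' hT0.ne', hl]
    cases j
    · have h3 : tv t false = t := rfl
      rw [h3, if_neg Bool.false_ne_true]
      ring
    · have h3 : tv t true = 1 := rfl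
      rw [h3, map_one, Real.log_one, if_pos rfl]
      ring
  · have hE : ⨆ z, av v (eval (sg q (tv t)) (pf e f γ (Sum.inr (Sum.inr c)) z)) =
        av v (q i₀) * av v (tv t l₀) * (av v (q i₀) * av v (tv t l₀)) ^ (e - 1) := by
      refine G9_sup (Sum.inr ((i₀, l₀), (i₀, l₀))) ?_ ?_
      · have h1 : pf e f γ (Sum.inr (Sum.inr c)) (Sum.inr ((i₀, l₀), (i₀, l₀))) =
            if True then X (i₀, l₀) * X (i₀, l₀) ^ (e - 1) else 0 := rfl
        rw [h1, if_pos trivial, map_mul, map_pow, eval_X, map_mul, map_pow, hq2]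
      · rintro (z | ⟨z, z'⟩)
        · have h1 : pf e f γ (Sum.inr (Sum.inr c)) (Sum.inl z) = 0 := rfl
          rw [h1, map_zero, map_zero]
          exact mul_nonneg hNM.le (pow_nonneg hNM.le _)
        · have h1 : pf e f γ (Sum.inr (Sum.inr c)) (Sum.inr (z, z')) =
              if True then X z * X z' ^ (e - 1) else 0 := rfl
          rw [h1, if_pos trivial, map_mul, map_pow, eval_X, eval_X, map_mul, map_pow]
          exact mul_le_mul (hq1 z) (pow_le_pow_left₀ ((av v).nonneg _) (hq1 z') _)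
            (pow_nonneg ((av v).nonneg _) _) hNM.le
    have hr : xh γ e f q t v (Sum.inr (Sum.inr c)) = 0 := rfl
    rw [hE, hr, Real.log_mul hNM.ne' (pow_pos hNM _).ne', Real.log_pow, he1]
    ring

/-- The height of the point. -/
theorem pq_height {q : ι → K} (hq : q ≠ 0) (t : K) :
    logHeight (sg q (tv t)) = logHeight q + logHeight₁ t := by
  have h1 : (tv t : Bool → K) ≠ 0 := Function.ne_iff.2 ⟨true, one_ne_zero⟩
  have h2 : logHeight (sg q (tv t)) = logHeight q + logHeight (tv t) :=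
    logHeight_fun_mul_eq hq h1
  have h3 : (![t, 1] ∘ finTwoEquiv.symm : Bool → K) = tv t := by
    funext j
    cases j <;> rfl
  rw [h2, logHeight₁_eq_logHeight, ← logHeight_comp_equiv finTwoEquiv.symm, h3]

end

end Pool.Agent.Lib.MP_17a322_nt.EQ
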