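import Pool.Agent.Lib.MP_17a322_nt.EQ.H1
import Pool.Agent.Lib.MP_17a322_nt.EQ.G5d
import Pool.Agent.Lib.MP_17a322_nt.EQ.G9

/-!
Vojta's conjecture and its case `D = 0`: the canonical height on the product with the line.
-/

set_option linter.unusedSectionVars false

universe u

namespace Pool.Agent.Lib.MP_17a322_nt.EQ

open MvPolynomial Height NumberField

section

variable {K : Type u} [Field K] [NumberField K] {ι : Type} [Fintype ι]
  {J : Ideal (MvPolynomial ι K)}

/-- A determinant whose last row has only one nonzero entry. -/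
theorem H2_aux_last {F : Type*} [Field F] {m : ℕ} (A : Matrix (Fin (m + 1)) (Fin (m + 1)) F)
    (h : ∀ b : Fin m, A (Fin.last m) b.castSucc = 0) :
    A.det = A (Fin.last m) (Fin.last m) *
      (Matrix.of fun a b : Fin m => A a.castSucc b.castSucc).det := by
  rw [Matrix.det_succ_row A (Fin.last m), Finset.sum_eq_single (Fin.last m)]
  · have h1 : (-1 : F) ^ ((Fin.last m : ℕ) + (Fin.last m : ℕ)) = 1 := by
      rw [← two_mul, pow_mul]
      norm_num
    rw [h1, one_mul]
    congr 2
    ext a b
    simp [Matrix.submatrix_apply, Fin.succAbove_last]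
  · intro b _ hb
    obtain ⟨c, rfl⟩ := Fin.exists_castSucc_eq.2 hb
    rw [h c, mul_zero, zero_mul]
  · intro h1
    exact absurd (Finset.mem_univ _) h1

/-- The vectors `y_a ⊗ (t, 1)` and `q ⊗ (1, 0)`. -/
def H2_fam {F : Type*} [Field F] {m : ℕ} (q : ι → F) (y : Fin m → ι → F) (t : F) :
    Fin (m + 1) → ι × Bool → F :=
  Fin.snoc (α := fun _ => ι × Bool → F) (fun a z => y a z.1 * tv t z.2)
    (fun z => q z.1 * if z.2 then 0 else 1)

theorem H2_fam_castSucc {F : Type*} [Field F] {m : ℕ} (q : ι → F) (y : Fin m → ι → F) (t : F)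
    (a : Fin m) (z : ι × Bool) : H2_fam q y t a.castSucc z = y a z.1 * tv t z.2 := by
  unfold H2_fam
  rw [Fin.snoc_castSucc]

theorem H2_fam_last {F : Type*} [Field F] {m : ℕ} (q : ι → F) (y : Fin m → ι → F) (t : F)
    (z : ι × Bool) : H2_fam q y t (Fin.last m) z = q z.1 * if z.2 then 0 else 1 := by
  unfold H2_fam
  rw [Fin.snoc_last]

/-- The index of the minor. -/
def H2_idx {m : ℕ} (s : Fin m → ι) (i : ι) (j : Bool) : Fin (m + 1) → ι × Bool :=
  Fin.snoc (α := fun _ => ι × Bool) (fun b => (s b, j)) (i, !j)

/-- The minors. -/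
theorem H2_det {F : Type*} [Field F] {m : ℕ} {q : ι → F} {y : Fin m → ι → F} {c : Fin m → F}
    (hc : ∀ i, q i = ∑ a, c a * y a i) {t : F} (ht : t ≠ 0) (s : Fin m → ι) (i : ι) (j : Bool) :
    (Matrix.of fun a b => H2_fam q y t a (H2_idx s i j b)).det =
      (Matrix.of fun a b => y a (s b)).det * (q i * if j then 1 else -(t ^ m * t⁻¹)) := by
  cases j with
  | true =>
    rw [H2_aux_last]
    · have h1 : (Matrix.of fun a b : Fin m =>
          (Matrix.of fun a b => H2_fam q y t a (H2_idx s i true b)) a.castSucc b.castSucc) =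
          Matrix.of fun a b => y a (s b) := by
        ext a b
        simp only [Matrix.of_apply, H2_fam_castSucc, H2_idx, Fin.snoc_castSucc, tv, if_true,
          mul_one]
      rw [h1]
      simp only [Matrix.of_apply, H2_fam_last, H2_idx, Fin.snoc_last, Bool.not_true,
        Bool.false_eq_true, if_false, if_true, mul_one]
      ring
    · intro b
      simp only [Matrix.of_apply, H2_fam_last, H2_idx, Fin.snoc_castSucc, if_true, mul_zero]
  | false =>
    set A : Matrix (Fin (m + 1)) (Fin (m + 1)) F :=
      Matrix.of fun a b => H2_fam q y t a (H2_idx s i false b) with hA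
    let d : Fin (m + 1) → F := Fin.snoc (α := fun _ => F) (fun a => -(c a * t⁻¹)) 1
    have h1 := Matrix.det_updateRow_sum A (Fin.last m) d
    have hd : d (Fin.last m) = 1 := by
      simp only [d, Fin.snoc_last]
    rw [hd, one_smul] at h1
    rw [← h1, H2_aux_last]
    · have h2 : (Matrix.of fun a b : Fin m =>
          (A.updateRow (Fin.last m) (∑ k, d k • A k)) a.castSucc b.castSucc) =
          t • Matrix.of fun a b => y a (s b) := by
        ext a b
        rw [Matrix.of_apply, Matrix.updateRow_ne (Fin.castSucc_lt_last a).ne]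
        simp only [hA, Matrix.of_apply, H2_fam_castSucc, H2_idx, Fin.snoc_castSucc, tv,
          Bool.false_eq_true, if_false, Matrix.smul_apply, smul_eq_mul]
        ring
      rw [h2, Matrix.det_smul, Fintype.card_fin, Matrix.updateRow_self, Finset.sum_apply,
        Fin.sum_univ_castSucc]
      simp only [Pi.smul_apply, smul_eq_mul, hd]
      have h3 : ∑ a : Fin m, d a.castSucc * A a.castSucc (Fin.last m) = -(q i * t⁻¹) := by
        rw [hc i, Finset.sum_mul, ← Finset.sum_neg_distrib]
        refine Finset.sum_congr rfl fun a _ => ?_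
        simp only [d, hA, Matrix.of_apply, H2_fam_castSucc, H2_idx, Fin.snoc_castSucc,
          Fin.snoc_last, Bool.not_false, tv, if_true, mul_one]
        ring
      have h4 : A (Fin.last m) (Fin.last m) = 0 := by
        simp only [hA, Matrix.of_apply, H2_fam_last, H2_idx, Fin.snoc_last, Bool.not_false,
          if_true, mul_zero]
      rw [h3, h4]
      simp only [Bool.false_eq_true, if_false]
      ring
    · intro b
      rw [Matrix.updateRow_self, Finset.sum_apply, Fin.sum_univ_castSucc]
      simp only [Pi.smul_apply, smul_eq_mul, hd, one_mul]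
      have h3 : ∑ a : Fin m, d a.castSucc * A a.castSucc b.castSucc = -(q (s b)) := by
        rw [hc (s b), ← Finset.sum_neg_distrib]
        refine Finset.sum_congr rfl fun a _ => ?_
        simp only [d, hA, Matrix.of_apply, H2_fam_castSucc, H2_idx, Fin.snoc_castSucc, tv,
          Bool.false_eq_true, if_false]
        field_simp
      have h4 : A (Fin.last m) b.castSucc = q (s b) := by
        simp only [hA, Matrix.of_apply, H2_fam_last, H2_idx, Fin.snoc_castSucc,
          Bool.false_eq_true, if_false, mul_one]
      rw [h3, h4]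
      ring

/-- The vectors of the family are linearly independent. -/
theorem H2_indep {F : Type*} [Field F] {m : ℕ} {q : ι → F} (hq : q ≠ 0) {y : Fin m → ι → F}
    (hy : LinearIndependent F y) (t : F) : LinearIndependent F (H2_fam q y t) := by
  rw [Fintype.linearIndependent_iff] at hy ⊢
  intro g hg
  have h0 : ∀ z : ι × Bool, (∑ a : Fin m, g a.castSucc * (y a z.1 * tv t z.2)) +
      g (Fin.last m) * (q z.1 * if z.2 then 0 else 1) = 0 := by
    intro z
    have h := congrFun hg z
    rw [Finset.sum_apply, Fin.sum_univ_castSucc] at h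
    simpa only [Pi.smul_apply, smul_eq_mul, H2_fam_castSucc, H2_fam_last, Pi.zero_apply] using h
  have h1 : ∀ a : Fin m, g a.castSucc = 0 := by
    refine hy (fun a => g a.castSucc) ?_
    ext i
    have h := h0 (i, true)
    simp only [tv, if_true, mul_one, mul_zero, add_zero] at h
    rw [Finset.sum_apply, Pi.zero_apply, ← h]
    exact Finset.sum_congr rfl fun a _ => rfl
  have h2 : g (Fin.last m) = 0 := by
    obtain ⟨i, hi⟩ := Function.ne_iff.1 hq
    have h := h0 (i, false)
    simp only [h1, zero_mul, Finset.sum_const_zero, zero_add, Bool.false_eq_true, if_false,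
      mul_one] at h
    exact (mul_eq_zero.1 h).resolve_right hi
  intro a
  induction a using Fin.lastCases with
  | last => exact h2
  | cast a => exact h1 a

/-- The height of the last factor. -/
theorem H2_height (t : K) (m : ℕ) (ht : t ≠ 0) :
    logHeight (fun j : Bool => if j then (1 : K) else -(t ^ (m + 1) * t⁻¹)) =
      m * logHeight₁ t := by
  have h1 : t ^ (m + 1) * t⁻¹ = t ^ m := by
    rw [pow_succ, mul_assoc, mul_inv_cancel₀ ht, mul_one]
  rw [h1, ← logHeight₁_pow, ← logHeight₁_neg, logHeight₁_eq_logHeight,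
    ← logHeight_comp_equiv finTwoEquiv]
  congr 1
  ext k
  fin_cases k <;> simp [finTwoEquiv]

/-- The canonical height on the product with the line. -/
theorem hCan_prod {n : ℕ} (hJ : Smooth J n) (hJ' : Smooth (pJ J) (n + 1)) {q : ι → K}
    (hq : IsPt J q) {t : K} (ht : t ≠ 0) :
    hCan J q - 2 * logHeight₁ t ≤ hCan (pJ J) (sg q (tv t)) := by
  have hT : Module.finrank K (Tan J q) = n + 1 := hJ.dim K q hq
  have hq' : IsPt (pJ J) (sg q (tv t)) := pq_IsPt hq t
  have hT' : Module.finrank K (Tan (pJ J) (sg q (tv t))) = n + 1 + 1 := hJ'.dim K _ hq'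
  -- a basis of the tangent space
  let B := Module.finBasisOfFinrankEq K (Tan J q) hT
  let y : Fin (n + 1) → ι → K := fun a => (B a : ι → K)
  have hy : ∀ a, y a ∈ Tan J q := fun a => (B a).2
  have hyi : LinearIndependent K y :=
    B.linearIndependent.map' (Tan J q).subtype (Submodule.ker_subtype _)
  have hqT : q ∈ Tan J q := self_mem_Tan hJ.homog hq
  let c : Fin (n + 1) → K := fun a => B.repr ⟨q, hqT⟩ a
  have hc : ∀ i, q i = ∑ a, c a * y a i := by
    intro i
    have h := congrArg (fun w : Tan J q => (w : ι → K) i) (B.sum_repr ⟨q, hqT⟩)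
    simp only [Submodule.coe_sum, Submodule.coe_smul, Finset.sum_apply, Pi.smul_apply,
      smul_eq_mul] at h
    exact h.symm
  -- the vectors of the tangent space of the product
  have hY : ∀ a, H2_fam q y t a ∈ Tan (pJ J) (sg q (tv t)) := by
    intro a
    induction a using Fin.lastCases with
    | last =>
      have h := pJ_tan hq.2 (Submodule.zero_mem (Tan J q)) (tv t) fun j => if j then 0 else 1
      have h1 : H2_fam q y t (Fin.last (n + 1)) = fun z : ι × Bool =>
          (0 : ι → K) z.1 * tv t z.2 + q z.1 * if z.2 then 0 else 1 := by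
        ext z
        rw [H2_fam_last, Pi.zero_apply, zero_mul, zero_add]
      rw [h1]
      exact h
    | cast a =>
      have h := pJ_tan hq.2 (hy a) (tv t) fun _ => 0
      have h1 : H2_fam q y t a.castSucc = fun z : ι × Bool =>
          y a z.1 * tv t z.2 + q z.1 * (fun _ => 0 : Bool → K) z.2 := by
        ext z
        rw [H2_fam_castSucc, mul_zero, add_zero]
      rw [h1]
      exact h
  have hYi := H2_indep hq.1 hyi t
  -- the heights
  have e1 : hPl (Tan J q) =
      logHeight fun s : Fin (n + 1) → ι => (Matrix.of fun a b => y a (s b)).det :=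
    hPl_eq _ hT y hy hyi
  have e2 : hPl (Tan (pJ J) (sg q (tv t))) = logHeight fun s : Fin (n + 1 + 1) → ι × Bool =>
      (Matrix.of fun a b => H2_fam q y t a (s b)).det :=
    hPl_eq _ hT' _ hY hYi
  have e3 : hPl (Tan J q) + (logHeight q + n * logHeight₁ t) ≤
      hPl (Tan (pJ J) (sg q (tv t))) := by
    have hu : (fun j : Bool => if j then (1 : K) else -(t ^ (n + 1) * t⁻¹)) ≠ 0 := by
      intro h
      have h1 := congrFun h true
      simp at h1
    have h2 : (fun z : ι × Bool => q z.1 * (if z.2 then (1 : K) else -(t ^ (n + 1) * t⁻¹))) ≠ 0 := by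
      intro h
      obtain ⟨i, hi⟩ := Function.ne_iff.1 hq.1
      have h1 := congrFun h (i, true)
      simp at h1
      exact hi h1
    rw [← H2_height t n ht, ← logHeight_fun_mul_eq hq.1 hu, e1,
      ← logHeight_fun_mul_eq (minors_ne hyi) h2, e2]
    have h3 : (fun z : (Fin (n + 1) → ι) × (ι × Bool) =>
        (Matrix.of fun a b => y a (z.1 b)).det *
          (q z.2.1 * (if z.2.2 then (1 : K) else -(t ^ (n + 1) * t⁻¹)))) =
        (fun s : Fin (n + 1 + 1) → ι × Bool => (Matrix.of fun a b => H2_fam q y t a (s b)).det) ∘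
          fun z => H2_idx z.1 z.2.1 z.2.2 := by
      ext z
      exact (H2_det hc ht z.1 z.2.1 z.2.2).symm
    rw [h3]
    exact logHeight_comp_le _ _
  unfold hCan
  rw [hT, hT', pq_height hq.1 t]
  push_cast
  linarith

end

end Pool.Agent.Lib.MP_17a322_nt.EQ
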