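import Pool.Agent.Lib.MP_17a322_nt.EQ.G9b
import Pool.Agent.Lib.MP_17a322_nt.EQ.H2
import Pool.Agent.Lib.MP_17a322_nt.EQ.G2e

/-!
Vojta's conjecture and its case `D = 0`: the inequality for the product with the line.
-/

set_option linter.unusedSectionVars false

universe u

namespace Pool.Agent.Lib.MP_17a322_nt.EQ

open MvPolynomial Height NumberField

section

variable {K : Type u} [Field K] [NumberField K] {ι κ β : Type} [Fintype ι] [Fintype κ] [Fintype β]

/-- The inequality for the product with the line implies one for the variety. -/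
theorem prod_Phi1 (γ : Type) [Fintype γ] {F : Pl K → (β ⊕ Bool ⊕ γ → ℝ) → ℝ}
    {J : Ideal (MvPolynomial ι K)} {n e : ℕ} {f : β → κ → MvPolynomial ι K} (hJ : Smooth J n)
    (hf : Snc J e f) (H : Phi (pJ J) e (pf e f γ) F) (ε : ℝ) (hε : 0 < ε) :
    ∃ (G : MvPolynomial ι K) (D : ℕ) (C : ℝ), G ∉ J ∧ (∃ d, G.IsHomogeneous d) ∧
      ∀ q : ι → K, IsPt J q → eval q G ≠ 0 → Off f q ∧ ∀ t : K, t ≠ 0 →
        ∃ j : ℕ, 1 ≤ j ∧ j ≤ D ∧
          hCan J q - 2 * logHeight₁ ((j : K) * t) +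
            psum (fun v => F v (xh γ e f q ((j : K) * t) v)) ≤
          ε * (logHeight q + logHeight₁ ((j : K) * t)) + C := by
  classical
  obtain ⟨G', C', hG', ⟨d', hd'⟩, hP⟩ := H ε hε
  obtain ⟨G₀, D, hG₀, ⟨d₀, hd₀⟩, hE⟩ := pq_exc hG' ⟨d', hd'⟩
  by_cases hpt : ∃ q₀ : ι → K, IsPt J q₀
  · obtain ⟨q₀, hq₀⟩ := hpt
    have hjex : ∀ b, ∃ j, f b j ∉ J := fun b => hf.exists_notMem hq₀ b
    choose jb hjb using hjex
    refine ⟨G₀ * ∏ b, f b (jb b), D, C', ?_, ⟨d₀ + ∑ _b : β, e, ?_⟩, ?_⟩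
    · intro h
      have hprime := hJ.prime
      rcases hprime.mem_or_mem h with h | h
      · exact hG₀ h
      · obtain ⟨b, -, hb⟩ := hprime.prod_mem_iff.1 h
        exact hjb b hb
    · exact hd₀.mul (IsHomogeneous.prod _ _ _ fun b _ => hf.homog b (jb b))
    · intro q hq hqG
      rw [map_mul, map_prod] at hqG
      have h0 : eval q G₀ ≠ 0 := left_ne_zero_of_mul hqG
      have h1 : ∏ b, eval q (f b (jb b)) ≠ 0 := right_ne_zero_of_mul hqG
      have hoff : Off f q := fun b => ⟨jb b, Finset.prod_ne_zero_iff.1 h1 b (Finset.mem_univ b)⟩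
      refine ⟨hoff, fun t ht => ?_⟩
      obtain ⟨j, hj1, hjD, hj⟩ := hE q hq h0 t ht
      refine ⟨j, hj1, hjD, ?_⟩
      have hjt : (j : K) * t ≠ 0 := by
        refine mul_ne_zero ?_ ht
        exact_mod_cast (by omega : j ≠ 0)
      have hq0 : q ≠ 0 := hq.1
      obtain ⟨-, h2⟩ := hP (sg q (tv ((j : K) * t))) (pq_IsPt hq _) hj
      have h3 : (fun v => F v (prf e (pf e f γ) (sg q (tv ((j : K) * t))) v)) =
          fun v => F v (xh γ e f q ((j : K) * t) v) := by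
        funext v
        rw [pq_prf γ hf.pos hf.homog hq0 hoff hjt v]
      rw [h3, pq_height hq0] at h2
      have h4 := hCan_prod hJ (prod_snc hJ hf γ).1 hq hjt
      linarith
  · refine ⟨1, 0, 0, ?_, ⟨0, isHomogeneous_one _ _⟩, ?_⟩
    · exact (Ideal.ne_top_iff_one J).1 hJ.prime.ne_top
    · intro q hq
      exact absurd ⟨q, hq⟩ hpt

end

end Pool.Agent.Lib.MP_17a322_nt.EQ
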