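import Mathlib

/-!
Minkowski's theorem for integral ideals of a number field, with a constant which depends only on the
field.
-/

set_option autoImplicit false

namespace Pool.Agent.Lib.MP_17a322_nt.EQ

open NumberField NumberField.mixedEmbedding MeasureTheory

universe u

open scoped Classical nonZeroDivisors NNReal ENNReal in
/-- Minkowski's theorem: there is `C` such that every nonzero ideal `J` contains `s ≠ 0` with
`w s ≤ f w` for all infinite places `w`, if `C * N(J) ≤ ∏ f w ^ mult w`. -/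
theorem exists_mink (K : Type u) [Field K] [NumberField K] :
    ∃ C : ℝ, 1 ≤ C ∧ ∀ (J : Ideal (𝓞 K)) (_ : J ≠ ⊥) (f : InfinitePlace K → ℝ) (_ : ∀ w, 0 < f w),
      C * (Ideal.absNorm J : ℝ) ≤ ∏ w, f w ^ w.mult →
      ∃ s : 𝓞 K, s ∈ J ∧ s ≠ 0 ∧ ∀ w : InfinitePlace K, w (s : K) ≤ f w := by
  set B : ℝ≥0∞ := minkowskiBound K (1 : (FractionalIdeal (𝓞 K)⁰ K)ˣ) with hB
  have hBt : B ≠ ⊤ := (minkowskiBound_lt_top K _).ne
  have hfac : (0 : ℝ) < (convexBodyLTFactor K : ℝ) := by
    have := pos_iff_ne_zero.2 (convexBodyLTFactor_ne_zero K)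
    exact_mod_cast this
  refine ⟨max 1 (2 * (B.toReal + 1) / (convexBodyLTFactor K : ℝ)), le_max_left _ _, ?_⟩
  intro J hJ f hf hC
  have hJ0 : (J : FractionalIdeal (𝓞 K)⁰ K) ≠ 0 := by
    simpa using hJ
  set I : (FractionalIdeal (𝓞 K)⁰ K)ˣ := Units.mk0 _ hJ0 with hI
  have hNJ : (1 : ℝ) ≤ (Ideal.absNorm J : ℝ) := by
    have : 0 < Ideal.absNorm J := Nat.pos_of_ne_zero (by
      rw [Ne, Ideal.absNorm_eq_zero_iff]; exact hJ)
    exact_mod_cast this
  have habs : (FractionalIdeal.absNorm I.1 : ℝ) = (Ideal.absNorm J : ℝ) := by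
    rw [hI, Units.val_mk0, FractionalIdeal.coeIdeal_absNorm]
    simp
  have hmb : minkowskiBound K I = ENNReal.ofReal (Ideal.absNorm J : ℝ) * B := by
    rw [hB, minkowskiBound, minkowskiBound, volume_fundamentalDomain_fractionalIdealLatticeBasis,
      volume_fundamentalDomain_fractionalIdealLatticeBasis K 1, habs]
    simp [mul_assoc]
  have hlt : minkowskiBound K I < volume (convexBodyLT K fun w => (f w).toNNReal) := by
    rw [convexBodyLT_volume, hmb]
    have e2 : ENNReal.ofReal (Ideal.absNorm J : ℝ) * B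
        = ENNReal.ofReal ((Ideal.absNorm J : ℝ) * B.toReal) := by
      rw [ENNReal.ofReal_mul (by positivity), ENNReal.ofReal_toReal hBt]
    have hP : (((∏ w, (f w).toNNReal ^ w.mult : ℝ≥0)) : ℝ) = ∏ w, f w ^ w.mult := by
      push_cast
      exact Finset.prod_congr rfl fun w _ => by rw [Real.coe_toNNReal _ (hf w).le]
    rw [e2, ENNReal.ofReal, ← ENNReal.coe_mul, ENNReal.coe_lt_coe, ← NNReal.coe_lt_coe,
      Real.coe_toNNReal _ (by positivity), NNReal.coe_mul, hP]
    have h1 : 2 * (B.toReal + 1) / (convexBodyLTFactor K : ℝ) * (Ideal.absNorm J : ℝ)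
        ≤ ∏ w, f w ^ w.mult :=
      le_trans (mul_le_mul_of_nonneg_right (le_max_right _ _) (by positivity)) hC
    have h2 : 2 * (B.toReal + 1) * (Ideal.absNorm J : ℝ)
        ≤ (convexBodyLTFactor K : ℝ) * ∏ w, f w ^ w.mult := by
      calc 2 * (B.toReal + 1) * (Ideal.absNorm J : ℝ)
          = (convexBodyLTFactor K : ℝ) * (2 * (B.toReal + 1) / (convexBodyLTFactor K : ℝ)
            * (Ideal.absNorm J : ℝ)) := by field_simp
        _ ≤ _ := mul_le_mul_of_nonneg_left h1 hfac.le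
    have hB0 : 0 ≤ B.toReal := ENNReal.toReal_nonneg
    nlinarith
  obtain ⟨a, ha, ha0, haf⟩ := exists_ne_zero_mem_ideal_lt K I hlt
  rw [hI, Units.val_mk0] at ha
  obtain ⟨s, hs, rfl⟩ := (FractionalIdeal.mem_coeIdeal (𝓞 K)⁰).1 ha
  refine ⟨s, hs, fun h => ha0 (by rw [h]; simp), fun w => ?_⟩
  have := (haf w).le
  rwa [Real.coe_toNNReal _ (hf w).le] at this

end Pool.Agent.Lib.MP_17a322_nt.EQ
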