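import Mathlib
import Pool.Agent.Lib.MP_17a322_nt.EQ.F1

/-!
Elements of a number field with prescribed zeros: for a finite set of finite places and exponents.
-/

set_option autoImplicit false

namespace Pool.Agent.Lib.MP_17a322_nt.EQ

open NumberField IsDedekindDomain

universe u

variable {K : Type u} [Field K] [NumberField K]

/-- The norm of a finite place. -/
noncomputable def qv (v : FinitePlace K) : ℝ := (Ideal.absNorm v.maximalIdeal.asIdeal : ℝ)

theorem one_lt_qv (v : FinitePlace K) : 1 < qv v := by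
  have := NumberField.HeightOneSpectrum.one_lt_absNorm v.maximalIdeal
  unfold qv
  exact_mod_cast this

open NumberField.FinitePlace in
/-- An element of the `c`-th power of the prime ideal of `v` has absolute value at most `qv v ^ (-c)`. -/
theorem le_of_mem_pow (v : FinitePlace K) (c : ℕ) (s : 𝓞 K)
    (hs : s ∈ v.maximalIdeal.asIdeal ^ c) : v (s : K) * qv v ^ c ≤ 1 := by
  have h1 := (v.maximalIdeal.intValuation_le_pow_iff_mem s c).2 hs
  have h2 := (WithZeroMulInt.toNNReal_strictMono
    (NumberField.HeightOneSpectrum.one_lt_absNorm_nnreal v.maximalIdeal)).monotone h1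
  have h3 : v (s : K) = (WithZeroMulInt.toNNReal
      (NumberField.HeightOneSpectrum.absNorm_ne_zero v.maximalIdeal)
      (v.maximalIdeal.intValuation s) : NNReal) := by
    rw [← norm_embedding_eq v, ← NumberField.FinitePlace.norm_embedding_int K]
  have h4 : WithZeroMulInt.toNNReal
      (NumberField.HeightOneSpectrum.absNorm_ne_zero v.maximalIdeal)
      (WithZero.exp (-(c : ℤ))) = ((Ideal.absNorm v.maximalIdeal.asIdeal : NNReal) ^ c)⁻¹ := by
    have h0 : WithZero.exp (-(c : ℤ)) ≠ 0 := WithZero.exp_ne_zero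
    have h1 : WithZero.unzero h0 = Multiplicative.ofAdd (-(c : ℤ)) := WithZero.unzero_coe _
    rw [WithZeroMulInt.toNNReal_neg_apply _ h0, h1]
    simp
  rw [h4] at h2
  have h5 : v (s : K) ≤ ((qv v) ^ c)⁻¹ := by
    rw [h3]
    have : ((WithZeroMulInt.toNNReal
      (NumberField.HeightOneSpectrum.absNorm_ne_zero v.maximalIdeal)
      (v.maximalIdeal.intValuation s) : NNReal) : ℝ)
      ≤ ((((Ideal.absNorm v.maximalIdeal.asIdeal : NNReal) ^ c)⁻¹ : NNReal) : ℝ) := by
      exact_mod_cast h2
    refine this.trans (le_of_eq ?_)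
    unfold qv
    push_cast
    rfl
  have hq : 0 < qv v ^ c := pow_pos (lt_trans one_pos (one_lt_qv v)) _
  calc v (s : K) * qv v ^ c ≤ ((qv v) ^ c)⁻¹ * qv v ^ c :=
        mul_le_mul_of_nonneg_right h5 hq.le
    _ = 1 := inv_mul_cancel₀ hq.ne'

open NumberField.FinitePlace in
/-- All finite places are at most one on integers. -/
theorem finitePlace_int_le_one (v : FinitePlace K) (s : 𝓞 K) : v (s : K) ≤ 1 := by
  rw [← norm_embedding_eq v]
  exact NumberField.FinitePlace.norm_le_one K _ s

/-- The ideal with exponents `c` on the set `T`. -/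
noncomputable def idl (T : Finset (FinitePlace K)) (c : FinitePlace K → ℕ) : Ideal (𝓞 K) :=
  ∏ v ∈ T, v.maximalIdeal.asIdeal ^ c v

theorem idl_ne_bot (T : Finset (FinitePlace K)) (c : FinitePlace K → ℕ) : idl T c ≠ ⊥ := by
  unfold idl
  rw [← Ideal.zero_eq_bot]
  exact Finset.prod_ne_zero_iff.2 fun v _ => pow_ne_zero _ v.maximalIdeal.ne_bot

theorem idl_norm (T : Finset (FinitePlace K)) (c : FinitePlace K → ℕ) :
    (Ideal.absNorm (idl T c) : ℝ) = ∏ v ∈ T, qv v ^ c v := by
  unfold idl qv
  rw [map_prod]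
  push_cast
  exact Finset.prod_congr rfl fun v _ => by rw [map_pow]; push_cast; rfl

theorem idl_mem (T : Finset (FinitePlace K)) (c : FinitePlace K → ℕ) (s : 𝓞 K)
    (hs : s ∈ idl T c) (v : FinitePlace K) (hv : v ∈ T) : v (s : K) * qv v ^ c v ≤ 1 := by
  refine le_of_mem_pow v (c v) s ?_
  have := Ideal.dvd_iff_le.1 (Finset.dvd_prod_of_mem (fun v : FinitePlace K =>
    v.maximalIdeal.asIdeal ^ c v) hv)
  exact this hs

open NumberField.FinitePlace in
/-- There is a natural number `ℓ ≥ 2` which is a unit at all places of `S`. -/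
theorem exists_coprime_nat (S : Finset (FinitePlace K)) :
    ∃ ℓ : ℕ, 2 ≤ ℓ ∧ ∀ v ∈ S, v (ℓ : K) = 1 := by
  refine ⟨∏ v ∈ S, Ideal.absNorm v.maximalIdeal.asIdeal + 1, ?_, ?_⟩
  · have : 0 < ∏ v ∈ S, Ideal.absNorm v.maximalIdeal.asIdeal :=
      Finset.prod_pos fun v _ => by
        have := NumberField.HeightOneSpectrum.one_lt_absNorm v.maximalIdeal
        omega
    omega
  · intro v hv
    have h : v (((∏ v ∈ S, Ideal.absNorm v.maximalIdeal.asIdeal + 1 : ℕ) : 𝓞 K) : K) = 1 := by
      rw [← norm_embedding_eq v]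
      refine (NumberField.FinitePlace.norm_eq_one_iff_notMem K _ _).2 fun hm => ?_
      push_cast at hm
      have h1 : ((∏ v ∈ S, Ideal.absNorm v.maximalIdeal.asIdeal : ℕ) : 𝓞 K)
          ∈ v.maximalIdeal.asIdeal := by
        have hd : Ideal.absNorm v.maximalIdeal.asIdeal
            ∣ ∏ v ∈ S, Ideal.absNorm v.maximalIdeal.asIdeal := Finset.dvd_prod_of_mem _ hv
        obtain ⟨e, he⟩ := hd
        rw [he]
        push_cast
        exact Ideal.mul_mem_right _ _ (Ideal.absNorm_mem _)
      push_cast at h1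
      have h2 := Ideal.sub_mem _ hm h1
      rw [add_sub_cancel_left] at h2
      exact v.maximalIdeal.isPrime.ne_top ((Ideal.eq_top_iff_one _).2 h2)
    simpa using h

end Pool.Agent.Lib.MP_17a322_nt.EQ
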