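import Mathlib
import Pool.Agent.Lib.MP_17a322_nt.EQ.F2

/-!
The two choices of the auxiliary element `t` of the number field.
-/

set_option autoImplicit false

namespace Pool.Agent.Lib.MP_17a322_nt.EQ

open NumberField Height

universe u

variable {K : Type u} [Field K] [NumberField K]

theorem finprod_le_one_of {α : Type*} (f : α → ℝ) (h0 : ∀ i, 0 ≤ f i) (h1 : ∀ i, f i ≤ 1) :
    ∏ᶠ i, f i ≤ 1 := by
  have : 0 ≤ ∏ᶠ i, f i ∧ ∏ᶠ i, f i ≤ 1 := by
    refine finprod_induction (fun x : ℝ => 0 ≤ x ∧ x ≤ 1) ⟨zero_le_one, le_refl _⟩ ?_ ?_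
    · rintro x y ⟨hx0, hx1⟩ ⟨hy0, hy1⟩
      exact ⟨mul_nonneg hx0 hy0, mul_le_one₀ hx1 hy0 hy1⟩
    · exact fun i => ⟨h0 i, h1 i⟩
  exact this.2

/-- The height of a quotient of integers. -/
theorem height_div_le (s n : 𝓞 K) (hn : n ≠ 0) (B : InfinitePlace K → ℝ) (hB : ∀ w, 0 < B w)
    (h1 : ∀ w : InfinitePlace K, w (s : K) ≤ B w) (h2 : ∀ w : InfinitePlace K, w (n : K) ≤ B w) :
    logHeight₁ ((s : K) / (n : K)) ≤ ∑ w : InfinitePlace K, (w.mult : ℝ) * Real.log (B w) := by
  have hn' : (n : K) ≠ 0 := by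
    simpa using hn
  have hx : ![(s : K), (n : K)] ≠ 0 := by
    intro h
    exact hn' (by simpa using congrFun h 1)
  have key : mulHeight ![(s : K), (n : K)] ≤ ∏ w : InfinitePlace K, B w ^ w.mult := by
    rw [NumberField.mulHeight_eq hx]
    have e1 : (∏ w : InfinitePlace K, (⨆ i, w (![(s : K), (n : K)] i)) ^ w.mult)
        ≤ ∏ w : InfinitePlace K, B w ^ w.mult := by
      refine Finset.prod_le_prod (fun w _ => pow_nonneg (Real.iSup_nonneg fun i => apply_nonneg w _) _)
        fun w _ => pow_le_pow_left₀ (Real.iSup_nonneg fun i => apply_nonneg w _) ?_ _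
      refine ciSup_le fun i => ?_
      fin_cases i
      · exact h1 w
      · exact h2 w
    have e2 : ∏ᶠ v : FinitePlace K, (⨆ i, v (![(s : K), (n : K)] i)) ≤ 1 := by
      refine finprod_le_one_of _ (fun v => Real.iSup_nonneg fun i => apply_nonneg v _) fun v => ?_
      refine ciSup_le fun i => ?_
      fin_cases i
      · exact finitePlace_int_le_one v s
      · exact finitePlace_int_le_one v n
    have e3 : 0 ≤ ∏ w : InfinitePlace K, B w ^ w.mult :=
      Finset.prod_nonneg fun w _ => pow_nonneg (hB w).le _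
    calc _ ≤ (∏ w : InfinitePlace K, B w ^ w.mult)
          * ∏ᶠ v : FinitePlace K, (⨆ i, v (![(s : K), (n : K)] i)) := by
          refine mul_le_mul_of_nonneg_right e1 ?_
          exact finprod_nonneg fun v => Real.iSup_nonneg fun i => apply_nonneg v _
      _ ≤ (∏ w : InfinitePlace K, B w ^ w.mult) * 1 := mul_le_mul_of_nonneg_left e2 e3
      _ = _ := mul_one _
  rw [logHeight₁_div_eq_logHeight, logHeight_eq_log_mulHeight]
  refine (Real.log_le_log (mulHeight_pos _) key).trans (le_of_eq ?_)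
  rw [Real.log_prod fun w _ => (pow_pos (hB w) _).ne']
  exact Finset.sum_congr rfl fun w _ => Real.log_pow _ _

/-- Small at the places of `S` and at the infinite places, small height. -/
theorem exists_t_poles (S : Finset (FinitePlace K)) :
    ∃ C : ℝ, ∀ (r : FinitePlace K → ℝ) (ρ : InfinitePlace K → ℝ), (∀ v ∈ S, 0 ≤ r v) →
      (∀ w, 0 ≤ ρ w) → ∃ t : K, t ≠ 0 ∧ (∀ v ∈ S, v t ≤ Real.exp (-r v)) ∧
        (∀ w : InfinitePlace K, w t ≤ Real.exp (-ρ w)) ∧
        logHeight₁ t ≤ ∑ v ∈ S, r v + ∑ w : InfinitePlace K, (w.mult : ℝ) * ρ w + C := by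
  obtain ⟨C0, hC0, hM⟩ := exists_mink K
  obtain ⟨ℓ, hℓ2, hℓ⟩ := exists_coprime_nat (K := K) S
  set d : ℝ := ∑ w : InfinitePlace K, (w.mult : ℝ) with hd
  have hd1 : 1 ≤ d := by
    have hne : Nonempty (InfinitePlace K) := inferInstance
    obtain ⟨w0⟩ := hne
    have h1 : (1 : ℝ) ≤ (w0.mult : ℝ) := by exact_mod_cast InfinitePlace.one_le_mult
    exact h1.trans (Finset.single_le_sum (f := fun w : InfinitePlace K => (w.mult : ℝ))
      (fun w _ => Nat.cast_nonneg _) (Finset.mem_univ w0))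
  have hL : 0 < Real.log ℓ := Real.log_pos (by exact_mod_cast (by omega : 1 < ℓ))
  refine ⟨∑ v ∈ S, Real.log (qv v) + Real.log C0 + d * Real.log ℓ, ?_⟩
  intro r ρ hr hρ
  set c : FinitePlace K → ℕ := fun v => ⌈r v / Real.log (qv v)⌉₊ with hc
  have hq : ∀ v : FinitePlace K, 0 < Real.log (qv v) := fun v => Real.log_pos (one_lt_qv v)
  have hc1 : ∀ v ∈ S, r v ≤ c v * Real.log (qv v) := by
    intro v _
    have := Nat.le_ceil (r v / Real.log (qv v))
    rwa [div_le_iff₀ (hq v)] at this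
  have hc2 : ∀ v ∈ S, c v * Real.log (qv v) ≤ r v + Real.log (qv v) := by
    intro v hv
    have := (Nat.ceil_lt_add_one (div_nonneg (hr v hv) (hq v).le)).le
    calc (c v : ℝ) * Real.log (qv v) ≤ (r v / Real.log (qv v) + 1) * Real.log (qv v) :=
          mul_le_mul_of_nonneg_right this (hq v).le
      _ = _ := by field_simp [(hq v).ne']
  set X : ℝ := Real.log C0 + ∑ v ∈ S, c v * Real.log (qv v)
    + ∑ w : InfinitePlace K, (w.mult : ℝ) * ρ w with hX
  have hX0 : 0 ≤ X := by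
    have h1 := Real.log_nonneg hC0
    have h2 : 0 ≤ ∑ v ∈ S, c v * Real.log (qv v) :=
      Finset.sum_nonneg fun v _ => mul_nonneg (Nat.cast_nonneg _) (hq v).le
    have h3 : 0 ≤ ∑ w : InfinitePlace K, (w.mult : ℝ) * ρ w :=
      Finset.sum_nonneg fun w _ => mul_nonneg (Nat.cast_nonneg _) (hρ w)
    linarith
  set j : ℕ := ⌈X / (d * Real.log ℓ)⌉₊ with hj
  have hdL : 0 < d * Real.log ℓ := by positivity
  have hj1 : X ≤ j * (d * Real.log ℓ) := by
    have := Nat.le_ceil (X / (d * Real.log ℓ))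
    rwa [div_le_iff₀ hdL] at this
  have hj2 : j * (d * Real.log ℓ) ≤ X + d * Real.log ℓ := by
    have := (Nat.ceil_lt_add_one (div_nonneg hX0 hdL.le)).le
    calc (j : ℝ) * (d * Real.log ℓ) ≤ (X / (d * Real.log ℓ) + 1) * (d * Real.log ℓ) :=
          mul_le_mul_of_nonneg_right this hdL.le
      _ = _ := by field_simp
  have hℓ0 : (0 : ℝ) < ℓ := by exact_mod_cast (by omega : 0 < ℓ)
  set f : InfinitePlace K → ℝ := fun w => Real.exp (-ρ w) * (ℓ : ℝ) ^ j with hf
  have hf0 : ∀ w, 0 < f w := fun w => by positivity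
  have hvol : C0 * (Ideal.absNorm (idl S c) : ℝ) ≤ ∏ w, f w ^ w.mult := by
    have hA : 0 < C0 * (Ideal.absNorm (idl S c) : ℝ) := by
      rw [idl_norm]
      have : 0 < ∏ v ∈ S, qv v ^ c v :=
        Finset.prod_pos fun v _ => pow_pos (lt_trans one_pos (one_lt_qv v)) _
      positivity
    have hP : 0 < ∏ w, f w ^ w.mult := Finset.prod_pos fun w _ => pow_pos (hf0 w) _
    rw [← Real.log_le_log_iff hA hP, idl_norm,
      Real.log_mul (by positivity) (Finset.prod_pos fun v _ =>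
        pow_pos (lt_trans one_pos (one_lt_qv v)) _).ne',
      Real.log_prod fun v _ => (pow_pos (lt_trans one_pos (one_lt_qv v)) _).ne',
      Real.log_prod fun w _ => (pow_pos (hf0 w) _).ne']
    simp only [Real.log_pow]
    have e1 : ∀ w : InfinitePlace K, (w.mult : ℝ) * Real.log (f w)
        = -((w.mult : ℝ) * ρ w) + (w.mult : ℝ) * (j * Real.log ℓ) := by
      intro w
      rw [hf]
      simp only []
      rw [Real.log_mul (Real.exp_pos _).ne' (pow_pos hℓ0 _).ne', Real.log_exp, Real.log_pow]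
      ring
    simp only [e1, Finset.sum_add_distrib, Finset.sum_neg_distrib, ← Finset.sum_mul, ← hd]
    have e2 : d * (j * Real.log ℓ) = j * (d * Real.log ℓ) := by ring
    rw [e2]
    linarith
  obtain ⟨s, hs, hs0, hsf⟩ := hM (idl S c) (idl_ne_bot S c) f hf0 hvol
  have hℓK : ((ℓ : 𝓞 K) : K) = (ℓ : K) := by simp
  have hs0' : (s : K) ≠ 0 := by simpa using hs0
  have hℓK0 : (ℓ : K) ≠ 0 := by
    have : ℓ ≠ 0 := by omega
    exact_mod_cast this
  refine ⟨(s : K) / (ℓ : K) ^ j, div_ne_zero hs0' (pow_ne_zero _ hℓK0), ?_, ?_, ?_⟩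
  · intro v hv
    rw [map_div₀, map_pow, hℓ v hv, one_pow, div_one]
    have h1 := idl_mem S c s hs v hv
    have hqp : 0 < qv v ^ c v := pow_pos (lt_trans one_pos (one_lt_qv v)) _
    have h2 : v (s : K) ≤ (qv v ^ c v)⁻¹ := by
      rw [← one_div, le_div_iff₀ hqp]; exact h1
    refine h2.trans ?_
    rw [Real.exp_neg]
    refine inv_anti₀ (Real.exp_pos _) ?_
    calc Real.exp (r v) ≤ Real.exp (c v * Real.log (qv v)) := Real.exp_le_exp.2 (hc1 v hv)
      _ = qv v ^ c v := by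
        rw [Real.exp_nat_mul, Real.exp_log (lt_trans one_pos (one_lt_qv v))]
  · intro w
    rw [map_div₀, map_pow]
    have hw : w (ℓ : K) = ℓ := by simp
    rw [hw, div_le_iff₀ (by positivity)]
    exact hsf w
  · have h1 := height_div_le (K := K) s ((ℓ : 𝓞 K) ^ j)
      (pow_ne_zero _ (by intro h; exact hℓK0 (by rw [← hℓK, h]; simp))) (fun _ => (ℓ : ℝ) ^ j)
      (fun w => by positivity)
      (fun w => (hsf w).trans (by
        have : Real.exp (-ρ w) ≤ 1 := Real.exp_le_one_iff.2 (by linarith [hρ w])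
        calc Real.exp (-ρ w) * (ℓ : ℝ) ^ j ≤ 1 * (ℓ : ℝ) ^ j :=
              mul_le_mul_of_nonneg_right this (by positivity)
          _ = _ := one_mul _))
      (fun w => by simp)
    have h2 : ((((ℓ : 𝓞 K) ^ j : 𝓞 K)) : K) = (ℓ : K) ^ j := by simp
    rw [h2] at h1
    refine h1.trans ?_
    simp only [Real.log_pow, ← Finset.sum_mul, ← hd]
    have h3 : ∑ v ∈ S, c v * Real.log (qv v) ≤ ∑ v ∈ S, r v + ∑ v ∈ S, Real.log (qv v) := by
      rw [← Finset.sum_add_distrib]
      exact Finset.sum_le_sum hc2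
    have e2 : d * (j * Real.log ℓ) = j * (d * Real.log ℓ) := by ring
    rw [e2]
    linarith

/-- Integral elements with prescribed zeros and small height. -/
theorem exists_t_integral (K : Type u) [Field K] [NumberField K] :
    ∃ C : ℝ, ∀ (T : Finset (FinitePlace K)) (c : FinitePlace K → ℕ), ∃ t : K, t ≠ 0 ∧
      (∀ v ∈ T, v t * qv v ^ c v ≤ 1) ∧ (∀ v : FinitePlace K, v t ≤ 1) ∧
      logHeight₁ t ≤ ∑ v ∈ T, c v * Real.log (qv v) + C := by
  obtain ⟨C0, hC0, hM⟩ := exists_mink K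
  set d : ℕ := ∑ w : InfinitePlace K, w.mult with hd
  have hd1 : 1 ≤ d := by
    have hne : Nonempty (InfinitePlace K) := inferInstance
    obtain ⟨w0⟩ := hne
    have h1 : 1 ≤ w0.mult := InfinitePlace.mult_pos
    exact h1.trans (Finset.single_le_sum
      (f := fun w : InfinitePlace K => w.mult) (fun w _ => Nat.zero_le _) (Finset.mem_univ w0))
  refine ⟨Real.log C0, ?_⟩
  intro T c
  have hNpos : 0 < ∏ v ∈ T, qv v ^ c v :=
    Finset.prod_pos fun v _ => pow_pos (lt_trans one_pos (one_lt_qv v)) _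
  have hN1 : 1 ≤ ∏ v ∈ T, qv v ^ c v := by
    rw [← Real.log_nonneg_iff hNpos,
      Real.log_prod fun v _ => (pow_pos (lt_trans one_pos (one_lt_qv v)) _).ne']
    refine Finset.sum_nonneg fun v _ => ?_
    rw [Real.log_pow]
    exact mul_nonneg (Nat.cast_nonneg _) (Real.log_pos (one_lt_qv v)).le
  set N : ℝ := C0 * ∏ v ∈ T, qv v ^ c v with hN
  have hN0 : 1 ≤ N := by
    calc (1 : ℝ) = 1 * 1 := (one_mul 1).symm
      _ ≤ N := mul_le_mul hC0 hN1 zero_le_one (by linarith)
  set a : ℝ := N ^ ((1 : ℝ) / d) with ha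
  have ha1 : 1 ≤ a := Real.one_le_rpow hN0 (by positivity)
  have had : a ^ d = N := by
    rw [ha, ← Real.rpow_natCast, ← Real.rpow_mul (by linarith)]
    have : (d : ℝ) ≠ 0 := by
      have : d ≠ 0 := by omega
      exact_mod_cast this
    rw [one_div, inv_mul_cancel₀ this, Real.rpow_one]
  have hvol : C0 * (Ideal.absNorm (idl T c) : ℝ)
      ≤ ∏ w : InfinitePlace K, (fun _ : InfinitePlace K => a) w ^ w.mult := by
    rw [idl_norm, ← hN, Finset.prod_pow_eq_pow_sum, ← hd, had]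
  obtain ⟨s, hs, hs0, hsf⟩ := hM (idl T c) (idl_ne_bot T c) (fun _ => a)
    (fun w => by linarith) hvol
  have hs0' : (s : K) ≠ 0 := by simpa using hs0
  refine ⟨(s : K), hs0', fun v hv => idl_mem T c s hs v hv,
    fun v => finitePlace_int_le_one v s, ?_⟩
  have h1 := height_div_le (K := K) s 1 one_ne_zero (fun _ => a) (fun w => by linarith) hsf
    (fun w => by simpa using ha1)
  have h2 : (s : K) / ((1 : 𝓞 K) : K) = (s : K) := by simp
  rw [h2] at h1
  refine h1.trans (le_of_eq ?_)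
  rw [← Finset.sum_mul]
  have h3 : (∑ w : InfinitePlace K, (w.mult : ℝ)) = (d : ℝ) := by rw [hd]; push_cast; rfl
  rw [h3, ← Real.log_pow, had, hN, Real.log_mul (by positivity) hNpos.ne',
    Real.log_prod fun v _ => (pow_pos (lt_trans one_pos (one_lt_qv v)) _).ne']
  simp only [Real.log_pow]
  ring

end Pool.Agent.Lib.MP_17a322_nt.EQ
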