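import Pool.Agent.Lib.MP_17a322_nt.EQ.G0

/-!
Vojta's conjecture and its case `D = 0`: divisors through a point.
-/

set_option linter.unusedSectionVars false

universe u

namespace Pool.Agent.Lib.MP_17a322_nt.EQ

open MvPolynomial

section

variable {K : Type u} [Field K] {ι κ β : Type} [Fintype ι]

theorem mem_thr [Fintype β] {L : Type u} [CommRing L] [Algebra K L]
    {f : β → κ → MvPolynomial ι K} {p : ι → L} {b : β} :
    b ∈ thr f p ↔ ∀ j, aeval p (f b j) = 0 := by
  classical
  rw [thr, Finset.mem_filter]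
  exact and_iff_right (Finset.mem_univ b)

theorem mem_Nsp {L : Type u} [Field L] [Algebra K L] {J : Ideal (MvPolynomial ι K)} {p : ι → L}
    {g : β → MvPolynomial ι K} {B : Finset β} {y : ι → L} :
    y ∈ Nsp J p g B ↔ y ∈ Tan J p ∧ ∀ b ∈ B, dif p (g b) y = 0 := by
  simp only [Nsp, Submodule.mem_inf, Submodule.mem_iInf, LinearMap.mem_ker]

end

end Pool.Agent.Lib.MP_17a322_nt.EQ
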