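import Pool.Agent.Lib.MP_17a322_nt.EQ.G2

/-!
Vojta's conjecture and its case `D = 0`: linear algebra.
-/

set_option linter.unusedSectionVars false

universe u

namespace Pool.Agent.Lib.MP_17a322_nt.EQ

open MvPolynomial

section

variable {K : Type u} [Field K] {ι κ β : Type} [Fintype ι]

/-- Linear algebra: if `finrank (V ⊓ ⨅ b ∈ B, ker (g b)) + |B| ≤ finrank V` then the restrictions
of the linear forms `g b`, `b ∈ B`, to `V` are linearly independent; and in any case
`finrank V ≤ finrank (V ⊓ ⨅ b ∈ B, ker (g b)) + |B|`. -/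
theorem lin_bound {L V₀ : Type*} [Field L] [AddCommGroup V₀] [Module L V₀] [FiniteDimensional L V₀]
    (V : Submodule L V₀) (g : β → V₀ →ₗ[L] L) (B : Finset β) :
    Module.finrank L V ≤ Module.finrank L ↥(V ⊓ ⨅ b ∈ B, LinearMap.ker (g b)) + B.card ∧
    (Module.finrank L ↥(V ⊓ ⨅ b ∈ B, LinearMap.ker (g b)) + B.card ≤ Module.finrank L V →
      LinearIndependent L fun b : {b // b ∈ B} => (g b).domRestrict V) := by
  classical
  let f : V →ₗ[L] ({b // b ∈ B} → L) := LinearMap.pi fun b => (g b).domRestrict V
  have hf : ∀ (v : V) (b : {b // b ∈ B}), f v b = g b v := fun v b => rfl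
  have hle : V ⊓ ⨅ b ∈ B, LinearMap.ker (g b) ≤ V := inf_le_left
  have hker : LinearMap.ker f = Submodule.comap V.subtype (V ⊓ ⨅ b ∈ B, LinearMap.ker (g b)) := by
    ext v
    rw [LinearMap.mem_ker, Submodule.mem_comap, Submodule.mem_inf, Submodule.mem_iInf]
    constructor
    · intro h
      refine ⟨v.2, fun b => ?_⟩
      rw [Submodule.mem_iInf]
      intro hb
      rw [LinearMap.mem_ker]
      have := congrFun h ⟨b, hb⟩
      rwa [hf] at this
    · rintro ⟨-, h⟩
      funext b
      rw [hf]
      have h1 := h b.1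
      rw [Submodule.mem_iInf] at h1
      exact h1 b.2
  have hdim : Module.finrank L (LinearMap.ker f) = Module.finrank L ↥(V ⊓ ⨅ b ∈ B, LinearMap.ker (g b)) := by
    rw [hker]
    exact (Submodule.comapSubtypeEquivOfLe hle).finrank_eq
  have hrn := LinearMap.finrank_range_add_finrank_ker f
  have hcard : Module.finrank L ({b // b ∈ B} → L) = B.card := by
    rw [Module.finrank_fintype_fun_eq_card, Fintype.card_coe]
  have hrange : Module.finrank L (LinearMap.range f) ≤ B.card := by
    rw [← hcard]
    exact Submodule.finrank_le _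
  refine ⟨by omega, fun h => ?_⟩
  have hsurj : Function.Surjective f := by
    rw [← LinearMap.range_eq_top]
    apply Submodule.eq_top_of_finrank_eq
    omega
  rw [Fintype.linearIndependent_iff]
  intro c hc b
  obtain ⟨v, hv⟩ := hsurj (Pi.single b 1)
  have h1 := LinearMap.congr_fun hc v
  rw [LinearMap.sum_apply, LinearMap.zero_apply] at h1
  rw [← h1, Finset.sum_eq_single b]
  · have h2 : g b v = 1 := by
      rw [← hf, hv, Pi.single_eq_same]
    rw [LinearMap.smul_apply, LinearMap.domRestrict_apply, h2, smul_eq_mul, mul_one]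
  · intro b' _ hb'
    have h2 : g b' v = 0 := by
      rw [← hf, hv, Pi.single_eq_of_ne hb']
    rw [LinearMap.smul_apply, LinearMap.domRestrict_apply, h2, smul_zero]
  · intro hb
    exact absurd (Finset.mem_univ b) hb

end

end Pool.Agent.Lib.MP_17a322_nt.EQ
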