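import Pool.Agent.Lib.MP_17a322_nt.EQ.G2

/-!
Vojta's conjecture and its case `D = 0`: closures of graphs.
-/

set_option linter.unusedSectionVars false

universe u

namespace Pool.Agent.Lib.MP_17a322_nt.EQ

open MvPolynomial

section

variable {K : Type u} [Field K] {ι Λ : Type} [Fintype ι] [Fintype Λ] {J : Ideal (MvPolynomial ι K)}
  {R : Type u} [CommRing R] [Algebra K R] {x : ι → R} {w : Λ → R}

theorem mem_gJ {F : MvPolynomial (ι × Λ) K} :
    F ∈ gJ x w ↔ aeval (fun z : ι × Λ => x z.1 * w z.2) F = 0 := Iff.rfl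

theorem gJ_prime [IsDomain R] (x : ι → R) (w : Λ → R) : (gJ x w : Ideal (MvPolynomial (ι × Λ) K)).IsPrime :=
  RingHom.ker_isPrime _

/-- The value of `sub F l` at the generic point. -/
theorem aeval_sub_gen (F : MvPolynomial ι K) (l : Λ) :
    aeval (fun z : ι × Λ => x z.1 * w z.2) (sub F l) = aeval (fun i => w l * x i) F := by
  rw [aeval_sub']
  simp only [mul_comm]

/-- If `F ∈ J` then `F (Y (., l))` is in the ideal of the graph. -/
theorem sub_mem_gJ (hJh : ∀ F ∈ J, ∀ i, homogeneousComponent i F ∈ J)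
    (hx : ∀ F ∈ J, aeval x F = 0) {F : MvPolynomial ι K} (hF : F ∈ J) (l : Λ) :
    sub F l ∈ gJ (K := K) x w := by
  rw [mem_gJ, aeval_sub_gen]
  have h1 : aeval (fun i => w l * x i) F = ∑ k ∈ Finset.range (F.totalDegree + 1),
      aeval (fun i => w l * x i) (homogeneousComponent k F) := by
    rw [← map_sum, sum_homogeneousComponent]
  rw [h1]
  refine Finset.sum_eq_zero fun k _ => ?_
  rw [aeval_mul (homogeneousComponent_isHomogeneous k F), hx _ (hJh F hF k), mul_zero]

/-- The Segre relations. -/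
theorem segre_mem (i i' : ι) (l l' : Λ) :
    (X (i, l) * X (i', l') - X (i, l') * X (i', l) : MvPolynomial (ι × Λ) K) ∈ gJ x w := by
  rw [mem_gJ, map_sub, map_mul, map_mul, aeval_X, aeval_X, aeval_X, aeval_X]
  ring

end

end Pool.Agent.Lib.MP_17a322_nt.EQ
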