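import Pool.Agent.Lib.MP_17a322_nt.EQ.G5

/-!
Vojta's conjecture and its case `D = 0`: the ideal of the blow-up is homogeneous.
-/

set_option linter.unusedSectionVars false

universe u

namespace Pool.Agent.Lib.MP_17a322_nt.EQ

open MvPolynomial

section

variable {K : Type u} [Field K] {ι Λ : Type} [Fintype ι] [Fintype Λ] {J : Ideal (MvPolynomial ι K)}

/-- Substitution of forms of the same positive degree commutes with homogeneous components. -/
theorem comp_aeval_hom {σ : Type} {φ : σ → MvPolynomial ι K} {D : ℕ} (hD : 0 < D)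
    (hφ : ∀ i, (φ i).IsHomogeneous D) (F : MvPolynomial σ K) (k : ℕ) :
    homogeneousComponent (D * k) (aeval φ F) = aeval φ (homogeneousComponent k F) := by
  have h1 : aeval φ F = ∑ j ∈ Finset.range (F.totalDegree + 1),
      aeval φ (homogeneousComponent j F) := by
    rw [← map_sum, sum_homogeneousComponent]
  have h2 : ∀ j, homogeneousComponent (D * k) (aeval φ (homogeneousComponent j F)) =
      if j = k then aeval φ (homogeneousComponent k F) else 0 := by
    intro j
    have h3 : (aeval φ (homogeneousComponent j F)).IsHomogeneous (D * j) :=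
      (homogeneousComponent_isHomogeneous j F).aeval φ hφ
    rw [homogeneousComponent_of_mem ((mem_homogeneousSubmodule _ _).2 h3)]
    by_cases hjk : j = k
    · subst hjk
      rw [if_pos rfl, if_pos rfl]
    · rw [if_neg hjk, if_neg]
      intro h4
      exact hjk (Nat.eq_of_mul_eq_mul_left hD h4).symm
  rw [h1, map_sum, Finset.sum_congr rfl fun j _ => h2 j, Finset.sum_ite_eq']
  split_ifs with hk
  · rfl
  · rw [homogeneousComponent_eq_zero, map_zero]
    rw [Finset.mem_range] at hk
    omega

/-- The ideal of the blow-up is homogeneous. -/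
theorem bJ_homog (hJh : ∀ F ∈ J, ∀ i, homogeneousComponent i F ∈ J) {w : Λ → MvPolynomial ι K}
    {e : ℕ} (hw : ∀ l, (w l).IsHomogeneous e) :
    ∀ F ∈ bJ J w, ∀ i, homogeneousComponent i F ∈ bJ J w := by
  intro F hF i
  rw [mem_bJ] at hF ⊢
  have h1 : ∀ z : ι × Λ, (X z.1 * w z.2 : MvPolynomial ι K).IsHomogeneous (1 + e) := fun z =>
    (isHomogeneous_X K z.1).mul (hw z.2)
  rw [← comp_aeval_hom (by omega) h1 F i]
  exact hJh _ hF _

end

end Pool.Agent.Lib.MP_17a322_nt.EQ
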