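import Pool.Agent.Lib.MP_17a322_nt.EQ.G5a
import Pool.Agent.Lib.MP_17a322_nt.EQ.G1

/-!
Vojta's conjecture and its case `D = 0`: the tangent spaces of the blow-up.
-/

set_option linter.unusedSectionVars false

universe u

namespace Pool.Agent.Lib.MP_17a322_nt.EQ

open MvPolynomial

section

variable {K : Type u} [Field K] {ι Λ : Type} [Fintype ι] [Fintype Λ] {J : Ideal (MvPolynomial ι K)}
  {L : Type u} [Field L] [Algebra K L]

private theorem G5b_aeval (w : Λ → MvPolynomial ι K) (q : ι → L) (F : MvPolynomial (ι × Λ) K) :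
    aeval q (aeval (fun z : ι × Λ => X z.1 * w z.2) F) =
      aeval (sg q fun l => aeval q (w l)) F := by
  rw [aeval_comp]
  congr 2
  funext z
  rw [map_mul, aeval_X]
  rfl

/-- Points of the graph are points of the blow-up. -/
theorem bJ_sg {w : Λ → MvPolynomial ι K} {q : ι → L} (hq : ∀ F ∈ J, aeval q F = 0) :
    ∀ F ∈ bJ J w, aeval (sg q fun l => aeval q (w l)) F = 0 := by
  intro F hF
  rw [← G5b_aeval]
  exact hq _ (mem_bJ.1 hF)

theorem bJ_IsPt {w : Λ → MvPolynomial ι K} {q : ι → L} (hq : IsPt J q)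
    (hw : ∃ l, aeval q (w l) ≠ 0) : IsPt (bJ J w) (sg q fun l => aeval q (w l)) := by
  refine ⟨?_, bJ_sg hq.2⟩
  obtain ⟨l, hl⟩ := hw
  obtain ⟨i, hi⟩ := Function.ne_iff.1 hq.1
  intro h
  exact (mul_ne_zero hi hl) (congrFun h (i, l))

/-- `Ph w q` as a linear map. -/
noncomputable def PhL (w : Λ → MvPolynomial ι K) (q : ι → L) : (ι → L) →ₗ[L] (ι × Λ → L) where
  toFun y := Ph w q y
  map_add' y z := by
    funext a
    simp only [Ph, map_add, Pi.add_apply]
    ring
  map_smul' c y := by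
    funext a
    simp only [Ph, map_smul, Pi.smul_apply, smul_eq_mul, RingHom.id_apply]
    ring

/-- The differential of the map to the blow-up maps tangent vectors to tangent vectors. -/
theorem Ph_mem {w : Λ → MvPolynomial ι K} {q y : ι → L} (hy : y ∈ Tan J q) :
    Ph w q y ∈ Tan (bJ J w) (sg q fun l => aeval q (w l)) := by
  rw [mem_Tan]
  intro F hF
  have h1 := mem_Tan.1 hy _ (mem_bJ.1 hF)
  rw [dif_aeval] at h1
  have h2 : (fun z : ι × Λ => aeval q (X z.1 * w z.2)) = sg q fun l => aeval q (w l) := by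
    funext z
    rw [map_mul, aeval_X]
    rfl
  have h3 : (fun z : ι × Λ => dif q (X z.1 * w z.2) y) = Ph w q y := by
    funext z
    rw [dif_mul, dif_X, aeval_X]
    change _ = y z.1 * aeval q (w z.2) + q z.1 * dif q (w z.2) y
    ring
  rw [h2, h3] at h1
  exact h1

/-- The differential of the map to the blow-up is injective. -/
theorem Ph_inj [CharZero K] {w : Λ → MvPolynomial ι K} {e : ℕ} (hwh : ∀ l, (w l).IsHomogeneous e)
    {q y : ι → L} (hq : q ≠ 0) (hw : ∃ l, aeval q (w l) ≠ 0) (h : Ph w q y = 0) : y = 0 := by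
  have hL : CharZero L := charZero_of_injective_algebraMap (algebraMap K L).injective
  obtain ⟨l, hl⟩ := hw
  obtain ⟨i, hi⟩ := Function.ne_iff.1 hq
  have h1 : ∀ j, y j * aeval q (w l) + q j * dif q (w l) y = 0 := fun j => congrFun h (j, l)
  have h2 : y = (-(dif q (w l) y / aeval q (w l))) • q := by
    funext j
    rw [Pi.smul_apply, smul_eq_mul]
    have h3 := h1 j
    field_simp
    linear_combination h3
  have h4 : dif q (w l) y = (-(dif q (w l) y / aeval q (w l))) * (e * aeval q (w l)) := by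
    conv_lhs => rw [h2]
    rw [map_smul, smul_eq_mul, dif_self (hwh l)]
  have h5 : dif q (w l) y * (1 + e) = 0 := by
    field_simp at h4
    linear_combination h4
  have h6 : (1 + (e : L)) ≠ 0 := by
    have h7 : ((1 + e : ℕ) : L) ≠ 0 := Nat.cast_ne_zero.2 (by omega)
    rwa [Nat.cast_add, Nat.cast_one] at h7
  have h8 : dif q (w l) y = 0 := (mul_eq_zero.1 h5).resolve_right h6
  rw [h8, zero_div, neg_zero, zero_smul] at h2
  exact h2

/-- The dimension of the tangent spaces of the blow-up is at least `n + 1`. -/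
theorem bJ_lower [CharZero K] {n e : ℕ} (hJ : Smooth J n) {w : Λ → MvPolynomial ι K}
    (hwh : ∀ l, (w l).IsHomogeneous e) (hw0 : ∃ l, w l ∉ J) {p : ι × Λ → L}
    (hp : IsPt (bJ J w) p) : n + 1 ≤ Module.finrank L (Tan (bJ J w) p) := by
  have hJp : J.IsPrime := hJ.prime
  have hdom : IsDomain (MvPolynomial ι K ⧸ J) := Ideal.Quotient.isDomain J
  let σ : (MvPolynomial ι K ⧸ J) →ₐ[K] FractionRing (MvPolynomial ι K ⧸ J) :=
    IsScalarTower.toAlgHom K (MvPolynomial ι K ⧸ J) (FractionRing (MvPolynomial ι K ⧸ J))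
  have hσ : Function.Injective σ :=
    IsFractionRing.injective (MvPolynomial ι K ⧸ J) (FractionRing (MvPolynomial ι K ⧸ J))
  let q₀ : ι → FractionRing (MvPolynomial ι K ⧸ J) := fun i => σ (gen J i)
  have hq : ∀ F : MvPolynomial ι K, aeval q₀ F = 0 ↔ F ∈ J := by
    intro F
    have h1 : aeval q₀ F = σ (aeval (gen J) F) := aeval_map σ (gen J) F
    rw [h1, aeval_gen, map_eq_zero_iff σ hσ, Ideal.Quotient.eq_zero_iff_mem]
  have h₀ : ∀ F : MvPolynomial (ι × Λ) K,
      aeval (sg q₀ fun l => aeval q₀ (w l)) F = 0 → F ∈ bJ J w := by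
    intro F hF
    rw [← G5b_aeval, hq] at hF
    exact mem_bJ.2 hF
  have hq0 : q₀ ≠ 0 := by
    intro h0
    obtain ⟨z, hz⟩ := Function.ne_iff.1 hp.1
    apply hz
    have h1 : (X z.1 : MvPolynomial ι K) ∈ J := by
      rw [← hq, aeval_X, h0]
      rfl
    have h2 : (X z : MvPolynomial (ι × Λ) K) ∈ bJ J w := by
      rw [mem_bJ, aeval_X]
      exact Ideal.mul_mem_right _ _ h1
    have h3 := hp.2 _ h2
    rwa [aeval_X] at h3
  have hdim := hJ.dim (FractionRing (MvPolynomial ι K ⧸ J)) q₀ ⟨hq0, fun F hF => (hq F).2 hF⟩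
  obtain ⟨l, hl⟩ := hw0
  have hl' : aeval q₀ (w l) ≠ 0 := fun h => hl ((hq _).1 h)
  have h4 := tan_lower h₀ hp.2
  refine le_trans ?_ h4
  rw [← hdim]
  refine LinearMap.finrank_le_finrank_of_injective
    (f := (PhL w q₀).restrict (p := Tan J q₀) (fun y hy => Ph_mem hy)) ?_
  rw [injective_iff_map_eq_zero]
  intro y hy
  refine Subtype.ext ?_
  exact Ph_inj hwh hq0 ⟨l, hl'⟩ (congrArg Subtype.val hy)

end

end Pool.Agent.Lib.MP_17a322_nt.EQ
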