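import Pool.Agent.Lib.MP_17a322_nt.EQ.G5
import Pool.Agent.Lib.MP_17a322_nt.EQ.G1

/-!
Vojta's conjecture and its case `D = 0`: the product with the line.
-/

set_option linter.unusedSectionVars false

universe u

namespace Pool.Agent.Lib.MP_17a322_nt.EQ

open MvPolynomial

section

variable {K : Type u} [Field K] {ι : Type} [Fintype ι] {J : Ideal (MvPolynomial ι K)}
  {L : Type u} [Field L] [Algebra K L]

/-- The ideal of the product is homogeneous. -/
theorem pJ_homog : ∀ F ∈ pJ J, ∀ i, homogeneousComponent i F ∈ pJ J := by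
  intro F hF i
  rw [pJ, mem_gJ] at hF ⊢
  set φ : ι × Bool → MvPolynomial Bool (MvPolynomial ι K ⧸ J) :=
    fun z => C (gen J z.1) * X z.2 with hφ
  have hφ1 : ∀ z, (φ z).IsHomogeneous 1 := fun z => by
    have h1 := (isHomogeneous_C Bool (gen J z.1)).mul (isHomogeneous_X (MvPolynomial ι K ⧸ J) z.2)
    rwa [zero_add] at h1
  have hk : ∀ k, (aeval φ (homogeneousComponent k F)).IsHomogeneous k := fun k => by
    have h1 := (homogeneousComponent_isHomogeneous k F).aeval φ hφ1
    rwa [one_mul] at h1
  have h2 : homogeneousComponent i (aeval φ F) = aeval φ (homogeneousComponent i F) := by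
    conv_lhs => rw [← sum_homogeneousComponent F]
    rw [map_sum, map_sum]
    rw [Finset.sum_congr rfl fun k _ => homogeneousComponent_of_mem (m := i) (hk k)]
    rw [Finset.sum_ite_eq]
    by_cases hi : i ∈ Finset.range (F.totalDegree + 1)
    · rw [if_pos hi]
    · rw [if_neg hi]
      rw [Finset.mem_range, not_lt] at hi
      rw [homogeneousComponent_eq_zero i F (by omega), map_zero]
  rw [← h2, hF, map_zero]

private theorem G5c_gen (H : MvPolynomial ι K) :
    aeval (fun i => (C (gen J i) : MvPolynomial Bool (MvPolynomial ι K ⧸ J))) H =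
      C (aeval (gen J) H) := by
  induction H using MvPolynomial.induction_on with
  | C a => rw [aeval_C, aeval_C]; rfl
  | add F G h1 h2 => rw [map_add, map_add, C_add, h1, h2]
  | mul_X F i h1 => rw [map_mul, map_mul, C_mul, h1, aeval_X, aeval_X]

/-- The generic point of the cone, as a point with polynomial coordinates. -/
theorem pgen_zero : ∀ F ∈ J, aeval (fun i => (C (gen J i) : MvPolynomial Bool (MvPolynomial ι K ⧸ J)))
    F = 0 := by
  intro F hF
  rw [G5c_gen, gen_zero F hF, C_0]

/-- Points of the product, over any algebra. -/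
private theorem G5c_sg {A : Type u} [CommRing A] [Algebra K A] {q : ι → A}
    (hq : ∀ F ∈ J, aeval q F = 0) (t : Bool → A) :
    ∀ F ∈ pJ J, aeval (fun z : ι × Bool => q z.1 * t z.2) F = 0 := by
  intro F hF
  rw [pJ, mem_gJ] at hF
  let φ : MvPolynomial ι K ⧸ J →+* A := Ideal.Quotient.lift J (aeval q : MvPolynomial ι K →ₐ[K] A).toRingHom hq
  let ψ : MvPolynomial Bool (MvPolynomial ι K ⧸ J) →+* A := eval₂Hom φ t
  have key : ∀ H : MvPolynomial (ι × Bool) K,
      ψ (aeval (fun z : ι × Bool =>
        (C (gen J z.1) * X z.2 : MvPolynomial Bool (MvPolynomial ι K ⧸ J))) H) =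
      aeval (fun z : ι × Bool => q z.1 * t z.2) H := by
    intro H
    induction H using MvPolynomial.induction_on with
    | C a =>
      rw [aeval_C, aeval_C]
      have h1 : (algebraMap K (MvPolynomial Bool (MvPolynomial ι K ⧸ J))) a =
          C (Ideal.Quotient.mk J (C a)) := rfl
      rw [h1]
      change eval₂ φ t (C (Ideal.Quotient.mk J (C a))) = _
      rw [eval₂_C]
      change (aeval q) (C a) = _
      rw [aeval_C]
    | add F G h1 h2 => rw [map_add, map_add, map_add, h1, h2]
    | mul_X F z h1 =>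
      rw [map_mul, map_mul, map_mul, h1, aeval_X, aeval_X]
      congr 1
      change eval₂ φ t (C (gen J z.1) * X z.2) = _
      rw [eval₂_mul, eval₂_C, eval₂_X]
      congr 1
      change (aeval q) (X z.1) = _
      rw [aeval_X]
  rw [← key F, hF, map_zero]

/-- Points of the product. -/
theorem pJ_sg {q : ι → L} (hq : ∀ F ∈ J, aeval q F = 0) (t : Bool → L) :
    ∀ F ∈ pJ J, aeval (sg q t) F = 0 :=
  G5c_sg hq t

/-- The value of a polynomial at a vector of dual numbers. -/
private theorem G5c_dual {σ : Type} [Fintype σ] (v : σ → DualNumber L) (F : MvPolynomial σ K) :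
    (aeval v F).fst = aeval (fun i => (v i).fst) F ∧
      (aeval v F).snd = dif (fun i => (v i).fst) F fun i => (v i).snd := by
  induction F using MvPolynomial.induction_on with
  | C a =>
    rw [aeval_C, aeval_C, dif_C, TrivSqZeroExt.algebraMap_eq_inl']
    exact ⟨rfl, rfl⟩
  | add F G hF hG =>
    rw [map_add, map_add, dif_add, TrivSqZeroExt.fst_add, TrivSqZeroExt.snd_add, hF.1, hG.1, hF.2,
      hG.2]
    exact ⟨rfl, rfl⟩
  | mul_X F i hF =>
    rw [map_mul, map_mul, dif_mul, TrivSqZeroExt.fst_mul, TrivSqZeroExt.snd_mul, hF.1, hF.2,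
      aeval_X, aeval_X, dif_X]
    refine ⟨rfl, ?_⟩
    rw [smul_eq_mul, op_smul_eq_mul]
    ring

/-- Tangent vectors of the product. -/
theorem pJ_tan {q y : ι → L} (hq : ∀ F ∈ J, aeval q F = 0) (hy : y ∈ Tan J q) (t τ : Bool → L) :
    (fun z : ι × Bool => y z.1 * t z.2 + q z.1 * τ z.2) ∈ Tan (pJ J) (sg q t) := by
  rw [mem_Tan] at hy ⊢
  intro F hF
  let q' : ι → DualNumber L := fun i => (q i, y i)
  let t' : Bool → DualNumber L := fun j => (t j, τ j)
  have hq' : ∀ G ∈ J, aeval q' G = 0 := by
    intro G hG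
    obtain ⟨h1, h2⟩ := G5c_dual q' G
    refine TrivSqZeroExt.ext ?_ ?_
    · rw [h1]
      exact hq G hG
    · rw [h2]
      exact hy G hG
  have h3 := G5c_sg hq' t' F hF
  have h4 := (G5c_dual (fun z : ι × Bool => q' z.1 * t' z.2) F).2
  rw [h3] at h4
  have h5 : (fun z : ι × Bool => (q' z.1 * t' z.2).fst) = sg q t := by
    funext z
    rw [TrivSqZeroExt.fst_mul]
    rfl
  have h6 : (fun z : ι × Bool => (q' z.1 * t' z.2).snd) =
      fun z : ι × Bool => y z.1 * t z.2 + q z.1 * τ z.2 := by
    funext z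
    rw [TrivSqZeroExt.snd_mul, smul_eq_mul, op_smul_eq_mul]
    change q z.1 * τ z.2 + y z.1 * t z.2 = _
    ring
  rw [h5, h6] at h4
  exact h4.symm

end

end Pool.Agent.Lib.MP_17a322_nt.EQ
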