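import Pool.Agent.Lib.MP_17a322_nt.EQ.G5b
import Pool.Agent.Lib.MP_17a322_nt.EQ.G2b
import Pool.Agent.Lib.MP_17a322_nt.EQ.G2c
import Pool.Agent.Lib.MP_17a322_nt.EQ.G2d
import Pool.Agent.Lib.MP_17a322_nt.EQ.G2e
import Pool.Agent.Lib.MP_17a322_nt.EQ.G4a
import Pool.Agent.Lib.MP_17a322_nt.EQ.G4b
import Pool.Agent.Lib.MP_17a322_nt.EQ.G4c
import Pool.Agent.Lib.MP_17a322_nt.EQ.G4d
import Pool.Agent.Lib.MP_17a322_nt.EQ.G7

/-!
Vojta's conjecture and its case `D = 0`: the chart of the blow-up.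
-/

set_option linter.unusedSectionVars false

universe u

namespace Pool.Agent.Lib.MP_17a322_nt.EQ

open MvPolynomial

section

variable {K : Type u} [Field K] {ι κ β : Type} [Fintype ι] [Fintype κ] [Fintype β] [DecidableEq β]

/-- The data of a point of the blow-up in a chart. -/
structure BC (J : Ideal (MvPolynomial ι K)) (e : ℕ) (f : β → κ → MvPolynomial ι K) (a b : β)
    {L : Type u} [Field L] [Algebra K L] (p : ι × (κ ⊕ κ) → L) (i₁ : ι) (l₁ : κ ⊕ κ)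
    (W : κ ⊕ κ → L) (s : β → κ) : Prop where
  ab : a ≠ b
  hJh : ∀ F ∈ J, ∀ i, homogeneousComponent i F ∈ J
  hJp : J.IsPrime
  he : 0 < e
  hfh : ∀ b j, (f b j).IsHomogeneous e
  hp : IsPt (bJ J (cen (f a) (f b))) p
  hi : p (i₁, l₁) ≠ 0
  hW : W l₁ = 1
  hpW : ∀ i l, p (i, l) = p (i, l₁) * W l
  hx : IsPt J fun i => p (i, l₁)
  hLG : ∀ b ∈ thr f (fun i => p (i, l₁)), LG J (f b) (fun i => p (i, l₁)) (s b)
  hli : LinearIndependent L fun b : {b // b ∈ thr f fun i => p (i, l₁)} =>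
    (dif (fun i => p (i, l₁)) (f b (s b))).domRestrict (Tan J fun i => p (i, l₁))

/-- Every point of the blow-up has a chart. -/
theorem exists_BC {J : Ideal (MvPolynomial ι K)} {n e : ℕ} {f : β → κ → MvPolynomial ι K}
    (hJ : Smooth J n) (hf : Snc J e f) {a b : β} (hab : a ≠ b) {L : Type u} [Field L] [Algebra K L]
    {p : ι × (κ ⊕ κ) → L} (hp : IsPt (bJ J (cen (f a) (f b))) p) :
    ∃ i₁ l₁ W s, BC J e f a b p i₁ l₁ W s := by
  obtain ⟨z, hz⟩ := Function.ne_iff.1 hp.1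
  obtain ⟨i₁, l₁⟩ := z
  obtain ⟨hx, W, hW, hpW⟩ := gJ_pt hJ.homog gen_zero hp ⟨i₁, hz⟩
  obtain ⟨s, hs, hli⟩ := Snc.thr_LG hf hx
  exact ⟨i₁, l₁, W, s, hab, hJ.homog, hJ.prime, hf.pos, hf.homog, hp, hz, hW, hpW, hx, hs, hli⟩

variable {J : Ideal (MvPolynomial ι K)} {e : ℕ} {f : β → κ → MvPolynomial ι K} {a b : β}
  {L : Type u} [Field L] [Algebra K L] {p : ι × (κ ⊕ κ) → L} {i₁ : ι} {l₁ : κ ⊕ κ} {W : κ ⊕ κ → L}
  {s : β → κ}

theorem G6_cen_hom {f : β → κ → MvPolynomial ι K} {e : ℕ} (hf : ∀ b j, (f b j).IsHomogeneous e)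
    (a b : β) (l : κ ⊕ κ) : (cen (f a) (f b) l).IsHomogeneous e := by
  rcases l with j | j
  · exact hf a j
  · exact hf b j

/-- The relations `w_l (x) W_l' = w_l' (x) W_l` and their differentials. -/
theorem BC.rel (h : BC J e f a b p i₁ l₁ W s) (l l' : κ ⊕ κ) :
    aeval (fun i => p (i, l₁)) (cen (f a) (f b) l) * W l' =
      aeval (fun i => p (i, l₁)) (cen (f a) (f b) l') * W l ∧
    ∀ (y : ι × (κ ⊕ κ) → L) (ω : κ ⊕ κ → L), y ∈ Tan (bJ J (cen (f a) (f b))) p →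
      (∀ i l, y (i, l) = y (i, l₁) * W l + p (i, l₁) * ω l) →
      dif (fun i => p (i, l₁)) (cen (f a) (f b) l) (fun i => y (i, l₁)) * W l' +
          aeval (fun i => p (i, l₁)) (cen (f a) (f b) l) * ω l' =
        dif (fun i => p (i, l₁)) (cen (f a) (f b) l') (fun i => y (i, l₁)) * W l +
          aeval (fun i => p (i, l₁)) (cen (f a) (f b) l') * ω l := by
  refine rel_eval h.hp h.hi h.hpW (rel_mem (k := e) (G6_cen_hom h.hfh a b l)
    (G6_cen_hom h.hfh a b l') ?_ l₁ i₁)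
  rw [aeval_gen, aeval_gen]
  exact mul_comm _ _

/-- `w l₁` is not zero at the generic point. -/
theorem BC.w1 (h : BC J e f a b p i₁ l₁ W s) :
    Ideal.Quotient.mk J (cen (f a) (f b) l₁) ≠ 0 := by
  intro h0
  have h1 : (X (i₁, l₁) : MvPolynomial (ι × (κ ⊕ κ)) K) ∈ bJ J (cen (f a) (f b)) := by
    rw [mem_bJ, aeval_X]
    exact J.mul_mem_left _ (Ideal.Quotient.eq_zero_iff_mem.1 h0)
  have h2 := h.hp.2 _ h1
  rw [aeval_X] at h2
  exact h.hi h2

/-- If `x = p (., l₁)` lies on the divisor `a`: the relations for the equations of the divisor `a`. -/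
theorem BC.rela (h : BC J e f a b p i₁ l₁ W s) (ha : a ∈ thr f fun i => p (i, l₁)) :
    ∃ u : MvPolynomial ι K, aeval (fun i => p (i, l₁)) u ≠ 0 ∧ ∀ j, ∃ φ : MvPolynomial ι K, ∀ i,
      sub u l₁ * X (i, Sum.inl j) - sub φ l₁ * X (i, Sum.inl (s a)) ∈
        bJ J (cen (f a) (f b)) := by
  have := h.hJp
  obtain ⟨u, hu, huj⟩ := h.hLG a ha
  refine ⟨u, hu, fun j => ?_⟩
  exact strict_rel h.hJh gen_zero h.w1 (h.hfh a) Sum.inl (fun j => (aeval_gen (f a j)).symm) huj j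

/-- The same for the divisor `b`, with `Sum.inr`. -/
theorem BC.relb (h : BC J e f a b p i₁ l₁ W s) (hb : b ∈ thr f fun i => p (i, l₁)) :
    ∃ u : MvPolynomial ι K, aeval (fun i => p (i, l₁)) u ≠ 0 ∧ ∀ j, ∃ φ : MvPolynomial ι K, ∀ i,
      sub u l₁ * X (i, Sum.inr j) - sub φ l₁ * X (i, Sum.inr (s b)) ∈
        bJ J (cen (f a) (f b)) := by
  have := h.hJp
  obtain ⟨u, hu, huj⟩ := h.hLG b hb
  refine ⟨u, hu, fun j => ?_⟩
  exact strict_rel h.hJh gen_zero h.w1 (h.hfh b) Sum.inr (fun j => (aeval_gen (f b j)).symm) huj j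

/-- The choice of the local equations of the divisors on the blow-up. -/
def bs (a b c : β) (i₁ : ι) (l₁ : κ ⊕ κ) (s : β → κ) : β → Ix ι (κ ⊕ κ) (κ ⊕ κ) := fun i =>
  if i = c then Sum.inl (l₁, l₁)
  else if i = a then Sum.inr ((i₁, Sum.inl (s a)), (i₁, l₁))
  else if i = b then Sum.inr ((i₁, Sum.inr (s b)), (i₁, l₁))
  else Sum.inl (Sum.inl (s i), l₁)

end

end Pool.Agent.Lib.MP_17a322_nt.EQ
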