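import Pool.Agent.Lib.MP_17a322_nt.EQ.G6

/-!
Vojta's conjecture and its case `D = 0`: the divisors through a point of the blow-up.
-/

set_option linter.unusedSectionVars false

universe u

namespace Pool.Agent.Lib.MP_17a322_nt.EQ

open MvPolynomial

section

variable {K : Type u} [Field K] {ι κ β : Type} [Fintype ι] [Fintype κ] [Fintype β] [DecidableEq β]
  {J : Ideal (MvPolynomial ι K)} {e : ℕ} {f : β → κ → MvPolynomial ι K} {a b c : β}
  {L : Type u} [Field L] [Algebra K L] {p : ι × (κ ⊕ κ) → L} {i₁ : ι} {l₁ : κ ⊕ κ} {W : κ ⊕ κ → L}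
  {s : β → κ}

private theorem G6a_val (h : BC J e f a b p i₁ l₁ W s) (d : β) (j : κ) (l : κ ⊕ κ) :
    aeval p (sub (f d j) l) = W l ^ e * aeval (fun i => p (i, l₁)) (f d j) := by
  rw [aeval_sub', ← aeval_mul (h.hfh d j)]
  have h1 : (fun i => p (i, l)) = fun i => W l * p (i, l₁) := by
    funext i
    rw [h.hpW i l, mul_comm]
  rw [h1]

private theorem G6a_sub (h : BC J e f a b p i₁ l₁ W s) (d d' : β) :
    (∀ z, aeval p ((eqp (cen (f d) (f d')) : Ix ι (κ ⊕ κ) (κ ⊕ κ) → MvPolynomial (ι × (κ ⊕ κ)) K) z) = 0) ↔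
      d ∈ thr f (fun i => p (i, l₁)) ∧ d' ∈ thr f (fun i => p (i, l₁)) := by
  rw [mem_thr, mem_thr]
  constructor
  · intro hz
    refine ⟨fun j => ?_, fun j => ?_⟩
    · have h1 := hz (Sum.inl (Sum.inl j, l₁))
      change aeval p (sub (f d j) l₁) = 0 at h1
      rw [G6a_val h, h.hW, one_pow, one_mul] at h1
      exact h1
    · have h1 := hz (Sum.inl (Sum.inr j, l₁))
      change aeval p (sub (f d' j) l₁) = 0 at h1
      rw [G6a_val h, h.hW, one_pow, one_mul] at h1
      exact h1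
  · rintro ⟨h1, h2⟩ z
    rcases z with ⟨l', l⟩ | z
    · rcases l' with j | j
      · change aeval p (sub (f d j) l) = 0
        rw [G6a_val h, h1 j, mul_zero]
      · change aeval p (sub (f d' j) l) = 0
        rw [G6a_val h, h2 j, mul_zero]
    · change aeval p (0 : MvPolynomial (ι × (κ ⊕ κ)) K) = 0
      rw [map_zero]

/-- The exceptional divisor goes through `p` iff `x = p (., l₁)` lies on both divisors. -/
theorem BC.thr_c (h : BC J e f a b p i₁ l₁ W s) :
    c ∈ thr (bf e f (a, b, c)) p ↔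
      a ∈ thr f (fun i => p (i, l₁)) ∧ b ∈ thr f (fun i => p (i, l₁)) := by
  rw [mem_thr, ← G6a_sub h a b]
  have h1 : bf e f (a, b, c) c = eqp (cen (f a) (f b)) := by
    simp only [bf, if_true]
  rw [h1]

private theorem G6a_eqs (h : BC J e f a b p i₁ l₁ W s) (P : κ ⊕ κ → Prop) [DecidablePred P] :
    (∀ z, aeval p ((eqs e P : Ix ι (κ ⊕ κ) (κ ⊕ κ) → MvPolynomial (ι × (κ ⊕ κ)) K) z) = 0) ↔
      ∀ l, P l → W l = 0 := by
  constructor
  · intro hz l hl
    have h1 := hz (Sum.inr ((i₁, l), (i₁, l₁)))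
    change aeval p (if P l then X (i₁, l) * X (i₁, l₁) ^ (e - 1) else 0) = 0 at h1
    rw [if_pos hl, map_mul, map_pow, aeval_X, aeval_X, h.hpW i₁ l] at h1
    rcases mul_eq_zero.mp h1 with h2 | h2
    · rcases mul_eq_zero.mp h2 with h3 | h3
      · exact absurd h3 h.hi
      · exact h3
    · exact absurd h2 (pow_ne_zero _ h.hi)
  · intro hW z
    rcases z with z | ⟨⟨i, l⟩, z'⟩
    · change aeval p (0 : MvPolynomial (ι × (κ ⊕ κ)) K) = 0
      rw [map_zero]
    · change aeval p (if P l then X (i, l) * X z' ^ (e - 1) else 0) = 0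
      by_cases hl : P l
      · rw [if_pos hl, map_mul, aeval_X, h.hpW i l, hW l hl, mul_zero, zero_mul]
      · rw [if_neg hl, map_zero]

/-- The strict transform of the divisor `a` goes through `p` iff `W l = 0` for all `l = Sum.inl _`. -/
theorem BC.thr_a (h : BC J e f a b p i₁ l₁ W s) (hac : a ≠ c) :
    a ∈ thr (bf e f (a, b, c)) p ↔ ∀ j, W (Sum.inl j) = 0 := by
  rw [mem_thr]
  have h1 : bf e f (a, b, c) a = eqs e (fun l => l.isLeft = true) := by
    simp only [bf, if_neg hac, if_true]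
  rw [h1, G6a_eqs h]
  constructor
  · intro h2 j
    exact h2 _ rfl
  · rintro h2 (j | j) hl
    · exact h2 j
    · cases hl

/-- The same for `b`. -/
theorem BC.thr_b (h : BC J e f a b p i₁ l₁ W s) (hbc : b ≠ c) :
    b ∈ thr (bf e f (a, b, c)) p ↔ ∀ j, W (Sum.inr j) = 0 := by
  rw [mem_thr]
  have h1 : bf e f (a, b, c) b = eqs e (fun l => l.isRight = true) := by
    simp only [bf, if_neg hbc, if_neg h.ab.symm, if_true]
  rw [h1, G6a_eqs h]
  constructor
  · intro h2 j
    exact h2 _ rfl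
  · rintro h2 (j | j) hl
    · cases hl
    · exact h2 j

/-- The other divisors. -/
theorem BC.thr_i (h : BC J e f a b p i₁ l₁ W s) {i : β} (hia : i ≠ a) (hib : i ≠ b) (hic : i ≠ c) :
    i ∈ thr (bf e f (a, b, c)) p ↔ i ∈ thr f fun i => p (i, l₁) := by
  rw [mem_thr]
  have h1 : bf e f (a, b, c) i = eqp (cen (f i) (f i)) := by
    simp only [bf, if_neg hic, if_neg hia, if_neg hib]
  rw [h1, G6a_sub h i i, and_self]

/-- If the strict transform of the divisor `a` goes through `p` then `x` lies on the divisor `a`. -/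
theorem BC.thr_a' (h : BC J e f a b p i₁ l₁ W s) (ha : ∀ j, W (Sum.inl j) = 0) :
    a ∈ thr f fun i => p (i, l₁) := by
  rw [mem_thr]
  intro j
  have h1 := (h.rel (Sum.inl j) l₁).1
  rw [h.hW, mul_one, ha j, mul_zero] at h1
  exact h1

/-- The same for `b`. -/
theorem BC.thr_b' (h : BC J e f a b p i₁ l₁ W s) (hb : ∀ j, W (Sum.inr j) = 0) :
    b ∈ thr f fun i => p (i, l₁) := by
  rw [mem_thr]
  intro j
  have h1 := (h.rel (Sum.inr j) l₁).1
  rw [h.hW, mul_one, hb j, mul_zero] at h1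
  exact h1

end

end Pool.Agent.Lib.MP_17a322_nt.EQ
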