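import Pool.Agent.Lib.MP_17a322_nt.EQ.G6a

/-!
Vojta's conjecture and its case `D = 0`: local equations of the divisors on the blow-up.
-/

set_option linter.unusedSectionVars false

universe u

namespace Pool.Agent.Lib.MP_17a322_nt.EQ

open MvPolynomial

section

variable {K : Type u} [Field K] {ι κ β : Type} [Fintype ι] [Fintype κ] [Fintype β] [DecidableEq β]
  {J : Ideal (MvPolynomial ι K)} {e : ℕ} {f : β → κ → MvPolynomial ι K} {a b c : β}
  {L : Type u} [Field L] [Algebra K L] {p : ι × (κ ⊕ κ) → L} {i₁ : ι} {l₁ : κ ⊕ κ} {W : κ ⊕ κ → L}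
  {s : β → κ}

/-- Local equations of the divisors on the blow-up. -/
theorem BC.LG (h : BC J e f a b p i₁ l₁ W s) (hac : a ≠ c) (hbc : b ≠ c) :
    ∀ i ∈ thr (bf e f (a, b, c)) p,
      EQ.LG (bJ J (cen (f a) (f b))) (bf e f (a, b, c) i) p (bs a b c i₁ l₁ s i) := by
  intro i hit
  by_cases hic : i = c
  · subst hic
    have e1 : bf e f (a, b, i) i = eqp (cen (f a) (f b)) := by simp [bf]
    have e2 : bs a b i i₁ l₁ s i = Sum.inl (l₁, l₁) := by simp [bs]
    rw [e1, e2]
    refine LG_exc ⟨i₁, h.hi⟩ (e := e) ?_ (fun l => (aeval_gen _).symm)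
    rintro (j | j)
    · exact h.hfh a j
    · exact h.hfh b j
  · by_cases hia : i = a
    · subst hia
      have e1 : bf e f (i, b, c) i = eqs e (fun l => l.isLeft = true) := by simp [bf, hic]
      have e2 : bs i b c i₁ l₁ s i = Sum.inr ((i₁, Sum.inl (s i)), (i₁, l₁)) := by
        simp [bs, hic]
      rw [e1, e2]
      obtain ⟨u, hu, hφ⟩ := h.rela (h.thr_a' ((h.thr_a hac).1 hit))
      refine LG_eqs (fun i i' l l' => segre_mem i i' l l') h.hi h.he _ rfl u hu ?_
      rintro (j | j) hj
      · exact hφ j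
      · simp at hj
    · by_cases hib : i = b
      · subst hib
        have e1 : bf e f (a, i, c) i = eqs e (fun l => l.isRight = true) := by
          simp [bf, hic, hia]
        have e2 : bs a i c i₁ l₁ s i = Sum.inr ((i₁, Sum.inr (s i)), (i₁, l₁)) := by
          simp [bs, hic, hia]
        rw [e1, e2]
        obtain ⟨u, hu, hφ⟩ := h.relb (h.thr_b' ((h.thr_b hbc).1 hit))
        refine LG_eqs (fun i i' l l' => segre_mem i i' l l') h.hi h.he _ rfl u hu ?_
        rintro (j | j) hj
        · simp at hj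
        · exact hφ j
      · have e1 : bf e f (a, b, c) i = eqp (cen (f i) (f i)) := by simp [bf, hic, hia, hib]
        have e2 : bs a b c i₁ l₁ s i = Sum.inl (Sum.inl (s i), l₁) := by
          simp [bs, hic, hia, hib]
        rw [e1, e2]
        have h1 : i ∈ thr f fun i => p (i, l₁) := (h.thr_i hia hib hic).1 hit
        obtain ⟨u, hu, hφ⟩ := h.hLG i h1
        refine LG_eqp h.hJh gen_zero ⟨i₁, h.hi⟩ (e := e) ?_ ⟨u, hu, ?_⟩
        · rintro (j | j)
          · exact h.hfh i j
          · exact h.hfh i j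
        · rintro (j | j)
          · exact hφ j
          · exact hφ j

end

end Pool.Agent.Lib.MP_17a322_nt.EQ
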