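import Pool.Agent.Lib.MP_17a322_nt.EQ.G6a

/-!
Vojta's conjecture and its case `D = 0`: tangent vectors of the divisors on the blow-up.
-/

set_option linter.unusedSectionVars false

universe u

namespace Pool.Agent.Lib.MP_17a322_nt.EQ

open MvPolynomial

section

variable {K : Type u} [Field K] {ι κ β : Type} [Fintype ι] [Fintype κ] [Fintype β] [DecidableEq β]
  {J : Ideal (MvPolynomial ι K)} {e : ℕ} {f : β → κ → MvPolynomial ι K} {a b c : β}
  {L : Type u} [Field L] [Algebra K L] {p : ι × (κ ⊕ κ) → L} {i₁ : ι} {l₁ : κ ⊕ κ} {W : κ ⊕ κ → L}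
  {s : β → κ}

/-- The differential of `X z * X z' ^ m` at a point with `z`-coordinate zero. -/
theorem G6c_mono (z z' : ι × (κ ⊕ κ)) (m : ℕ) (hz : p z = 0) (y : ι × (κ ⊕ κ) → L) :
    dif p (X z * X z' ^ m : MvPolynomial (ι × (κ ⊕ κ)) K) y = p z' ^ m * y z := by
  rw [dif_mul, aeval_X, hz, zero_mul, zero_add, map_pow, aeval_X, dif_X]

/-- The differentials of the local equations of the divisors through `p` at a tangent vector `y`. -/
theorem BC.ker (h : BC J e f a b p i₁ l₁ W s) (hac : a ≠ c) (hbc : b ≠ c)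
    {y : ι × (κ ⊕ κ) → L} {ω : κ ⊕ κ → L}
    (hyω : ∀ i l, y (i, l) = y (i, l₁) * W l + p (i, l₁) * ω l)
    (hy : y ∈ Nsp (bJ J (cen (f a) (f b))) p
      (fun i => bf e f (a, b, c) i (bs a b c i₁ l₁ s i)) (thr (bf e f (a, b, c)) p)) :
    (c ∈ thr (bf e f (a, b, c)) p →
      dif (fun i => p (i, l₁)) (cen (f a) (f b) l₁) (fun i => y (i, l₁)) = 0) ∧
    (a ∈ thr (bf e f (a, b, c)) p → ω (Sum.inl (s a)) = 0) ∧
    (b ∈ thr (bf e f (a, b, c)) p → ω (Sum.inr (s b)) = 0) ∧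
    ∀ i, i ≠ a → i ≠ b → i ≠ c → i ∈ thr (bf e f (a, b, c)) p →
      dif (fun i => p (i, l₁)) (f i (s i)) (fun i => y (i, l₁)) = 0 := by
  obtain ⟨_, hy2⟩ := mem_Nsp.1 hy
  have key : ∀ l : κ ⊕ κ, W l = 0 → p (i₁, l) = 0 := by
    intro l hl
    rw [h.hpW i₁ l, hl, mul_zero]
  have key2 : ∀ l : κ ⊕ κ, W l = 0 → p (i₁, l₁) ^ (e - 1) * y (i₁, l) = 0 → ω l = 0 := by
    intro l hl hz
    have h1 : y (i₁, l) = 0 := (mul_eq_zero.1 hz).resolve_left (pow_ne_zero _ h.hi)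
    rw [hyω i₁ l, hl, mul_zero, zero_add] at h1
    exact (mul_eq_zero.1 h1).resolve_left h.hi
  refine ⟨fun hc => ?_, fun ha => ?_, fun hb => ?_, fun i hia hib hic hi => ?_⟩
  · have h1 := hy2 c hc
    have h2 : bf e f (a, b, c) c (bs a b c i₁ l₁ s c) = sub (cen (f a) (f b) l₁) l₁ := by
      unfold bf bs
      rw [if_pos rfl, if_pos rfl]
      rfl
    rw [h2, dif_sub'] at h1
    exact h1
  · have h1 := hy2 a ha
    have hW0 := (h.thr_a hac).1 ha (s a)
    have h2 : bf e f (a, b, c) a (bs a b c i₁ l₁ s a) =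
        X (i₁, Sum.inl (s a)) * X (i₁, l₁) ^ (e - 1) := by
      unfold bf bs
      rw [if_neg hac, if_pos rfl, if_neg hac, if_pos rfl]
      rfl
    rw [h2, G6c_mono _ _ _ (key _ hW0)] at h1
    exact key2 _ hW0 h1
  · have h1 := hy2 b hb
    have hW0 := (h.thr_b hbc).1 hb (s b)
    have hba : b ≠ a := fun hh => h.ab hh.symm
    have h2 : bf e f (a, b, c) b (bs a b c i₁ l₁ s b) =
        X (i₁, Sum.inr (s b)) * X (i₁, l₁) ^ (e - 1) := by
      unfold bf bs
      rw [if_neg hbc, if_neg hba, if_pos rfl, if_neg hbc, if_neg hba, if_pos rfl]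
      rfl
    rw [h2, G6c_mono _ _ _ (key _ hW0)] at h1
    exact key2 _ hW0 h1
  · have h1 := hy2 i hi
    have h2 : bf e f (a, b, c) i (bs a b c i₁ l₁ s i) = sub (f i (s i)) l₁ := by
      unfold bf bs
      rw [if_neg hic, if_neg hia, if_neg hib, if_neg hic, if_neg hia, if_neg hib]
      rfl
    rw [h2, dif_sub'] at h1
    exact h1

end

end Pool.Agent.Lib.MP_17a322_nt.EQ
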