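import Pool.Agent.Lib.MP_17a322_nt.EQ.G6c

/-!
Vojta's conjecture and its case `D = 0`: the dimension bound outside the exceptional divisor.
-/

set_option linter.unusedSectionVars false

universe u

namespace Pool.Agent.Lib.MP_17a322_nt.EQ

open MvPolynomial

section

variable {K : Type u} [Field K] {ι κ β : Type} [Fintype ι] [Fintype κ] [Fintype β] [DecidableEq β]
  {J : Ideal (MvPolynomial ι K)} {n e : ℕ} {f : β → κ → MvPolynomial ι K} {a b c : β}
  {L : Type u} [Field L] [Algebra K L] {p : ι × (κ ⊕ κ) → L} {i₁ : ι} {l₁ : κ ⊕ κ} {W : κ ⊕ κ → L}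
  {s : β → κ}

/-- The bound at a point outside the exceptional divisor. -/
theorem BC.bound1 (hJ : Smooth J n) (h : BC J e f a b p i₁ l₁ W s) (hac : a ≠ c) (hbc : b ≠ c)
    (hc : c ∉ thr (bf e f (a, b, c)) p) :
    Module.finrank L (Nsp (bJ J (cen (f a) (f b))) p
      (fun i => bf e f (a, b, c) i (bs a b c i₁ l₁ s i)) (thr (bf e f (a, b, c)) p)) +
      (thr (bf e f (a, b, c)) p).card ≤ n + 1 := by
  have hane : ∀ i ∈ thr (bf e f (a, b, c)) p, i ≠ c := fun i hi hic => hc (hic ▸ hi)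
  have hsub : thr (bf e f (a, b, c)) p ⊆ thr f fun i => p (i, l₁) := by
    intro i hi
    by_cases hia : i = a
    · rw [hia]
      rw [hia] at hi
      exact h.thr_a' ((h.thr_a hac).1 hi)
    · by_cases hib : i = b
      · rw [hib]
        rw [hib] at hi
        exact h.thr_b' ((h.thr_b hbc).1 hi)
      · exact (h.thr_i hia hib (hane i hi)).1 hi
  -- the chart of a tangent vector
  have hchart : ∀ y ∈ Nsp (bJ J (cen (f a) (f b))) p
      (fun i => bf e f (a, b, c) i (bs a b c i₁ l₁ s i)) (thr (bf e f (a, b, c)) p),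
      (fun i => y (i, l₁)) ∈ Tan J (fun i => p (i, l₁)) ∧
      ∃ ω : κ ⊕ κ → L, ω l₁ = 0 ∧ ∀ i l, y (i, l) = y (i, l₁) * W l + p (i, l₁) * ω l := fun y hy =>
    gJ_tan h.hJh gen_zero ⟨i₁, h.hi⟩ h.hW h.hpW (mem_Nsp.1 hy).1
  have hmap : ∀ y ∈ Nsp (bJ J (cen (f a) (f b))) p
      (fun i => bf e f (a, b, c) i (bs a b c i₁ l₁ s i)) (thr (bf e f (a, b, c)) p),
      (fun i => y (i, l₁)) ∈ Nsp J (fun i => p (i, l₁)) (fun i => f i (s i)) (thr (bf e f (a, b, c)) p) := by
    intro y hy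
    obtain ⟨hη, ω, hω, hyω⟩ := hchart y hy
    obtain ⟨-, ka, kb, ki⟩ := h.ker hac hbc hyω hy
    refine mem_Nsp.2 ⟨hη, fun i hi => ?_⟩
    by_cases hia : i = a
    · rw [hia] at hi ⊢
      have h1 := (h.rel l₁ (Sum.inl (s a))).2 y ω (mem_Nsp.1 hy).1 hyω
      rw [(h.thr_a hac).1 hi (s a), ka hi, hω, h.hW] at h1
      simp only [mul_zero, add_zero, mul_one] at h1
      exact h1.symm
    · by_cases hib : i = b
      · rw [hib] at hi ⊢
        have h1 := (h.rel l₁ (Sum.inr (s b))).2 y ω (mem_Nsp.1 hy).1 hyω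
        rw [(h.thr_b hbc).1 hi (s b), kb hi, hω, h.hW] at h1
        simp only [mul_zero, add_zero, mul_one] at h1
        exact h1.symm
      · exact ki i hia hib (hane i hi) hi
  -- `w l₁` does not vanish
  have hw : aeval (fun i => p (i, l₁)) (cen (f a) (f b) l₁) ≠ 0 := by
    intro h0
    apply hc
    rw [h.thr_c]
    have h1 : ∀ l', aeval (fun i => p (i, l₁)) (cen (f a) (f b) l') = 0 := by
      intro l'
      have h2 := (h.rel l₁ l').1
      rw [h0, zero_mul, h.hW, mul_one] at h2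
      exact h2.symm
    exact ⟨mem_thr.2 fun j => h1 (Sum.inl j), mem_thr.2 fun j => h1 (Sum.inr j)⟩
  have hinj : ∀ y ∈ Nsp (bJ J (cen (f a) (f b))) p
      (fun i => bf e f (a, b, c) i (bs a b c i₁ l₁ s i)) (thr (bf e f (a, b, c)) p),
      (fun i => y (i, l₁)) = 0 → y = 0 := by
    intro y hy h0
    obtain ⟨-, ω, hω, hyω⟩ := hchart y hy
    have h1 : ∀ l', ω l' = 0 := by
      intro l'
      have h2 := (h.rel l₁ l').2 y ω (mem_Nsp.1 hy).1 hyω
      rw [h0, map_zero, map_zero, zero_mul, zero_mul, zero_add, zero_add, hω, mul_zero] at h2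
      exact (mul_eq_zero.1 h2).resolve_left hw
    funext z
    obtain ⟨i, l⟩ := z
    rw [hyω i l, h1 l, congrFun h0 i]
    simp
  let Φ : (ι × (κ ⊕ κ) → L) →ₗ[L] (ι → L) := LinearMap.funLeft L L fun i => (i, l₁)
  let g := (Φ.domRestrict (Nsp (bJ J (cen (f a) (f b))) p
      (fun i => bf e f (a, b, c) i (bs a b c i₁ l₁ s i)) (thr (bf e f (a, b, c)) p))).codRestrict
      (Nsp J (fun i => p (i, l₁)) (fun i => f i (s i)) (thr (bf e f (a, b, c)) p)) fun y => hmap y.1 y.2
  have hg : Function.Injective g := by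
    rw [injective_iff_map_eq_zero]
    intro y hy
    have h1 := congrArg Subtype.val hy
    exact Subtype.ext (hinj y.1 y.2 h1)
  have h1 := LinearMap.finrank_le_finrank_of_injective hg
  have h2 := snc_bound hJ h.hx (g := fun i => f i (s i)) h.hli hsub
  omega

end

end Pool.Agent.Lib.MP_17a322_nt.EQ
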