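import Pool.Agent.Lib.MP_17a322_nt.EQ.G6c

/-!
Vojta's conjecture and its case `D = 0`: the dimension bound on the exceptional divisor.
-/

set_option linter.unusedSectionVars false

universe u

namespace Pool.Agent.Lib.MP_17a322_nt.EQ

open MvPolynomial

section

variable {K : Type u} [Field K] {ι κ β : Type} [Fintype ι] [Fintype κ] [Fintype β] [DecidableEq β]
  {J : Ideal (MvPolynomial ι K)} {n e : ℕ} {f : β → κ → MvPolynomial ι K} {a b c : β}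
  {L : Type u} [Field L] [Algebra K L] {p : ι × (κ ⊕ κ) → L} {i₁ : ι} {l₁ : κ ⊕ κ} {W : κ ⊕ κ → L}
  {s : β → κ}

/-- The numbers `ω (σ j)` are determined by one of them, if `η = 0`. -/
theorem G6e_aux1 {I : Ideal (MvPolynomial (ι × (κ ⊕ κ)) K)} (hp : IsPt I p) (hi : p (i₁, l₁) ≠ 0)
    (hpW : ∀ i l, p (i, l) = p (i, l₁) * W l) {σ : κ → κ ⊕ κ} {r : κ} {u : MvPolynomial ι K}
    (hu : aeval (fun i => p (i, l₁)) u ≠ 0)
    (hr : ∀ j, ∃ φ : MvPolynomial ι K, ∀ i, sub u l₁ * X (i, σ j) - sub φ l₁ * X (i, σ r) ∈ I)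
    {y : ι × (κ ⊕ κ) → L} (hy : y ∈ Tan I p) {ω : κ ⊕ κ → L}
    (hyω : ∀ i l, y (i, l) = y (i, l₁) * W l + p (i, l₁) * ω l)
    (hη : ∀ i, y (i, l₁) = 0) (h2 : ω (σ r) = 0) (j : κ) : ω (σ j) = 0 := by
  obtain ⟨φ, hφ⟩ := hr j
  have h3 := (rel_eval hp hi hpW (hφ i₁)).2 y ω hy hyω
  have hη0 : (fun i => y (i, l₁)) = 0 := funext hη
  rw [hη0, map_zero, map_zero, zero_mul, zero_mul, zero_add, zero_add, h2, mul_zero] at h3
  exact (mul_eq_zero.1 h3).resolve_left hu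

/-- The chart index `l₁ = σ j₁`: then `ω (σ r) = 0`. -/
theorem G6e_aux2 {I : Ideal (MvPolynomial (ι × (κ ⊕ κ)) K)} (hp : IsPt I p) (hi : p (i₁, l₁) ≠ 0)
    (hW : W l₁ = 1) (hpW : ∀ i l, p (i, l) = p (i, l₁) * W l) {σ : κ → κ ⊕ κ} {r : κ}
    {u : MvPolynomial ι K} (hu : aeval (fun i => p (i, l₁)) u ≠ 0)
    (hr : ∀ j, ∃ φ : MvPolynomial ι K, ∀ i, sub u l₁ * X (i, σ j) - sub φ l₁ * X (i, σ r) ∈ I)
    {y : ι × (κ ⊕ κ) → L} (hy : y ∈ Tan I p) {ω : κ ⊕ κ → L} (hω1 : ω l₁ = 0)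
    (hyω : ∀ i l, y (i, l) = y (i, l₁) * W l + p (i, l₁) * ω l)
    (hη : ∀ i, y (i, l₁) = 0) {j₁ : κ} (hj : σ j₁ = l₁) : ω (σ r) = 0 := by
  obtain ⟨φ, hφ⟩ := hr j₁
  have h4 := rel_eval hp hi hpW (hφ i₁)
  have h5 := h4.1
  have h3 := h4.2 y ω hy hyω
  have hη0 : (fun i => y (i, l₁)) = 0 := funext hη
  rw [hj, hW, mul_one] at h5
  have h6 : aeval (fun i => p (i, l₁)) φ ≠ 0 := by
    intro h0
    rw [h0, zero_mul] at h5
    exact hu h5
  rw [hη0, map_zero, map_zero, zero_mul, zero_mul, zero_add, zero_add, hj, hω1, mul_zero] at h3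
  exact (mul_eq_zero.1 h3.symm).resolve_left h6

/-- On the exceptional divisor the image `η` of a vector of `Nsp` is killed by the differentials
of all divisors through `x`, except possibly the one with the old label `c`. -/
theorem BC.eta (h : BC J e f a b p i₁ l₁ W s) (hac : a ≠ c) (hbc : b ≠ c)
    (hc : c ∈ thr (bf e f (a, b, c)) p) {y : ι × (κ ⊕ κ) → L}
    (hy : y ∈ Nsp (bJ J (cen (f a) (f b))) p
      (fun i => bf e f (a, b, c) i (bs a b c i₁ l₁ s i)) (thr (bf e f (a, b, c)) p)) :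
    (fun i => y (i, l₁)) ∈ Nsp J (fun i => p (i, l₁)) (fun i => f i (s i))
      ((thr f fun i => p (i, l₁)).erase c) := by
  have hyT := (mem_Nsp.1 hy).1
  obtain ⟨hT, ω, hω1, hyω⟩ := gJ_tan h.hJh gen_zero ⟨i₁, h.hi⟩ h.hW h.hpW hyT
  obtain ⟨hk1, -, -, hk4⟩ := h.ker hac hbc hyω hy
  have hd := hk1 hc
  obtain ⟨hca, hcb⟩ := h.thr_c.1 hc
  have hw : ∀ l, aeval (fun i => p (i, l₁)) (cen (f a) (f b) l) = 0 := by
    rintro (j | j)
    · exact mem_thr.1 hca j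
    · exact mem_thr.1 hcb j
  have key : ∀ l, dif (fun i => p (i, l₁)) (cen (f a) (f b) l) (fun i => y (i, l₁)) = 0 := by
    intro l
    have h3 := (h.rel l l₁).2 y ω hyT hyω
    rw [h.hW, mul_one, hw l, hw l₁, zero_mul, zero_mul, hd, zero_mul, add_zero, add_zero] at h3
    exact h3
  rw [mem_Nsp]
  refine ⟨hT, fun i hi => ?_⟩
  rw [Finset.mem_erase] at hi
  by_cases hia : i = a
  · rw [hia]
    exact key (Sum.inl (s a))
  by_cases hib : i = b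
  · rw [hib]
    exact key (Sum.inr (s b))
  exact hk4 i hia hib hi.1 ((h.thr_i hia hib hi.1).2 hi.2)

/-- On the exceptional divisor a tangent vector `y` with `η = 0` is determined by one number.
Here `l₂` is `Sum.inl (s a)` if `l₁` is `Sum.inr _`, and `Sum.inr (s b)` if `l₁` is `Sum.inl _`. -/
theorem BC.omega (h : BC J e f a b p i₁ l₁ W s)
    (ha : a ∈ thr f fun i => p (i, l₁)) (hb : b ∈ thr f fun i => p (i, l₁))
    {y : ι × (κ ⊕ κ) → L} (hy : y ∈ Tan (bJ J (cen (f a) (f b))) p) {ω : κ ⊕ κ → L}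
    (hω1 : ω l₁ = 0) (hyω : ∀ i l, y (i, l) = y (i, l₁) * W l + p (i, l₁) * ω l)
    (hη : ∀ i, y (i, l₁) = 0)
    (h2 : ω (if l₁.isRight = true then Sum.inl (s a) else Sum.inr (s b)) = 0) : y = 0 := by
  obtain ⟨u, hu, hra⟩ := h.rela ha
  obtain ⟨v, hv, hrb⟩ := h.relb hb
  have h3 : ω (Sum.inl (s a)) = 0 ∧ ω (Sum.inr (s b)) = 0 := by
    rcases hl : l₁ with j₁ | j₁
    · have h4 : ω (Sum.inr (s b)) = 0 := by
        rw [hl] at h2
        simpa using h2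
      exact ⟨G6e_aux2 (σ := Sum.inl) h.hp h.hi h.hW h.hpW hu hra hy hω1 hyω hη hl.symm, h4⟩
    · have h4 : ω (Sum.inl (s a)) = 0 := by
        rw [hl] at h2
        simpa using h2
      exact ⟨h4, G6e_aux2 (σ := Sum.inr) h.hp h.hi h.hW h.hpW hv hrb hy hω1 hyω hη hl.symm⟩
  have h5 : ∀ l, ω l = 0 := by
    rintro (j | j)
    · exact G6e_aux1 (σ := Sum.inl) h.hp h.hi h.hpW hu hra hy hyω hη h3.1 j
    · exact G6e_aux1 (σ := Sum.inr) h.hp h.hi h.hpW hv hrb hy hyω hη h3.2 j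
  funext z
  have h6 := hyω z.1 z.2
  rw [hη, h5, zero_mul, mul_zero, add_zero] at h6
  exact h6

end

end Pool.Agent.Lib.MP_17a322_nt.EQ
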