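import Pool.Agent.Lib.MP_17a322_nt.EQ.G6e

/-!
Vojta's conjecture and its case `D = 0`: the dimension bound on the exceptional divisor.
-/

set_option linter.unusedSectionVars false

universe u

namespace Pool.Agent.Lib.MP_17a322_nt.EQ

open MvPolynomial

section

variable {K : Type u} [Field K] {ι κ β : Type} [Fintype ι] [Fintype κ] [Fintype β] [DecidableEq β]
  {J : Ideal (MvPolynomial ι K)} {n e : ℕ} {f : β → κ → MvPolynomial ι K} {a b c : β}
  {L : Type u} [Field L] [Algebra K L] {p : ι × (κ ⊕ κ) → L} {i₁ : ι} {l₁ : κ ⊕ κ} {W : κ ⊕ κ → L}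
  {s : β → κ}

/-- The bound at a point of the exceptional divisor. -/
theorem BC.bound2 (hJ : Smooth J n) (h : BC J e f a b p i₁ l₁ W s) (hac : a ≠ c) (hbc : b ≠ c)
    (hc : c ∈ thr (bf e f (a, b, c)) p) :
    Module.finrank L (Nsp (bJ J (cen (f a) (f b))) p
      (fun i => bf e f (a, b, c) i (bs a b c i₁ l₁ s i)) (thr (bf e f (a, b, c)) p)) +
      (thr (bf e f (a, b, c)) p).card ≤ n + 1 := by
  classical
  obtain ⟨ha, hb⟩ := h.thr_c.1 hc
  have hla : a ∈ thr (bf e f (a, b, c)) p → l₁.isRight = true := by
    intro h1
    have h2 := (h.thr_a hac).1 h1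
    rcases l₁ with j | j
    · exact absurd ((h2 j).symm.trans h.hW) zero_ne_one
    · rfl
  have hlb : b ∈ thr (bf e f (a, b, c)) p → l₁.isRight = false := by
    intro h1
    have h2 := (h.thr_b hbc).1 h1
    rcases l₁ with j | j
    · rfl
    · exact absurd ((h2 j).symm.trans h.hW) zero_ne_one
  have hker : ∀ y ∈ Nsp (bJ J (cen (f a) (f b))) p
      (fun i => bf e f (a, b, c) i (bs a b c i₁ l₁ s i)) (thr (bf e f (a, b, c)) p),
      (∀ i, y (i, l₁) = 0) → (a ∈ thr (bf e f (a, b, c)) p ∨ b ∈ thr (bf e f (a, b, c)) p ∨
        y (i₁, if l₁.isRight = true then Sum.inl (s a) else Sum.inr (s b)) = 0) → y = 0 := by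
    intro y hy h0 hor
    have hyT := (mem_Nsp.1 hy).1
    obtain ⟨-, ω, hω1, hyω⟩ := gJ_tan h.hJh gen_zero ⟨i₁, h.hi⟩ h.hW h.hpW hyT
    refine h.omega ha hb hyT hω1 hyω h0 ?_
    have hk := h.ker hac hbc hyω hy
    rcases hor with h1 | h1 | h1
    · rw [if_pos (hla h1)]
      exact hk.2.1 h1
    · rw [if_neg (by rw [hlb h1]; exact Bool.false_ne_true)]
      exact hk.2.2.1 h1
    · rw [hyω, h0, zero_mul, zero_add] at h1
      exact (mul_eq_zero.1 h1).resolve_left h.hi
  have hsnc := snc_bound hJ h.hx (g := fun i => f i (s i)) h.hli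
    (B := (thr f fun i => p (i, l₁)).erase c) (Finset.erase_subset _ _)
  have ha1 : a ∈ (thr f fun i => p (i, l₁)).erase c := Finset.mem_erase.2 ⟨hac, ha⟩
  have hb1 : b ∈ (thr f fun i => p (i, l₁)).erase c := Finset.mem_erase.2 ⟨hbc, hb⟩
  let Φ : ↥(Nsp (bJ J (cen (f a) (f b))) p
      (fun i => bf e f (a, b, c) i (bs a b c i₁ l₁ s i)) (thr (bf e f (a, b, c)) p)) →ₗ[L]
      ↥(Nsp J (fun i => p (i, l₁)) (fun i => f i (s i)) ((thr f fun i => p (i, l₁)).erase c)) :=
    ((LinearMap.funLeft L L fun i => (i, l₁)).comp (Submodule.subtype _)).codRestrict _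
      fun y => h.eta hac hbc hc y.2
  have hΦ : ∀ y, Φ y = 0 → ∀ i, (y : ι × (κ ⊕ κ) → L) (i, l₁) = 0 := by
    intro y hy i
    exact congrFun (congrArg Subtype.val hy) i
  by_cases hca : a ∈ thr (bf e f (a, b, c)) p
  · have hcb : b ∉ thr (bf e f (a, b, c)) p := by
      intro h1
      have h2 := hlb h1
      rw [hla hca] at h2
      exact Bool.false_ne_true h2.symm
    have hB : thr (bf e f (a, b, c)) p =
        insert c (((thr f fun i => p (i, l₁)).erase c).erase b) := by
      ext i
      rw [Finset.mem_insert, Finset.mem_erase, Finset.mem_erase]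
      by_cases hic : i = c
      · subst hic
        exact iff_of_true hc (Or.inl rfl)
      · by_cases hia : i = a
        · subst hia
          exact iff_of_true hca (Or.inr ⟨h.ab, hic, ha⟩)
        · by_cases hib : i = b
          · subst hib
            refine iff_of_false hcb ?_
            rintro (h1 | h1)
            · exact hic h1
            · exact h1.1 rfl
          · rw [h.thr_i hia hib hic]
            exact ⟨fun h1 => Or.inr ⟨hib, hic, h1⟩, fun h1 => (h1.resolve_left hic).2.2⟩
    have hcard : (thr (bf e f (a, b, c)) p).card = ((thr f fun i => p (i, l₁)).erase c).card := by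
      rw [hB, Finset.card_insert_of_notMem, Finset.card_erase_add_one hb1]
      intro h1
      exact (Finset.mem_erase.1 (Finset.mem_erase.1 h1).2).1 rfl
    have hle := LinearMap.finrank_le_finrank_of_injective (f := Φ) (by
      rw [injective_iff_map_eq_zero]
      intro y hy
      exact Subtype.ext (hker y y.2 (hΦ y hy) (Or.inl hca)))
    rw [hcard]
    exact (Nat.add_le_add_right hle _).trans hsnc
  · by_cases hcb : b ∈ thr (bf e f (a, b, c)) p
    · have hB : thr (bf e f (a, b, c)) p =
          insert c (((thr f fun i => p (i, l₁)).erase c).erase a) := by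
        ext i
        rw [Finset.mem_insert, Finset.mem_erase, Finset.mem_erase]
        by_cases hic : i = c
        · subst hic
          exact iff_of_true hc (Or.inl rfl)
        · by_cases hia : i = a
          · subst hia
            refine iff_of_false hca ?_
            rintro (h1 | h1)
            · exact hic h1
            · exact h1.1 rfl
          · by_cases hib : i = b
            · subst hib
              exact iff_of_true hcb (Or.inr ⟨h.ab.symm, hic, hb⟩)
            · rw [h.thr_i hia hib hic]
              exact ⟨fun h1 => Or.inr ⟨hia, hic, h1⟩, fun h1 => (h1.resolve_left hic).2.2⟩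
      have hcard : (thr (bf e f (a, b, c)) p).card =
          ((thr f fun i => p (i, l₁)).erase c).card := by
        rw [hB, Finset.card_insert_of_notMem, Finset.card_erase_add_one ha1]
        intro h1
        exact (Finset.mem_erase.1 (Finset.mem_erase.1 h1).2).1 rfl
      have hle := LinearMap.finrank_le_finrank_of_injective (f := Φ) (by
        rw [injective_iff_map_eq_zero]
        intro y hy
        exact Subtype.ext (hker y y.2 (hΦ y hy) (Or.inr (Or.inl hcb))))
      rw [hcard]
      exact (Nat.add_le_add_right hle _).trans hsnc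
    · have hB : thr (bf e f (a, b, c)) p =
          insert c ((((thr f fun i => p (i, l₁)).erase c).erase a).erase b) := by
        ext i
        rw [Finset.mem_insert, Finset.mem_erase, Finset.mem_erase, Finset.mem_erase]
        by_cases hic : i = c
        · subst hic
          exact iff_of_true hc (Or.inl rfl)
        · by_cases hia : i = a
          · subst hia
            refine iff_of_false hca ?_
            rintro (h1 | h1)
            · exact hic h1
            · exact h1.2.1 rfl
          · by_cases hib : i = b
            · subst hib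
              refine iff_of_false hcb ?_
              rintro (h1 | h1)
              · exact hic h1
              · exact h1.1 rfl
            · rw [h.thr_i hia hib hic]
              exact ⟨fun h1 => Or.inr ⟨hib, hia, hic, h1⟩,
                fun h1 => (h1.resolve_left hic).2.2.2⟩
      have hcard : (thr (bf e f (a, b, c)) p).card + 1 =
          ((thr f fun i => p (i, l₁)).erase c).card := by
        rw [hB, Finset.card_insert_of_notMem, Finset.card_erase_add_one
          (Finset.mem_erase.2 ⟨h.ab.symm, hb1⟩), Finset.card_erase_add_one ha1]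
        intro h1
        exact (Finset.mem_erase.1 (Finset.mem_erase.1 (Finset.mem_erase.1 h1).2).2).1 rfl
      let Ψ := Φ.prod ((LinearMap.proj (R := L) (φ := fun _ : ι × (κ ⊕ κ) => L)
        (i₁, if l₁.isRight = true then Sum.inl (s a) else Sum.inr (s b))).comp
          (Submodule.subtype (Nsp (bJ J (cen (f a) (f b))) p
      (fun i => bf e f (a, b, c) i (bs a b c i₁ l₁ s i)) (thr (bf e f (a, b, c)) p))))
      have hle := LinearMap.finrank_le_finrank_of_injective (f := Ψ) (by
        rw [injective_iff_map_eq_zero]
        intro y hy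
        have hy1 : Φ y = 0 := congrArg Prod.fst hy
        have hy2 : (y : ι × (κ ⊕ κ) → L)
          (i₁, if l₁.isRight = true then Sum.inl (s a) else Sum.inr (s b)) = 0 :=
          congrArg Prod.snd hy
        exact Subtype.ext (hker y y.2 (hΦ y hy1) (Or.inr (Or.inr hy2))))
      rw [Module.finrank_prod, Module.finrank_self] at hle
      omega

end

end Pool.Agent.Lib.MP_17a322_nt.EQ
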