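import Pool.Agent.Lib.MP_17a322_nt.EQ.G6b
import Pool.Agent.Lib.MP_17a322_nt.EQ.G6d
import Pool.Agent.Lib.MP_17a322_nt.EQ.G6f

/-!
Vojta's conjecture and its case `D = 0`: the divisors on the blow-up.
-/

set_option linter.unusedSectionVars false

universe u

namespace Pool.Agent.Lib.MP_17a322_nt.EQ

open MvPolynomial

section

variable {K : Type u} [Field K] {ι κ β : Type} [Fintype ι] [Fintype κ] [Fintype β] [DecidableEq β]

theorem cen_hom {e : ℕ} {g h : κ → MvPolynomial ι K} (hg : ∀ j, (g j).IsHomogeneous e)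
    (hh : ∀ j, (h j).IsHomogeneous e) (l : κ ⊕ κ) : (cen g h l).IsHomogeneous e := by
  rcases l with l | l
  · exact hg l
  · exact hh l

private theorem G6g_hom {e : ℕ} (he : 0 < e) {f : β → κ → MvPolynomial ι K}
    (hf : ∀ b j, (f b j).IsHomogeneous e) (a b c i : β) (z : Ix ι (κ ⊕ κ) (κ ⊕ κ)) :
    (bf e f (a, b, c) i z).IsHomogeneous e := by
  unfold bf
  split_ifs
  · exact eqp_hom (cen_hom (hf a) (hf b)) z
  · exact eqs_hom he _ z
  · exact eqs_hom he _ z
  · exact eqp_hom (cen_hom (hf i) (hf i)) z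

/-- The blow-up of the intersection of two divisors of a transversal list is smooth, and the divisors on
it are transversal. -/
theorem blow_snc [CharZero K] {J : Ideal (MvPolynomial ι K)} {n e : ℕ}
    {f : β → κ → MvPolynomial ι K} (hJ : Smooth J n) (hf : Snc J e f) {a b c : β} (hab : a ≠ b)
    (hac : a ≠ c) (hbc : b ≠ c) :
    Smooth (bJ J (cen (f a) (f b))) n ∧ Snc (bJ J (cen (f a) (f b))) e (bf e f (a, b, c)) := by
  have hw := cen_hom (hf.homog a) (hf.homog b)
  refine snc_of_bound (bJ_prime hJ.prime _) (bJ_homog hJ.homog hw) hf.pos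
    (G6g_hom hf.pos hf.homog a b c) ?_ ?_
  · intro L _ _ p hp
    obtain ⟨i₁, l₁, W, s, h⟩ := exists_BC hJ hf hab hp
    obtain ⟨j, hj⟩ := hf.exists_notMem h.hx a
    exact bJ_lower hJ hw ⟨Sum.inl j, hj⟩ hp
  · intro L _ _ p hp
    obtain ⟨i₁, l₁, W, s, h⟩ := exists_BC hJ hf hab hp
    refine ⟨bs a b c i₁ l₁ s, h.LG hac hbc, ?_⟩
    by_cases hc : c ∈ thr (bf e f (a, b, c)) p
    · exact BC.bound2 hJ h hac hbc hc
    · exact BC.bound1 hJ h hac hbc hc

end

end Pool.Agent.Lib.MP_17a322_nt.EQ
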