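import Pool.Agent.Lib.MP_17a322_nt.EQ.G6g
import Pool.Agent.Lib.MP_17a322_nt.EQ.P1b

/-!
Vojta's conjecture and its case `D = 0`: points of the blow-up.
-/

set_option linter.unusedSectionVars false

universe u

namespace Pool.Agent.Lib.MP_17a322_nt.EQ

open MvPolynomial Height NumberField

section

variable {K : Type u} [Field K] [NumberField K] {ι κ β : Type} [Fintype ι] [Fintype κ] [Fintype β]
  [DecidableEq β] {J : Ideal (MvPolynomial ι K)} {e : ℕ} {f : β → κ → MvPolynomial ι K} {a b c : β}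

/-- The image in the blow-up of the point `q`. -/
noncomputable def bq (f : β → κ → MvPolynomial ι K) (a b : β) (q : ι → K) : ι × (κ ⊕ κ) → K :=
  sg q fun l => eval q (cen (f a) (f b) l)

private theorem G8_aeval {σ : Type} (p : σ → K) (g : MvPolynomial σ K) :
    aeval p g = eval p g := by
  rw [aeval_eq_eval]

/-- The value of `g (Y (., l))` at the image. -/
theorem G8_sub {Λ : Type} [Fintype Λ] (q : ι → K) (t : Λ → K) {g : MvPolynomial ι K} {d : ℕ}
    (hg : g.IsHomogeneous d) (l : Λ) : eval (sg q t) (sub g l) = t l ^ d * eval q g := by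
  rw [← G8_aeval, aeval_sub']
  have h1 : (fun i => sg q t (i, l)) = fun i => t l * q i := by
    funext i
    exact mul_comm _ _
  rw [h1, aeval_mul hg, G8_aeval]

/-- The image of a point is a point of the blow-up. -/
theorem bq_IsPt {q : ι → K} (hq : IsPt J q) (ho : Off f q) :
    IsPt (bJ J (cen (f a) (f b))) (bq f a b q) := by
  obtain ⟨j, hj⟩ := ho a
  have h1 : bq f a b q = sg q fun l => aeval q (cen (f a) (f b) l) := by
    simp only [bq, G8_aeval]
  rw [h1]
  exact bJ_IsPt hq ⟨Sum.inl j, by rw [G8_aeval]; exact hj⟩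

/-- The image lies on none of the divisors. -/
theorem bq_off (he : 0 < e) (hfh : ∀ b j, (f b j).IsHomogeneous e) {q : ι → K} (hq : q ≠ 0)
    (ho : Off f q) : Off (bf e f (a, b, c)) (bq f a b q) := by
  obtain ⟨i₀, hi₀⟩ := Function.ne_iff.1 hq
  obtain ⟨j, hj⟩ := ho a
  obtain ⟨j', hj'⟩ := ho b
  intro i
  unfold bf
  split_ifs with h1 h2 h3
  · refine ⟨Sum.inl (Sum.inl j, Sum.inl j), ?_⟩
    change eval (sg q fun l => eval q (cen (f a) (f b) l)) (sub (f a j) (Sum.inl j)) ≠ 0
    rw [G8_sub _ _ (hfh a j)]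
    exact mul_ne_zero (pow_ne_zero _ hj) hj
  · refine ⟨Sum.inr ((i₀, Sum.inl j), (i₀, Sum.inl j)), ?_⟩
    change eval (sg q fun l => eval q (cen (f a) (f b) l))
      (if (Sum.inl j : κ ⊕ κ).isLeft = true then X (i₀, Sum.inl j) * X (i₀, Sum.inl j) ^ (e - 1)
        else 0) ≠ 0
    rw [if_pos (by rfl), map_mul, map_pow, eval_X]
    exact mul_ne_zero (mul_ne_zero hi₀ hj) (pow_ne_zero _ (mul_ne_zero hi₀ hj))
  · refine ⟨Sum.inr ((i₀, Sum.inr j'), (i₀, Sum.inr j')), ?_⟩
    change eval (sg q fun l => eval q (cen (f a) (f b) l))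
      (if (Sum.inr j' : κ ⊕ κ).isRight = true then
        X (i₀, Sum.inr j') * X (i₀, Sum.inr j') ^ (e - 1) else 0) ≠ 0
    rw [if_pos (by rfl), map_mul, map_pow, eval_X]
    exact mul_ne_zero (mul_ne_zero hi₀ hj') (pow_ne_zero _ (mul_ne_zero hi₀ hj'))
  · obtain ⟨k, hk⟩ := ho i
    refine ⟨Sum.inl (Sum.inl k, Sum.inl j), ?_⟩
    change eval (sg q fun l => eval q (cen (f a) (f b) l)) (sub (f i k) (Sum.inl j)) ≠ 0
    rw [G8_sub _ _ (hfh i k)]
    exact mul_ne_zero (pow_ne_zero _ hj) hk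

/-- The height of the image. -/
theorem bq_height_eq {q : ι → K} (hq : q ≠ 0) (ho : Off f q) :
    logHeight (bq f a b q) = logHeight q + logHeight fun l => eval q (cen (f a) (f b) l) := by
  obtain ⟨j, hj⟩ := ho a
  have hw : (fun l => eval q (cen (f a) (f b) l)) ≠ 0 := by
    intro h
    exact hj (congrFun h (Sum.inl j))
  exact logHeight_fun_mul_eq hq hw

/-- A bound for the height of the image. -/
theorem bq_height (hfh : ∀ b j, (f b j).IsHomogeneous e) : ∃ C : ℝ, ∀ q : ι → K, q ≠ 0 →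
    Off f q → logHeight (bq f a b q) ≤ (e + 1) * logHeight q + C := by
  have hh : ∀ l, (cen (f a) (f b) l).IsHomogeneous e := by
    rintro (j | j)
    · exact hfh a j
    · exact hfh b j
  obtain ⟨C, hC⟩ := logHeight_eval_le' hh
  refine ⟨C, fun q hq ho => ?_⟩
  rw [bq_height_eq hq ho]
  have h1 := hC q
  linarith

end

end Pool.Agent.Lib.MP_17a322_nt.EQ
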