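import Pool.Agent.Lib.MP_17a322_nt.EQ.G9

/-!
Vojta's conjecture and its case `D = 0`: exceptional sets on the product with the line.
-/

set_option linter.unusedSectionVars false

universe u

namespace Pool.Agent.Lib.MP_17a322_nt.EQ

open MvPolynomial Height NumberField

section

variable {K : Type u} [Field K] [NumberField K] {ι κ β : Type} [Fintype ι] [Fintype κ] [Fintype β]
  {J : Ideal (MvPolynomial ι K)} {e : ℕ} {f : β → κ → MvPolynomial ι K}

/-- The exponent of the first coordinate of the line. -/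
private noncomputable def G9b_a (s : (ι × Bool) →₀ ℕ) : ℕ := ∑ i, s (i, false)

/-- The coefficients of `G'` as a polynomial in the coordinate of the line. -/
private noncomputable def G9b_g (G' : MvPolynomial (ι × Bool) K) (k : ℕ) : MvPolynomial ι K :=
  ∑ s ∈ G'.support.filter (fun s => G9b_a s = k), C (coeff s G') * ∏ z : ι × Bool, X z.1 ^ s z

private theorem G9b_deg {G' : MvPolynomial (ι × Bool) K} {d : ℕ} (hd : G'.IsHomogeneous d)
    {s : (ι × Bool) →₀ ℕ} (hs : s ∈ G'.support) : ∑ z, s z = d := by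
  have h2 := hd (mem_support_iff.mp hs)
  rwa [Finsupp.weight_apply, Finsupp.sum_fintype _ _ (fun i => by rw [zero_smul]),
    Finset.sum_congr rfl fun i _ => (by rw [Pi.one_apply, smul_eq_mul, mul_one])] at h2

private theorem G9b_sum (s : (ι × Bool) →₀ ℕ) : ∑ z, s z = (∑ i, s (i, true)) + G9b_a s := by
  rw [Fintype.sum_prod_type, G9b_a, ← Finset.sum_add_distrib]
  exact Finset.sum_congr rfl fun i _ => Fintype.sum_bool _

private theorem G9b_hom {G' : MvPolynomial (ι × Bool) K} {d : ℕ} (hd : G'.IsHomogeneous d) (k : ℕ) :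
    (G9b_g G' k).IsHomogeneous d := by
  unfold G9b_g
  refine IsHomogeneous.sum _ _ _ fun s hs => ?_
  have h1 := G9b_deg hd (Finset.mem_filter.1 hs).1
  have h2 : (∏ z : ι × Bool, (X z.1 : MvPolynomial ι K) ^ s z).IsHomogeneous (∑ z, s z) := by
    have h3 := IsHomogeneous.prod (Finset.univ : Finset (ι × Bool)) (fun z => (X z.1 : MvPolynomial ι K) ^ s z)
      (fun z => 1 * s z) fun z _ => (isHomogeneous_X K z.1).pow (s z)
    simpa only [one_mul] using h3
  have h4 := (isHomogeneous_C ι (coeff s G')).mul h2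
  rwa [zero_add, h1] at h4

private theorem G9b_eval {G' : MvPolynomial (ι × Bool) K} {d : ℕ} (hd : G'.IsHomogeneous d)
    {A : Type u} [CommRing A] [Algebra K A] (x : ι → A) (w : Bool → A) :
    aeval (fun z : ι × Bool => x z.1 * w z.2) G' =
      ∑ k ∈ Finset.range (d + 1), aeval x (G9b_g G' k) * (w false ^ k * w true ^ (d - k)) := by
  have h1 : ∀ s ∈ G'.support, G9b_a s ∈ Finset.range (d + 1) := by
    intro s hs
    have h2 := G9b_deg hd hs
    rw [G9b_sum] at h2
    rw [Finset.mem_range]
    omega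
  have h3 : ∀ s ∈ G'.support, ∏ z : ι × Bool, (x z.1 * w z.2) ^ s z =
      (∏ z : ι × Bool, x z.1 ^ s z) * (w false ^ G9b_a s * w true ^ (d - G9b_a s)) := by
    intro s hs
    have h2 := G9b_deg hd hs
    rw [G9b_sum] at h2
    have h4 : d - G9b_a s = ∑ i, s (i, true) := by omega
    rw [h4, Finset.prod_congr rfl fun z _ => mul_pow (x z.1) (w z.2) (s z), Finset.prod_mul_distrib]
    congr 1
    rw [Fintype.prod_prod_type, G9b_a, ← Finset.prod_pow_eq_pow_sum, ← Finset.prod_pow_eq_pow_sum, ← Finset.prod_mul_distrib]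
    refine Finset.prod_congr rfl fun i _ => ?_
    rw [Fintype.prod_bool, mul_comm]
  rw [aeval_def, eval₂_eq']
  have h5 : ∀ k, aeval x (G9b_g G' k) * (w false ^ k * w true ^ (d - k)) =
      ∑ s ∈ G'.support.filter (fun s => G9b_a s = k), algebraMap K A (coeff s G') *
        ∏ z : ι × Bool, (x z.1 * w z.2) ^ s z := by
    intro k
    unfold G9b_g
    rw [map_sum, Finset.sum_mul]
    refine Finset.sum_congr rfl fun s hs => ?_
    obtain ⟨hs1, hs2⟩ := Finset.mem_filter.1 hs
    rw [h3 s hs1, hs2, map_mul, map_prod, aeval_C]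
    simp only [map_pow, aeval_X]
    ring
  rw [Finset.sum_congr rfl fun k _ => h5 k]
  exact (Finset.sum_fiberwise_of_maps_to h1 _).symm

/-- Exceptional sets on the product. -/
theorem pq_exc {G' : MvPolynomial (ι × Bool) K} (hG : G' ∉ pJ J) (hd : ∃ d, G'.IsHomogeneous d) :
    ∃ (G : MvPolynomial ι K) (D : ℕ), G ∉ J ∧ (∃ d, G.IsHomogeneous d) ∧
      ∀ q : ι → K, IsPt J q → eval q G ≠ 0 → ∀ t : K, t ≠ 0 → ∃ j : ℕ, 1 ≤ j ∧ j ≤ D ∧
        eval (sg q (tv ((j : K) * t))) G' ≠ 0 := by
  obtain ⟨d, hd⟩ := hd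
  have h1 : ∃ k, G9b_g G' k ∉ J := by
    by_contra h
    push Not at h
    apply hG
    change aeval (R := K) (fun z : ι × Bool => (C (gen J z.1) : MvPolynomial Bool (MvPolynomial ι K ⧸ J)) * X z.2) G' = 0
    rw [G9b_eval hd (fun i => (C (gen J i) : MvPolynomial Bool (MvPolynomial ι K ⧸ J))) X]
    refine Finset.sum_eq_zero fun k _ => ?_
    have h2 : aeval (fun i => (C (gen J i) : MvPolynomial Bool (MvPolynomial ι K ⧸ J))) (G9b_g G' k) = 0 := by
      have h3 : aeval (fun i => (C (gen J i) : MvPolynomial Bool (MvPolynomial ι K ⧸ J))) (G9b_g G' k) =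
          (IsScalarTower.toAlgHom K (MvPolynomial ι K ⧸ J) (MvPolynomial Bool (MvPolynomial ι K ⧸ J)))
            (aeval (gen J) (G9b_g G' k)) := by
        rw [MvPolynomial.comp_aeval_apply]
        rfl
      rw [h3, gen_zero _ (h k), map_zero]
    rw [h2, zero_mul]
  obtain ⟨k, hk⟩ := h1
  refine ⟨G9b_g G' k, d + 1, hk, ⟨d, G9b_hom hd k⟩, fun q hq hqk t ht => ?_⟩
  by_contra hcon
  push Not at hcon
  -- the polynomial in the coordinate of the line
  set P : Polynomial K := ∑ k ∈ Finset.range (d + 1), Polynomial.C (eval q (G9b_g G' k)) * Polynomial.X ^ k with hP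
  have hPe : ∀ u : K, P.eval u = eval (sg q (tv u)) G' := by
    intro u
    have h2 := G9b_eval hd (A := K) q (tv u)
    rw [hP, Polynomial.eval_finsetSum]
    have h3 : eval (sg q (tv u)) G' = aeval (fun z : ι × Bool => q z.1 * tv u z.2) G' := rfl
    rw [h3, h2]
    refine Finset.sum_congr rfl fun k _ => ?_
    rw [Polynomial.eval_mul, Polynomial.eval_C, Polynomial.eval_pow, Polynomial.eval_X]
    have h4 : tv u false = u := rfl
    have h5 : tv u true = 1 := rfl
    rw [h4, h5, one_pow, mul_one]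
    rfl
  have hPd : P.natDegree ≤ d := by
    rw [hP]
    refine Polynomial.natDegree_sum_le_of_forall_le _ _ fun k hk => ?_
    exact (Polynomial.natDegree_C_mul_X_pow_le _ _).trans (Nat.lt_succ_iff.1 (Finset.mem_range.1 hk))
  have hinj : Function.Injective fun j : ℕ => (j : K) * t := by
    intro i j hij
    have h2 : (i : K) = j := mul_right_cancel₀ ht hij
    exact_mod_cast h2
  have hP0 : P = 0 := by
    classical
    refine Polynomial.eq_zero_of_natDegree_lt_card_of_eval_eq_zero' P
      ((Finset.Icc 1 (d + 1)).image fun j : ℕ => (j : K) * t) ?_ ?_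
    · intro u hu
      obtain ⟨j, hj, rfl⟩ := Finset.mem_image.1 hu
      rw [hPe]
      exact hcon j (Finset.mem_Icc.1 hj).1 (Finset.mem_Icc.1 hj).2
    · rw [Finset.card_image_of_injective _ hinj, Nat.card_Icc]
      omega
  have hkd : k ∈ Finset.range (d + 1) := by
    by_contra h
    apply hk
    have h2 : G9b_g G' k = 0 := by
      unfold G9b_g
      rw [Finset.sum_eq_zero]
      intro s hs
      exfalso
      apply h
      obtain ⟨hs1, hs2⟩ := Finset.mem_filter.1 hs
      have h3 := G9b_deg hd hs1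
      rw [G9b_sum] at h3
      rw [Finset.mem_range]
      omega
    rw [h2]
    exact J.zero_mem
  apply hqk
  have h2 : P.coeff k = eval q (G9b_g G' k) := by
    rw [hP, Polynomial.finsetSum_coeff, Finset.sum_eq_single k]
    · rw [Polynomial.coeff_C_mul_X_pow, if_pos rfl]
    · intro m _ hm
      rw [Polynomial.coeff_C_mul_X_pow, if_neg (Ne.symm hm)]
    · intro h3
      exact absurd hkd h3
  rw [← h2, hP0, Polynomial.coeff_zero]

end

end Pool.Agent.Lib.MP_17a322_nt.EQ
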