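import Pool.Agent.Lib.MP_17a322_nt.EQ.D2
import Pool.Agent.Lib.MP_17a322_nt.EQ.D3d
import Pool.Agent.Lib.MP_17a322_nt.EQ.G8
import Pool.Agent.Lib.MP_17a322_nt.EQ.H1

/-!
Vojta's conjecture and its case `D = 0`: the height of a frame on the blow-up.
-/

set_option linter.unusedSectionVars false

universe u

namespace Pool.Agent.Lib.MP_17a322_nt.EQ

open MvPolynomial Height NumberField

section

variable {K : Type u} [Field K] [NumberField K] {ι κ β : Type} [Fintype ι] [Fintype κ] [Fintype β]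
  [DecidableEq β]

theorem H3a_sup {α β' γ : Type} [Finite α] [Finite β'] [Finite γ] [Nonempty α] [Nonempty β']
    [Nonempty γ] (A : α → ℝ) (B : β' → ℝ) (C : γ → ℝ) (hA : ∀ a, 0 ≤ A a) (hB : ∀ b, 0 ≤ B b)
    (hC : ∀ c, 0 ≤ C c) (n e : ℕ) :
    (⨆ x : α × β' × γ, A x.1 * B x.2.1 ^ n * C x.2.2 ^ e) =
      (⨆ a, A a) * (⨆ b, B b) ^ n * (⨆ c, C c) ^ e := by
  obtain ⟨a, ha⟩ := exists_eq_ciSup_of_finite (f := A)
  obtain ⟨b, hb⟩ := exists_eq_ciSup_of_finite (f := B)
  obtain ⟨c, hc⟩ := exists_eq_ciSup_of_finite (f := C)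
  apply le_antisymm
  · apply ciSup_le
    rintro ⟨x, y, z⟩
    have h1 : A x ≤ ⨆ a, A a := le_ciSup (Set.finite_range A).bddAbove x
    have h2 : B y ≤ ⨆ b, B b := le_ciSup (Set.finite_range B).bddAbove y
    have h3 : C z ≤ ⨆ c, C c := le_ciSup (Set.finite_range C).bddAbove z
    refine mul_le_mul (mul_le_mul h1 (pow_le_pow_left₀ (hB y) h2 n) (pow_nonneg (hB y) _)
      ((hA x).trans h1)) (pow_le_pow_left₀ (hC z) h3 e) (pow_nonneg (hC z) _)
      (mul_nonneg ((hA x).trans h1) (pow_nonneg ((hB y).trans h2) _))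
  · rw [← ha, ← hb, ← hc]
    exact le_ciSup (f := fun x : α × β' × γ => A x.1 * B x.2.1 ^ n * C x.2.2 ^ e)
      (Set.finite_range _).bddAbove (a, b, c)

theorem H3a_height {α β' γ : Type} [Finite α] [Finite β'] [Finite γ] {A : α → K} {B : β' → K}
    {C : γ → K} (hA : A ≠ 0) (hB : B ≠ 0) (hC : C ≠ 0) (n e : ℕ) :
    logHeight (fun x : α × β' × γ => A x.1 * B x.2.1 ^ n * C x.2.2 ^ e) =
      logHeight A + n * logHeight B + e * logHeight C := by
  obtain ⟨a, ha⟩ := Function.ne_iff.1 hA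
  obtain ⟨b, hb⟩ := Function.ne_iff.1 hB
  obtain ⟨c, hc⟩ := Function.ne_iff.1 hC
  have : Nonempty α := ⟨a⟩
  have : Nonempty β' := ⟨b⟩
  have : Nonempty γ := ⟨c⟩
  have hne : (fun x : α × β' × γ => A x.1 * B x.2.1 ^ n * C x.2.2 ^ e) ≠ 0 := by
    intro h
    have h1 := congrFun h (a, b, c)
    exact (mul_ne_zero (mul_ne_zero ha (pow_ne_zero n hb)) (pow_ne_zero e hc)) h1
  have h1 : FS fun v : Pl K => Real.log (⨆ i, av v (A i)) := FS_log A
  have h2 : FS fun v : Pl K => (n : ℝ) * Real.log (⨆ i, av v (B i)) :=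
    (FS_log B).mul_left fun _ => (n : ℝ)
  have h3 : FS fun v : Pl K => (e : ℝ) * Real.log (⨆ i, av v (C i)) :=
    (FS_log C).mul_left fun _ => (e : ℝ)
  rw [← psum_log hne]
  have h4 : (fun v : Pl K => Real.log (⨆ i : α × β' × γ,
      av v (A i.1 * B i.2.1 ^ n * C i.2.2 ^ e))) = fun v : Pl K =>
      (Real.log (⨆ i, av v (A i)) + (n : ℝ) * Real.log (⨆ i, av v (B i))) +
        (e : ℝ) * Real.log (⨆ i, av v (C i)) := by
    funext v
    have h5 : (⨆ i : α × β' × γ, av v (A i.1 * B i.2.1 ^ n * C i.2.2 ^ e)) =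
        (⨆ i, av v (A i)) * (⨆ i, av v (B i)) ^ n * (⨆ i, av v (C i)) ^ e := by
      rw [← H3a_sup _ _ _ (fun i => (av v).nonneg _) (fun i => (av v).nonneg _)
        (fun i => (av v).nonneg _)]
      simp only [map_mul, map_pow]
    have hA0 := (av_iSup_pos hA v).ne'
    have hB0 := (av_iSup_pos hB v).ne'
    have hC0 := (av_iSup_pos hC v).ne'
    rw [h5, Real.log_mul (mul_ne_zero hA0 (pow_ne_zero _ hB0)) (pow_ne_zero _ hC0),
      Real.log_mul hA0 (pow_ne_zero _ hB0), Real.log_pow, Real.log_pow]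
  rw [h4, psum_add (h1.add h2) h3, psum_add h1 h2, psum_mul, psum_mul, psum_log hA, psum_log hB,
    psum_log hC]

theorem H3a_det {L : Type u} [Field L] {r : ℕ} {y : Fin r → ι → L} {I : Fin r → ι}
    (h : (Matrix.of fun a t => y a (I t)).det ≠ 0) : LinearIndependent L y := by
  have h1 := Matrix.linearIndependent_rows_of_det_ne_zero h
  have h2 : LinearIndependent L ((LinearMap.funLeft L L I) ∘ y) := h1
  exact h2.of_comp _

/-- The height of a frame of tangent vectors on the blow-up. -/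
theorem frame_height {J : Ideal (MvPolynomial ι K)} {n e : ℕ} {f : β → κ → MvPolynomial ι K}
    (hJ : Smooth J n) (hf : Snc J e f) {a b : β} (hab : a ≠ b) {d : ℕ}
    {y : Fin (n + 1) → ι → MvPolynomial ι K} (hyh : ∀ k i, (y k i).IsHomogeneous d)
    (hyt : ∀ (L : Type u) [Field L] [Algebra K L] (p : ι → L), IsPt J p → ∀ k,
      (fun i => aeval p (y k i)) ∈ Tan J p) :
    ∃ C : ℝ, ∀ q : ι → K, IsPt J q → Off f q → LinearIndependent K (fun k i => eval q (y k i)) →
      logHeight (fun s : Fin (n + 1) → ι => (Matrix.of fun r t => eval q (y r (s t))).det) +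
        n * logHeight (fun l => eval q (cen (f a) (f b) l)) + e * logHeight q ≤
      logHeight (fun s : Fin (n + 1) → ι × (κ ⊕ κ) => (Matrix.of fun r t =>
        Ph (cen (f a) (f b)) q (fun i => eval q (y r i)) (s t)).det) + C := by
  classical
  have hprime := hJ.prime
  set w := cen (f a) (f b) with hw
  let Φ : Fin (n + 1) → ι × (κ ⊕ κ) → MvPolynomial ι K := fun r z =>
    y r z.1 * w z.2 + X z.1 * ∑ m, pderiv m (w z.2) * y r m
  let P : (Fin (n + 1) → ι) × (κ ⊕ κ) × ι → MvPolynomial ι K := fun z =>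
    (Matrix.of fun r t => y r (z.1 t)).det * w z.2.1 ^ n * X z.2.2 ^ e
  let Q : (Fin (n + 1) → ι × (κ ⊕ κ)) → MvPolynomial ι K := fun s =>
    (Matrix.of fun r t => Φ r (s t)).det
  have hPval : ∀ (L : Type u) [Field L] [Algebra K L] (p : ι → L)
      (z : (Fin (n + 1) → ι) × (κ ⊕ κ) × ι),
      aeval p (P z) = (Matrix.of fun r t => aeval p (y r (z.1 t))).det *
        aeval p (w z.2.1) ^ n * p z.2.2 ^ e := by
    intro L _ _ p z
    simp only [P, map_mul, map_pow, aeval_X]
    rw [AlgHom.map_det]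
    rfl
  have hΦval : ∀ (L : Type u) [Field L] [Algebra K L] (p : ι → L) (r : Fin (n + 1))
      (z : ι × (κ ⊕ κ)), aeval p (Φ r z) = Ph w p (fun i => aeval p (y r i)) z := by
    intro L _ _ p r z
    simp only [Φ, map_add, map_mul, aeval_X, map_sum, Ph, dif_apply]
  have hQval : ∀ (L : Type u) [Field L] [Algebra K L] (p : ι → L)
      (s : Fin (n + 1) → ι × (κ ⊕ κ)),
      aeval p (Q s) = (Matrix.of fun r t => Ph w p (fun i => aeval p (y r i)) (s t)).det := by
    intro L _ _ p s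
    simp only [Q]
    rw [AlgHom.map_det]
    congr 1
    ext r t
    exact hΦval L p r (s t)
  have hchar : CharZero K := inferInstance
  obtain ⟨C, hC⟩ := transfer_ht (J := J) (P := P) (Q := Q) (by
    intro O hO z
    by_cases h0 : aeval (xi J) (P z) = 0
    · refine ⟨fun t => (z.1 t, z.2.1), ?_⟩
      rw [h0, map_zero]
      exact zero_le
    · rw [hPval] at h0
      have h1 := left_ne_zero_of_mul (left_ne_zero_of_mul h0)
      have h2 := right_ne_zero_of_mul h0
      have h3 : xi J z.2.2 ≠ 0 := by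
        intro h
        apply h2
        rw [h, zero_pow hf.pos.ne']
      have hxi : IsPt J (xi J) := by
        refine ⟨fun h => h3 (congrFun h _), fun F hF => ?_⟩
        exact (aeval_xi F).2 hF
      have hwl : ∃ l, aeval (xi J) (w l) ≠ 0 := by
        obtain ⟨j, hj⟩ := hf.exists_notMem hxi a
        refine ⟨Sum.inl j, fun h => hj ?_⟩
        exact (aeval_xi _).1 h
      obtain ⟨I', hI'⟩ := val_claim O hO hJ hf hab hxi hwl
        (y := fun r i => aeval (xi J) (y r i)) (fun k => hyt _ _ hxi k) (H3a_det h1) z.1 z.2.1 z.2.2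
      refine ⟨I', ?_⟩
      rw [hPval, hQval]
      exact hI')
  refine ⟨C, fun q hq ho hi => ?_⟩
  have hev : ∀ F : MvPolynomial ι K, aeval q F = eval q F := fun F => by
    rw [MvPolynomial.aeval_eq_eval]
  have hw0 : (fun l => eval q (w l)) ≠ 0 := by
    obtain ⟨j, hj⟩ := ho a
    intro h
    exact hj (congrFun h (Sum.inl j))
  have hwh : ∀ l, (w l).IsHomogeneous e := by
    rintro (l | l)
    · exact hf.homog a l
    · exact hf.homog b l
  have hPh : LinearIndependent K fun r => Ph w q (fun i => eval q (y r i)) := by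
    have h1 : LinearMap.ker (PhL w q) = ⊥ := by
      rw [LinearMap.ker_eq_bot']
      intro m hm
      refine Ph_inj hwh hq.1 ?_ hm
      obtain ⟨l, hl⟩ := Function.ne_iff.1 hw0
      exact ⟨l, by rw [hev]; exact hl⟩
    exact hi.map' (PhL w q) h1
  have hQ0 := minors_ne hPh
  have h1 := hC q (fun F hF => by rw [← hev]; exact hq.2 F hF) (by
    obtain ⟨s, hs⟩ := Function.ne_iff.1 hQ0
    refine ⟨s, ?_⟩
    rw [← hev, hQval]
    simp only [hev]
    exact hs)
  have h2 : (fun j => eval q (Q j)) = fun s : Fin (n + 1) → ι × (κ ⊕ κ) =>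
      (Matrix.of fun r t => Ph w q (fun i => eval q (y r i)) (s t)).det := by
    funext s
    rw [← hev, hQval]
    simp only [hev]
  have h3 : (fun z => eval q (P z)) = fun z : (Fin (n + 1) → ι) × (κ ⊕ κ) × ι =>
      (fun s : Fin (n + 1) → ι => (Matrix.of fun r t => eval q (y r (s t))).det) z.1 *
        (fun l => eval q (w l)) z.2.1 ^ n * q z.2.2 ^ e := by
    funext z
    rw [← hev, hPval]
    simp only [hev]
  rw [h2, h3, H3a_height (minors_ne hi) hw0 hq.1] at h1
  exact h1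

end

end Pool.Agent.Lib.MP_17a322_nt.EQ
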