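import Pool.Agent.Lib.MP_17a322_nt.EQ.E1
import Pool.Agent.Lib.MP_17a322_nt.EQ.E2

/-!
Vojta's conjecture and its case `D = 0`: the result of the geometric part.
-/

set_option linter.unusedSectionVars false

universe u

namespace Pool.Agent.Lib.MP_17a322_nt.EQ

open MvPolynomial Height NumberField

section

variable {K : Type u} [Field K] [NumberField K] {β : Type} [Fintype β] [DecidableEq β]
  {Q : ∀ ι : Type, Ideal (MvPolynomial ι K) → Prop} {n : ℕ}

/-- The effect of a list of blow-ups. -/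
theorem run_Phi (hQ : Cls Q) (F : Pl K → (β → ℝ) → ℝ) (hF : ∀ v, F v 0 = 0)
    (H : ∀ (ι κ : Type) [Fintype ι] [Fintype κ] (J : Ideal (MvPolynomial ι K)) (e : ℕ)
      (f : β → κ → MvPolynomial ι K), Q ι J → Smooth J n → Snc J e f → Phi J e f F)
    (l : List (β × β × β)) (hl : ∀ s ∈ l, s.1 ≠ s.2.1 ∧ s.1 ≠ s.2.2 ∧ s.2.1 ≠ s.2.2)
    (ι κ : Type) [Fintype ι] [Fintype κ] (J : Ideal (MvPolynomial ι K)) (e : ℕ)
    (f : β → κ → MvPolynomial ι K) (hJQ : Q ι J) (hJ : Smooth J n) (hf : Snc J e f) :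
    Phi J e f fun v x => F v (run l x) + gain l x := by
  induction l generalizing ι κ with
  | nil =>
    have h1 := H ι κ J e f hJQ hJ hf
    simpa only [run, gain, add_zero] using h1
  | cons s l ih =>
    obtain ⟨a, b, c⟩ := s
    obtain ⟨hab, hac, hbc⟩ := hl (a, b, c) (List.mem_cons_self ..)
    have h1 := blow_snc hJ hf hab hac hbc
    have h2 := ih (fun s hs => hl s (List.mem_cons_of_mem _ hs)) (ι × (κ ⊕ κ))
      (Ix ι (κ ⊕ κ) (κ ⊕ κ)) (bJ J (cen (f a) (f b))) (bf e f (a, b, c))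
      (hQ.blow ι (κ ⊕ κ) J _ e (cen_hom (hf.homog a) (hf.homog b)) hJQ) h1.1 h1.2
    have h3 := blow_Phi (F := fun v x => F v (run l x) + gain l x)
      (fun v => by rw [run_zero, gain_zero, hF, add_zero]) hJ hf hab hac hbc h2
    have h4 : (fun (v : Pl K) (x : β → ℝ) => F v (run ((a, b, c) :: l) x) +
        gain ((a, b, c) :: l) x) = fun v x =>
        F v (run l (stp (a, b, c) x)) + gain l (stp (a, b, c) x) + min (x a) (x b) := by
      funext v x
      rw [run, gain]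
      ring
    rw [h4]
    exact h3

/-- The product with the projective line. -/
theorem prod_Phi (hQ : Cls Q) (γ : Type) [Fintype γ] (F : Pl K → (β ⊕ Bool ⊕ γ → ℝ) → ℝ)
    (_hF : ∀ v, F v 0 = 0)
    (H : ∀ (ι κ : Type) [Fintype ι] [Fintype κ] (J : Ideal (MvPolynomial ι K)) (e : ℕ)
      (f : β ⊕ Bool ⊕ γ → κ → MvPolynomial ι K), Q ι J → Smooth J (n + 1) → Snc J e f →
        Phi J e f F)
    (ι κ : Type) [Fintype ι] [Fintype κ] (J : Ideal (MvPolynomial ι K)) (e : ℕ)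
    (f : β → κ → MvPolynomial ι K) (hJQ : Q ι J) (hJ : Smooth J n) (hf : Snc J e f) (ε : ℝ)
    (hε : 0 < ε) :
    ∃ (G : MvPolynomial ι K) (D : ℕ) (C : ℝ), G ∉ J ∧ (∃ d, G.IsHomogeneous d) ∧
      ∀ q : ι → K, IsPt J q → eval q G ≠ 0 → Off f q ∧ ∀ t : K, t ≠ 0 →
        ∃ j : ℕ, 1 ≤ j ∧ j ≤ D ∧
          hCan J q - 2 * logHeight₁ ((j : K) * t) +
            psum (fun v => F v (xh γ e f q ((j : K) * t) v)) ≤
          ε * (logHeight q + logHeight₁ ((j : K) * t)) + C := by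
  have h1 := prod_snc hJ hf γ
  exact prod_Phi1 γ hJ hf (H (ι × Bool) (Ix ι κ Bool) (pJ J) e (pf e f γ) (hQ.prod ι J hJQ)
    h1.1 h1.2) ε hε

end

end Pool.Agent.Lib.MP_17a322_nt.EQ
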