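import Pool.Agent.Lib.MP_17a322_nt.EQ.Int

/-!
The numerical recursion of the iterated blow-ups. The state is the family `x` of the local heights of a
point with respect to a list of divisors. A step `(a, b, c)` is the blow-up of the intersection of the
divisors `a` and `b`: the local height of the exceptional divisor is `min (x a) (x b)`, it is subtracted
from `x a` and `x b` (strict transforms), and the exceptional divisor gets the label `c`.
-/

set_option autoImplicit false

namespace Pool.Agent.Lib.MP_17a322_nt.EQ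

variable {β : Type} [DecidableEq β]

/-- The three labels of a step are different. -/
def StepOK (s : β × β × β) : Prop := s.1 ≠ s.2.1 ∧ s.1 ≠ s.2.2 ∧ s.2.1 ≠ s.2.2

@[simp] theorem run_nil (x : β → ℝ) : run [] x = x := rfl

@[simp] theorem run_cons (s : β × β × β) (l : List (β × β × β)) (x : β → ℝ) :
    run (s :: l) x = run l (stp s x) := rfl

@[simp] theorem gain_nil (x : β → ℝ) : gain [] x = 0 := rfl

@[simp] theorem gain_cons (s : β × β × β) (l : List (β × β × β)) (x : β → ℝ) :
    gain (s :: l) x = min (x s.1) (x s.2.1) + gain l (stp s x) := rfl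

theorem run_append (l l' : List (β × β × β)) (x : β → ℝ) :
    run (l ++ l') x = run l' (run l x) := by
  induction l generalizing x with
  | nil => rfl
  | cons s l ih => simpa using ih (stp s x)

theorem gain_append (l l' : List (β × β × β)) (x : β → ℝ) :
    gain (l ++ l') x = gain l x + gain l' (run l x) := by
  induction l generalizing x with
  | nil => simp
  | cons s l ih =>
    simp only [List.cons_append, gain_cons, run_cons]
    rw [ih (stp s x)]
    ring

theorem stp_fst {s : β × β × β} (hs : StepOK s) (x : β → ℝ) :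
    stp s x s.1 = x s.1 - min (x s.1) (x s.2.1) := by
  obtain ⟨h1, h2, h3⟩ := hs
  simp only [stp, if_neg h2, if_true]

theorem stp_snd {s : β × β × β} (hs : StepOK s) (x : β → ℝ) :
    stp s x s.2.1 = x s.2.1 - min (x s.1) (x s.2.1) := by
  obtain ⟨h1, h2, h3⟩ := hs
  simp only [stp, if_neg h3, if_neg h1.symm, if_true]

theorem stp_thd (s : β × β × β) (x : β → ℝ) :
    stp s x s.2.2 = min (x s.1) (x s.2.1) := by
  simp [stp]

theorem stp_other {s : β × β × β} {i : β} (h1 : i ≠ s.1) (h2 : i ≠ s.2.1) (h3 : i ≠ s.2.2)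
    (x : β → ℝ) : stp s x i = x i := by
  simp only [stp, if_neg h3, if_neg h1, if_neg h2]

theorem stp_nonneg {s : β × β × β} {x : β → ℝ} (hx : ∀ i, 0 ≤ x i) (i : β) :
    0 ≤ stp s x i := by
  have h0 : 0 ≤ min (x s.1) (x s.2.1) := le_min (hx _) (hx _)
  by_cases h3 : i = s.2.2
  · subst h3; rw [stp_thd]; exact h0
  by_cases h1 : i = s.1
  · subst h1
    simp only [stp, if_neg h3, if_true]
    have := min_le_left (x s.1) (x s.2.1)
    linarith
  by_cases h2 : i = s.2.1
  · subst h2
    simp only [stp, if_neg h3, if_neg h1, if_true]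
    have := min_le_right (x s.1) (x s.2.1)
    linarith
  · rw [stp_other h1 h2 h3]; exact hx i

theorem run_nonneg (l : List (β × β × β)) {x : β → ℝ} (hx : ∀ i, 0 ≤ x i) (i : β) :
    0 ≤ run l x i := by
  induction l generalizing x with
  | nil => exact hx i
  | cons s l ih => exact ih (fun j => stp_nonneg hx j)

/-- Labels which do not occur in the steps keep their value. -/
theorem run_other (l : List (β × β × β)) (x : β → ℝ) (i : β)
    (h : ∀ s ∈ l, i ≠ s.1 ∧ i ≠ s.2.1 ∧ i ≠ s.2.2) : run l x i = x i := by
  induction l generalizing x with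
  | nil => rfl
  | cons s l ih =>
    rw [run_cons, ih (stp s x) (fun s' hs' => h s' (List.mem_cons_of_mem _ hs'))]
    obtain ⟨h1, h2, h3⟩ := h s List.mem_cons_self
    exact stp_other h1 h2 h3 x

/-- One step is Lipschitz with constant 2. -/
theorem stp_lip (s : β × β × β) {x y : β → ℝ} {d : ℝ} (hd : ∀ i, |x i - y i| ≤ d) (i : β) :
    |stp s x i - stp s y i| ≤ 2 * d := by
  have hd0 : 0 ≤ d := (abs_nonneg _).trans (hd i)
  have hm : |min (x s.1) (x s.2.1) - min (y s.1) (y s.2.1)| ≤ d :=
    (abs_min_sub_min_le_max _ _ _ _).trans (max_le (hd _) (hd _))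
  by_cases h3 : i = s.2.2
  · subst h3; rw [stp_thd, stp_thd]; linarith
  by_cases h1 : i = s.1
  · subst h1
    simp only [stp, if_neg h3, if_true]
    have h := hd s.1
    rw [abs_le] at *
    constructor <;> linarith [h.1, h.2, hm.1, hm.2]
  by_cases h2 : i = s.2.1
  · subst h2
    simp only [stp, if_neg h3, if_neg h1, if_true]
    have h := hd s.2.1
    rw [abs_le] at *
    constructor <;> linarith [h.1, h.2, hm.1, hm.2]
  · rw [stp_other h1 h2 h3, stp_other h1 h2 h3]
    linarith [hd i]

theorem run_lip (l : List (β × β × β)) {x y : β → ℝ} {d : ℝ} (hd : ∀ i, |x i - y i| ≤ d) (i : β) :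
    |run l x i - run l y i| ≤ 2 ^ l.length * d := by
  induction l generalizing x y d with
  | nil => simpa using hd i
  | cons s l ih =>
    have := ih (x := stp s x) (y := stp s y) (d := 2 * d) (fun j => stp_lip s hd j)
    rw [List.length_cons, pow_succ]
    calc _ ≤ _ := this
      _ = _ := by ring

theorem gain_lip' (l : List (β × β × β)) {x y : β → ℝ} {d : ℝ}
    (hd : ∀ i, |x i - y i| ≤ d) :
    |gain l x - gain l y| ≤ (2 ^ l.length - 1) * d := by
  induction l generalizing x y d with
  | nil => simp
  | cons s l ih =>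
    have h1 := ih (x := stp s x) (y := stp s y) (d := 2 * d) (fun j => stp_lip s hd j)
    have h2 : |min (x s.1) (x s.2.1) - min (y s.1) (y s.2.1)| ≤ d :=
      (abs_min_sub_min_le_max _ _ _ _).trans (max_le (hd _) (hd _))
    rw [gain_cons, gain_cons, List.length_cons, pow_succ]
    rw [abs_le] at *
    constructor <;> nlinarith [h1.1, h1.2, h2.1, h2.2]

theorem gain_lip (l : List (β × β × β)) {x y : β → ℝ} {d : ℝ} (hd0 : 0 ≤ d)
    (hd : ∀ i, |x i - y i| ≤ d) :
    |gain l x - gain l y| ≤ 2 ^ l.length * d := by
  refine (gain_lip' l hd).trans ?_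
  nlinarith

end Pool.Agent.Lib.MP_17a322_nt.EQ
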