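import Pool.Agent.Lib.MP_17a322_nt.EQ.N1

/-!
The grid process: for the divisors `Ds` and the divisor `T` there is a list of steps with total gain
`∑ D, min (x D) (m * x T)` which leaves `x D - min (x D) (m * x T)` of each divisor `D`.
-/

set_option autoImplicit false

namespace Pool.Agent.Lib.MP_17a322_nt.EQ

variable {β : Type} [DecidableEq β]

/-- The chain of steps `(D, u_0, u_1), (D, u_1, u_2), ...`. -/
def chain (D : β) : List β → List (β × β × β)
  | [] => []
  | [_] => []
  | u :: v :: l => (D, u, v) :: chain D (v :: l)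

theorem chain_mem (D : β) (l : List β) (s : β × β × β) (hs : s ∈ chain D l) :
    s.1 = D ∧ s.2.1 ∈ l ∧ s.2.2 ∈ l := by
  induction l with
  | nil => simp [chain] at hs
  | cons u l ih =>
    cases l with
    | nil => simp [chain] at hs
    | cons v l =>
      simp only [chain, List.mem_cons] at hs
      rcases hs with rfl | hs
      · simp
      · obtain ⟨h1, h2, h3⟩ := ih hs
        exact ⟨h1, List.mem_cons_of_mem _ h2, List.mem_cons_of_mem _ h3⟩

theorem chain_ok (D : β) (l : List β) (hl : l.Nodup) (hD : D ∉ l) (s : β × β × β)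
    (hs : s ∈ chain D l) : StepOK s := by
  induction l with
  | nil => simp [chain] at hs
  | cons u l ih =>
    cases l with
    | nil => simp [chain] at hs
    | cons v l =>
      simp only [chain, List.mem_cons] at hs
      rcases hs with rfl | hs
      · simp only [List.mem_cons, not_or] at hD
        simp only [List.nodup_cons, List.mem_cons, not_or] at hl
        exact ⟨hD.1, hD.2.1, hl.1.1⟩
      · exact ih (List.nodup_cons.1 hl).2 (fun h => hD (List.mem_cons_of_mem _ h)) hs

/-- The chain `u_0, ..., u_m` with `x = 0` on `u_1, ..., u_m`. -/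
theorem chain_spec (D : β) (u : β) (l : List β) (hl : (u :: l).Nodup) (hD : D ∉ u :: l)
    (x : β → ℝ) (hx : ∀ i, 0 ≤ x i) (h0 : ∀ i ∈ l, x i = 0) :
    gain (chain D (u :: l)) x = min (x D) (l.length * x u) ∧
    run (chain D (u :: l)) x D = x D - min (x D) (l.length * x u) ∧
    ((u :: l).map (run (chain D (u :: l)) x)).sum = x u := by
  induction l generalizing u x with
  | nil =>
    refine ⟨?_, ?_, ?_⟩
    · simp [chain, hx D]
    · simp [chain, hx D]
    · simp [chain]
  | cons v l ih =>
    have hst : StepOK (D, u, v) := chain_ok D (u :: v :: l) hl hD _ (by simp [chain])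
    have hl' : (v :: l).Nodup := (List.nodup_cons.1 hl).2
    have huv : u ∉ v :: l := (List.nodup_cons.1 hl).1
    have hD' : D ∉ v :: l := fun h => hD (List.mem_cons_of_mem _ h)
    have hvl : v ∉ l := (List.nodup_cons.1 hl').1
    have hul : u ∉ l := fun h => huv (List.mem_cons_of_mem _ h)
    have hDl : D ∉ l := fun h => hD' (List.mem_cons_of_mem _ h)
    set x1 := stp (D, u, v) x with hx1
    have e1 : x1 D = x D - min (x D) (x u) := stp_fst hst x
    have e2 : x1 u = x u - min (x D) (x u) := stp_snd hst x
    have e3 : x1 v = min (x D) (x u) := stp_thd (D, u, v) x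
    have e4 : ∀ i ∈ l, x1 i = 0 := by
      intro i hi
      have n1 : i ≠ D := fun h => hDl (h ▸ hi)
      have n2 : i ≠ u := fun h => hul (h ▸ hi)
      have n3 : i ≠ v := fun h => hvl (h ▸ hi)
      rw [hx1, stp_other (s := (D, u, v)) n1 n2 n3]
      exact h0 i (List.mem_cons_of_mem _ hi)
    obtain ⟨i1, i2, i3⟩ := ih v hl' hD' x1 (fun i => stp_nonneg hx i) e4
    have hch : chain D (u :: v :: l) = (D, u, v) :: chain D (v :: l) := rfl
    have key : min (x D) (x u) + min (x D - min (x D) (x u)) (l.length * min (x D) (x u))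
        = min (x D) (((v :: l).length : ℕ) * x u) := by
      have hu := hx u
      have hxD := hx D
      have hn : (0 : ℝ) ≤ l.length := Nat.cast_nonneg _
      have hc : (((v :: l).length : ℕ) : ℝ) = l.length + 1 := by simp
      rw [hc]
      rcases le_total (x D) (x u) with h | h
      · rw [min_eq_left h, sub_self, min_eq_left (by positivity), add_zero, min_eq_left]
        nlinarith
      · rw [min_eq_right h, ← min_add_add_left]
        congr 1 <;> ring
    refine ⟨?_, ?_, ?_⟩
    · rw [hch, gain_cons, ← hx1, i1, e1, e3, key]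
    · rw [hch, run_cons, ← hx1, i2, e1, e3, ← key]
      ring
    · rw [hch, run_cons, ← hx1]
      rw [List.map_cons, List.sum_cons, i3, run_other, e2, e3]
      · ring
      · intro s hs
        obtain ⟨h1, h2, h3⟩ := chain_mem D _ s hs
        refine ⟨fun h => ?_, fun h => huv (h ▸ h2), fun h => huv (h ▸ h3)⟩
        rw [h1] at h
        exact hD (h ▸ List.mem_cons_self)

/-- The steps of the divisor `D` for a list of blocks. -/
def stage (D : β) (B : List (List β)) : List (β × β × β) := B.flatMap (chain D)

theorem stage_ok (D : β) (B : List (List β)) (hB : B.flatten.Nodup) (hD : D ∉ B.flatten)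
    (s : β × β × β) (hs : s ∈ stage D B) : StepOK s ∧ s.1 = D ∧ s.2.1 ∈ B.flatten ∧
      s.2.2 ∈ B.flatten := by
  simp only [stage, List.mem_flatMap] at hs
  obtain ⟨l, hl, hs⟩ := hs
  have hln : l.Nodup := (List.nodup_flatten.1 hB).1 l hl
  have hDl : D ∉ l := fun h => hD (List.mem_flatten.2 ⟨l, hl, h⟩)
  obtain ⟨h1, h2, h3⟩ := chain_mem D l s hs
  exact ⟨chain_ok D l hln hDl s hs, h1, List.mem_flatten.2 ⟨l, hl, h2⟩,
    List.mem_flatten.2 ⟨l, hl, h3⟩⟩

/-- The blocks `u :: l` with `x = 0` on the lists `l`, all of length `m`. -/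
theorem stage_spec (m : ℕ) (D : β) (B : List (β × List β))
    (hB : (B.map (fun b => b.1 :: b.2)).flatten.Nodup)
    (hD : D ∉ (B.map (fun b => b.1 :: b.2)).flatten) (hm : ∀ b ∈ B, b.2.length = m)
    (x : β → ℝ) (hx : ∀ i, 0 ≤ x i) (h0 : ∀ b ∈ B, ∀ i ∈ b.2, x i = 0) :
    gain (stage D (B.map (fun b => b.1 :: b.2))) x
      = min (x D) (m * (B.map (fun b => x b.1)).sum) ∧
    run (stage D (B.map (fun b => b.1 :: b.2))) x D
      = x D - min (x D) (m * (B.map (fun b => x b.1)).sum) ∧
    ((B.map (fun b => b.1 :: b.2)).flatten.map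
      (run (stage D (B.map (fun b => b.1 :: b.2))) x)).sum = (B.map (fun b => x b.1)).sum := by
  induction B generalizing x with
  | nil => simp [stage, hx D]
  | cons b B ih =>
    rw [List.map_cons, List.flatten_cons] at hB hD
    have hb : (b.1 :: b.2).Nodup := (List.nodup_append.1 hB).1
    have hB' := (List.nodup_append.1 hB).2.1
    have hdis := (List.nodup_append.1 hB).2.2
    have hDb : D ∉ b.1 :: b.2 := fun h => hD (List.mem_append_left _ h)
    have hDB : D ∉ (B.map (fun b => b.1 :: b.2)).flatten := fun h => hD (List.mem_append_right _ h)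
    obtain ⟨c1, c2, c3⟩ := chain_spec D b.1 b.2 hb hDb x hx (h0 b List.mem_cons_self)
    rw [hm b List.mem_cons_self] at c1 c2
    set x1 := run (chain D (b.1 :: b.2)) x with hx1
    have hx1n : ∀ i, 0 ≤ x1 i := run_nonneg _ hx
    have e1 : ∀ i ∈ (B.map (fun b => b.1 :: b.2)).flatten, x1 i = x i := by
      intro i hi
      refine run_other _ _ _ fun s hs => ?_
      obtain ⟨h1, h2, h3⟩ := chain_mem D _ s hs
      refine ⟨fun h => ?_, fun h => ?_, fun h => ?_⟩
      · rw [h, h1] at hi; exact hDB hi
      · exact hdis _ (h ▸ h2) _ hi rfl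
      · exact hdis _ (h ▸ h3) _ hi rfl
    have e2 : ∀ c ∈ B, x1 c.1 = x c.1 := fun c hc => e1 _ (List.mem_flatten.2
      ⟨c.1 :: c.2, List.mem_map.2 ⟨c, hc, rfl⟩, List.mem_cons_self⟩)
    have e3 : ∀ c ∈ B, ∀ i ∈ c.2, x1 i = 0 := fun c hc i hi => by
      rw [e1 i (List.mem_flatten.2 ⟨c.1 :: c.2, List.mem_map.2 ⟨c, hc, rfl⟩,
        List.mem_cons_of_mem _ hi⟩)]
      exact h0 c (List.mem_cons_of_mem _ hc) i hi
    obtain ⟨i1, i2, i3⟩ := ih hB' hDB (fun c hc => hm c (List.mem_cons_of_mem _ hc)) x1 hx1n e3
    have e4 : (B.map (fun b => x1 b.1)).sum = (B.map (fun b => x b.1)).sum := by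
      congr 1
      exact List.map_congr_left e2
    rw [e4] at i1 i2 i3
    have hst : stage D ((b :: B).map (fun b => b.1 :: b.2))
        = chain D (b.1 :: b.2) ++ stage D (B.map (fun b => b.1 :: b.2)) := by
      simp [stage]
    have hσ : 0 ≤ (B.map (fun b => x b.1)).sum := by
      refine List.sum_nonneg fun y hy => ?_
      obtain ⟨c, _, rfl⟩ := List.mem_map.1 hy
      exact hx _
    have key : min (x D) (m * x b.1) + min (x D - min (x D) (m * x b.1))
        (m * (B.map (fun b => x b.1)).sum)
        = min (x D) (m * ((b :: B).map (fun b => x b.1)).sum) := by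
      have hn : (0 : ℝ) ≤ m := Nat.cast_nonneg _
      rw [List.map_cons, List.sum_cons]
      have hu := hx b.1
      have hxD := hx D
      rcases le_total (x D) (m * x b.1) with h | h
      · rw [min_eq_left h, sub_self, min_eq_left (by positivity), add_zero, min_eq_left]
        nlinarith [mul_nonneg hn hσ]
      · rw [min_eq_right h, ← min_add_add_left]
        congr 1 <;> ring
    refine ⟨?_, ?_, ?_⟩
    · rw [hst, gain_append, c1, ← hx1, i1, c2, key]
    · rw [hst, run_append, ← hx1, i2, c2, ← key]
      ring
    · rw [hst, run_append, ← hx1, List.map_cons, List.flatten_cons, List.map_append,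
        List.sum_append, i3, List.map_cons (f := fun b : β × List β => x b.1), List.sum_cons]
      congr 1
      rw [← c3]
      congr 1
      refine List.map_congr_left fun i hi => ?_
      refine run_other _ _ _ fun s hs => ?_
      obtain ⟨_, h1, h2, h3⟩ := stage_ok D _ hB' hDB s hs
      refine ⟨fun h => ?_, fun h => ?_, fun h => ?_⟩
      · rw [h, h1] at hi; exact hDb hi
      · exact hdis _ hi _ h2 h
      · exact hdis _ hi _ h3 h

/-- A list of `n * m` fresh labels can be divided into `n` blocks of length `m`. -/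
theorem exists_blocks (m : ℕ) (U F : List β) (hF : U.length * m ≤ F.length) :
    ∃ (B : List (β × List β)) (F' : List β), B.map Prod.fst = U ∧ (∀ b ∈ B, b.2.length = m) ∧
      (B.map Prod.snd).flatten ++ F' = F ∧ F'.length + U.length * m = F.length := by
  induction U generalizing F with
  | nil => exact ⟨[], F, rfl, by simp, by simp, by simp⟩
  | cons u U ih =>
    have h1 : U.length * m ≤ (F.drop m).length := by
      rw [List.length_drop]
      rw [List.length_cons, Nat.add_mul, one_mul] at hF
      omega
    obtain ⟨B, F', b1, b2, b3, b4⟩ := ih (F.drop m) h1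
    have hm : m ≤ F.length := by
      rw [List.length_cons, Nat.add_mul, one_mul] at hF
      omega
    refine ⟨(u, F.take m) :: B, F', by simp [b1], ?_, ?_, ?_⟩
    · intro b hb
      rcases List.mem_cons.1 hb with rfl | hb
      · simp [hm]
      · exact b2 b hb
    · rw [List.map_cons, List.flatten_cons, List.append_assoc, b3, List.take_append_drop]
    · rw [List.length_drop] at b4
      rw [List.length_cons, Nat.add_mul, one_mul]
      omega

theorem blocks_perm (B : List (β × List β)) :
    ((B.map (fun b => b.1 :: b.2)).flatten).Perm (B.map Prod.fst ++ (B.map Prod.snd).flatten) := by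
  induction B with
  | nil => simp
  | cons b B ih =>
    rw [List.map_cons, List.flatten_cons, List.map_cons, List.map_cons, List.flatten_cons,
      List.cons_append, List.cons_append]
    refine List.Perm.cons _ ?_
    refine (List.Perm.append_left _ ih).trans ?_
    rw [← List.append_assoc, ← List.append_assoc]
    exact List.Perm.append_right _ List.perm_append_comm

/-- The grid process. -/
theorem exists_grid (m : ℕ) (Ds : List β) : ∀ (U F : List β), (Ds ++ (U ++ F)).Nodup →
    U.length * (m + 1) ^ Ds.length ≤ U.length + F.length →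
    ∃ L : List (β × β × β),
      (∀ s ∈ L, StepOK s ∧ (s.1 ∈ Ds ∧ s.2.1 ∈ U ++ F ∧ s.2.2 ∈ U ++ F)) ∧
      ∀ x : β → ℝ, (∀ i, 0 ≤ x i) → (∀ i ∈ F, x i = 0) →
        gain L x = (Ds.map (fun D => min (x D) (m * (U.map x).sum))).sum ∧
        (∀ D ∈ Ds, run L x D = x D - min (x D) (m * (U.map x).sum)) := by
  induction Ds with
  | nil => exact fun U F _ _ => ⟨[], by simp, fun x _ _ => by simp⟩
  | cons D Ds ih =>
    intro U F hN hlen
    have hlen1 : U.length * (m + 1) ≤ U.length + F.length := by
      refine le_trans (Nat.mul_le_mul_left _ ?_) hlen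
      rw [List.length_cons, pow_succ]
      exact Nat.le_mul_of_pos_left _ (by positivity)
    obtain ⟨B, F', b1, b2, b3, b4⟩ := exists_blocks m U F (by rw [Nat.mul_add, mul_one] at hlen1; omega)
    set U' := (B.map (fun b => b.1 :: b.2)).flatten with hU'
    have hperm : (U' ++ F').Perm (U ++ F) := by
      rw [← b3, ← List.append_assoc, ← b1]
      exact List.Perm.append_right _ (blocks_perm B)
    have hlenU' : U'.length = U.length * (m + 1) := by
      have := (blocks_perm B).length_eq
      rw [← hU', List.length_append, b1] at this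
      have h2 : (B.map Prod.snd).flatten.length + F'.length = F.length := by
        rw [← List.length_append, b3]
      rw [this, Nat.mul_add, mul_one]
      omega
    rw [List.cons_append] at hN
    have hDn : D ∉ Ds ++ (U ++ F) := (List.nodup_cons.1 hN).1
    have hN' : (Ds ++ (U' ++ F')).Nodup :=
      ((List.Perm.append_left Ds hperm).nodup_iff).2 (List.nodup_cons.1 hN).2
    have hDU : D ∉ U' := fun h => hDn (List.mem_append_right _
      (hperm.mem_iff.1 (List.mem_append_left _ h)))
    have hU'N : U'.Nodup := (List.nodup_append.1 (List.nodup_append.1 hN').2.1).1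
    have hdis := (List.nodup_append.1 hN').2.2
    obtain ⟨L', l1, l2⟩ := ih U' F' hN' (by
      rw [hlenU']
      rw [List.length_cons, pow_succ] at hlen
      calc U.length * (m + 1) * (m + 1) ^ Ds.length
          = U.length * ((m + 1) ^ Ds.length * (m + 1)) := by ring
        _ ≤ U.length + F.length := hlen
        _ = U.length * (m + 1) + F'.length := by rw [Nat.mul_add, mul_one]; omega)
    refine ⟨stage D (B.map (fun b => b.1 :: b.2)) ++ L', ?_, ?_⟩
    · intro s hs
      rcases List.mem_append.1 hs with hs | hs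
      · obtain ⟨h0, h1, h2, h3⟩ := stage_ok D _ hU'N hDU s hs
        exact ⟨h0, h1 ▸ List.mem_cons_self, hperm.mem_iff.1 (List.mem_append_left _ h2),
          hperm.mem_iff.1 (List.mem_append_left _ h3)⟩
      · obtain ⟨h0, h1, h2, h3⟩ := l1 s hs
        exact ⟨h0, List.mem_cons_of_mem _ h1, hperm.mem_iff.1 h2, hperm.mem_iff.1 h3⟩
    · intro x hx h0
      have h0B : ∀ b ∈ B, ∀ i ∈ b.2, x i = 0 := fun b hb i hi => h0 i (by
        rw [← b3]
        exact List.mem_append_left _ (List.mem_flatten.2 ⟨b.2, List.mem_map.2 ⟨b, hb, rfl⟩, hi⟩))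
      obtain ⟨s1, s2, s3⟩ := stage_spec m D B hU'N hDU b2 x hx h0B
      have hsum : (B.map (fun b => x b.1)).sum = (U.map x).sum := by
        rw [← b1, List.map_map]; rfl
      rw [hsum] at s1 s2 s3
      set x1 := run (stage D (B.map (fun b => b.1 :: b.2))) x with hx1
      have hother : ∀ i, i ≠ D → i ∉ U' → x1 i = x i := by
        intro i hi1 hi2
        refine run_other _ _ _ fun s hs => ?_
        obtain ⟨_, h1, h2, h3⟩ := stage_ok D _ hU'N hDU s hs
        exact ⟨fun h => hi1 (h.trans h1), fun h => hi2 (h ▸ h2), fun h => hi2 (h ▸ h3)⟩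
      have hDsx : ∀ E ∈ Ds, x1 E = x E := fun E hE => hother E
        (fun h => hDn (List.mem_append_left _ (h ▸ hE)))
        (fun h => hdis _ hE _ (List.mem_append_left _ h) rfl)
      have hx1F : ∀ i ∈ F', x1 i = 0 := by
        intro i hi
        rw [hother i (fun h => hDn (List.mem_append_right _ (hperm.mem_iff.1
          (List.mem_append_right _ (h ▸ hi)))))
          (fun h => (List.nodup_append.1 (List.nodup_append.1 hN').2.1).2.2 _ h _ hi rfl)]
        exact h0 i (by rw [← b3]; exact List.mem_append_right _ hi)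
      obtain ⟨g1, g2⟩ := l2 x1 (run_nonneg _ hx) hx1F
      rw [s3] at g1 g2
      refine ⟨?_, ?_⟩
      · rw [gain_append, s1, ← hx1, g1, List.map_cons, List.sum_cons]
        congr 1
        congr 1
        refine List.map_congr_left fun E hE => ?_
        rw [hDsx E hE]
      · intro E hE
        rw [run_append, ← hx1]
        rcases List.mem_cons.1 hE with rfl | hE
        · rw [run_other, s2]
          intro s hs
          obtain ⟨_, h1, h2, h3⟩ := l1 s hs
          refine ⟨fun h => hDn (List.mem_append_left _ (h ▸ h1)), fun h => ?_, fun h => ?_⟩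
          · exact hDn (List.mem_append_right _ (hperm.mem_iff.1 (h ▸ h2)))
          · exact hDn (List.mem_append_right _ (hperm.mem_iff.1 (h ▸ h3)))
        · rw [g2 E hE, hDsx E hE]

end Pool.Agent.Lib.MP_17a322_nt.EQ
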