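import Pool.Agent.Lib.MP_17a322_nt.EQ.G0

/-!
Vojta's conjecture and its case `D = 0`: sums over places.
-/

set_option linter.unusedSectionVars false

universe u

namespace Pool.Agent.Lib.MP_17a322_nt.EQ

open MvPolynomial Height NumberField

section

variable {K : Type u} [Field K] [NumberField K]

theorem FS.add {F G : Pl K → ℝ} (hF : FS F) (hG : FS G) : FS fun v => F v + G v := by
  refine (hF.union hG).subset ?_
  intro w hw
  by_contra h
  simp only [Set.mem_union, Set.mem_ofPred_eq, not_or, not_not] at h hw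
  exact hw (by rw [h.1, h.2, add_zero])

theorem FS.mul_left {F : Pl K → ℝ} (hF : FS F) (G : Pl K → ℝ) : FS fun v => G v * F v := by
  refine hF.subset ?_
  intro w hw
  simp only [Set.mem_ofPred_eq] at hw ⊢
  exact fun h => hw (by rw [h, mul_zero])

/-- The sum over all places is additive. -/
theorem psum_add {F G : Pl K → ℝ} (hF : FS F) (hG : FS G) :
    psum (fun v => F v + G v) = psum F + psum G := by
  have h1 : ∑ᶠ w : FinitePlace K, (F (Sum.inr w) + G (Sum.inr w)) =
      ∑ᶠ w : FinitePlace K, F (Sum.inr w) + ∑ᶠ w : FinitePlace K, G (Sum.inr w) :=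
    finsum_add_distrib hF hG
  have h2 : ∑ w : InfinitePlace K, (w.mult : ℝ) * (F (Sum.inl w) + G (Sum.inl w)) =
      (∑ w : InfinitePlace K, (w.mult : ℝ) * F (Sum.inl w)) +
        ∑ w : InfinitePlace K, (w.mult : ℝ) * G (Sum.inl w) := by
    rw [← Finset.sum_add_distrib]
    exact Finset.sum_congr rfl fun w _ => mul_add _ _ _
  unfold psum
  rw [h1, h2]
  ring

/-- The sum over all places is homogeneous. -/
theorem psum_mul (c : ℝ) (F : Pl K → ℝ) : psum (fun v => c * F v) = c * psum F := by
  have h1 : ∑ᶠ w : FinitePlace K, c * F (Sum.inr w) = c * ∑ᶠ w : FinitePlace K, F (Sum.inr w) := by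
    have := smul_finsum c fun w : FinitePlace K => F (Sum.inr w)
    simpa only [smul_eq_mul] using this.symm
  unfold psum
  rw [h1, mul_add, Finset.mul_sum]
  congr 1
  exact Finset.sum_congr rfl fun w _ => by ring

/-- The sum over all places is monotone. -/
theorem psum_le {F G : Pl K → ℝ} (hF : FS F) (hG : FS G) (h : ∀ v, F v ≤ G v) :
    psum F ≤ psum G := by
  unfold psum
  refine add_le_add (Finset.sum_le_sum fun w _ => mul_le_mul_of_nonneg_left (h _) (Nat.cast_nonneg _)) ?_
  exact finsum_le_finsum' hF hG fun w => h _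

end

end Pool.Agent.Lib.MP_17a322_nt.EQ
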