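import Pool.Agent.Lib.MP_17a322_nt.EQ.Int

/-!
Sums over all places of a number field.
-/

set_option autoImplicit false

universe u

namespace Pool.Agent.Lib.MP_17a322_nt.EQ

open MvPolynomial Height NumberField

variable {K : Type u} [Field K] [NumberField K]

theorem hs_fs_of {α : Type*} [Finite α] (F : α → Pl K → ℝ) (hF : ∀ a, FS (F a)) (G : Pl K → ℝ)
    (h : ∀ w : FinitePlace K, (∀ a, F a (Sum.inr w) = 0) → G (Sum.inr w) = 0) : FS G := by
  refine (Set.finite_iUnion hF).subset fun w hw => ?_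
  by_contra hc
  simp only [Set.mem_iUnion, Set.mem_ofPred_eq, not_exists, not_not] at hc
  exact hw (h w hc)

theorem hs_fs_of1 {F : Pl K → ℝ} (hF : FS F) (G : Pl K → ℝ)
    (h : ∀ w : FinitePlace K, F (Sum.inr w) = 0 → G (Sum.inr w) = 0) : FS G :=
  hs_fs_of (fun _ : Unit => F) (fun _ => hF) G fun w hw => h w (hw ())

theorem hs_fs_of2 {F F' : Pl K → ℝ} (hF : FS F) (hF' : FS F') (G : Pl K → ℝ)
    (h : ∀ w : FinitePlace K, F (Sum.inr w) = 0 → F' (Sum.inr w) = 0 → G (Sum.inr w) = 0) : FS G :=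
  hs_fs_of (fun b : Bool => if b then F else F') (fun b => by cases b <;> simpa) G
    fun w hw => h w (by simpa using hw true) (by simpa using hw false)

theorem hs_add {F G : Pl K → ℝ} (hF : FS F) (hG : FS G) :
    psum (fun v => F v + G v) = psum F + psum G := by
  unfold psum
  rw [finsum_add_distrib hF hG]
  simp only [mul_add, Finset.sum_add_distrib]
  ring

theorem hs_fs_add {F G : Pl K → ℝ} (hF : FS F) (hG : FS G) : FS (fun v => F v + G v) :=
  hs_fs_of2 hF hG _ fun w h1 h2 => by simp [h1, h2]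

theorem hs_mul (c : ℝ) (F : Pl K → ℝ) : psum (fun v => c * F v) = c * psum F := by
  unfold psum
  rw [mul_add, Finset.mul_sum]
  congr 1
  · exact Finset.sum_congr rfl fun w _ => by ring
  · simpa only [smul_eq_mul] using (smul_finsum c fun w : FinitePlace K => F (Sum.inr w)).symm

theorem hs_fs_mul (c : ℝ) {F : Pl K → ℝ} (hF : FS F) : FS (fun v => c * F v) :=
  hs_fs_of1 hF _ fun w h => by simp [h]

theorem hs_zero : psum (fun _ : Pl K => (0 : ℝ)) = 0 := by
  simp [psum]

theorem hs_fs_zero : FS (fun _ : Pl K => (0 : ℝ)) := by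
  simp [FS]

theorem hs_sum {α : Type*} (s : Finset α) (F : α → Pl K → ℝ) (hF : ∀ a ∈ s, FS (F a)) :
    psum (fun v => ∑ a ∈ s, F a v) = ∑ a ∈ s, psum (F a) := by
  classical
  induction s using Finset.induction_on with
  | empty => simpa using hs_zero
  | insert a s ha ih =>
    have h1 : FS (fun v => ∑ a ∈ s, F a v) :=
      hs_fs_of (fun b : s => F b.1) (fun b => hF _ (Finset.mem_insert_of_mem b.2)) _
        fun w hw => Finset.sum_eq_zero fun b hb => hw ⟨b, hb⟩
    rw [Finset.sum_insert ha, ← ih fun b hb => hF b (Finset.mem_insert_of_mem hb),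
      ← hs_add (hF a (Finset.mem_insert_self _ _)) h1]
    simp only [Finset.sum_insert ha]

theorem hs_fs_sum {α : Type*} (s : Finset α) (F : α → Pl K → ℝ) (hF : ∀ a ∈ s, FS (F a)) :
    FS (fun v => ∑ a ∈ s, F a v) :=
  hs_fs_of (fun b : s => F b.1) (fun b => hF _ b.2) _
    fun w hw => Finset.sum_eq_zero fun b hb => hw ⟨b, hb⟩

theorem hs_mono {F G : Pl K → ℝ} (hF : FS F) (hG : FS G) (h : ∀ v, F v ≤ G v) :
    psum F ≤ psum G := by
  unfold psum
  refine add_le_add (Finset.sum_le_sum fun w _ =>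
    mul_le_mul_of_nonneg_left (h _) (Nat.cast_nonneg _)) ?_
  exact finsum_le_finsum' hF hG fun _ => h _

theorem hs_nonneg {F : Pl K → ℝ} (h : ∀ v, 0 ≤ F v) : 0 ≤ psum F := by
  unfold psum
  exact add_nonneg (Finset.sum_nonneg fun w _ => mul_nonneg (Nat.cast_nonneg _) (h _))
    (finsum_nonneg fun w => h _)

/-- The infinite places and the places of `S`. -/
def inS (S : Finset (FinitePlace K)) : Pl K → Prop
  | Sum.inl _ => True
  | Sum.inr w => w ∈ S

open Classical in
theorem hs_ind (S : Finset (FinitePlace K)) (F : Pl K → ℝ) :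
    psum (fun v => if inS S v then F v else 0)
      = (∑ w : InfinitePlace K, (w.mult : ℝ) * F (Sum.inl w)) + ∑ w ∈ S, F (Sum.inr w) := by
  unfold psum
  simp only [inS, if_true]
  congr 1
  rw [finsum_eq_sum_of_support_subset (s := S) _ (fun w hw => by
    by_contra h
    exact hw (if_neg h))]
  exact Finset.sum_congr rfl fun w hw => if_pos hw

open Classical in
theorem hs_fs_ind (S : Finset (FinitePlace K)) (F : Pl K → ℝ) :
    FS (fun v => if inS S v then F v else 0) := by
  refine S.finite_toSet.subset fun w hw => ?_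
  by_contra h
  exact hw (if_neg h)

end Pool.Agent.Lib.MP_17a322_nt.EQ
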