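import Pool.Agent.Lib.MP_17a322_nt.EQ.Q1
import Pool.Agent.Lib.MP_17a322_nt.EQ.F2

/-!
Lower bounds and integrality of local heights.
-/

set_option autoImplicit false

universe u

namespace Pool.Agent.Lib.MP_17a322_nt.EQ

open MvPolynomial Height NumberField

variable {K : Type u} [Field K] [NumberField K]

theorem hb_poly {ι : Type} [Finite ι] (e : ℕ) (F : MvPolynomial ι K) (hF : F.IsHomogeneous e) :
    ∃ c : Pl K → ℝ, (∀ v, 0 ≤ c v) ∧ FS c ∧
      ∀ (v : Pl K) (q : ι → K), av v (eval q F) ≤ Real.exp (c v) * (⨆ i, av v (q i)) ^ e := by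
  set c : Pl K → ℝ := fun v => match v with
    | Sum.inl w => Real.log (max 1 ((AddMonoidAlgebra.coeff F).sum (fun _ c ↦ w.val c)))
    | Sum.inr w => Real.log (max 1 (⨆ s : F.support, w.val (coeff s F))) with hc
  refine ⟨c, ?_, ?_, ?_⟩
  · rintro (w | w)
    · exact Real.log_nonneg (le_max_left _ _)
    · exact Real.log_nonneg (le_max_left _ _)
  · refine hs_fs_of (α := F.support) (fun s v => Real.log (av v (coeff s.1 F)))
      (fun s => hl_fs_abs (mem_support_iff.1 s.2)) _ fun w hw => ?_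
    have h1 : (⨆ s : F.support, w.val (coeff s F)) ≤ 1 := by
      refine Real.iSup_le (fun s => ?_) zero_le_one
      have h := hw s
      simp only [av] at h
      rcases Real.log_eq_zero.1 h with h0 | h0 | h0
      · rw [h0]; exact zero_le_one
      · rw [h0]
      · have := w.val.nonneg (coeff s.1 F)
        rw [h0] at this
        linarith
    change Real.log (max 1 (⨆ s : F.support, w.val (coeff s F))) = 0
    rw [max_eq_left h1, Real.log_one]
  · rintro (w | w) q
    · refine (AbsoluteValue.eval_mvPolynomial_le w.val hF q).trans ?_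
      refine mul_le_mul_of_nonneg_right ?_ (pow_nonneg (Real.iSup_nonneg fun i =>
        apply_nonneg w.val _) _)
      change _ ≤ Real.exp (Real.log _)
      rw [Real.exp_log (lt_of_lt_of_le one_pos (le_max_left _ _))]
      exact le_max_right _ _
    · have hna : IsNonarchimedean w.val := FinitePlace.add_le w
      refine (IsNonarchimedean.eval_mvPolynomial_le hna hF q).trans ?_
      refine mul_le_mul_of_nonneg_right ?_ (pow_nonneg (Real.iSup_nonneg fun i =>
        apply_nonneg w.val _) _)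
      change _ ≤ Real.exp (Real.log _)
      rw [Real.exp_log (lt_of_lt_of_le one_pos (le_max_left _ _))]
      exact le_max_right _ _

/-- Local heights are bounded below. -/
theorem hb_lower {ι κ β : Type} [Finite ι] [Fintype κ] [Fintype β] (e : ℕ)
    (f : β → κ → MvPolynomial ι K) (hf : ∀ b j, (f b j).IsHomogeneous e) :
    ∃ c : Pl K → ℝ, (∀ v, 0 ≤ c v) ∧ FS c ∧ ∀ (q : ι → K) (b : β), q ≠ 0 →
      (∃ j, eval q (f b j) ≠ 0) → ∀ v, -c v ≤ lam (av v) e (f b) q := by
  choose c h0 h1 h2 using fun z : β × κ => hb_poly e (f z.1 z.2) (hf z.1 z.2)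
  refine ⟨fun v => ∑ z, c z v, fun v => Finset.sum_nonneg fun z _ => h0 z v,
    hs_fs_sum _ _ fun z _ => h1 z, ?_⟩
  intro q b hq hg v
  have hg' : (fun j => eval q (f b j)) ≠ 0 := by
    obtain ⟨j, hj⟩ := hg
    exact fun h => hj (congrFun h j)
  obtain ⟨j, hj, hs⟩ := hl_attained (av v) hg'
  have hp := hl_pos (av v) hq
  have hpos : 0 < av v (eval q (f b j)) := (av v).pos hj
  have h3 : Real.log (⨆ j, av v (eval q (f b j))) ≤ c (b, j) v + e * Real.log (⨆ i, av v (q i)) := by
    rw [hs]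
    have := Real.log_le_log hpos (h2 (b, j) v q)
    rw [Real.log_mul (Real.exp_pos _).ne' (pow_pos hp _).ne', Real.log_exp, Real.log_pow] at this
    exact this
  have h4 : c (b, j) v ≤ ∑ z, c z v :=
    Finset.single_le_sum (f := fun z => c z v) (fun z _ => h0 z v) (Finset.mem_univ _)
  simp only [lam]
  linarith

/-- The absolute value of a nonzero element at a finite place is a power of the norm. -/
theorem hb_zpow (w : FinitePlace K) {x : K} (hx : x ≠ 0) : ∃ k : ℤ, w.val x = qv w ^ k := by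
  have hint : ∀ {y : 𝓞 K}, y ≠ 0 → ∃ m : ℕ, w (y : K) = ((qv w) ^ m)⁻¹ := by
    intro y hy
    have h := FinitePlace.apply_mul_absNorm_pow_eq_one w hy
    exact ⟨_, eq_inv_of_mul_eq_one_left h⟩
  obtain ⟨a, b, hb, rfl⟩ := IsFractionRing.div_surjective (𝓞 K) x
  have hb0 : b ≠ 0 := nonZeroDivisors.ne_zero hb
  have ha0 : a ≠ 0 := by
    rintro rfl
    simp at hx
  obtain ⟨m, hm⟩ := hint ha0
  obtain ⟨n, hn⟩ := hint hb0
  refine ⟨(n : ℤ) - m, ?_⟩
  have hq : qv w ≠ 0 := (lt_trans one_pos (one_lt_qv w)).ne'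
  change w (algebraMap (𝓞 K) K a / algebraMap (𝓞 K) K b) = _
  rw [map_div₀]
  change w (a : K) / w (b : K) = _
  rw [hm, hn, zpow_sub₀ hq, zpow_natCast, zpow_natCast]
  field_simp

/-- Positive local heights are at least `log q_v`. -/
theorem hb_int {ι κ : Type} [Finite ι] [Finite κ] (e : ℕ) (g : κ → MvPolynomial ι K)
    (w : FinitePlace K) {q : ι → K} (hq : q ≠ 0) (hg : ∃ j, eval q (g j) ≠ 0)
    (h : 0 < lam w.val e g q) : Real.log (qv w) ≤ lam w.val e g q := by
  have hg' : (fun j => eval q (g j)) ≠ 0 := by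
    obtain ⟨j, hj⟩ := hg
    exact fun h => hj (congrFun h j)
  obtain ⟨i, hi, hi'⟩ := hl_attained w.val hq
  obtain ⟨j, hj, hj'⟩ := hl_attained w.val hg'
  obtain ⟨k, hk⟩ := hb_zpow w hi
  obtain ⟨l, hl⟩ := hb_zpow w hj
  have hlog : 0 < Real.log (qv w) := Real.log_pos (one_lt_qv w)
  have h1 : lam w.val e g q = ((e * k - l : ℤ) : ℝ) * Real.log (qv w) := by
    unfold lam
    rw [hi', hj', hk, hl, Real.log_zpow, Real.log_zpow]
    push_cast
    ring
  rw [h1] at h ⊢
  have h2 : (0 : ℝ) < ((e * k - l : ℤ) : ℝ) := by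
    by_contra hc
    push Not at hc
    exact absurd h (not_lt.2 (mul_nonpos_of_nonpos_of_nonneg hc hlog.le))
  have h3 : (1 : ℤ) ≤ e * k - l := by exact_mod_cast h2
  have h4 : (1 : ℝ) ≤ ((e * k - l : ℤ) : ℝ) := by exact_mod_cast h3
  nlinarith

end Pool.Agent.Lib.MP_17a322_nt.EQ
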