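import Pool.Agent.Lib.MP_17a322_nt.EQ.Q3
import Pool.Agent.Lib.MP_17a322_nt.EQ.N2

/-!
The list of blow-ups for the divisors with the labels in `β`, and its effect at one place.
-/

set_option autoImplicit false

universe u

namespace Pool.Agent.Lib.MP_17a322_nt.EQ

open MvPolynomial Height NumberField

theorem hg_stp_zero {β : Type} [DecidableEq β] (s : β × β × β) : stp s (0 : β → ℝ) = 0 := by
  funext i
  simp only [stp, Pi.zero_apply, min_self, sub_zero]
  split_ifs <;> rfl

theorem hg_run_zero {β : Type} [DecidableEq β] (l : List (β × β × β)) :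
    run l (0 : β → ℝ) = 0 := by
  induction l with
  | nil => rfl
  | cons s l ih => rw [run_cons, hg_stp_zero, ih]

theorem hg_gain_zero {β : Type} [DecidableEq β] (l : List (β × β × β)) :
    gain l (0 : β → ℝ) = 0 := by
  induction l with
  | nil => rfl
  | cons s l ih => rw [gain_cons, hg_stp_zero, ih]; simp

/-- The list of steps. -/
theorem hg_exists (β : Type) [Fintype β] [DecidableEq β] (m : ℕ) :
    ∃ (N : ℕ) (L : List ((β ⊕ Bool ⊕ Fin N) × (β ⊕ Bool ⊕ Fin N) × (β ⊕ Bool ⊕ Fin N))),
      (∀ s ∈ L, s.1 ≠ s.2.1 ∧ s.1 ≠ s.2.2 ∧ s.2.1 ≠ s.2.2) ∧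
      ∀ (x : β ⊕ Bool ⊕ Fin N → ℝ) (c : ℝ), 0 ≤ c → (∀ b, -c ≤ x (Sum.inl b)) →
        (∀ j, 0 ≤ x (Sum.inr (Sum.inl j))) → (∀ i, x (Sum.inr (Sum.inr i)) = 0) →
        (∑ b, min (max (x (Sum.inl b)) 0) (m * x (Sum.inr (Sum.inl false)))) - 2 ^ L.length * c
          ≤ gain L x ∧
        (∀ b, max (x (Sum.inl b)) 0
          - min (max (x (Sum.inl b)) 0) (m * x (Sum.inr (Sum.inl false))) - 2 ^ L.length * c
          ≤ run L x (Sum.inl b)) ∧
        run L x (Sum.inr (Sum.inl true)) = x (Sum.inr (Sum.inl true)) := by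
  set N : ℕ := (m + 1) ^ Fintype.card β with hN
  set Ds : List (β ⊕ Bool ⊕ Fin N) := (Finset.univ : Finset β).toList.map Sum.inl with hDs
  set U : List (β ⊕ Bool ⊕ Fin N) := [Sum.inr (Sum.inl false)] with hU
  set F : List (β ⊕ Bool ⊕ Fin N) := (List.finRange N).map (fun i => Sum.inr (Sum.inr i)) with hF
  have hDsN : Ds.Nodup := (Finset.nodup_toList _).map Sum.inl_injective
  have hFN : F.Nodup := (List.nodup_finRange N).map fun a b h => by simpa using h
  have hnod : (Ds ++ (U ++ F)).Nodup := by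
    rw [List.nodup_append]
    refine ⟨hDsN, ?_, ?_⟩
    · rw [List.nodup_append]
      refine ⟨by simp [hU], hFN, ?_⟩
      intro a ha b hb h
      rw [hU, List.mem_singleton] at ha
      rw [hF, List.mem_map] at hb
      obtain ⟨i, -, rfl⟩ := hb
      rw [ha] at h
      simp at h
    · intro a ha b hb h
      rw [hDs, List.mem_map] at ha
      obtain ⟨a', -, rfl⟩ := ha
      rcases List.mem_append.1 hb with hb | hb
      · rw [hU, List.mem_singleton] at hb
        rw [hb] at h
        simp at h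
      · rw [hF, List.mem_map] at hb
        obtain ⟨i, -, rfl⟩ := hb
        simp at h
  have hlen : U.length * (m + 1) ^ Ds.length ≤ U.length + F.length := by
    simp [hU, hF, hDs, hN]
  obtain ⟨L, hL, hspec⟩ := exists_grid m Ds U F hnod hlen
  refine ⟨N, L, fun s hs => (hL s hs).1, ?_⟩
  intro x c hc hb hT hγ
  set y : β ⊕ Bool ⊕ Fin N → ℝ := fun i => max (x i) 0 with hy
  have hxy : ∀ i, |x i - y i| ≤ c := by
    rintro (b | j | i)
    · simp only [hy]
      rcases le_total 0 (x (Sum.inl b)) with h | h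
      · rw [max_eq_left h, sub_self, abs_zero]; exact hc
      · rw [max_eq_right h, sub_zero, abs_of_nonpos h]
        linarith [hb b]
    · simp only [hy]
      rw [max_eq_left (hT j), sub_self, abs_zero]; exact hc
    · simp only [hy]
      rw [hγ i, max_self, sub_self, abs_zero]; exact hc
  have hy0 : ∀ i, 0 ≤ y i := fun i => le_max_right _ _
  have hyF : ∀ i ∈ F, y i = 0 := by
    intro i hi
    rw [hF, List.mem_map] at hi
    obtain ⟨k, -, rfl⟩ := hi
    simp only [hy]
    rw [hγ k, max_self]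
  obtain ⟨g1, g2⟩ := hspec y hy0 hyF
  have hUx : (U.map y).sum = x (Sum.inr (Sum.inl false)) := by
    simp only [hU, List.map_cons, List.map_nil, List.sum_cons, List.sum_nil, add_zero, hy]
    exact max_eq_left (hT false)
  have hsum : (Ds.map (fun D => min (y D) (m * (U.map y).sum))).sum
      = ∑ b, min (max (x (Sum.inl b)) 0) (m * x (Sum.inr (Sum.inl false))) := by
    rw [hUx, hDs, List.map_map, Finset.sum_map_toList]
    rfl
  rw [hsum] at g1
  have hg := gain_lip L hc hxy
  rw [g1, abs_le] at hg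
  refine ⟨by linarith [hg.1], fun b => ?_, ?_⟩
  · have hr := run_lip L hxy (Sum.inl b)
    have hmem : Sum.inl b ∈ Ds := by
      rw [hDs]
      exact List.mem_map.2 ⟨b, Finset.mem_toList.2 (Finset.mem_univ b), rfl⟩
    rw [g2 _ hmem, hUx, abs_le] at hr
    simp only [hy] at hr
    linarith [hr.1]
  · refine run_other L x _ fun s hs => ?_
    obtain ⟨-, h1, h2, h3⟩ := hL s hs
    have hnot1 : Sum.inr (Sum.inl true) ∉ Ds := by
      rw [hDs]
      intro h
      obtain ⟨b, -, hb⟩ := List.mem_map.1 h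
      simp at hb
    have hnot2 : Sum.inr (Sum.inl true) ∉ U ++ F := by
      intro h
      rcases List.mem_append.1 h with h | h
      · rw [hU, List.mem_singleton] at h
        simp at h
      · rw [hF] at h
        obtain ⟨b, -, hb⟩ := List.mem_map.1 h
        simp at hb
    exact ⟨fun h => hnot1 (h ▸ h1), fun h => hnot2 (h ▸ h2), fun h => hnot2 (h ▸ h3)⟩

variable {K : Type u} [Field K] [NumberField K]

/-- The local heights of a point of the product vanish at almost all places. -/
theorem hg_fs_xh {ι κ β : Type} [Finite ι] [Finite κ] (γ : Type) (e : ℕ)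
    (f : β → κ → MvPolynomial ι K) {q : ι → K} (hq : q ≠ 0)
    (hoff : ∀ b, ∃ j, eval q (f b j) ≠ 0) {t : K} (ht : t ≠ 0) (a : β ⊕ Bool ⊕ γ) :
    FS fun v => xh γ e f q t v a := by
  rcases a with b | j | i
  · exact hl_fs_lam e (f b) hq (hoff b)
  · cases j
    · exact hs_fs_of2 (hl_fs_l1 t) (hl_fs_abs ht) _ fun w h1 h2 => by
        simp [xh, h1, h2]
    · exact hs_fs_of1 (hl_fs_l1 t) _ fun w h1 => by simp [xh, h1]
  · exact hs_fs_of1 hs_fs_zero _ fun w _ => by simp [xh]

end Pool.Agent.Lib.MP_17a322_nt.EQ
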