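import Pool.Agent.Lib.MP_17a322_nt.EQ.Q6

/-!
The easy implications, and the final theorem.
-/

set_option autoImplicit false

universe u

namespace Pool.Agent.Lib.MP_17a322_nt.EQ

open MvPolynomial Height NumberField

section

variable {K : Type u} [Field K] [NumberField K]

/-- The inequality with truncated counting functions implies Vojta's inequality. -/
theorem trunc_to_vojta {ι β κ : Type} [Fintype ι] [Fintype β] [Fintype κ]
    (J : Ideal (MvPolynomial ι K)) (e : ℕ) (f : β → κ → MvPolynomial ι K)
    (hf : ∀ b j, (f b j).IsHomogeneous e) (H : TruncAt J e f) : VojtaAt J e f := by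
  classical
  intro S ε hε
  obtain ⟨G, C, hG, hGh, hmain⟩ := H S ε hε
  obtain ⟨c, hc0, hcfs, hclow⟩ := hb_lower e f hf
  set q : ℝ := (Fintype.card β : ℝ) with hq
  refine ⟨G, C + q * psum c, hG, hGh, fun p hp hGp => ?_⟩
  obtain ⟨hoff, h1⟩ := hmain p hp hGp
  refine ⟨hoff, ?_⟩
  have hp0 : p ≠ 0 := hp.1
  have hlow : ∀ b v, -c v ≤ prf e f p v b := fun b v => hclow p b hp0 (hoff b) v
  set T : Finset (FinitePlace K) := (ht_finite S e f hp0 hoff).toFinset with hT
  have hTr : trunc S e f p = ∑ w ∈ T, Real.log (qv w) := ht_trunc S e f hp0 hoff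
  set tr : Pl K → ℝ := fun v => match v with
    | Sum.inl _ => 0
    | Sum.inr w => if w ∈ T then Real.log (qv w) else 0 with htr
  have hfst : FS tr := by
    refine T.finite_toSet.subset fun w hw => ?_
    by_contra h
    exact hw (if_neg h)
  have hps : psum tr = ∑ w ∈ T, Real.log (qv w) := by
    unfold psum
    have e1 : ∑ w : InfinitePlace K, (w.mult : ℝ) * tr (Sum.inl w) = 0 :=
      Finset.sum_eq_zero fun w _ => mul_zero _
    rw [e1, zero_add, finsum_eq_sum_of_support_subset (s := T) _ (fun w hw => by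
      by_contra h
      exact hw (if_neg h))]
    exact Finset.sum_congr rfl fun w hw => if_pos hw
  have hsum : ∀ v, 0 ≤ (∑ b, prf e f p v b) + q * c v := by
    intro v
    have h2 : ∑ b, (prf e f p v b + c v) = (∑ b, prf e f p v b) + q * c v := by
      rw [Finset.sum_add_distrib, Finset.sum_const, Finset.card_univ, nsmul_eq_mul]
    rw [← h2]
    exact Finset.sum_nonneg fun b _ => by linarith [hlow b v]
  have hpt : ∀ v : Pl K, (if inS S v then ∑ b, prf e f p v b else 0) + (tr v + (-q) * c v)
      ≤ ∑ b, prf e f p v b := by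
    intro v
    have hqc : 0 ≤ q * c v := mul_nonneg (Nat.cast_nonneg _) (hc0 v)
    by_cases hv : inS S v
    · have h2 : tr v = 0 := by
        rcases v with w | w
        · rfl
        · refine if_neg fun h => ?_
          rw [hT, Set.Finite.mem_toFinset] at h
          exact h.1 hv
      rw [if_pos hv, h2]
      linarith
    · rcases v with w | w
      · exact absurd trivial hv
      rw [if_neg hv]
      by_cases hw : w ∈ T
      · have h2 : tr (Sum.inr w) = Real.log (qv w) := if_pos hw
        rw [hT, Set.Finite.mem_toFinset] at hw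
        obtain ⟨-, b, hb⟩ := hw
        have h3 := hb_int e (f b) w hp0 (hoff b) hb
        have h4 : ∑ b, (prf e f p (Sum.inr w) b + c (Sum.inr w))
            = (∑ b, prf e f p (Sum.inr w) b) + q * c (Sum.inr w) := by
          rw [Finset.sum_add_distrib, Finset.sum_const, Finset.card_univ, nsmul_eq_mul]
        have h5 : prf e f p (Sum.inr w) b + c (Sum.inr w)
            ≤ ∑ b, (prf e f p (Sum.inr w) b + c (Sum.inr w)) :=
          Finset.single_le_sum (f := fun b => prf e f p (Sum.inr w) b + c (Sum.inr w))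
            (fun b _ => by linarith [hlow b (Sum.inr w)]) (Finset.mem_univ b)
        have h6 : prf e f p (Sum.inr w) b = lam w.val e (f b) p := rfl
        rw [h2]
        linarith [hc0 (Sum.inr w)]
      · have h2 : tr (Sum.inr w) = 0 := if_neg hw
        rw [h2]
        linarith [hsum (Sum.inr w)]
  have hfs1 : FS (fun v : Pl K => if inS S v then ∑ b, prf e f p v b else 0) :=
    hs_fs_ind S fun v => ∑ b, prf e f p v b
  have hfs2 : FS (fun v : Pl K => (-q) * c v) := hs_fs_mul _ hcfs
  have hfs3 : FS (fun v : Pl K => ∑ b, prf e f p v b) :=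
    hs_fs_sum _ _ fun b _ => hl_fs_lam e (f b) hp0 (hoff b)
  have h2 := hs_mono (hs_fs_add hfs1 (hs_fs_add hfst hfs2)) hfs3 hpt
  rw [hs_add hfs1 (hs_fs_add hfst hfs2), hs_add hfst hfs2, hs_mul, hps, ← hTr,
    hz_prox S e f p] at h2
  have h3 : psum (fun v => ∑ b, prf e f p v b)
      = ∑ b, (e * logHeight p - logHeight fun j => eval p (f b j)) := by
    rw [hs_sum Finset.univ (fun b v => prf e f p v b)
      fun b _ => hl_fs_lam e (f b) hp0 (hoff b)]
    exact Finset.sum_congr rfl fun b _ => hl_psum_lam e (f b) hp0 (hoff b)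
  rw [h3] at h2
  linarith

/-- Vojta's inequality for the empty list of divisors. -/
theorem vojta_to_zero {ι β κ : Type} [Fintype ι] [Fintype β] [IsEmpty β] [Fintype κ]
    (J : Ideal (MvPolynomial ι K)) (e : ℕ) (f : β → κ → MvPolynomial ι K) (H : VojtaAt J e f) :
    ZeroAt J := by
  intro ε hε
  obtain ⟨G, C, hG, hGh, hmain⟩ := H ∅ ε hε
  refine ⟨G, C, hG, hGh, fun p hp hGp => ?_⟩
  have := (hmain p hp hGp).2
  rwa [Finset.univ_eq_empty, Finset.sum_empty, zero_add] at this

end

section

variable {K : Type u} [Field K] {ι κ β : Type} [Fintype ι]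

theorem hz_snc_empty [IsEmpty β] (J : Ideal (MvPolynomial ι K)) (f : β → κ → MvPolynomial ι K) :
    Snc J 1 f where
  pos := one_pos
  homog := fun b => isEmptyElim b
  trans := fun _ _ _ _ _ => ⟨fun b => isEmptyElim b, fun b => isEmptyElim b,
    linearIndependent_empty_type⟩

theorem hz_cls_true : Cls (K := K) fun _ _ => True where
  blow := fun _ _ _ _ _ _ _ => trivial
  prod := fun _ _ _ => trivial

end

/-- The theorem. -/
theorem hz_main (K : Type u) [Field K] [NumberField K] (n : ℕ) :
    (VojtaZero K (n + 1) → Vojta K n) ∧ (Vojta K (n + 1) → VojtaTrunc K n) ∧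
      (VojtaTrunc K n → Vojta K n) ∧ (Vojta K n → VojtaZero K n) := by
  refine ⟨fun H ι β κ _ _ _ J e f hJ hf => ?_, fun H ι β κ _ _ _ J e f hJ hf => ?_,
    fun H ι β κ _ _ _ J e f hJ hf => ?_, fun H ι _ J hJ => ?_⟩
  · exact zero_to_vojta hz_cls_true n (fun ι _ J _ hJ => H ι J hJ) ι β κ J e f trivial hJ hf
  · exact vojta_to_trunc hz_cls_true n (fun ι β κ _ _ _ J e f _ hJ hf => H ι β κ J e f hJ hf)
      ι β κ J e f trivial hJ hf
  · exact trunc_to_vojta J e f hf.homog (H ι β κ J e f hJ hf)
  · exact vojta_to_zero J 1 (fun (b : Empty) (_ : Unit) => b.elim)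
      (H ι Empty Unit J 1 _ hJ (hz_snc_empty J _))

end Pool.Agent.Lib.MP_17a322_nt.EQ
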